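import Pool.Agent.Lib_MP_f1937f_jc.Ctrs

/-!
# The matrices of the outcomes
-/

set_option autoImplicit false

namespace Pool.Agent.JC

open Finset Pool.Agent.TB Pool.Agent.JB Pool.Agent.JD

/-- lemma: `Lv` and the form `c + s B` -/
private theorem lv_iff_mats (s : ℕ) (A : Mz) : Lv s A ↔ ∃ (c : ℤ) (B : Mz), A = c • (1 : Mz) + (s : ℤ) • B := by
  have key : ∀ (c : ℤ) (B : Mz) (i j : Fin 2), (c • (1 : Mz) + (s : ℤ) • B) i j = c * (1 : Mz) i j + s * B i j := by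
    intro c B i j
    rw [Matrix.add_apply, Matrix.smul_apply, Matrix.smul_apply, smul_eq_mul, smul_eq_mul]
  have o00 : (1 : Mz) 0 0 = 1 := rfl
  have o01 : (1 : Mz) 0 1 = 0 := rfl
  have o10 : (1 : Mz) 1 0 = 0 := rfl
  have o11 : (1 : Mz) 1 1 = 1 := rfl
  constructor
  · rintro ⟨⟨x, hx⟩, ⟨y, hy⟩, ⟨z, hz⟩⟩
    refine ⟨A 1 1, !![z, x; y, 0], ?_⟩
    ext i j
    rw [key]
    fin_cases i <;> fin_cases j
    · show A 0 0 = A 1 1 * (1 : Mz) 0 0 + s * z
      rw [o00]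
      linarith
    · show A 0 1 = A 1 1 * (1 : Mz) 0 1 + s * x
      rw [o01]
      linarith
    · show A 1 0 = A 1 1 * (1 : Mz) 1 0 + s * y
      rw [o10]
      linarith
    · show A 1 1 = A 1 1 * (1 : Mz) 1 1 + s * 0
      rw [o11]
      ring
  · rintro ⟨c, B, rfl⟩
    refine ⟨⟨B 0 1, ?_⟩, ⟨B 1 0, ?_⟩, ⟨B 0 0 - B 1 1, ?_⟩⟩
    · rw [key, o01]
      ring
    · rw [key, o10]
      ring
    · rw [key, key, o00, o11]
      ring

private theorem inv_mul_mats (σ : Matrix.SpecialLinearGroup (Fin 2) ℤ) : (σ⁻¹).val * σ.val = 1 := by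
  have h : (σ⁻¹ * σ).val = (1 : Matrix.SpecialLinearGroup (Fin 2) ℤ).val := by rw [inv_mul_cancel]
  exact h

private theorem mul_inv_mats (σ : Matrix.SpecialLinearGroup (Fin 2) ℤ) : σ.val * (σ⁻¹).val = 1 := by
  have h : (σ * σ⁻¹).val = (1 : Matrix.SpecialLinearGroup (Fin 2) ℤ).val := by rw [mul_inv_cancel]
  exact h

private theorem lv_conj_mats (s : ℕ) (A : Mz) (σ : Matrix.SpecialLinearGroup (Fin 2) ℤ) (h : Lv s A) :
    Lv s (σ.val * A * (σ⁻¹).val) := by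
  rw [lv_iff_mats] at h ⊢
  obtain ⟨c, B, rfl⟩ := h
  refine ⟨c, σ.val * B * (σ⁻¹).val, ?_⟩
  rw [mul_add, add_mul, mul_smul_comm, mul_one, smul_mul_assoc, mul_inv_mats, mul_smul_comm, smul_mul_assoc]

private theorem rd_one_mats (m : ℕ) : rd m (1 : Mz) = 1 := by
  unfold rd
  rw [Matrix.map_one _ Int.cast_zero Int.cast_one]

/-- the reduction of `σ ∈ SL₂(ℤ)` as an element of `GL₂(ℤ/m)` -/
private noncomputable def gl_mats (m : ℕ) (σ : Matrix.SpecialLinearGroup (Fin 2) ℤ)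
    (hm : ∀ A B : Mz, rd m (A * B) = rd m A * rd m B) : GL (Fin 2) (ZMod m) :=
  ⟨rd m σ.val, rd m (σ⁻¹).val, by rw [← hm, mul_inv_mats, rd_one_mats], by rw [← hm, inv_mul_mats, rd_one_mats]⟩

/-- PIECE [JC-L2] (all theorems of this file, about 150 lines). -/
theorem rd_mul (m : ℕ) (A B : Mz) : rd m (A * B) = rd m A * rd m B := by
  unfold rd
  ext i j
  simp [Matrix.mul_apply]

theorem rd_det (m : ℕ) (A : Mz) : (rd m A).det = (A.det : ZMod m) := by
  unfold rd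
  rw [Matrix.det_fin_two, Matrix.det_fin_two]
  simp only [Matrix.map_apply]
  push_cast
  ring

theorem rd_trace (m : ℕ) (A : Mz) : (rd m A).trace = (A.trace : ZMod m) := by
  unfold rd
  rw [Matrix.trace_fin_two, Matrix.trace_fin_two]
  simp only [Matrix.map_apply]
  push_cast
  ring

/-- every matrix modulo `m` is the reduction of an integer matrix -/
theorem rd_surj (m : ℕ) (A : Matrix (Fin 2) (Fin 2) (ZMod m)) : ∃ F : Mz, rd m F = A := by
  have h := ZMod.intCast_surjective (n := m)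
  refine ⟨A.map (fun x => Classical.choose (h x)), ?_⟩
  unfold rd
  ext i j
  rw [Matrix.map_apply, Matrix.map_apply]
  exact Classical.choose_spec (h (A i j))

/-- reduction from `m` to the divisor `n` -/
theorem rd_map (m n : ℕ) (h : n ∣ m) (A : Mz) : (rd m A).map (ZMod.castHom h (ZMod n)) = rd n A := by
  unfold rd
  ext i j
  rw [Matrix.map_apply, Matrix.map_apply, Matrix.map_apply, map_intCast]

theorem rd_scm (m s : ℕ) (h : s ∣ m) (A : Mz) : ScM m s h (rd m A) ↔ Lv s A := by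
  unfold ScM Lv rd
  simp only [Matrix.map_apply]
  rw [← Int.cast_sub, map_intCast, map_intCast, map_intCast, CharP.intCast_eq_zero_iff (ZMod s) s,
    CharP.intCast_eq_zero_iff (ZMod s) s, CharP.intCast_eq_zero_iff (ZMod s) s]

theorem lv_dvd (s s' : ℕ) (h : s' ∣ s) (A : Mz) (hA : Lv s A) : Lv s' A := by
  have h' : (s' : ℤ) ∣ (s : ℤ) := by exact_mod_cast h
  exact ⟨h'.trans hA.1, h'.trans hA.2.1, h'.trans hA.2.2⟩

theorem fc_trace (s : ℕ) (d a : ℤ) : (Fc s d a).trace = a := by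
  unfold Fc Fm
  rw [Matrix.trace_fin_two]
  simp

theorem fc_det (s : ℕ) (d a : ℤ) (hs : 0 < s) (h : Sc s d a) : (Fc s d a).det = d := by
  have hc := ctr_spec s d a hs h
  obtain ⟨u, hu⟩ := hc.2
  have hs' : (s : ℤ) ≠ 0 := by exact_mod_cast hs.ne'
  have hq : ((ctr s d a : ℤ) ^ 2 - a * (ctr s d a : ℤ) + d) / (s : ℤ) = s * u := by
    rw [hu, pow_two, mul_assoc, Int.mul_ediv_cancel_left _ hs']
  unfold Fc Fm
  rw [Matrix.det_fin_two, hq]
  simp
  linear_combination -hu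

/-- `Fc s d a` is scalar modulo `s'` iff `s' ∣ s` -/
theorem fc_lv (s s' : ℕ) (d a : ℤ) (hs : 0 < s) (h : Sc s d a) : Lv s' (Fc s d a) ↔ s' ∣ s := by
  have hc := ctr_spec s d a hs h
  obtain ⟨u, hu⟩ := hc.2
  have hs' : (s : ℤ) ≠ 0 := by exact_mod_cast hs.ne'
  have hq : ((ctr s d a : ℤ) ^ 2 - a * (ctr s d a : ℤ) + d) / (s : ℤ) = s * u := by
    rw [hu, pow_two, mul_assoc, Int.mul_ediv_cancel_left _ hs']
  have e01 : (Fc s d a) 0 1 = -(s * u) := by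
    unfold Fc Fm
    rw [hq]
    rfl
  have e10 : (Fc s d a) 1 0 = s := rfl
  have e00 : (Fc s d a) 0 0 - (Fc s d a) 1 1 = 2 * (ctr s d a : ℤ) - a := by
    have h1 : (Fc s d a) 0 0 = (ctr s d a : ℤ) := rfl
    have h2 : (Fc s d a) 1 1 = a - (ctr s d a : ℤ) := rfl
    rw [h1, h2]
    ring
  unfold Lv
  rw [e01, e10, e00]
  constructor
  · rintro ⟨_, h2, _⟩
    exact_mod_cast h2
  · intro h1
    have h' : (s' : ℤ) ∣ (s : ℤ) := by exact_mod_cast h1
    exact ⟨(h'.trans (Dvd.intro u rfl)).neg_right, h', h'.trans hc.1⟩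

/-- `Fc s d a` modulo `m` depends only on `a` modulo `m s` (and `s²`) -/
theorem fc_congr (m s : ℕ) (d a a' : ℤ) (hs : 0 < s) (h : Sc s d a) (h1 : (s : ℤ) ^ 2 ∣ a - a') (h2 : ((m * s : ℕ) : ℤ) ∣ a - a') :
    rd m (Fc s d a) = rd m (Fc s d a') := by
  have hc := ctr_spec s d a hs h
  have hce := ctr_eq s d a a' h1
  have h' : Sc s d a' := (sc_congr s d a a' h1).1 h
  have hc' := ctr_spec s d a' hs h'
  obtain ⟨u, hu⟩ := hc.2
  obtain ⟨u', hu'⟩ := hc'.2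
  rw [← hce] at hu'
  have hs' : (s : ℤ) ≠ 0 := by exact_mod_cast hs.ne'
  have hq : ((ctr s d a : ℤ) ^ 2 - a * (ctr s d a : ℤ) + d) / (s : ℤ) = s * u := by
    rw [hu, pow_two, mul_assoc, Int.mul_ediv_cancel_left _ hs']
  have hq' : ((ctr s d a : ℤ) ^ 2 - a' * (ctr s d a : ℤ) + d) / (s : ℤ) = s * u' := by
    rw [hu', pow_two, mul_assoc, Int.mul_ediv_cancel_left _ hs']
  obtain ⟨v, hv⟩ := h2
  have hva : a - a' = s * (m * v) := by
    rw [hv]
    push_cast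
    ring
  have hkey : (s : ℤ) * u - s * u' = -(m * v * (ctr s d a : ℤ)) := by
    apply mul_left_cancel₀ hs'
    have : (s : ℤ) ^ 2 * u - (s : ℤ) ^ 2 * u' = -((a - a') * (ctr s d a : ℤ)) := by
      rw [← hu, ← hu']
      ring
    rw [hva] at this
    linear_combination this
  have e : ∀ x y : ℤ, (m : ℤ) ∣ x - y → (x : ZMod m) = (y : ZMod m) := by
    intro x y hxy
    rw [← sub_eq_zero, ← Int.cast_sub]
    exact (CharP.intCast_eq_zero_iff (ZMod m) m _).2 hxy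
  unfold rd Fc Fm
  rw [← hce, hq, hq']
  ext i j
  fin_cases i <;> fin_cases j
  · rfl
  · apply e
    show (m : ℤ) ∣ -(s * u) - -(s * u')
    exact ⟨v * (ctr s d a : ℤ), by linear_combination -hkey⟩
  · rfl
  · apply e
    show (m : ℤ) ∣ (a - (ctr s d a : ℤ)) - (a' - (ctr s d a : ℤ))
    exact ⟨s * v, by linear_combination hva⟩

/-- conjugation by `SL₂(ℤ)` -/
theorem lv_conj (s : ℕ) (A : Mz) (σ : Matrix.SpecialLinearGroup (Fin 2) ℤ) : Lv s (σ.val * A * (σ⁻¹).val) ↔ Lv s A := by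
  refine ⟨fun h => ?_, lv_conj_mats s A σ⟩
  have h1 := lv_conj_mats s _ σ⁻¹ h
  have h2 : (σ⁻¹).val * (σ.val * A * (σ⁻¹).val) * ((σ⁻¹)⁻¹).val = A := by
    rw [inv_inv]
    calc (σ⁻¹).val * (σ.val * A * (σ⁻¹).val) * σ.val = ((σ⁻¹).val * σ.val) * A * ((σ⁻¹).val * σ.val) := by
          simp only [mul_assoc]
      _ = A := by rw [inv_mul_mats, one_mul, mul_one]
  rwa [h2] at h1

theorem mt_trace (p : ℕ) (ω : Om) : (mt p ω).trace = ω.1 := by
  unfold mt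
  rw [Matrix.trace_mul_comm, ← mul_assoc, inv_mul_mats, one_mul, fc_trace]

theorem mt_det (p : ℕ) (ω : Om) (h0 : 0 < ω.2.1) (h : Sc ω.2.1 p ω.1) : (mt p ω).det = p := by
  unfold mt
  rw [Matrix.det_mul, Matrix.det_mul, fc_det _ _ _ h0 h, ω.2.2.2, (ω.2.2⁻¹).2, one_mul, mul_one]

theorem mt_lv (p s' : ℕ) (ω : Om) (h0 : 0 < ω.2.1) (h : Sc ω.2.1 p ω.1) : Lv s' (mt p ω) ↔ s' ∣ ω.2.1 := by
  unfold mt
  rw [lv_conj, fc_lv _ _ _ _ h0 h]

/-- a matrix conjugate to an element of `G(m)` by an element of `G(m)` reduces into `G` -/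
theorem cjG_inG (M m : ℕ) (h : M ∣ m) (G : Subgroup (GL (Fin 2) (ZMod M))) (g : GL (Fin 2) (ZMod m))
    (hg : Matrix.GeneralLinearGroup.map (ZMod.castHom h (ZMod M)) g ∈ G) (A : Mz) (hA : CjG M m h G g.val (rd m A)) :
    InG M G (rd M A) := by
  obtain ⟨γ, hγ, hγ2⟩ := hA
  have h1 := congrArg (fun B : Matrix (Fin 2) (Fin 2) (ZMod m) => B.map (ZMod.castHom h (ZMod M))) hγ2
  simp only [Matrix.map_mul] at h1
  rw [rd_map m M h A] at h1
  refine ⟨Matrix.GeneralLinearGroup.map (ZMod.castHom h (ZMod M)) γ *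
    Matrix.GeneralLinearGroup.map (ZMod.castHom h (ZMod M)) g *
    (Matrix.GeneralLinearGroup.map (ZMod.castHom h (ZMod M)) γ)⁻¹, G.mul_mem (G.mul_mem hγ hg) (G.inv_mem hγ), ?_⟩
  rw [Units.val_mul, Units.val_mul]
  have h2 : (Matrix.GeneralLinearGroup.map (ZMod.castHom h (ZMod M)) γ).val *
      (Matrix.GeneralLinearGroup.map (ZMod.castHom h (ZMod M)) g).val =
      rd M A * (Matrix.GeneralLinearGroup.map (ZMod.castHom h (ZMod M)) γ).val := h1
  rw [h2, mul_assoc, Units.mul_inv, mul_one]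

/-- conjugate matrices have the same determinant -/
theorem cj_det (m : ℕ) (g : GL (Fin 2) (ZMod m)) (A : Mz) (hA : Cj m g.val (rd m A)) : g.val.det = (A.det : ZMod m) := by
  obtain ⟨γ, hγ⟩ := hA
  have h1 := congrArg Matrix.det hγ
  rw [Matrix.det_mul, Matrix.det_mul, rd_det] at h1
  have hu : IsUnit (γ.val.det) := (Matrix.isUnit_iff_isUnit_det _).1 γ.isUnit
  rw [mul_comm] at h1
  exact hu.mul_right_cancel h1

theorem cjG_cj (M m : ℕ) (h : M ∣ m) (G : Subgroup (GL (Fin 2) (ZMod M))) (A B : Matrix (Fin 2) (Fin 2) (ZMod m)) (hA : CjG M m h G A B) :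
    Cj m A B := by
  obtain ⟨γ, _, hγ⟩ := hA
  exact ⟨γ, hγ⟩

/-- conjugacy is an equivalence relation (here: conjugating `A` by `σ ∈ SL₂(ℤ)`) -/
theorem cj_conj (m : ℕ) (g : Matrix (Fin 2) (Fin 2) (ZMod m)) (A : Mz) (σ : Matrix.SpecialLinearGroup (Fin 2) ℤ) :
    Cj m g (rd m (σ.val * A * (σ⁻¹).val)) ↔ Cj m g (rd m A) := by
  constructor
  · rintro ⟨γ, hγ⟩
    refine ⟨(gl_mats m σ (rd_mul m))⁻¹ * γ, ?_⟩
    rw [rd_mul, rd_mul] at hγ
    have e1 : (gl_mats m σ (rd_mul m)).val = rd m σ.val := rfl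
    have e2 : ((gl_mats m σ (rd_mul m))⁻¹).val = rd m (σ⁻¹).val := rfl
    rw [Units.val_mul, mul_assoc, hγ, e2]
    have h1 : rd m (σ⁻¹).val * (rd m σ.val * rd m A * rd m (σ⁻¹).val * γ.val) =
        (rd m (σ⁻¹).val * rd m σ.val) * rd m A * (rd m (σ⁻¹).val * γ.val) := by
      simp only [mul_assoc]
    rw [h1, ← rd_mul, inv_mul_mats, rd_one_mats, one_mul]
  · rintro ⟨γ, hγ⟩
    refine ⟨gl_mats m σ (rd_mul m) * γ, ?_⟩
    have e1 : (gl_mats m σ (rd_mul m)).val = rd m σ.val := rfl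
    rw [Units.val_mul, mul_assoc, hγ, rd_mul, rd_mul, e1]
    have h1 : rd m σ.val * rd m A * rd m (σ⁻¹).val * (rd m σ.val * γ.val) =
        rd m σ.val * rd m A * (rd m (σ⁻¹).val * rd m σ.val) * γ.val := by
      simp only [mul_assoc]
    rw [h1, ← rd_mul m (σ⁻¹).val, inv_mul_mats, rd_one_mats, mul_one, mul_assoc]

end Pool.Agent.JC
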