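import Pool.Agent.Lib_MP_f1937f_jc.Ctrs
import Pool.Agent.Lib_MP_f1937f_jc.Mats

/-!
# The scalar level of a class, one class of traces
-/

set_option autoImplicit false

namespace Pool.Agent.JC

open Finset Pool.Agent.TB Pool.Agent.JB Pool.Agent.JD

/-- PIECE [JC-T4] (all theorems of this file, about 150 lines). PROOF. `t = trace g + m u` : `x² - t x + p + g 0 1 g 1 0 = (p - det g) - m u x` (`x = g 0 0`), `m ∣ p - det g`, and `x` is prime to `s` (`x² = det g = p` modulo `s`, as `s ∣ g 0 1`,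
`s ∣ g 0 0 - g 1 1`): solve `s ∣ (p - det g) / m - u x`. -/
theorem tg_exists (m s : ℕ) (hm : 0 < m) (hs : s ∣ m) (p : ℤ) (hp : IsCoprime p (m : ℤ)) (g : Mz) (hg : (m : ℤ) ∣ g.det - p) (hgl : Lv s g) :
    ∃ t : ℤ, (m : ℤ) ∣ t - g.trace ∧ ((m * s : ℕ) : ℤ) ∣ g 0 0 ^ 2 - t * g 0 0 + p + g 0 1 * g 1 0 := by
  have hsm : (s : ℤ) ∣ (m : ℤ) := by exact_mod_cast hs
  obtain ⟨h01, h10, hd⟩ := hgl
  obtain ⟨w, hw⟩ := hg
  have hdet : g.det = g 0 0 * g 1 1 - g 0 1 * g 1 0 := Matrix.det_fin_two g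
  have htr : g.trace = g 0 0 + g 1 1 := Matrix.trace_fin_two g
  -- `x` is prime to `s`
  have hps : IsCoprime p (s : ℤ) := hp.of_isCoprime_of_dvd_right hsm
  have hx2 : (s : ℤ) ∣ g 0 0 ^ 2 - p := by
    have h1 : (s : ℤ) ∣ g.det - p := hsm.trans ⟨w, hw⟩
    have e : g 0 0 ^ 2 - p = (g 0 0) * (g 0 0 - g 1 1) + (g.det - p) + g 0 1 * g 1 0 := by
      rw [hdet]
      ring
    rw [e]
    exact dvd_add (dvd_add (hd.mul_left _) h1) (h01.mul_right _)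
  have hxs : IsCoprime (g 0 0) (s : ℤ) := by
    obtain ⟨c, hc⟩ := hx2
    have h2 : IsCoprime (g 0 0 ^ 2) (s : ℤ) := by
      have e : g 0 0 ^ 2 = p + (s : ℤ) * c := by linarith
      rw [e]
      exact IsCoprime.add_mul_left_left hps c
    exact (IsCoprime.pow_left_iff (by norm_num)).1 h2
  obtain ⟨u, v, huv⟩ := hxs
  refine ⟨g.trace + m * (-w * u), ⟨-w * u, by ring⟩, ⟨-w * v, ?_⟩⟩
  rw [htr]
  push_cast
  have e1 : g 0 0 * g 1 1 - g 0 1 * g 1 0 - p = m * w := by rw [← hdet]; exact hw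
  have e2 : g 0 0 ^ 2 - (g 0 0 + g 1 1 + m * (-w * u)) * g 0 0 + p + g 0 1 * g 1 0 =
      -(g 0 0 * g 1 1 - g 0 1 * g 1 0 - p) + m * w * (u * g 0 0) := by ring
  rw [e2, e1]
  have e3 : u * g 0 0 = 1 - v * s := by linarith
  rw [e3]
  ring

/-- PROOF. `s = gcd (m, g 0 1, g 1 0, g 0 0 - g 1 1)`. -/
theorem lv_max (m : ℕ) (hm : 0 < m) (g : Mz) : ∃ s : ℕ, s ∣ m ∧ Lv s g ∧ (∀ l : ℕ, l.Prime → s * l ∣ m → ¬ Lv (s * l) g) ∧
    ∀ s' : ℕ, s' ∣ m → Lv s' g → s' ∣ s := by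
  refine ⟨Nat.gcd m (Nat.gcd (g 0 1).natAbs (Nat.gcd (g 1 0).natAbs (g 0 0 - g 1 1).natAbs)), ?_, ?_, ?_, ?_⟩
  · exact Nat.gcd_dvd_left _ _
  · refine ⟨?_, ?_, ?_⟩
    · rw [Int.natCast_dvd]
      exact (Nat.gcd_dvd_right _ _).trans (Nat.gcd_dvd_left _ _)
    · rw [Int.natCast_dvd]
      exact (Nat.gcd_dvd_right _ _).trans ((Nat.gcd_dvd_right _ _).trans (Nat.gcd_dvd_left _ _))
    · rw [Int.natCast_dvd]
      exact (Nat.gcd_dvd_right _ _).trans ((Nat.gcd_dvd_right _ _).trans (Nat.gcd_dvd_right _ _))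
  · intro l hl hlm hL
    obtain ⟨h1, h2, h3⟩ := hL
    rw [Int.natCast_dvd] at h1 h2 h3
    have h4 := Nat.dvd_gcd hlm (Nat.dvd_gcd h1 (Nat.dvd_gcd h2 h3))
    have hs0 : 0 < Nat.gcd m (Nat.gcd (g 0 1).natAbs (Nat.gcd (g 1 0).natAbs (g 0 0 - g 1 1).natAbs)) :=
      Nat.gcd_pos_of_pos_left _ hm
    have h5 := Nat.le_of_dvd hs0 h4
    have h6 := hl.two_le
    nlinarith
  · intro s' hs' hL
    obtain ⟨h1, h2, h3⟩ := hL
    rw [Int.natCast_dvd] at h1 h2 h3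
    exact Nat.dvd_gcd hs' (Nat.dvd_gcd h1 (Nat.dvd_gcd h2 h3))

/-- The traces of the level `s d` in a class modulo `s² n` are in one class modulo `(s d)²`. PROOF. Centres `lam`, `lam'` of level `s d` of `a`, `a'`. Modulo `s²` the two polynomials agree, so `lam' = lam + s ε` (`ctr_unique`). `a' = a + s² n x`. With `2 lam - a = s d u` :
`f_{a'} (lam') = f_a (lam) + s² (ε d u + ε² - n x lam')`, so `d² ∣ ε² + ε d u - n x lam'`; `d ∣ n`, so `d ∣ ε²`, `d ∣ ε` (`d` squarefree), so `d² ∣ n x lam'`, and `lam'` is prime to `d`. -/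
theorem one_class (s n d : ℕ) (p a a' : ℤ) (hs : 0 < s) (hn : 0 < n) (hd : d ∣ n) (hsq : Squarefree d) (hp : IsCoprime p ((s * n : ℕ) : ℤ))
    (h : Sc (s * d) p a) (h' : Sc (s * d) p a') (ha : ((s ^ 2 * n : ℕ) : ℤ) ∣ a - a') : ((s * d : ℕ) : ℤ) ^ 2 ∣ a - a' := by
  obtain ⟨lam, hlam⟩ := h
  obtain ⟨lam', hlam'⟩ := h'
  have hd0 : 0 < d := Nat.pos_of_dvd_of_pos hd hn
  obtain ⟨x, hx⟩ := ha
  push_cast at hx
  have hsa : (s : ℤ) ^ 2 ∣ a' - a := ⟨-(n * x), by linarith⟩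
  have c1 : Ctr s p a lam := ctr_dvd (s * d) s p a lam (dvd_mul_right s d) hlam
  have c2 : Ctr s p a lam' :=
    ctr_congr s p a' a lam' (ctr_dvd (s * d) s p a' lam' (dvd_mul_right s d) hlam') hsa
  obtain ⟨ε, hε⟩ := ctr_unique s p a lam' lam hs c2 c1
  obtain ⟨u, hu⟩ := hlam.1
  obtain ⟨y, hy⟩ := hlam.2
  obtain ⟨y', hy'⟩ := hlam'.2
  have hsq' := ctr_sq (s * d) p a' lam' hlam'
  push_cast at hu hy hy' hsq'
  have hs0 : (s : ℤ) ≠ 0 := by exact_mod_cast hs.ne'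
  obtain ⟨n', hn'⟩ := hd
  have hnn : (n : ℤ) = d * n' := by exact_mod_cast hn'
  have hl : lam' = lam + s * ε := by linarith
  have ha' : a' = a - s ^ 2 * n * x := by linarith
  -- the main identity divided by `s²`
  have key : (d : ℤ) ^ 2 * (y' - y) = ε ^ 2 + ε * d * u + n * x * lam' := by
    have e1 : (s : ℤ) ^ 2 * ((d : ℤ) ^ 2 * (y' - y)) = s ^ 2 * (ε ^ 2 + ε * d * u + n * x * lam') := by
      have e2 : (s : ℤ) ^ 2 * ((d : ℤ) ^ 2 * (y' - y)) = (lam' ^ 2 - a' * lam' + p) - (lam ^ 2 - a * lam + p) := by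
        rw [hy, hy']
        ring
      have e3 : a = 2 * lam - s * d * u := by linarith
      rw [e2, ha', hl, e3]
      ring
    exact mul_left_cancel₀ (pow_ne_zero 2 hs0) e1
  have hdε2 : (d : ℤ) ∣ ε ^ 2 := by
    refine ⟨d * (y' - y) - ε * u - n' * x * lam', ?_⟩
    rw [hnn] at key
    linarith
  have hdε : (d : ℤ) ∣ ε := by
    have hsqz : Squarefree (d : ℤ) := Int.squarefree_natCast.2 hsq
    exact hsqz.isRadical 2 ε hdε2
  obtain ⟨ε', hε'⟩ := hdε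
  have h1 : (d : ℤ) ^ 2 ∣ (n * x) * lam' := by
    refine ⟨y' - y - ε' ^ 2 - ε' * u, ?_⟩
    rw [hε'] at key
    linarith
  have hcop : IsCoprime (lam' ^ 2) (d : ℤ) := by
    have hpd : IsCoprime p (d : ℤ) := by
      refine hp.of_isCoprime_of_dvd_right ?_
      push_cast
      rw [hnn]
      exact ⟨s * n', by ring⟩
    obtain ⟨c, hc⟩ := (Dvd.intro_left (s : ℤ) rfl : (d : ℤ) ∣ s * d).trans hsq'
    have e : lam' ^ 2 = p + (d : ℤ) * c := by linarith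
    rw [e]
    exact IsCoprime.add_mul_left_left hpd c
  have hcop1 : IsCoprime lam' (d : ℤ) := (IsCoprime.pow_left_iff (by norm_num)).1 hcop
  have hcop2 : IsCoprime ((d : ℤ) ^ 2) lam' := hcop1.symm.pow_left
  obtain ⟨w, hw⟩ := hcop2.dvd_of_dvd_mul_right h1
  refine ⟨w, ?_⟩
  push_cast
  have e4 : a - a' = s ^ 2 * (n * x) := by linarith
  rw [e4, hw]
  ring

end Pool.Agent.JC
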