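import Pool.Agent.Lib_MP_f1937f_jc.ConjIff
import Pool.Agent.Lib_MP_f1937f_jc.OneCl

/-!
# Allowed integers
-/

set_option autoImplicit false

namespace Pool.Agent.JC

open Finset Pool.Agent.TB Pool.Agent.JB Pool.Agent.JD

/-- PIECE [JC-G8] (all theorems of this file, about 150 lines). PROOF. Let `F` be the matrix of `Al`, `s` its scalar level modulo `M` (`lv_max`). `F 0 0` is a centre of level `s` for `p` (`lam ^ 2 - b lam + p = - F 0 1 * F 1 0` for `lam = F 0 0`), and as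
`p' = p` modulo `M ^ 2` also for `p'` (`s ^ 2 ∣ M ^ 2`). `Fc s p' b` has trace `b`, determinant `p'` (`fc_det`) and is conjugate to `F` modulo `M` : `conj_iff` with `m := M`, `g := F`, `F := Fc s p' b`, `t := b` (`ht2`: the value is `p' - p`; `M s ∣ M ^ 2`; `fc_lv`). -/
theorem al_cj (M : ℕ) (hM : 0 < M) (G : Subgroup (GL (Fin 2) (ZMod M))) (p p' : ℕ) (hp : p'.Coprime M) (hpp : p ≡ p' [MOD M ^ 2]) (b : ℤ)
    (h : Al M G p b) : ∃ (s : ℕ) (g : GL (Fin 2) (ZMod M)), 0 < s ∧ s ∣ M ∧ Sc s p' b ∧ g ∈ G ∧ Cj M g.val (rd M (Fc s p' b)) := by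
  obtain ⟨F, hdet, htr, g, hgG, hgF⟩ := h
  obtain ⟨s, hsM, hLv, hmax, -⟩ := lv_max M hM F
  have hs0 : 0 < s := Nat.pos_of_dvd_of_pos hsM hM
  have hsMz : (s : ℤ) ∣ (M : ℤ) := by exact_mod_cast hsM
  -- `M² ∣ p' - p`
  have hMM : ((M : ℤ)) ^ 2 ∣ (p' : ℤ) - p := by
    have h1 := (Nat.modEq_iff_dvd.mp hpp)
    simpa using h1
  have hdet' : F 0 0 * F 1 1 - F 0 1 * F 1 0 = (p : ℤ) := by
    rw [← hdet, Matrix.det_fin_two]
  have htr' : F 0 0 + F 1 1 = b := by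
    rw [← htr, Matrix.trace_fin_two]
  obtain ⟨h01, h10, hd⟩ := hLv
  have hctr : Ctr s (p' : ℤ) b (F 0 0) := by
    refine ⟨?_, ?_⟩
    · have : 2 * F 0 0 - b = F 0 0 - F 1 1 := by rw [← htr']; ring
      rw [this]; exact hd
    · have e : F 0 0 ^ 2 - b * F 0 0 + (p' : ℤ) = ((p' : ℤ) - p) - F 0 1 * F 1 0 := by
        rw [← htr', ← hdet']; ring
      rw [e]
      refine dvd_sub ((pow_dvd_pow_of_dvd hsMz 2).trans hMM) ?_
      rw [pow_two]
      exact mul_dvd_mul h01 h10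
  have hSc : Sc s (p' : ℤ) b := ⟨_, hctr⟩
  have hMs : ((M * s : ℕ) : ℤ) ∣ (M : ℤ) ^ 2 := by
    push_cast
    rw [pow_two]
    exact mul_dvd_mul_left _ hsMz
  have hcj : Cj M (rd M F) (rd M (Fc s (p' : ℤ) b)) := by
    refine (conj_iff M s hM hsM (p' : ℤ) (Nat.isCoprime_iff_coprime.mpr hp) F (Fc s (p' : ℤ) b) b ?_ ⟨h01, h10, hd⟩ hmax ?_ ?_ ?_).mpr ⟨?_, ?_, ?_⟩
    · rw [hdet]
      have h1 : (M : ℤ) ∣ (p' : ℤ) - p := (dvd_pow_self (M : ℤ) two_ne_zero).trans hMM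
      have h2 := (dvd_neg (a := (M : ℤ))).mpr h1
      rwa [neg_sub] at h2
    · rw [htr, sub_self]; exact dvd_zero _
    · have e : F 0 0 ^ 2 - b * F 0 0 + (p' : ℤ) + F 0 1 * F 1 0 = (p' : ℤ) - p := by
        rw [← htr', ← hdet']; ring
      rw [e]
      exact hMs.trans hMM
    · rw [fc_det s (p' : ℤ) b hs0 hSc, sub_self]; exact dvd_zero _
    · exact (fc_lv s s (p' : ℤ) b hs0 hSc).mpr dvd_rfl
    · rw [fc_trace, sub_self]; exact dvd_zero _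
    · intro l hl _ hlv
      have h1 := (fc_lv s (s * l) (p' : ℤ) b hs0 hSc).mp hlv
      have h2 := Nat.le_of_dvd hs0 h1
      have h3 := hl.two_le
      nlinarith
  exact ⟨s, g, hs0, hsM, hSc, hgG, by rw [hgF]; exact hcj⟩

/-- PROOF. `al_cj`, then `Orb` with `m := M` : the number of the `σ ∈ R` with `CjG M M _ G g (rd M (σ Fc σ⁻¹))` is positive (the class of `g` in `G` and `R` are not empty); `cjG_inG`. -/
theorem al_out (M : ℕ) (hM : 0 < M) (G : Subgroup (GL (Fin 2) (ZMod M))) (R : Finset (Matrix.SpecialLinearGroup (Fin 2) ℤ))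
    (hR : Orb M G R) (p p' : ℕ) (hp : p'.Coprime M) (hpp : p ≡ p' [MOD M ^ 2]) (b : ℤ) (h : Al M G p b) :
    ∃ (s : ℕ) (σ : Matrix.SpecialLinearGroup (Fin 2) ℤ), 0 < s ∧ s ∣ M ∧ σ ∈ R ∧ Sc s p' b ∧ InG M G (rd M (mt p' (b, s, σ))) := by
  obtain ⟨s, g, hs0, hsM, hSc, hgG, hcj⟩ := al_cj M hM G p p' hp hpp b h
  have : NeZero M := ⟨hM.ne'⟩
  have hmap : Matrix.GeneralLinearGroup.map (ZMod.castHom (dvd_refl M) (ZMod M)) g = g := by
    rw [ZMod.castHom_self]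
    ext i j
    simp
  have hgG' : Matrix.GeneralLinearGroup.map (ZMod.castHom (dvd_refl M) (ZMod M)) g ∈ G := by
    rw [hmap]; exact hgG
  have key := hR.2 M (dvd_refl M) hM g hgG' (Fc s (p' : ℤ) b) hcj
  have h1 : 0 < R.card := Finset.card_pos.mpr hR.1
  have : Nonempty {g' : GL (Fin 2) (ZMod M) // CjG M M (dvd_refl M) G g.val g'.val} :=
    ⟨⟨g, 1, by rw [map_one]; exact G.one_mem, by simp⟩⟩
  have h2 : 0 < Nat.card {g' : GL (Fin 2) (ZMod M) // CjG M M (dvd_refl M) G g.val g'.val} := Nat.card_pos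
  have h3 : Nat.card {σ : Matrix.SpecialLinearGroup (Fin 2) ℤ // σ ∈ R ∧ CjG M M (dvd_refl M) G g.val (rd M (σ.val * Fc s (p' : ℤ) b * (σ⁻¹).val))} ≠ 0 := by
    intro h0
    rw [h0, zero_mul] at key
    have := Nat.mul_pos h1 h2
    omega
  have h4 : Nonempty {σ : Matrix.SpecialLinearGroup (Fin 2) ℤ // σ ∈ R ∧ CjG M M (dvd_refl M) G g.val (rd M (σ.val * Fc s (p' : ℤ) b * (σ⁻¹).val))} := by
    by_contra hne
    rw [not_nonempty_iff] at hne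
    exact h3 Nat.card_of_isEmpty
  obtain ⟨σ, hσR, hσ⟩ := h4
  exact ⟨s, σ, hs0, hsM, hσR, hSc, cjG_inG M M (dvd_refl M) G g hgG' _ hσ⟩

/-- PROOF. `al_out`, `mt_det`, `mt_trace`. -/
theorem al_congr (M : ℕ) (hM : 0 < M) (G : Subgroup (GL (Fin 2) (ZMod M))) (R : Finset (Matrix.SpecialLinearGroup (Fin 2) ℤ))
    (hR : Orb M G R) (p p' : ℕ) (hp : p'.Coprime M) (hpp : p ≡ p' [MOD M ^ 2]) (b : ℤ) (h : Al M G p b) : Al M G p' b := by
  obtain ⟨s, σ, hs0, _, _, hSc, hIn⟩ := al_out M hM G R hR p p' hp hpp b h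
  exact ⟨mt p' (b, s, σ), mt_det p' (b, s, σ) hs0 hSc, mt_trace p' (b, s, σ), hIn⟩

/-- PROOF. The determinant of an element of `GL₂` is a unit. -/
theorem al_cop (M : ℕ) (G : Subgroup (GL (Fin 2) (ZMod M))) (p : ℕ) (b : ℤ) (h : Al M G p b) : p.Coprime M := by
  obtain ⟨F, hdet, _, g, _, hgF⟩ := h
  have h1 : IsUnit (g.val.det) := (Matrix.isUnit_iff_isUnit_det _).mp g.isUnit
  rw [hgF, rd_det, hdet, Int.cast_natCast] at h1
  exact (ZMod.isUnit_iff_coprime p M).mp h1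

end Pool.Agent.JC
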