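import Pool.Agent.Lib_MP_f1937f_jc.Defs
import Pool.Agent.Lib_MP_f1937f_jb.AsymJ

/-!
# Choice of the parameters for large primes
-/

set_option autoImplicit false

namespace Pool.Agent.JC

open Finset Pool.Agent.TB Pool.Agent.JB Pool.Agent.JD

/-- eventually in the reals -/
private theorem ev_log (D s : ℝ) (hD : 0 ≤ D) (hs : 0 < s) :
    ∀ᶠ x : ℝ in Filter.atTop, D * (1 + Real.log x) ≤ x ^ s := by
  have h1 : ∀ᶠ x : ℝ in Filter.atTop, (1 : ℝ) ≤ x := Filter.eventually_ge_atTop 1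
  have hl : (fun x : ℝ => 1 + Real.log x) =o[Filter.atTop] fun x : ℝ => x ^ s := by
    refine Asymptotics.IsLittleO.add ?_ (isLittleO_log_rpow_atTop hs)
    rw [Asymptotics.isLittleO_const_left]
    right
    exact tendsto_norm_atTop_atTop.comp (tendsto_rpow_atTop hs)
  have := hl.def (c := 1 / (D + 1)) (by positivity)
  filter_upwards [this, h1] with x hx hx1
  have hlog : 0 ≤ Real.log x := Real.log_nonneg hx1
  rw [Real.norm_of_nonneg (by positivity), Real.norm_of_nonneg (by positivity)] at hx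
  rw [div_mul_eq_mul_div, one_mul, le_div_iff₀ (by positivity)] at hx
  nlinarith

/-- PIECE [JC-G5b] (about 100 lines). PROOF. As `asym_spike` (`Lib_MP_f1937f_jb/AsymJ.lean`, copy the private lemma `ev_log`), with the divisor bound for the exponent `ε / 8` : `τ(n) τ(D) ^ 2 ≤ B p ^ (ε / 2)` for `n ≤ √p`, `D ≤ 4 p`. -/
theorem asym_C (K : ℕ) (hK : 0 < K) (c : ℝ) (hc : 0 < c) (a₀ : ℤ) (ε : ℝ) (hε : 0 < ε) (hε' : ε ≤ 1 / 8) :
    ∃ p₀ : ℕ, 2 ≤ p₀ ∧ ∀ p : ℕ, p₀ ≤ p → 1 ≤ (p : ℝ) ^ (1 / 4 - ε) ∧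
      64 * ((p : ℝ) ^ (1 / 4 - ε)) ^ 2 * (1 + Real.log ((p : ℝ) ^ (1 / 4 - ε))) ≤ √(p : ℝ) / (4 * K) ∧
      |(a₀ : ℝ)| ≤ √(p : ℝ) / 4 ∧ |(a₀ : ℝ)| ≤ Real.log p ∧ Real.log p ≤ √(p : ℝ) / 8 ∧
      ∀ n D : ℕ, n ≠ 0 → (n : ℝ) ≤ √(p : ℝ) → D ≠ 0 → D ≤ 4 * p →
        96 * K * ((p : ℝ) ^ (1 / 4 - ε)) ^ 2 * (n.divisors.card : ℝ) / p * ((2 * Real.log p + 1) * (K * (D.divisors.card : ℝ) ^ 2)) ≤
          c / Real.log p / √(p : ℝ) := by
  obtain ⟨C, hC1, hC⟩ := Pool.Agent.MP_db34dc_nt.divisor_bound (ε / 8) (by positivity)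
  have hK' : (0 : ℝ) < K := by exact_mod_cast hK
  obtain ⟨p₁, -, hp₁⟩ := asym_spike K hK 1 one_pos a₀ ε hε hε'
  have hC0 : 0 ≤ C := by linarith
  have hev := (tendsto_natCast_atTop_atTop (R := ℝ)).eventually
    ((ev_log (192 * K ^ 2 * (16 * C ^ 3) / c + 1) (ε / 2) (by positivity) (by positivity)).and
      ((ev_log 8 (1 / 2) (by norm_num) (by norm_num)).and
        (Real.tendsto_log_atTop.eventually_ge_atTop |(a₀ : ℝ)|)))
  rw [Filter.eventually_atTop] at hev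
  obtain ⟨p₂, hp₂⟩ := hev
  refine ⟨max 2 (max p₁ p₂), le_max_left _ _, fun p hp => ?_⟩
  have hp2 : 2 ≤ p := (le_max_left _ _).trans hp
  obtain ⟨h1, h2, h3, _⟩ := hp₁ p ((le_max_left _ _).trans ((le_max_right _ _).trans hp))
  obtain ⟨h4, h5, h6⟩ := hp₂ p ((le_max_right _ _).trans ((le_max_right _ _).trans hp))
  have hx2 : (2 : ℝ) ≤ (p : ℝ) := by exact_mod_cast hp2
  have hDp : ∀ D : ℕ, D ≤ 4 * p → (D : ℝ) ≤ 4 * (p : ℝ) := fun D hD => by exact_mod_cast hD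
  set x : ℝ := (p : ℝ) with hx
  have hx1 : 1 ≤ x := by linarith
  have hx0 : 0 < x := lt_of_lt_of_le one_pos hx1
  have hlog : 0 < Real.log x := Real.log_pos (by linarith)
  have hsq : √x = x ^ (1 / 2 : ℝ) := Real.sqrt_eq_rpow x
  have hR2 : (x ^ (1 / 4 - ε)) ^ 2 = x ^ (1 / 2 - 2 * ε) := by
    rw [← Real.rpow_natCast, ← Real.rpow_mul hx0.le]
    congr 1
    push_cast
    ring
  refine ⟨h1, h2, h3, h6, ?_, ?_⟩
  · rw [hsq]
    linarith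
  intro n D hn hnx hD hDx
  have hn1 : (n : ℝ) ^ (ε / 8) ≤ x ^ (ε / 8) := by
    refine Real.rpow_le_rpow (by positivity) ?_ (by positivity)
    refine hnx.trans ?_
    rw [Real.sqrt_le_left hx0.le]
    nlinarith
  have hd : (n.divisors.card : ℝ) ≤ C * x ^ (ε / 8) :=
    (hC n hn).trans (mul_le_mul_of_nonneg_left hn1 hC0)
  have hD1 : (D : ℝ) ^ (ε / 8) ≤ 4 * x ^ (ε / 8) := by
    calc (D : ℝ) ^ (ε / 8) ≤ (4 * x) ^ (ε / 8) :=
          Real.rpow_le_rpow (by positivity) (hDp D hDx) (by positivity)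
      _ = (4 : ℝ) ^ (ε / 8) * x ^ (ε / 8) := Real.mul_rpow (by norm_num) hx0.le
      _ ≤ (4 : ℝ) ^ (1 : ℝ) * x ^ (ε / 8) := by
          refine mul_le_mul_of_nonneg_right ?_ (by positivity)
          exact Real.rpow_le_rpow_of_exponent_le (by norm_num) (by linarith)
      _ = 4 * x ^ (ε / 8) := by rw [Real.rpow_one]
  have hdD : (D.divisors.card : ℝ) ≤ C * (4 * x ^ (ε / 8)) :=
    (hC D hD).trans (mul_le_mul_of_nonneg_left hD1 hC0)
  set L : ℝ := 1 + Real.log x with hL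
  have hL1 : 1 ≤ L := by linarith
  set B : ℝ := 192 * K ^ 2 * (16 * C ^ 3) / c with hB
  have hB0 : 0 ≤ B := by positivity
  have h7 : B * L ^ 2 ≤ x ^ ε := by
    have h8 : ((B + 1) * L) ^ 2 ≤ (x ^ (ε / 2)) ^ 2 := pow_le_pow_left₀ (by positivity) h4 2
    have e2 : (x ^ (ε / 2)) ^ 2 = x ^ ε := by
      rw [← Real.rpow_natCast, ← Real.rpow_mul hx0.le]
      congr 1
      push_cast
      ring
    rw [e2, mul_pow] at h8
    refine le_trans ?_ h8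
    refine mul_le_mul_of_nonneg_right ?_ (by positivity)
    nlinarith
  have h9 : 192 * K ^ 2 * (16 * C ^ 3) * L ^ 2 ≤ c * x ^ ε := by
    calc 192 * K ^ 2 * (16 * C ^ 3) * L ^ 2 = c * (B * L ^ 2) := by
          rw [hB]
          field_simp
      _ ≤ c * x ^ ε := mul_le_mul_of_nonneg_left h7 hc.le
  have h10 : (2 * Real.log x + 1) * Real.log x ≤ 2 * L ^ 2 := by
    have a1 : 2 * Real.log x + 1 ≤ 2 * L := by linarith
    have a2 : Real.log x ≤ L := by linarith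
    calc (2 * Real.log x + 1) * Real.log x ≤ (2 * L) * L := by gcongr
      _ = 2 * L ^ 2 := by ring
  have e1 : x ^ (1 / 2 - 2 * ε) * x ^ (1 / 2 : ℝ) * (x ^ (ε / 8) * (x ^ (ε / 8)) ^ 2) * x ^ ε ≤ x := by
    have e3 : (x ^ (ε / 8)) ^ 2 = x ^ (ε / 4) := by
      rw [← Real.rpow_natCast, ← Real.rpow_mul hx0.le]
      congr 1
      push_cast
      ring
    rw [e3, ← Real.rpow_add hx0, ← Real.rpow_add hx0, ← Real.rpow_add hx0, ← Real.rpow_add hx0]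
    conv_rhs => rw [← Real.rpow_one x]
    refine Real.rpow_le_rpow_of_exponent_le hx1 ?_
    linarith
  rw [hR2, hsq, div_div, div_mul_eq_mul_div, div_le_div_iff₀ hx0 (by positivity)]
  calc 96 * K * x ^ (1 / 2 - 2 * ε) * (n.divisors.card : ℝ) *
        ((2 * Real.log x + 1) * (K * (D.divisors.card : ℝ) ^ 2)) * (Real.log x * x ^ (1 / 2 : ℝ))
      ≤ 96 * K * x ^ (1 / 2 - 2 * ε) * (C * x ^ (ε / 8)) *
        ((2 * Real.log x + 1) * (K * (C * (4 * x ^ (ε / 8))) ^ 2)) * (Real.log x * x ^ (1 / 2 : ℝ)) := by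
        gcongr
    _ = (96 * K ^ 2 * (16 * C ^ 3) * ((2 * Real.log x + 1) * Real.log x)) *
        (x ^ (1 / 2 - 2 * ε) * x ^ (1 / 2 : ℝ) * (x ^ (ε / 8) * (x ^ (ε / 8)) ^ 2)) := by ring
    _ ≤ (96 * K ^ 2 * (16 * C ^ 3) * (2 * L ^ 2)) *
        (x ^ (1 / 2 - 2 * ε) * x ^ (1 / 2 : ℝ) * (x ^ (ε / 8) * (x ^ (ε / 8)) ^ 2)) := by
        gcongr
    _ = (192 * K ^ 2 * (16 * C ^ 3) * L ^ 2) *
        (x ^ (1 / 2 - 2 * ε) * x ^ (1 / 2 : ℝ) * (x ^ (ε / 8) * (x ^ (ε / 8)) ^ 2)) := by ring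
    _ ≤ (c * x ^ ε) * (x ^ (1 / 2 - 2 * ε) * x ^ (1 / 2 : ℝ) * (x ^ (ε / 8) * (x ^ (ε / 8)) ^ 2)) :=
        mul_le_mul_of_nonneg_right h9 (by positivity)
    _ = c * (x ^ (1 / 2 - 2 * ε) * x ^ (1 / 2 : ℝ) * (x ^ (ε / 8) * (x ^ (ε / 8)) ^ 2) * x ^ ε) := by ring
    _ ≤ c * x := mul_le_mul_of_nonneg_left e1 hc.le

end Pool.Agent.JC
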