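import Pool.Agent.Lib_MP_f1937f_jc.GroupB
import Pool.Agent.Lib_MP_f1937f_jd.TermF
import Pool.Agent.Lib_MP_f1937f_jd.MainF
import Pool.Agent.Lib_MP_f1937f_jb.SigS
import Pool.Agent.Lib_MP_f1937f_jb.Wts

/-!
# The base estimate, uniformly in the family
-/

set_option autoImplicit false

namespace Pool.Agent.JC

open Finset Pool.Agent.TB Pool.Agent.JB Pool.Agent.JD

/-- PIECE [JC-A2] (about 200 lines, adapt the equidistribution part of `base_F`, `Lib_MP_f1937f_jd/BaseF.lean`). PROOF. `term_F` for every `h`, `group_B` (`B q (k + 1) √(K q) ≤ B √K q² (k + 1)`), `main_F` with `B := B` (`C f t ≤ f u t ≤ B f`, `Fam.le`), `lam` of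
`Wt 1`, `sig_sum`: `(1 / (K q)) B 2 Cw₀ (1 + log q) q³ / H³ ≤ 2000 B Cw₀ q² (1 + log q) / √p`, `1 + log q ≤ 3 log p`; `1 ≤ √K`. -/
theorem base_B (Cw₀ c : ℝ) (hC : 0 ≤ Cw₀) : ∃ E : ℝ, 0 ≤ E ∧ ∀ (K H p : ℕ) (w : ℕ → ℝ) (B : ℝ) (u : ℤ → ℝ) (C : ℕ → ℤ → ℝ),
    Fam K p u C → (∀ t, u t ≤ B) → 0 < K → 1 ≤ H → Wt 1 H Cw₀ c w → 2 ≤ p → (∀ h ∈ Icc 1 (3 * H), p.Coprime h) →
    ((3 * H : ℕ) : ℝ) ^ 3 ≤ √(p : ℝ) → √(p : ℝ) ≤ 1000 * (H : ℝ) ^ 3 → ∀ q : ℕ, 0 < q → q ≤ p → p.Coprime q → ∀ (t : ℤ) (k : ℕ),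
      |∑ a ∈ (V p).filter (fun a => ((K * q : ℕ) : ℤ) ∣ a - t), (∑ h ∈ Icc 1 (3 * H), w h * C h a) * sw p a * Uk k (xx p a) -
          (if k = 0 then Dn K C q t else 0)| ≤
        E * B * √(K : ℝ) * (q : ℝ) ^ 2 * (k + 1) * (Real.log p / √(p : ℝ)) := by
  classical
  obtain ⟨C', hC', hgr⟩ := group_B Cw₀ c hC
  refine ⟨2 * C' + 6000 * Cw₀, by positivity, ?_⟩
  intro K H p w B u C hF huB hK hH hW hp2 hcop hH3 hHs q hq hqp hpcq t k
  have hKr : (0 : ℝ) < K := by exact_mod_cast hK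
  have hK1 : (1 : ℝ) ≤ K := by exact_mod_cast hK
  have hp1 : 1 ≤ p := by omega
  have hpr : (2 : ℝ) ≤ p := by exact_mod_cast hp2
  have hs0 : 0 < √(p : ℝ) := Real.sqrt_pos.2 (by linarith)
  have hHr : (1 : ℝ) ≤ H := by exact_mod_cast hH
  have hlogp : 1 / 2 ≤ Real.log p := by
    have h3 : Real.log 2 ≤ Real.log p := Real.log_le_log (by norm_num) hpr
    have := Real.log_two_gt_d9
    linarith
  have hB0 : 0 ≤ B := by
    have h1 := hF.nonneg 1 0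
    rw [hF.one] at h1
    exact h1.trans (huB 0)
  have hsK : 1 ≤ √(K : ℝ) := by
    rw [Real.one_le_sqrt]
    exact hK1
  obtain ⟨m, hm⟩ : ∃ m, m = K * q := ⟨_, rfl⟩
  rw [← hm]
  have hq1 : (1 : ℝ) ≤ q := by exact_mod_cast hq
  have hm0 : 0 < m := hm ▸ Nat.mul_pos hK hq
  have hmr : (0 : ℝ) < m := by exact_mod_cast hm0
  have hmeq : (m : ℝ) = K * q := by rw [hm]; push_cast; ring
  obtain ⟨F, hFf⟩ : ∃ F : ℤ → ℝ, F = fun a => sw p a * Uk k (xx p a) := ⟨_, rfl⟩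
  obtain ⟨κ, hκ⟩ : ∃ κ : ℝ, κ = if k = 0 then 1 else 0 := ⟨_, rfl⟩
  have hκ0 : 0 ≤ κ ∧ κ ≤ 1 := by
    rw [hκ]
    split_ifs <;> norm_num
  have hEE : ∀ (L : ℕ) (b : ℤ), ∑ a ∈ (V p).filter (fun a => (L : ℤ) ∣ a - b), F a - κ / (L : ℝ) = EE p k L b := by
    intro L b
    unfold EE
    rw [hFf, hκ]
    congr 1
    split_ifs
    · rfl
    · rw [zero_div]
  have hterm : ∀ h : ℕ, ∃ b : ℤ, h ∈ Icc 1 (3 * H) →
      |∑ a ∈ (V p).filter (fun a => (m : ℤ) ∣ a - t), C h a * F a - C (Nat.gcd h q) t / m * κ| ≤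
      ((h / Nat.gcd h q : ℕ) : ℝ) * C (Nat.gcd h q) t * |EE p k (h / Nat.gcd h q * m) b| := by
    intro h
    by_cases hh : h ∈ Icc 1 (3 * H)
    · have hh' := mem_Icc.1 hh
      obtain ⟨b, hb⟩ := term_F K p u C hF hK h q (by omega) hq (hcop h hh) t (V p) F κ
      rw [← hm, hEE] at hb
      exact ⟨b, fun _ => hb⟩
    · exact ⟨0, fun h' => absurd h' hh⟩
  choose cf hcf using hterm
  have hgroup := hgr K H p k q w B u C hF huB hK hH hW hp1 hcop hH3 hq t cf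
  rw [← hm] at hgroup
  -- the sum
  have hsum : ∑ a ∈ (V p).filter (fun a => (m : ℤ) ∣ a - t),
      (∑ h ∈ Icc 1 (3 * H), w h * C h a) * sw p a * Uk k (xx p a) =
      ∑ h ∈ Icc 1 (3 * H), w h * ∑ a ∈ (V p).filter (fun a => (m : ℤ) ∣ a - t), C h a * F a := by
    have e1 : ∀ a ∈ (V p).filter (fun a => (m : ℤ) ∣ a - t),
        (∑ h ∈ Icc 1 (3 * H), w h * C h a) * sw p a * Uk k (xx p a) =
        ∑ h ∈ Icc 1 (3 * H), w h * (C h a * F a) := by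
      intro a _
      rw [hFf, mul_assoc, sum_mul]
      refine sum_congr rfl fun h _ => ?_
      ring
    rw [sum_congr rfl e1, sum_comm]
    refine sum_congr rfl fun h _ => ?_
    rw [mul_sum]
  have hA : |∑ h ∈ Icc 1 (3 * H), w h * ∑ a ∈ (V p).filter (fun a => (m : ℤ) ∣ a - t), C h a * F a -
      ∑ h ∈ Icc 1 (3 * H), w h * (C (Nat.gcd h q) t / m * κ)| ≤
      C' * B * q * (k + 1) * √(m : ℝ) / √(p : ℝ) := by
    refine le_trans ?_ hgroup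
    rw [← sum_sub_distrib]
    refine (abs_sum_le_sum_abs _ _).trans (sum_le_sum fun h hh => ?_)
    rw [← mul_sub, abs_mul, abs_of_nonneg (hW.nonneg h), mul_assoc]
    exact mul_le_mul_of_nonneg_left (hcf h hh) (hW.nonneg h)
  have hB : ∑ h ∈ Icc 1 (3 * H), w h * (C (Nat.gcd h q) t / m * κ) =
      κ / m * ∑ h ∈ Icc 1 (3 * H), w h * C (Nat.gcd h q) t := by
    rw [mul_sum]
    refine sum_congr rfl fun h _ => ?_
    ring
  obtain ⟨S, hS⟩ : ∃ S : ℝ, S = ∑ g ∈ q.divisors, ((q / g).totient : ℝ) / q * C g t := ⟨_, rfl⟩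
  have hD : |∑ h ∈ Icc 1 (3 * H), w h * C (Nat.gcd h q) t - S| ≤
      2000 * B * Cw₀ * (1 + Real.log q) * (q : ℝ) ^ 3 / √(p : ℝ) := by
    have hCB : ∀ f ∈ q.divisors, 0 ≤ C f t ∧ C f t ≤ B * f := by
      intro f hf
      have hfq := Nat.dvd_of_mem_divisors hf
      have hf0 := Nat.pos_of_mem_divisors hf
      refine ⟨hF.nonneg f t, (hF.le hK f t hf0 (hpcq.coprime_dvd_right hfq)).trans ?_⟩
      rw [mul_comm B]
      exact mul_le_mul_of_nonneg_left (huB t) (Nat.cast_nonneg f)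
    rw [hS]
    refine (main_F (fun g => C g t) B q hq hCB (3 * H) w).trans ?_
    have h1 : ∀ r ∈ q.divisors, B * (∑ f ∈ r.divisors, (f : ℝ)) / r *
        |(r : ℝ) * ∑ h ∈ (Icc 1 (3 * H)).filter (r ∣ ·), w h - 1| ≤
        B * Cw₀ / (H : ℝ) ^ 3 * ((∑ f ∈ r.divisors, (f : ℝ)) / r * (r : ℝ) ^ 3) := by
      intro r hr
      have hr0 : 0 < r := Nat.pos_of_mem_divisors hr
      have h2 := hW.lam r hr0 (Nat.coprime_one_right r)
      have h3 : 0 ≤ B * (∑ f ∈ r.divisors, (f : ℝ)) / r := by positivity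
      calc _ ≤ B * (∑ f ∈ r.divisors, (f : ℝ)) / r * (Cw₀ * ((r : ℝ) / H) ^ 3) :=
            mul_le_mul_of_nonneg_left h2 h3
        _ = _ := by
          rw [div_pow]
          ring
    refine (sum_le_sum h1).trans ?_
    rw [← mul_sum]
    have h4 := sig_sum q hq
    have hH30 : (0 : ℝ) < (H : ℝ) ^ 3 := by positivity
    have h5 : B * Cw₀ / (H : ℝ) ^ 3 ≤ 1000 * (B * Cw₀) / √(p : ℝ) := by
      rw [div_le_div_iff₀ hH30 hs0]
      have h6 : 0 ≤ B * Cw₀ := by positivity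
      nlinarith
    have hlogq : 0 ≤ Real.log q := Real.log_nonneg hq1
    calc _ ≤ 1000 * (B * Cw₀) / √(p : ℝ) * (2 * (1 + Real.log q) * (q : ℝ) ^ 3) :=
          mul_le_mul h5 h4 (sum_nonneg fun r _ => by positivity) (by positivity)
      _ = _ := by ring
  -- conclusion
  have htarget : (if k = 0 then Dn K C q t else 0) = κ / m * S := by
    rw [hκ, hS, hm]
    unfold Dn
    split_ifs
    · ring
    · ring
  rw [hsum, htarget]
  rw [hB] at hA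
  have hlogq : Real.log q ≤ Real.log p := Real.log_le_log (by linarith) (by exact_mod_cast hqp)
  have hlogq0 : 0 ≤ Real.log q := Real.log_nonneg hq1
  have hk0 : (0 : ℝ) ≤ k := Nat.cast_nonneg k
  obtain ⟨T, hT⟩ : ∃ T : ℝ, T = (q : ℝ) ^ 2 * (k + 1) := ⟨_, rfl⟩
  have hsq : √(q : ℝ) ≤ q := by
    rw [Real.sqrt_le_left (by linarith)]
    nlinarith
  have hT1 : q * (k + 1) * √(m : ℝ) ≤ √(K : ℝ) * T := by
    rw [hmeq, Real.sqrt_mul hKr.le, hT]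
    calc (q : ℝ) * (k + 1) * (√(K : ℝ) * √(q : ℝ)) = √(K : ℝ) * (q * √(q : ℝ)) * (k + 1) := by ring
      _ ≤ √(K : ℝ) * (q * q) * (k + 1) := by gcongr
      _ = _ := by ring
  have hT2 : (q : ℝ) ^ 3 / m ≤ T := by
    rw [hT, hmeq, div_le_iff₀ (by positivity)]
    calc (q : ℝ) ^ 3 = (q : ℝ) ^ 2 * 1 * (1 * q) := by ring
      _ ≤ (q : ℝ) ^ 2 * (k + 1) * (K * q) := by
          gcongr
          linarith
  have hT0 : 0 ≤ T := by rw [hT]; positivity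
  have hD' : |κ / m * ∑ h ∈ Icc 1 (3 * H), w h * C (Nat.gcd h q) t - κ / m * S| ≤
      6000 * B * Cw₀ * T * (Real.log p / √(p : ℝ)) := by
    rw [← mul_sub, abs_mul, abs_of_nonneg (div_nonneg hκ0.1 hmr.le)]
    calc κ / m * |∑ h ∈ Icc 1 (3 * H), w h * C (Nat.gcd h q) t - S| ≤
        1 / m * (2000 * B * Cw₀ * (1 + Real.log q) * (q : ℝ) ^ 3 / √(p : ℝ)) := by
          gcongr
          exact hκ0.2
      _ = 2000 * B * Cw₀ * (1 + Real.log q) * ((q : ℝ) ^ 3 / m) / √(p : ℝ) := by ring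
      _ ≤ 2000 * B * Cw₀ * (3 * Real.log p) * T / √(p : ℝ) := by
          have e3 : 1 + Real.log q ≤ 3 * Real.log p := by linarith
          gcongr
      _ = _ := by ring
  have hA' : |∑ h ∈ Icc 1 (3 * H), w h * ∑ a ∈ (V p).filter (fun a => (m : ℤ) ∣ a - t), C h a * F a -
      κ / m * ∑ h ∈ Icc 1 (3 * H), w h * C (Nat.gcd h q) t| ≤
      2 * C' * B * √(K : ℝ) * T * (Real.log p / √(p : ℝ)) := by
    refine hA.trans ?_
    calc C' * B * q * (k + 1) * √(m : ℝ) / √(p : ℝ) = C' * B * (q * (k + 1) * √(m : ℝ)) * 1 / √(p : ℝ) := by ring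
      _ ≤ C' * B * (√(K : ℝ) * T) * (2 * Real.log p) / √(p : ℝ) := by
          have e4 : 1 ≤ 2 * Real.log p := by linarith
          gcongr
      _ = _ := by ring
  have e5 := abs_sub_le (∑ h ∈ Icc 1 (3 * H), w h * ∑ a ∈ (V p).filter (fun a => (m : ℤ) ∣ a - t), C h a * F a)
    (κ / m * ∑ h ∈ Icc 1 (3 * H), w h * C (Nat.gcd h q) t) (κ / m * S)
  have hlp : 0 ≤ Real.log p / √(p : ℝ) := div_nonneg (by linarith) hs0.le
  calc _ ≤ _ := e5
    _ ≤ 2 * C' * B * √(K : ℝ) * T * (Real.log p / √(p : ℝ)) + 6000 * B * Cw₀ * T * (Real.log p / √(p : ℝ)) :=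
        add_le_add hA' hD'
    _ = 2 * C' * B * √(K : ℝ) * T * (Real.log p / √(p : ℝ)) + 1 * (6000 * B * Cw₀ * T * (Real.log p / √(p : ℝ))) := by
        ring
    _ ≤ 2 * C' * B * √(K : ℝ) * T * (Real.log p / √(p : ℝ)) +
        √(K : ℝ) * (6000 * B * Cw₀ * T * (Real.log p / √(p : ℝ))) := by
        gcongr
    _ = _ := by
        rw [hT]
        ring

end Pool.Agent.JC
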