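import Pool.Agent.Lib_MP_f1937f_jc.Lifts

/-!
# The number of the elements of given determinant
-/

set_option autoImplicit false

namespace Pool.Agent.JC

open Finset Pool.Agent.TB Pool.Agent.JB Pool.Agent.JD

private theorem CardG_det_map (M m : ℕ) (h : M ∣ m) (g : GL (Fin 2) (ZMod m)) :
    Matrix.GeneralLinearGroup.det (Matrix.GeneralLinearGroup.map (ZMod.castHom h (ZMod M)) g) =
      Units.map (ZMod.castHom h (ZMod M)).toMonoidHom (Matrix.GeneralLinearGroup.det g) := by
  ext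
  simp only [Matrix.GeneralLinearGroup.val_det_apply, Units.coe_map]
  exact (RingHom.map_det (ZMod.castHom h (ZMod M)) g.val).symm

/-- `diag (v, 1)` -/
private noncomputable def CardG_dg (m : ℕ) (v : (ZMod m)ˣ) : GL (Fin 2) (ZMod m) :=
  Matrix.GeneralLinearGroup.mk' (Matrix.diagonal ![(v : ZMod m), 1]) (by
    have h : (Matrix.diagonal ![(v : ZMod m), 1]).det = (v : ZMod m) := by
      rw [Matrix.det_diagonal, Fin.prod_univ_two]
      simp
    rw [h]
    exact v.invertible)

private theorem CardG_dg_det (m : ℕ) (v : (ZMod m)ˣ) :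
    Matrix.GeneralLinearGroup.det (CardG_dg m v) = v := by
  ext
  rw [Matrix.GeneralLinearGroup.val_det_apply]
  change (Matrix.diagonal ![(v : ZMod m), 1]).det = (v : ZMod m)
  rw [Matrix.det_diagonal, Fin.prod_univ_two]
  simp

private theorem CardG_dg_map (M m : ℕ) (h : M ∣ m) (v : (ZMod m)ˣ)
    (hv : Units.map (ZMod.castHom h (ZMod M)).toMonoidHom v = 1) :
    Matrix.GeneralLinearGroup.map (ZMod.castHom h (ZMod M)) (CardG_dg m v) = 1 := by
  ext i j
  rw [Matrix.GeneralLinearGroup.map_apply]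
  change (ZMod.castHom h (ZMod M)) ((Matrix.diagonal ![(v : ZMod m), 1]) i j) = (1 : Matrix _ _ _) i j
  have h1 : (ZMod.castHom h (ZMod M)) (v : ZMod m) = 1 := by
    have := congrArg Units.val hv
    exact this
  fin_cases i <;> fin_cases j <;> simp [Matrix.diagonal, h1, ZMod.cast_one h]

/-- correcting the determinant of a lift -/
private theorem CardG_lift (M m : ℕ) (hm : 0 < m) (h : M ∣ m) (g : GL (Fin 2) (ZMod M)) (d : (ZMod m)ˣ)
    (hd : Matrix.GeneralLinearGroup.det g = Units.map (ZMod.castHom h (ZMod M)).toMonoidHom d) :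
    ∃ g₀ : GL (Fin 2) (ZMod m), Matrix.GeneralLinearGroup.map (ZMod.castHom h (ZMod M)) g₀ = g ∧
      Matrix.GeneralLinearGroup.det g₀ = d := by
  obtain ⟨γ, hγ⟩ := gl_surj m M hm h g
  set v := d * (Matrix.GeneralLinearGroup.det γ)⁻¹ with hv
  refine ⟨CardG_dg m v * γ, ?_, ?_⟩
  · rw [map_mul, hγ, CardG_dg_map M m h v ?_, one_mul]
    rw [hv, map_mul, map_inv, ← CardG_det_map, hγ, hd, mul_inv_cancel]
  · rw [map_mul, CardG_dg_det, hv, inv_mul_cancel_right]

/-- PIECE [JC-G2] (about 150 lines). PROOF. `ι = |SL₂(ℤ/M)| / |G ∩ SL₂(ℤ/M)|`. For a unit `d` modulo `m` there is `g₀` of determinant `d` which reduces into `G` (`hG`, `gl_surj`, `diag (v, 1)` with `v = 1` modulo `M`); multiplication by `g₀` maps the matrices of determinant `1` (which reduce into `G`) bijectively to those of determinant `d`. For the determinant `1` :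
all fibres of `SL₂(ℤ/m) → SL₂(ℤ/M)` have the same cardinality (a surjective homomorphism, by `gl_surj` and `diag (v, 1)` or `sl_surj`). -/
theorem card_G (M : ℕ) (hM : 0 < M) (G : Subgroup (GL (Fin 2) (ZMod M)))
    (hG : ∀ d : (ZMod M)ˣ, ∃ g ∈ G, g.val.det = (d : ZMod M)) :
    ∃ ι : ℝ, 1 ≤ ι ∧ ∀ (m : ℕ) (h : M ∣ m), 0 < m → ∀ d : (ZMod m)ˣ,
      (Nat.card {g' : GL (Fin 2) (ZMod m) // g'.val.det = (d : ZMod m)} : ℝ) =
        ι * (Nat.card {g' : GL (Fin 2) (ZMod m) // Matrix.GeneralLinearGroup.map (ZMod.castHom h (ZMod M)) g' ∈ G ∧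
          g'.val.det = (d : ZMod m)} : ℝ) := by
  have : NeZero M := ⟨hM.ne'⟩
  set SM : Subgroup (GL (Fin 2) (ZMod M)) :=
    (Matrix.GeneralLinearGroup.det : GL (Fin 2) (ZMod M) →* (ZMod M)ˣ).ker with hSM
  have hidx : (G.subgroupOf SM).index ≠ 0 := Subgroup.index_ne_zero_of_finite
  refine ⟨((G.subgroupOf SM).index : ℝ), by exact_mod_cast Nat.one_le_iff_ne_zero.mpr hidx, ?_⟩
  intro m h hm d
  have : NeZero m := ⟨hm.ne'⟩
  set Sm : Subgroup (GL (Fin 2) (ZMod m)) :=
    (Matrix.GeneralLinearGroup.det : GL (Fin 2) (ZMod m) →* (ZMod m)ˣ).ker with hSm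
  set π := Matrix.GeneralLinearGroup.map (n := Fin 2) (ZMod.castHom h (ZMod M)) with hπ
  have hmaps : ∀ x : Sm, π x ∈ SM := by
    intro x
    rw [hSM, MonoidHom.mem_ker, hπ, CardG_det_map]
    have hx : Matrix.GeneralLinearGroup.det (x : GL (Fin 2) (ZMod m)) = 1 := x.2
    rw [hx, map_one]
  let f : Sm →* SM := (π.comp Sm.subtype).codRestrict SM hmaps
  have hf : Function.Surjective f := by
    rintro ⟨y, hy⟩
    obtain ⟨g₀, h1, h2⟩ := CardG_lift M m hm h y 1 (by
      rw [map_one]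
      exact hy)
    exact ⟨⟨g₀, h2⟩, Subtype.ext h1⟩
  -- a matrix of determinant `d` which reduces into `G`
  obtain ⟨g, hgG, hgd⟩ := hG (Units.map (ZMod.castHom h (ZMod M)).toMonoidHom d)
  obtain ⟨g₀, h1, h2⟩ := CardG_lift M m hm h g d (Units.ext hgd)
  have hdet : ∀ x : GL (Fin 2) (ZMod m), x.val.det = (d : ZMod m) ↔
      Matrix.GeneralLinearGroup.det x = d := by
    intro x
    constructor
    · intro hx
      exact Units.ext hx
    · intro hx
      have := congrArg Units.val hx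
      exact this
  let eA : {g' : GL (Fin 2) (ZMod m) // g'.val.det = (d : ZMod m)} ≃ Sm :=
    { toFun := fun x => ⟨g₀⁻¹ * x.1, by
        rw [hSm, MonoidHom.mem_ker, map_mul, map_inv, h2, (hdet _).mp x.2, inv_mul_cancel]⟩
      invFun := fun x => ⟨g₀ * x.1, (hdet _).mpr (by
        have hx : Matrix.GeneralLinearGroup.det (x : GL (Fin 2) (ZMod m)) = 1 := x.2
        rw [map_mul, h2, hx, mul_one])⟩
      left_inv := fun x => by
        ext1
        simp
      right_inv := fun x => by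
        ext1
        simp }
  let eB : {g' : GL (Fin 2) (ZMod m) // π g' ∈ G ∧ g'.val.det = (d : ZMod m)} ≃
      ((G.subgroupOf SM).comap f) :=
    { toFun := fun x => ⟨⟨g₀⁻¹ * x.1, by
        rw [hSm, MonoidHom.mem_ker, map_mul, map_inv, h2, (hdet _).mp x.2.2, inv_mul_cancel]⟩, by
        rw [Subgroup.mem_comap, Subgroup.mem_subgroupOf]
        change π (g₀⁻¹ * x.1) ∈ G
        rw [map_mul, map_inv, h1]
        exact G.mul_mem (G.inv_mem hgG) x.2.1⟩
      invFun := fun x => ⟨g₀ * x.1.1, by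
        have h3 := x.2
        rw [Subgroup.mem_comap, Subgroup.mem_subgroupOf] at h3
        have h4 : π x.1.1 ∈ G := h3
        rw [map_mul, h1]
        exact G.mul_mem hgG h4, (hdet _).mpr (by
        have hx : Matrix.GeneralLinearGroup.det (x.1 : GL (Fin 2) (ZMod m)) = 1 := x.1.2
        rw [map_mul, h2, hx, mul_one])⟩
      left_inv := fun x => by
        ext1
        simp
      right_inv := fun x => by
        ext1
        ext1
        simp }
  rw [Nat.card_congr eA, Nat.card_congr eB,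
    ← Subgroup.card_mul_index ((G.subgroupOf SM).comap f), Subgroup.index_comap_of_surjective _ hf]
  push_cast
  ring

/-- PROOF. As above there is `g₀` of determinant `d` reducing into `G`. -/
theorem card_G_pos (M : ℕ) (hM : 0 < M) (G : Subgroup (GL (Fin 2) (ZMod M)))
    (hG : ∀ d : (ZMod M)ˣ, ∃ g ∈ G, g.val.det = (d : ZMod M)) (m : ℕ) (h : M ∣ m) (hm : 0 < m) (d : (ZMod m)ˣ) :
    0 < Nat.card {g' : GL (Fin 2) (ZMod m) // Matrix.GeneralLinearGroup.map (ZMod.castHom h (ZMod M)) g' ∈ G ∧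
      g'.val.det = (d : ZMod m)} := by
  have : NeZero M := ⟨hM.ne'⟩
  have : NeZero m := ⟨hm.ne'⟩
  obtain ⟨g, hgG, hgd⟩ := hG (Units.map (ZMod.castHom h (ZMod M)).toMonoidHom d)
  obtain ⟨g₀, h1, h2⟩ := CardG_lift M m hm h g d (Units.ext hgd)
  have hne : Nonempty {g' : GL (Fin 2) (ZMod m) //
      Matrix.GeneralLinearGroup.map (ZMod.castHom h (ZMod M)) g' ∈ G ∧ g'.val.det = (d : ZMod m)} :=
    ⟨⟨g₀, by rw [h1]; exact hgG, congrArg Units.val h2⟩⟩
  exact Nat.card_pos

end Pool.Agent.JC
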