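import Pool.Agent.Lib_MP_f1937f_jc.HaarD

/-!
# The densities of the classes, sum
-/

set_option autoImplicit false

namespace Pool.Agent.JC

open Finset Pool.Agent.TB Pool.Agent.JB Pool.Agent.JD

/-- the lifts modulo `m²` of determinant `p` of the matrices with a property -/
private theorem hi_count (m : ℕ) (hm : 0 < m) (p : ℤ) (hp : IsCoprime p (m : ℤ)) (h : m ∣ m ^ 2)
    (P : GL (Fin 2) (ZMod m) → Prop) :
    Nat.card {A : GL (Fin 2) (ZMod (m ^ 2)) // A.val.det = (p : ZMod (m ^ 2)) ∧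
        P (Matrix.GeneralLinearGroup.map (ZMod.castHom h (ZMod m)) A)} =
      m ^ 3 * Nat.card {B : GL (Fin 2) (ZMod m) // B.val.det = (p : ZMod m) ∧ P B} := by
  classical
  have i1 : NeZero m := ⟨hm.ne'⟩
  have hm2 : 0 < m ^ 2 := pow_pos hm 2
  have i2 : NeZero (m ^ 2) := ⟨hm2.ne'⟩
  set φ := ZMod.castHom h (ZMod m) with hφ
  have hφp : φ (p : ZMod (m ^ 2)) = (p : ZMod m) := map_intCast φ p
  have hdet : ∀ A : GL (Fin 2) (ZMod (m ^ 2)), A.val.det = (p : ZMod (m ^ 2)) →
      (Matrix.GeneralLinearGroup.map φ A).val.det = (p : ZMod m) := by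
    intro A hA
    have e : (Matrix.GeneralLinearGroup.map φ A).val.det = φ A.val.det := by
      rw [Matrix.det_fin_two, Matrix.det_fin_two]
      rw [map_sub, map_mul, map_mul]
      rfl
    rw [e, hA, hφp]
  have e1 : Nat.card {A : GL (Fin 2) (ZMod (m ^ 2)) // A.val.det = (p : ZMod (m ^ 2)) ∧
        P (Matrix.GeneralLinearGroup.map φ A)} =
      Nat.card (Σ B : {B : GL (Fin 2) (ZMod m) // B.val.det = (p : ZMod m) ∧ P B},
        {A : GL (Fin 2) (ZMod (m ^ 2)) // Matrix.GeneralLinearGroup.map φ A = B.1 ∧ A.val.det = (p : ZMod (m ^ 2))}) := by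
    refine Nat.card_congr
      { toFun := fun A => ⟨⟨Matrix.GeneralLinearGroup.map φ A.1, hdet A.1 A.2.1, A.2.2⟩, ⟨A.1, rfl, A.2.1⟩⟩
        invFun := fun x => ⟨x.2.1, x.2.2.2, by rw [x.2.2.1]; exact x.1.2.2⟩
        left_inv := fun A => rfl
        right_inv := ?_ }
    rintro ⟨⟨B, hB⟩, ⟨A, hA, hA'⟩⟩
    have hA1 : Matrix.GeneralLinearGroup.map φ A = B := hA
    subst hA1
    rfl
  rw [e1, Nat.card_sigma]
  have hpu : IsUnit (p : ZMod (m ^ 2)) := by
    have hp2 : IsCoprime p ((m ^ 2 : ℕ) : ℤ) := by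
      push_cast
      exact hp.pow_right
    obtain ⟨a, b, hab⟩ := hp2
    refine IsUnit.of_mul_eq_one (a : ZMod (m ^ 2)) ?_
    have e := congrArg (Int.cast : ℤ → ZMod (m ^ 2)) hab
    push_cast at e
    have e0 : (m : ZMod (m ^ 2)) ^ 2 = 0 := by
      have := ZMod.natCast_self (m ^ 2)
      push_cast at this
      exact this
    rw [e0, mul_zero, add_zero] at e
    rw [mul_comm]
    exact e
  have e2 : ∀ B : {B : GL (Fin 2) (ZMod m) // B.val.det = (p : ZMod m) ∧ P B},
      Nat.card {A : GL (Fin 2) (ZMod (m ^ 2)) // Matrix.GeneralLinearGroup.map φ A = B.1 ∧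
        A.val.det = (p : ZMod (m ^ 2))} = m ^ 3 := by
    intro B
    have e3 := fib3 m (m ^ 2) h hm2 (fun l hl hlm => hl.dvd_of_dvd_pow hlm) B.1 (p : ZMod (m ^ 2)) hpu
      (by rw [← hφ, hφp, B.2.1])
    rw [e3, pow_two, Nat.mul_div_cancel_left m hm]
  rw [Finset.sum_congr rfl (fun B _ => e2 B), Finset.sum_const, Finset.card_univ, smul_eq_mul, mul_comm,
    Nat.card_eq_fintype_card]

private theorem hi_ind {α : Type} [Fintype α] (D Q : α → Prop) [DecidablePred D] [DecidablePred Q] :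
    ∑ A ∈ Finset.univ.filter D, (if Q A then (1 : ℝ) else 0) = (Nat.card {A : α // D A ∧ Q A} : ℝ) := by
  rw [Finset.sum_boole, Finset.filter_filter, Nat.card_eq_fintype_card, Fintype.card_subtype]

/-- PIECE [JC-N5] (about 150 lines). PROOF. Count the `A` modulo `m²` of determinant `p` whose reduction modulo `m` is conjugate to `g`. By `fib3` (`m ∣ m²`, same primes) it is `m³` times the size of the class (all elements of the class have determinant `p` modulo `m`) and the number of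
all `A` of determinant `p` is `m³` times the number modulo `m`; so the proportion is `xdens m g`. On the other hand apply `event_mob` to integer lifts of the `A` (`rd_surj`; `det = p` modulo `m²`, so modulo `m s`) and sum over `A`: `haar_d` (`μ(d) = 0` if `d` is not squarefree). -/
theorem haar_id (m s : ℕ) (hm : 0 < m) (hs : s ∣ m) (p : ℤ) (hp : IsCoprime p (m : ℤ)) (g : GL (Fin 2) (ZMod m)) (G : Mz) (hG : rd m G = g.val) (t : ℤ)
    (hg : (m : ℤ) ∣ G.det - p) (hgl : Lv s G) (hgm : ∀ l : ℕ, l.Prime → s * l ∣ m → ¬ Lv (s * l) G)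
    (ht1 : (m : ℤ) ∣ t - G.trace) (ht2 : ((m * s : ℕ) : ℤ) ∣ G 0 0 ^ 2 - t * G 0 0 + p + G 0 1 * G 1 0) :
    xdens m g = ∑ d ∈ (m / s).divisors, (ArithmeticFunction.moebius d : ℝ) * Td p m s t d := by
  classical
  have i1 : NeZero m := ⟨hm.ne'⟩
  have hm2 : 0 < m ^ 2 := pow_pos hm 2
  have i2 : NeZero (m ^ 2) := ⟨hm2.ne'⟩
  have h : m ∣ m ^ 2 := dvd_pow_self m two_ne_zero
  have h2 : m * s ∣ m ^ 2 := by rw [pow_two]; exact Nat.mul_dvd_mul_left m hs
  have hs0 : 0 < s := Nat.pos_of_dvd_of_pos hs hm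
  -- the determinant of `g`
  have hgdet : g.val.det = (p : ZMod m) := by
    rw [← hG, rd_det, ← sub_eq_zero, ← Int.cast_sub, ZMod.intCast_zmod_eq_zero_iff_dvd]
    exact hg
  choose Lf hLf using fun A : GL (Fin 2) (ZMod (m ^ 2)) => rd_surj (m ^ 2) A.val
  set D : GL (Fin 2) (ZMod (m ^ 2)) → Prop := fun A => A.val.det = (p : ZMod (m ^ 2)) with hD
  have hLd : ∀ A, D A → ((m * s : ℕ) : ℤ) ∣ (Lf A).det - p := by
    intro A hA
    have e1 : ((m ^ 2 : ℕ) : ℤ) ∣ (Lf A).det - p := by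
      rw [← ZMod.intCast_zmod_eq_zero_iff_dvd, Int.cast_sub, ← rd_det, hLf A, sub_eq_zero]
      exact hA
    exact (Int.natCast_dvd_natCast.2 h2).trans e1
  -- the conditions
  have hCj : ∀ A, Cj m (rd m G) (rd m (Lf A)) ↔ Cj m g.val (Matrix.GeneralLinearGroup.map (ZMod.castHom h (ZMod m)) A).val := by
    intro A
    have e1 : rd m (Lf A) = (Matrix.GeneralLinearGroup.map (ZMod.castHom h (ZMod m)) A).val := by
      rw [← rd_map (m ^ 2) m h (Lf A), hLf A]
      rfl
    rw [hG, e1]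
  have hTr : ∀ A, ((m * s : ℕ) : ℤ) ∣ (Lf A).trace - t ↔
      ZMod.castHom h2 (ZMod (m * s)) A.val.trace = (t : ZMod (m * s)) := by
    intro A
    rw [← hLf A, rd_trace, map_intCast, ← sub_eq_zero, ← Int.cast_sub, ZMod.intCast_zmod_eq_zero_iff_dvd]
  -- the sum over `A`
  have key : ∑ A ∈ Finset.univ.filter D, (if Cj m (rd m G) (rd m (Lf A)) then (1 : ℝ) else 0) =
      ∑ d ∈ (m / s).divisors, (ArithmeticFunction.moebius d : ℝ) *
        ∑ A ∈ Finset.univ.filter D, (if Lv (s * d) (Lf A) ∧ ((m * s : ℕ) : ℤ) ∣ (Lf A).trace - t then (1 : ℝ) else 0) := by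
    have e1 : ∀ A ∈ Finset.univ.filter D, (if Cj m (rd m G) (rd m (Lf A)) then (1 : ℝ) else 0) =
        ∑ d ∈ (m / s).divisors, (ArithmeticFunction.moebius d : ℝ) *
          (if Lv (s * d) (Lf A) ∧ ((m * s : ℕ) : ℤ) ∣ (Lf A).trace - t then (1 : ℝ) else 0) := by
      intro A hA
      have e2 := event_mob m s hm hs p hp G (Lf A) t hg hgl hgm ht1 ht2 (hLd A (Finset.mem_filter.1 hA).2)
      convert e2 using 2
    rw [Finset.sum_congr rfl e1, Finset.sum_comm]
    refine Finset.sum_congr rfl fun d _ => ?_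
    rw [Finset.mul_sum]
  -- the left side
  have hL : ∑ A ∈ Finset.univ.filter D, (if Cj m (rd m G) (rd m (Lf A)) then (1 : ℝ) else 0) =
      (m : ℝ) ^ 3 * (Nat.card {g' : GL (Fin 2) (ZMod m) // Cj m g.val g'.val} : ℝ) := by
    rw [hi_ind D (fun A => Cj m (rd m G) (rd m (Lf A)))]
    have e1 : Nat.card {A : GL (Fin 2) (ZMod (m ^ 2)) // D A ∧ Cj m (rd m G) (rd m (Lf A))} =
        Nat.card {A : GL (Fin 2) (ZMod (m ^ 2)) // A.val.det = (p : ZMod (m ^ 2)) ∧
          (fun B : GL (Fin 2) (ZMod m) => Cj m g.val B.val) (Matrix.GeneralLinearGroup.map (ZMod.castHom h (ZMod m)) A)} :=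
      Nat.card_congr (Equiv.subtypeEquivRight fun A => by
        rw [hCj A])
    rw [e1, hi_count m hm p hp h (fun B : GL (Fin 2) (ZMod m) => Cj m g.val B.val)]
    have e2 : Nat.card {B : GL (Fin 2) (ZMod m) // B.val.det = (p : ZMod m) ∧ Cj m g.val B.val} =
        Nat.card {g' : GL (Fin 2) (ZMod m) // Cj m g.val g'.val} :=
      Nat.card_congr (Equiv.subtypeEquivRight fun B => by
        constructor
        · exact fun x => x.2
        · intro x
          refine ⟨?_, x⟩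
          obtain ⟨F, hF⟩ := rd_surj m B.val
          rw [← hF] at x
          have e3 := cj_det m g F x
          rw [← hF, rd_det, ← e3, hgdet])
    rw [e2]
    push_cast
    ring
  -- all matrices
  have hX : (Nat.card {A : GL (Fin 2) (ZMod (m ^ 2)) // A.val.det = (p : ZMod (m ^ 2))} : ℝ) =
      (m : ℝ) ^ 3 * (Nat.card {g' : GL (Fin 2) (ZMod m) // g'.val.det = g.val.det} : ℝ) := by
    have e1 := hi_count m hm p hp h (fun _ => True)
    have e2 : Nat.card {A : GL (Fin 2) (ZMod (m ^ 2)) // A.val.det = (p : ZMod (m ^ 2))} =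
        Nat.card {A : GL (Fin 2) (ZMod (m ^ 2)) // A.val.det = (p : ZMod (m ^ 2)) ∧ True} :=
      Nat.card_congr (Equiv.subtypeEquivRight fun A => by rw [and_true])
    have e3 : Nat.card {g' : GL (Fin 2) (ZMod m) // g'.val.det = g.val.det} =
        Nat.card {B : GL (Fin 2) (ZMod m) // B.val.det = (p : ZMod m) ∧ True} :=
      Nat.card_congr (Equiv.subtypeEquivRight fun A => by rw [and_true, hgdet])
    rw [e2, e1, e3]
    push_cast
    ring
  -- the terms
  have hR : ∀ d ∈ (m / s).divisors, (ArithmeticFunction.moebius d : ℝ) *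
        ∑ A ∈ Finset.univ.filter D, (if Lv (s * d) (Lf A) ∧ ((m * s : ℕ) : ℤ) ∣ (Lf A).trace - t then (1 : ℝ) else 0) =
      ((ArithmeticFunction.moebius d : ℝ) * Td p m s t d) *
        (Nat.card {A : GL (Fin 2) (ZMod (m ^ 2)) // A.val.det = (p : ZMod (m ^ 2))} : ℝ) := by
    intro d hd
    by_cases hsq : Squarefree d
    · have hdn : d ∣ m / s := Nat.dvd_of_mem_divisors hd
      have h0 : s * d ∣ m := by
        obtain ⟨n, hn⟩ := hs
        rw [hn, Nat.mul_div_cancel_left n hs0] at hdn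
        rw [hn]
        exact Nat.mul_dvd_mul_left s hdn
      have h1 : s * d ∣ m ^ 2 := h0.trans h
      have e1 := haar_d m s hm hs p t hp d hdn hsq h1 h2
      rw [hi_ind D (fun A => Lv (s * d) (Lf A) ∧ ((m * s : ℕ) : ℤ) ∣ (Lf A).trace - t), mul_assoc, ← e1]
      congr 2
      refine Nat.card_congr (Equiv.subtypeEquivRight fun A => ?_)
      rw [← hTr A]
      have e2 : ScM (m ^ 2) (s * d) h1 A.val ↔ Lv (s * d) (Lf A) := by
        rw [← hLf A]
        exact rd_scm (m ^ 2) (s * d) h1 (Lf A)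
      rw [e2]
    · rw [ArithmeticFunction.moebius_eq_zero_of_not_squarefree hsq]
      simp
  -- positivity
  have hpos : 0 < (Nat.card {g' : GL (Fin 2) (ZMod m) // g'.val.det = g.val.det} : ℝ) := by
    have : Nonempty {g' : GL (Fin 2) (ZMod m) // g'.val.det = g.val.det} := ⟨⟨g, rfl⟩⟩
    exact_mod_cast Nat.card_pos
  have hm3 : (0 : ℝ) < (m : ℝ) ^ 3 := by
    have : (0 : ℝ) < (m : ℝ) := by exact_mod_cast hm
    positivity
  rw [hL, Finset.sum_congr rfl hR, ← Finset.sum_mul, hX] at key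
  unfold xdens
  rw [div_eq_iff hpos.ne']
  have e4 : (m : ℝ) ^ 3 * (Nat.card {g' : GL (Fin 2) (ZMod m) // Cj m g.val g'.val} : ℝ) =
      (m : ℝ) ^ 3 * ((∑ d ∈ (m / s).divisors, (ArithmeticFunction.moebius d : ℝ) * Td p m s t d) *
        (Nat.card {g' : GL (Fin 2) (ZMod m) // g'.val.det = g.val.det} : ℝ)) := by
    rw [key]
    ring
  exact mul_left_cancel₀ hm3.ne' e4

end Pool.Agent.JC
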