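import Pool.Agent.Lib_MP_f1937f_jc.EventM
import Pool.Agent.Lib_MP_f1937f_jc.OneCl
import Pool.Agent.Lib_MP_f1937f_jc.HaarI
import Pool.Agent.Lib_MP_f1937f_jc.Mats

/-!
# The law of the classes
-/

set_option autoImplicit false

namespace Pool.Agent.JC

open Finset Pool.Agent.TB Pool.Agent.JB Pool.Agent.JD

private theorem sum_inv_sq_t6 (n : ℕ) (hn : 0 < n) : ∑ d ∈ n.divisors, ((d : ℝ) ^ 2)⁻¹ ≤ 2 := by
  have h1 : ∑ d ∈ n.divisors, ((d : ℝ) ^ 2)⁻¹ ≤ ∑ d ∈ insert 1 (Ioc 1 n), ((d : ℝ) ^ 2)⁻¹ := by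
    refine sum_le_sum_of_subset_of_nonneg ?_ fun i _ _ => by positivity
    intro d hd
    have h2 := Nat.pos_of_mem_divisors hd
    have h3 := Nat.divisor_le hd
    rw [mem_insert, mem_Ioc]
    omega
  have h2 : ∑ d ∈ insert 1 (Ioc 1 n), ((d : ℝ) ^ 2)⁻¹ = 1 + ∑ d ∈ Ioc 1 n, ((d : ℝ) ^ 2)⁻¹ := by
    rw [sum_insert (by simp)]
    norm_num
  have h3 : ∑ d ∈ Ioc 1 n, ((d : ℝ) ^ 2)⁻¹ ≤ ((1 : ℕ) : ℝ)⁻¹ - (n : ℝ)⁻¹ :=
    sum_Ioc_inv_sq_le_sub one_ne_zero hn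
  have h4 : (0 : ℝ) ≤ (n : ℝ)⁻¹ := by positivity
  rw [h2] at h1
  norm_num at h3
  linarith

private theorem lcm_t6 (s n d : ℕ) : (s * d) ^ 2 * (n / Nat.gcd n (d ^ 2)) = Nat.lcm (s ^ 2 * n) ((s * d) ^ 2) := by
  rw [mul_pow, Nat.lcm_mul_left, mul_assoc]
  congr 1
  rw [mul_comm, Nat.lcm, Nat.div_mul_right_comm (Nat.gcd_dvd_left _ _)]

/-- PIECE [JC-T6] (about 220 lines). `h0`, `hs`, `he` are properties of `ω` from `law_base`. PROOF. Let `F` be an integer lift of `g` (`rd_surj`), `s₁` its scalar level (`lv_max`, `s ∣ s₁` by `rd_scm`), `t` from `tg_exists`. If `ω a s' ≠ 0`, `Fc s' p a` has determinant `p`, trace `a`, and `Lv (s₁ d) (Fc s' p a)` iff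
`s₁ d ∣ s'`. By `event_mob` the sum is `∑_{d ∣ m / s₁} μ(d) ∑_{a, m s₁ ∣ a - t} (∑_{s₁ d ∣ s'} ω a s') Uk k (xx p a)`. For squarefree `d` : if there is no `t'` as in `Td` the inner sum is `0` (`Sc s' p a`, `sc_dvd`) and so is `Td`; otherwise `m s₁ ∣ a - t` and `Sc (s₁ d) p a` iff
`(s₁ d)² q ∣ a - t'`, `q = n / gcd (n, d²)`, `n = m / s₁` (`one_class`, `sc_congr`; `(s₁ d)² q = lcm (m s₁, (s₁ d)²)`), so `he` with `s := s₁ d` and `q`: the error is at most `E q² (k + 1) log p / √p`, `q ≤ n / d`. Sum over `d` (`∑ 1 / d² ≤ 2`), `haar_id`; `n ≤ m / s`. -/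
theorem class_law (p : ℕ) (hp : p.Prime) (E : ℝ) (hE : 0 ≤ E) (ω : ℤ → ℕ → ℝ) (h0 : ∀ a s, 0 ≤ ω a s)
    (hs : ∀ a s, ω a s ≠ 0 → a ∈ V p ∧ s ∈ Icc 1 (2 * p) ∧ Sc s p a)
    (he : ∀ s q : ℕ, 0 < s → p.Coprime s → 0 < q → q ≤ p → p.Coprime q → ∀ (t : ℤ) (k : ℕ),
      |∑ a ∈ (V p).filter (fun a => ((s ^ 2 * q : ℕ) : ℤ) ∣ a - t), (∑ s' ∈ (Icc 1 (2 * p)).filter (s ∣ ·), ω a s') * Uk k (xx p a) -
          (if k = 0 then Dn (s ^ 2) (Cw p s) q t else 0)| ≤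
        E * (q : ℝ) ^ 2 * (k + 1) * (Real.log p / √(p : ℝ)))
    (m : ℕ) (hm : 0 < m) (hmp : m ≤ p) (hpm : p.Coprime m) (s : ℕ) (hsm : s ∣ m) (g : GL (Fin 2) (ZMod m))
    (hdet : g.val.det = (p : ZMod m)) (hg : ScM m s hsm g.val) (k : ℕ) :
    |∑ a ∈ V p, ∑ s' ∈ Icc 1 (2 * p), (open Classical in (if Cj m g.val (rd m (Fc s' p a)) then ω a s' else 0)) * Uk k (xx p a) -
        (if k = 0 then xdens m g else 0)| ≤
      2 * E * ((m : ℝ) / s) ^ 2 * (k + 1) * (Real.log p / √(p : ℝ)) := by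
  classical
  have _ := h0
  have hL0 : 0 ≤ Real.log p / √(p : ℝ) :=
    div_nonneg (Real.log_nonneg (by exact_mod_cast hp.one_lt.le)) (Real.sqrt_nonneg _)
  have hk0 : (0 : ℝ) ≤ (k : ℝ) + 1 := by positivity
  obtain ⟨G, hG⟩ := rd_surj m g.val
  have hcop : IsCoprime (p : ℤ) (m : ℤ) := Nat.isCoprime_iff_coprime.2 hpm
  have hGd : (m : ℤ) ∣ G.det - (p : ℤ) := by
    have h1 : (((p : ℕ) : ℤ) : ZMod m) = ((G.det : ℤ) : ZMod m) := by
      rw [← rd_det, hG, hdet, Int.cast_natCast]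
    exact (ZMod.intCast_eq_intCast_iff_dvd_sub _ _ _).1 h1
  obtain ⟨s₁, hs₁m, hLv, hmax, hall⟩ := lv_max m hm G
  have hss₁ : s ∣ s₁ := hall s hsm ((rd_scm m s hsm G).1 (by rw [hG]; exact hg))
  obtain ⟨t, ht1, ht2⟩ := tg_exists m s₁ hm hs₁m p hcop G hGd hLv
  have hs₁0 : 0 < s₁ := Nat.pos_of_dvd_of_pos hs₁m hm
  obtain ⟨n, hn⟩ : ∃ n, n = m / s₁ := ⟨_, rfl⟩
  have hmn : m = s₁ * n := by rw [hn]; exact (Nat.mul_div_cancel' hs₁m).symm
  have hn0 : 0 < n := Nat.pos_of_ne_zero fun h => by rw [h, mul_zero] at hmn; omega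
  have hms : m * s₁ = s₁ ^ 2 * n := by rw [hmn]; ring
  obtain ⟨I, hI⟩ : ∃ I : ℕ → ℝ, ∀ d, I d = ∑ a ∈ (V p).filter (fun a => ((m * s₁ : ℕ) : ℤ) ∣ a - t),
      (∑ s' ∈ (Icc 1 (2 * p)).filter (s₁ * d ∣ ·), ω a s') * Uk k (xx p a) := ⟨_, fun _ => rfl⟩
  -- the event by inclusion and exclusion
  have hkey : ∀ a ∈ V p, ∀ s' ∈ Icc 1 (2 * p),
      (open Classical in (if Cj m g.val (rd m (Fc s' p a)) then ω a s' else 0)) =
        ω a s' * ∑ d ∈ n.divisors, (ArithmeticFunction.moebius d : ℝ) *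
          (if s₁ * d ∣ s' ∧ ((m * s₁ : ℕ) : ℤ) ∣ a - t then (1 : ℝ) else 0) := by
    intro a _ s' hs'
    by_cases h : ω a s' = 0
    · rw [h, zero_mul]
      split_ifs <;> rfl
    · obtain ⟨_, _, hsc⟩ := hs a s' h
      have hs'0 : 0 < s' := (mem_Icc.1 hs').1
      have hev := event_mob m s₁ hm hs₁m p hcop G (Fc s' p a) t hGd hLv hmax ht1 ht2
        (by rw [fc_det s' p a hs'0 hsc, sub_self]; exact dvd_zero _)
      rw [hG, ← hn] at hev
      have h2 : ∑ d ∈ n.divisors, (ArithmeticFunction.moebius d : ℝ) *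
          (open Classical in (if Lv (s₁ * d) (Fc s' p a) ∧ ((m * s₁ : ℕ) : ℤ) ∣ (Fc s' p a).trace - t
            then (1 : ℝ) else 0)) = ∑ d ∈ n.divisors, (ArithmeticFunction.moebius d : ℝ) *
          (if s₁ * d ∣ s' ∧ ((m * s₁ : ℕ) : ℤ) ∣ a - t then (1 : ℝ) else 0) := by
        refine sum_congr rfl fun d _ => ?_
        rw [fc_trace, if_congr (and_congr (fc_lv s' (s₁ * d) p a hs'0 hsc) Iff.rfl) rfl rfl]
      rw [h2] at hev
      rw [← hev]
      split_ifs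
      · rw [mul_one]
      · rw [mul_zero]
  have hI2 : ∀ d, I d = ∑ a ∈ V p, ∑ s' ∈ Icc 1 (2 * p), ω a s' *
      (if s₁ * d ∣ s' ∧ ((m * s₁ : ℕ) : ℤ) ∣ a - t then (1 : ℝ) else 0) * Uk k (xx p a) := by
    intro d
    rw [hI, sum_filter]
    refine sum_congr rfl fun a _ => ?_
    by_cases ha : ((m * s₁ : ℕ) : ℤ) ∣ a - t
    · rw [if_pos ha, sum_filter, sum_mul]
      refine sum_congr rfl fun s' _ => ?_
      by_cases hd : s₁ * d ∣ s'
      · rw [if_pos hd, if_pos ⟨hd, ha⟩, mul_one]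
      · rw [if_neg hd, if_neg (fun h => hd h.1), mul_zero]
    · rw [if_neg ha]
      symm
      refine sum_eq_zero fun s' _ => ?_
      rw [if_neg (fun h => ha h.2), mul_zero, zero_mul]
  have hS : ∑ a ∈ V p, ∑ s' ∈ Icc 1 (2 * p),
      (open Classical in (if Cj m g.val (rd m (Fc s' p a)) then ω a s' else 0)) * Uk k (xx p a) =
        ∑ d ∈ n.divisors, (ArithmeticFunction.moebius d : ℝ) * I d := by
    have e1 : ∑ a ∈ V p, ∑ s' ∈ Icc 1 (2 * p),
        (open Classical in (if Cj m g.val (rd m (Fc s' p a)) then ω a s' else 0)) * Uk k (xx p a) =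
        ∑ a ∈ V p, ∑ s' ∈ Icc 1 (2 * p), ∑ d ∈ n.divisors, (ArithmeticFunction.moebius d : ℝ) *
          (ω a s' * (if s₁ * d ∣ s' ∧ ((m * s₁ : ℕ) : ℤ) ∣ a - t then (1 : ℝ) else 0) *
            Uk k (xx p a)) := by
      refine sum_congr rfl fun a ha => sum_congr rfl fun s' hs' => ?_
      rw [hkey a ha s' hs', mul_sum, sum_mul]
      refine sum_congr rfl fun d _ => ?_
      ring
    rw [e1]
    have e2 : ∀ a ∈ V p, ∑ s' ∈ Icc 1 (2 * p), ∑ d ∈ n.divisors, (ArithmeticFunction.moebius d : ℝ) *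
          (ω a s' * (if s₁ * d ∣ s' ∧ ((m * s₁ : ℕ) : ℤ) ∣ a - t then (1 : ℝ) else 0) *
            Uk k (xx p a)) = ∑ d ∈ n.divisors, ∑ s' ∈ Icc 1 (2 * p),
            (ArithmeticFunction.moebius d : ℝ) *
          (ω a s' * (if s₁ * d ∣ s' ∧ ((m * s₁ : ℕ) : ℤ) ∣ a - t then (1 : ℝ) else 0) *
            Uk k (xx p a)) := fun a _ => sum_comm
    rw [sum_congr rfl e2, sum_comm]
    refine sum_congr rfl fun d _ => ?_
    rw [hI2 d, mul_sum]
    refine sum_congr rfl fun a _ => ?_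
    rw [mul_sum]
  -- one divisor
  have hb : ∀ d ∈ n.divisors, |(ArithmeticFunction.moebius d : ℝ) * I d -
      (if k = 0 then (ArithmeticFunction.moebius d : ℝ) * Td p m s₁ t d else 0)| ≤
      E * (n : ℝ) ^ 2 * (k + 1) * (Real.log p / √(p : ℝ)) * ((d : ℝ) ^ 2)⁻¹ := by
    intro d hd
    have hdn : d ∣ n := Nat.dvd_of_mem_divisors hd
    have hd0 : 0 < d := Nat.pos_of_mem_divisors hd
    have hd0' : (0 : ℝ) < d := by exact_mod_cast hd0
    have hR : 0 ≤ E * (n : ℝ) ^ 2 * (k + 1) * (Real.log p / √(p : ℝ)) * ((d : ℝ) ^ 2)⁻¹ := by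
      have : (0 : ℝ) ≤ ((d : ℝ) ^ 2)⁻¹ := by positivity
      exact mul_nonneg (mul_nonneg (mul_nonneg (mul_nonneg hE (sq_nonneg _)) hk0) hL0) this
    by_cases hsq : Squarefree d
    swap
    · rw [ArithmeticFunction.moebius_eq_zero_of_not_squarefree hsq]
      simpa using hR
    have hfac : (ArithmeticFunction.moebius d : ℝ) * I d -
        (if k = 0 then (ArithmeticFunction.moebius d : ℝ) * Td p m s₁ t d else 0) =
        (ArithmeticFunction.moebius d : ℝ) * (I d - (if k = 0 then Td p m s₁ t d else 0)) := by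
      split_ifs <;> ring
    have hmu : |(ArithmeticFunction.moebius d : ℝ)| ≤ 1 := by
      exact_mod_cast (ArithmeticFunction.abs_moebius_le_one (n := d))
    rw [hfac, abs_mul]
    refine le_trans (mul_le_of_le_one_left (abs_nonneg _) hmu) ?_
    by_cases hex : ∃ t' : ℤ, ((m * s₁ : ℕ) : ℤ) ∣ t' - t ∧ Sc (s₁ * d) p t'
    swap
    · have hT : Td p m s₁ t d = 0 := by
        unfold Td
        rw [dif_neg hex]
      have hI0 : I d = 0 := by
        rw [hI]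
        refine sum_eq_zero fun a ha => ?_
        have ha2 := (mem_filter.1 ha).2
        have hz : ∑ s' ∈ (Icc 1 (2 * p)).filter (s₁ * d ∣ ·), ω a s' = 0 := by
          refine sum_eq_zero fun s' hs' => ?_
          by_contra hne
          exact hex ⟨a, ha2, sc_dvd s' (s₁ * d) p a (mem_filter.1 hs').2 (hs a s' hne).2.2⟩
        rw [hz, zero_mul]
      rw [hT, hI0, ite_self, sub_zero, abs_zero]
      exact hR
    obtain ⟨t', ht'⟩ : ∃ t' : ℤ, t' = Classical.choose hex := ⟨_, rfl⟩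
    have hspec : ((m * s₁ : ℕ) : ℤ) ∣ t' - t ∧ Sc (s₁ * d) p t' := by
      rw [ht']
      exact Classical.choose_spec hex
    obtain ⟨q, hq⟩ : ∃ q, q = n / Nat.gcd n (d ^ 2) := ⟨_, rfl⟩
    have hT : Td p m s₁ t d = Dn ((s₁ * d) ^ 2) (Cw p (s₁ * d)) q t' := by
      unfold Td
      rw [dif_pos hex, ht', hq, hn]
    have hgn : Nat.gcd n (d ^ 2) ∣ n := Nat.gcd_dvd_left _ _
    have hg0 : 0 < Nat.gcd n (d ^ 2) := Nat.gcd_pos_of_pos_left _ hn0
    have hqg : q * Nat.gcd n (d ^ 2) = n := by rw [hq]; exact Nat.div_mul_cancel hgn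
    have hqn : q ∣ n := ⟨_, hqg.symm⟩
    have hq0 : 0 < q := Nat.pos_of_dvd_of_pos hqn hn0
    have hnm : n ∣ m := ⟨s₁, by rw [hmn]; ring⟩
    have hsdm : s₁ * d ∣ m := by rw [hmn]; exact Nat.mul_dvd_mul_left _ hdn
    have hlcm : (s₁ * d) ^ 2 * q = Nat.lcm (s₁ ^ 2 * n) ((s₁ * d) ^ 2) := by
      rw [hq]
      exact lcm_t6 s₁ n d
    have hcop' : IsCoprime (p : ℤ) ((s₁ * n : ℕ) : ℤ) := by rw [← hmn]; exact hcop
    have hIeq : I d = ∑ a ∈ (V p).filter (fun a => (((s₁ * d) ^ 2 * q : ℕ) : ℤ) ∣ a - t'),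
        (∑ s' ∈ (Icc 1 (2 * p)).filter (s₁ * d ∣ ·), ω a s') * Uk k (xx p a) := by
      rw [hI, sum_filter, sum_filter]
      refine sum_congr rfl fun a _ => ?_
      by_cases hz : ∑ s' ∈ (Icc 1 (2 * p)).filter (s₁ * d ∣ ·), ω a s' = 0
      · rw [hz, zero_mul, ite_self, ite_self]
      · obtain ⟨s', hs', hne⟩ := exists_ne_zero_of_sum_ne_zero hz
        have hsc : Sc (s₁ * d) p a := sc_dvd s' (s₁ * d) p a (mem_filter.1 hs').2 (hs a s' hne).2.2
        have hiff : ((m * s₁ : ℕ) : ℤ) ∣ a - t ↔ (((s₁ * d) ^ 2 * q : ℕ) : ℤ) ∣ a - t' := by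
          constructor
          · intro h
            have h1 : ((s₁ ^ 2 * n : ℕ) : ℤ) ∣ a - t' := by
              rw [← hms]
              have h2 := dvd_sub h hspec.1
              have h3 : a - t - (t' - t) = a - t' := by ring
              rw [h3] at h2
              exact h2
            have h2 : ((s₁ * d : ℕ) : ℤ) ^ 2 ∣ a - t' :=
              one_class s₁ n d p a t' hs₁0 hn0 hdn hsq hcop' hsc hspec.2 h1
            rw [hlcm, Int.natCast_dvd]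
            refine Nat.lcm_dvd ?_ ?_
            · exact Int.natCast_dvd.1 h1
            · have h3 : (((s₁ * d) ^ 2 : ℕ) : ℤ) ∣ a - t' := by
                rw [Nat.cast_pow]
                exact h2
              exact Int.natCast_dvd.1 h3
          · intro h
            have h1 : ((m * s₁ : ℕ) : ℤ) ∣ (((s₁ * d) ^ 2 * q : ℕ) : ℤ) := by
              rw [hlcm, hms]
              exact Int.natCast_dvd_natCast.2 (Nat.dvd_lcm_left _ _)
            have h2 := dvd_add (h1.trans h) hspec.1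
            have h3 : a - t' + (t' - t) = a - t := by ring
            rw [h3] at h2
            exact h2
        rw [if_congr hiff rfl rfl]
    have hfin := he (s₁ * d) q (Nat.mul_pos hs₁0 hd0) (hpm.coprime_dvd_right hsdm) hq0
      ((Nat.le_of_dvd hm (hqn.trans hnm)).trans hmp) (hpm.coprime_dvd_right (hqn.trans hnm)) t' k
    rw [hT, hIeq]
    refine le_trans hfin ?_
    have hqd : (q : ℝ) * d ≤ n := by
      have h1 : d ∣ Nat.gcd n (d ^ 2) := Nat.dvd_gcd hdn (dvd_pow_self d two_ne_zero)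
      have h2 : d ≤ Nat.gcd n (d ^ 2) := Nat.le_of_dvd hg0 h1
      have h3 : q * d ≤ n := by
        calc q * d ≤ q * Nat.gcd n (d ^ 2) := Nat.mul_le_mul_left _ h2
          _ = n := hqg
      exact_mod_cast h3
    have hq2 : (q : ℝ) ^ 2 ≤ (n : ℝ) ^ 2 * ((d : ℝ) ^ 2)⁻¹ := by
      rw [← div_eq_mul_inv, le_div_iff₀ (by positivity), ← mul_pow]
      exact pow_le_pow_left₀ (by positivity) hqd 2
    calc E * (q : ℝ) ^ 2 * (k + 1) * (Real.log p / √(p : ℝ))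
        ≤ E * ((n : ℝ) ^ 2 * ((d : ℝ) ^ 2)⁻¹) * (k + 1) * (Real.log p / √(p : ℝ)) :=
          mul_le_mul_of_nonneg_right (mul_le_mul_of_nonneg_right
            (mul_le_mul_of_nonneg_left hq2 hE) hk0) hL0
      _ = E * (n : ℝ) ^ 2 * (k + 1) * (Real.log p / √(p : ℝ)) * ((d : ℝ) ^ 2)⁻¹ := by ring
  -- the sum
  have hxd : (if k = 0 then xdens m g else 0) = ∑ d ∈ n.divisors,
      (if k = 0 then (ArithmeticFunction.moebius d : ℝ) * Td p m s₁ t d else 0) := by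
    split_ifs
    · rw [hn]
      exact haar_id m s₁ hm hs₁m p hcop g G hG t hGd hLv hmax ht1 ht2
    · simp
  rw [hS, hxd, ← sum_sub_distrib]
  refine le_trans (abs_sum_le_sum_abs _ _) ?_
  refine le_trans (sum_le_sum hb) ?_
  rw [← mul_sum]
  have hB0 : 0 ≤ E * (n : ℝ) ^ 2 * (k + 1) * (Real.log p / √(p : ℝ)) :=
    mul_nonneg (mul_nonneg (mul_nonneg hE (sq_nonneg _)) hk0) hL0
  refine le_trans (mul_le_mul_of_nonneg_left (sum_inv_sq_t6 n hn0) hB0) ?_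
  have hs0 : 0 < s := Nat.pos_of_dvd_of_pos hss₁ hs₁0
  have hs0' : (0 : ℝ) < s := by exact_mod_cast hs0
  have hnle : (n : ℝ) ≤ (m : ℝ) / s := by
    rw [le_div_iff₀ hs0']
    have h1 : n * s ≤ m := by
      calc n * s ≤ n * s₁ := Nat.mul_le_mul_left _ (Nat.le_of_dvd hs₁0 hss₁)
        _ = m := by rw [hmn]; ring
    exact_mod_cast h1
  have hn2 : (n : ℝ) ^ 2 ≤ ((m : ℝ) / s) ^ 2 := pow_le_pow_left₀ (by positivity) hnle 2
  calc E * (n : ℝ) ^ 2 * (k + 1) * (Real.log p / √(p : ℝ)) * 2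
      = 2 * E * (n : ℝ) ^ 2 * (k + 1) * (Real.log p / √(p : ℝ)) := by ring
    _ ≤ 2 * E * ((m : ℝ) / s) ^ 2 * (k + 1) * (Real.log p / √(p : ℝ)) :=
        mul_le_mul_of_nonneg_right (mul_le_mul_of_nonneg_right
          (mul_le_mul_of_nonneg_left hn2 (by linarith)) hk0) hL0

end Pool.Agent.JC
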