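import Pool.Agent.Lib_MP_f1937f_jc.Mats
import Pool.Agent.Lib_MP_f1937f_jc.CardG

/-!
# Sums over the classes of G

Piece [JC-G11]. Conjugacy by elements of `G` is an equivalence relation (`cjGG_refl`, `cjGG_symm`, `cjGG_trans`), so all elements of the class
of `g₀` have the same `clN`; the sums are then cardinalities divided by themselves.
-/

set_option autoImplicit false

namespace Pool.Agent.JC

open Finset Pool.Agent.TB Pool.Agent.JB Pool.Agent.JD

/-- the size of the class of `g` in `G` -/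
noncomputable def clN (M : ℕ) (G : Subgroup (GL (Fin 2) (ZMod M))) (g : GL (Fin 2) (ZMod M)) : ℝ :=
  (Nat.card {g' : GL (Fin 2) (ZMod M) // CjG M M dvd_rfl G g.val g'.val} : ℝ)

private theorem map_self (M : ℕ) (g : GL (Fin 2) (ZMod M)) :
    Matrix.GeneralLinearGroup.map (ZMod.castHom (dvd_refl M) (ZMod M)) g = g := by
  ext i j
  simp [Matrix.GeneralLinearGroup.map, ZMod.castHom_self]

private theorem cjGG_iff (M : ℕ) (G : Subgroup (GL (Fin 2) (ZMod M))) (A B : Matrix (Fin 2) (Fin 2) (ZMod M)) :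
    CjG M M dvd_rfl G A B ↔ ∃ γ ∈ G, γ.val * A = B * γ.val := by
  unfold CjG
  constructor
  · rintro ⟨γ, h1, h2⟩
    rw [map_self] at h1
    exact ⟨γ, h1, h2⟩
  · rintro ⟨γ, h1, h2⟩
    refine ⟨γ, ?_, h2⟩
    rw [map_self]
    exact h1

private theorem cjGG_iff' (M : ℕ) (G : Subgroup (GL (Fin 2) (ZMod M))) (g g' : GL (Fin 2) (ZMod M)) :
    CjG M M dvd_rfl G g.val g'.val ↔ ∃ γ ∈ G, γ * g = g' * γ := by
  rw [cjGG_iff]
  constructor
  · rintro ⟨γ, h1, h2⟩
    exact ⟨γ, h1, Units.ext (by simpa using h2)⟩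
  · rintro ⟨γ, h1, h2⟩
    refine ⟨γ, h1, ?_⟩
    have := congrArg Units.val h2
    simpa using this

private theorem cjGG_symm (M : ℕ) (G : Subgroup (GL (Fin 2) (ZMod M))) (g g' : GL (Fin 2) (ZMod M))
    (h : CjG M M dvd_rfl G g.val g'.val) : CjG M M dvd_rfl G g'.val g.val := by
  rw [cjGG_iff'] at h ⊢
  obtain ⟨γ, h1, h2⟩ := h
  refine ⟨γ⁻¹, G.inv_mem h1, ?_⟩
  calc γ⁻¹ * g' = γ⁻¹ * (g' * γ) * γ⁻¹ := by group
    _ = γ⁻¹ * (γ * g) * γ⁻¹ := by rw [h2]
    _ = g * γ⁻¹ := by group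

private theorem cjGG_trans (M : ℕ) (G : Subgroup (GL (Fin 2) (ZMod M))) (g g' g'' : GL (Fin 2) (ZMod M))
    (h : CjG M M dvd_rfl G g.val g'.val) (h' : CjG M M dvd_rfl G g'.val g''.val) : CjG M M dvd_rfl G g.val g''.val := by
  rw [cjGG_iff'] at h h' ⊢
  obtain ⟨γ, h1, h2⟩ := h
  obtain ⟨δ, h3, h4⟩ := h'
  refine ⟨δ * γ, G.mul_mem h3 h1, ?_⟩
  calc δ * γ * g = δ * (γ * g) := by group
    _ = δ * (g' * γ) := by rw [h2]
    _ = (δ * g') * γ := by group
    _ = (g'' * δ) * γ := by rw [h4]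
    _ = g'' * (δ * γ) := by group

private theorem cjGG_mem (M : ℕ) (G : Subgroup (GL (Fin 2) (ZMod M))) (g g' : GL (Fin 2) (ZMod M)) (hg' : g' ∈ G)
    (h : CjG M M dvd_rfl G g.val g'.val) : g ∈ G := by
  rw [cjGG_iff'] at h
  obtain ⟨γ, h1, h2⟩ := h
  have : g = γ⁻¹ * g' * γ := by
    calc g = γ⁻¹ * (γ * g) := by group
      _ = γ⁻¹ * (g' * γ) := by rw [h2]
      _ = γ⁻¹ * g' * γ := by group
  rw [this]
  exact G.mul_mem (G.mul_mem (G.inv_mem h1) hg') h1

private theorem clN_congr (M : ℕ) (G : Subgroup (GL (Fin 2) (ZMod M))) (g g' : GL (Fin 2) (ZMod M))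
    (h : CjG M M dvd_rfl G g.val g'.val) : clN M G g = clN M G g' := by
  unfold clN
  congr 1
  refine Nat.card_congr (Equiv.subtypeEquivRight fun x => ?_)
  exact ⟨fun hx => cjGG_trans M G _ _ _ (cjGG_symm M G _ _ h) hx, fun hx => cjGG_trans M G _ _ _ h hx⟩

theorem clN_ge (M : ℕ) [NeZero M] (G : Subgroup (GL (Fin 2) (ZMod M))) (g : GL (Fin 2) (ZMod M)) : 1 ≤ clN M G g := by
  unfold clN
  have : Nonempty {g' : GL (Fin 2) (ZMod M) // CjG M M dvd_rfl G g.val g'.val} := by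
    refine ⟨⟨g, ?_⟩⟩
    rw [cjGG_iff']
    exact ⟨1, G.one_mem, by group⟩
  have h := Nat.card_pos (α := {g' : GL (Fin 2) (ZMod M) // CjG M M dvd_rfl G g.val g'.val})
  exact_mod_cast h

/-- PIECE [JC-G11] (all theorems of this file, about 120 lines). PROOF. `A = g₀.val`, `g₀ ∈ G`; the `g ∈ G` with `CjG g A` are the elements of the class of `g₀` (conjugacy by elements of `G` is an equivalence relation; `map (castHom dvd_rfl)` is the identity), and they all have the same class. -/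
theorem cls_sum (M : ℕ) [NeZero M] (G : Subgroup (GL (Fin 2) (ZMod M))) (A : Matrix (Fin 2) (Fin 2) (ZMod M)) (hA : InG M G A) :
    ∑ g : GL (Fin 2) (ZMod M), (open Classical in (if g ∈ G ∧ CjG M M dvd_rfl G g.val A then 1 / clN M G g else 0)) = 1 := by
  classical
  obtain ⟨g0, hg0, rfl⟩ := hA
  have h1 : ∀ g : GL (Fin 2) (ZMod M), (if g ∈ G ∧ CjG M M dvd_rfl G g.val g0.val then 1 / clN M G g else 0) =
      if CjG M M dvd_rfl G g0.val g.val then 1 / clN M G g0 else 0 := by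
    intro g
    by_cases h : CjG M M dvd_rfl G g.val g0.val
    · have hm := cjGG_mem M G g g0 hg0 h
      rw [if_pos ⟨hm, h⟩, if_pos (cjGG_symm M G _ _ h), clN_congr M G g g0 h]
    · have h' : ¬ CjG M M dvd_rfl G g0.val g.val := fun h' => h (cjGG_symm M G _ _ h')
      rw [if_neg (fun hh => h hh.2), if_neg h']
  have h2 : ∑ g : GL (Fin 2) (ZMod M), (if g ∈ G ∧ CjG M M dvd_rfl G g.val g0.val then 1 / clN M G g else 0) = 1 := by
    rw [Finset.sum_congr rfl (fun g _ => h1 g), ← Finset.sum_filter, Finset.sum_const, nsmul_eq_mul]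
    have h3 : (((univ : Finset (GL (Fin 2) (ZMod M))).filter (fun g => CjG M M dvd_rfl G g0.val g.val)).card : ℝ) = clN M G g0 := by
      unfold clN
      rw [Nat.card_eq_fintype_card, Fintype.card_subtype]
    rw [h3, mul_one_div, div_self]
    have := clN_ge M G g0
    linarith
  convert h2 using 2

/-- PROOF. `cdens M M dvd_rfl G g / clN M G g = 1 / #{g' ∈ G of determinant d}` (`clN > 0`), and this set is not empty (`card_G_pos` or `hG`). -/
theorem cls_dens (M : ℕ) [NeZero M] (G : Subgroup (GL (Fin 2) (ZMod M)))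
    (hG : ∀ d : (ZMod M)ˣ, ∃ g ∈ G, g.val.det = (d : ZMod M)) (d : (ZMod M)ˣ) :
    ∑ g : GL (Fin 2) (ZMod M), (open Classical in (if g ∈ G ∧ g.val.det = (d : ZMod M) then cdens M M dvd_rfl G g / clN M G g else 0)) = 1 := by
  classical
  set N : ℝ := (Nat.card {g' : GL (Fin 2) (ZMod M) // g' ∈ G ∧ g'.val.det = (d : ZMod M)} : ℝ) with hN
  have hNpos : 0 < N := by
    obtain ⟨g, hg, hd⟩ := hG d
    have : Nonempty {g' : GL (Fin 2) (ZMod M) // g' ∈ G ∧ g'.val.det = (d : ZMod M)} := ⟨⟨g, hg, hd⟩⟩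
    have h := Nat.card_pos (α := {g' : GL (Fin 2) (ZMod M) // g' ∈ G ∧ g'.val.det = (d : ZMod M)})
    rw [hN]
    exact_mod_cast h
  have h1 : ∀ g : GL (Fin 2) (ZMod M), (if g ∈ G ∧ g.val.det = (d : ZMod M) then cdens M M dvd_rfl G g / clN M G g else 0) =
      if g ∈ G ∧ g.val.det = (d : ZMod M) then 1 / N else 0 := by
    intro g
    by_cases h : g ∈ G ∧ g.val.det = (d : ZMod M)
    · rw [if_pos h, if_pos h]
      have h2 : (Nat.card {g' : GL (Fin 2) (ZMod M) // Matrix.GeneralLinearGroup.map (ZMod.castHom (dvd_refl M) (ZMod M)) g' ∈ G ∧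
          g'.val.det = g.val.det} : ℝ) = N := by
        rw [hN]
        congr 1
        refine Nat.card_congr (Equiv.subtypeEquivRight fun x => ?_)
        rw [map_self, h.2]
      have h3 : cdens M M dvd_rfl G g = clN M G g / N := by
        unfold cdens
        rw [h2]
        rfl
      have h4 := clN_ge M G g
      rw [h3]
      have h5 : clN M G g ≠ 0 := by linarith
      field_simp
    · rw [if_neg h, if_neg h]
  have h2 : ∑ g : GL (Fin 2) (ZMod M), (if g ∈ G ∧ g.val.det = (d : ZMod M) then cdens M M dvd_rfl G g / clN M G g else 0) = 1 := by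
    rw [Finset.sum_congr rfl (fun g _ => h1 g), ← Finset.sum_filter, Finset.sum_const, nsmul_eq_mul]
    have h3 : (((univ : Finset (GL (Fin 2) (ZMod M))).filter (fun g => g ∈ G ∧ g.val.det = (d : ZMod M))).card : ℝ) = N := by
      rw [hN, Nat.card_eq_fintype_card, Fintype.card_subtype]
    rw [h3, mul_one_div, div_self hNpos.ne']
  convert h2 using 2

theorem cdens_nonneg (M m : ℕ) (h : M ∣ m) (G : Subgroup (GL (Fin 2) (ZMod M))) (g : GL (Fin 2) (ZMod m)) : 0 ≤ cdens M m h G g := by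
  unfold cdens
  positivity

/-- a subset of a finite set (conjugation by an element of `G(m)` preserves `G(m)` and the determinant) -/
theorem cdens_le (M m : ℕ) (hm : 0 < m) (h : M ∣ m) (G : Subgroup (GL (Fin 2) (ZMod M))) (g : GL (Fin 2) (ZMod m))
    (hg : Matrix.GeneralLinearGroup.map (ZMod.castHom h (ZMod M)) g ∈ G) : cdens M m h G g ≤ 1 := by
  haveI : NeZero m := ⟨hm.ne'⟩
  unfold cdens
  refine div_le_one_of_le₀ ?_ (by positivity)
  have key : ∀ g' : GL (Fin 2) (ZMod m), CjG M m h G g.val g'.val →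
      (Matrix.GeneralLinearGroup.map (ZMod.castHom h (ZMod M)) g' ∈ G ∧ g'.val.det = g.val.det) := by
    rintro g' ⟨γ, h1, h2⟩
    have h3 : γ * g = g' * γ := Units.ext (by simpa using h2)
    constructor
    · have h4 : g' = γ * g * γ⁻¹ := by rw [h3]; group
      rw [h4, map_mul, map_mul, map_inv]
      exact G.mul_mem (G.mul_mem h1 hg) (G.inv_mem h1)
    · have h5 := congrArg Matrix.det h2
      rw [Matrix.det_mul, Matrix.det_mul, mul_comm] at h5
      have h6 : IsUnit γ.val.det := (Matrix.isUnit_iff_isUnit_det _).mp γ.isUnit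
      exact (h6.mul_right_cancel h5).symm
  have h7 : Nat.card {g' : GL (Fin 2) (ZMod m) // CjG M m h G g.val g'.val} ≤
      Nat.card {g' : GL (Fin 2) (ZMod m) // Matrix.GeneralLinearGroup.map (ZMod.castHom h (ZMod M)) g' ∈ G ∧ g'.val.det = g.val.det} :=
    Nat.card_le_card_of_injective (fun x => ⟨x.1, key x.1 x.2⟩) (fun x y hxy => Subtype.ext (by simpa using hxy))
  exact_mod_cast h7

end Pool.Agent.JC
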