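import Pool.Agent.Lib_MP_f1937f_jc.CntS

/-!
# Counting the matrices of given determinant
-/

set_option autoImplicit false

namespace Pool.Agent.JC

open Finset Pool.Agent.TB Pool.Agent.JB Pool.Agent.JD

/-- a sum over several periods -/
private theorem per_sum (g k : ℕ) (f : ℕ → ℝ) (hf : ∀ b, f (b + g) = f b) :
    ∑ b ∈ range (g * k), f b = k * ∑ b ∈ range g, f b := by
  have hf' : ∀ k b, f (g * k + b) = f b := by
    intro k
    induction k with
    | zero => intro b; simp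
    | succ k ih =>
      intro b
      rw [show g * (k + 1) + b = (g * k + b) + g by ring, hf, ih]
  induction k with
  | zero => simp
  | succ k ih =>
    rw [Nat.mul_succ, Finset.sum_range_add, ih, Finset.sum_congr rfl (fun b _ => hf' k b)]
    push_cast
    ring

/-- the sum over all traces of the weight of level `g` -/
private theorem cc_sum (d : ℤ) (n g : ℕ) (hn : 0 < n) (hg : g ∣ n) (hc : IsCoprime d (n : ℤ)) :
    ∑ t ∈ range n, CC d (t : ℤ) g = n := by
  have hg0 : 0 < g := Nat.pos_of_dvd_of_pos hg hn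
  obtain ⟨k, hk⟩ := hg
  have hcg : IsCoprime d (g : ℤ) := by
    rw [hk, Nat.cast_mul] at hc
    exact hc.of_mul_right_left
  have h1 := avg d g 1 hg0 one_pos hcg 0
  have h2 : ∀ b ∈ range (g * 1), ((1 : ℕ) : ℤ) ∣ (b : ℤ) - 0 := fun b _ => by simp
  rw [Finset.filter_true_of_mem h2, mul_one, Nat.gcd_one_right, CC_one] at h1
  have h3 := per_sum g k (fun b => CC d (b : ℤ) g) (fun b => by
    apply CC_congr
    · simp
    · push_cast
      exact ⟨1, by ring⟩)
  rw [← hk] at h3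
  rw [h3, h1, hk]
  push_cast
  ring

/-- the matrices of a given determinant, sorted by the trace -/
private theorem tr_sum (n : ℕ) (hn : 0 < n) (d : ℤ) (h : 1 ∣ n) :
    Nat.card {A : GL (Fin 2) (ZMod n) // A.val.det = (d : ZMod n)} =
      ∑ t ∈ range n, Nat.card {A : GL (Fin 2) (ZMod n) // A.val.det = (d : ZMod n) ∧ ScM n 1 h A.val ∧ A.val.trace = ((t : ℤ) : ZMod n)} := by
  have : NeZero n := ⟨hn.ne'⟩
  have hsc : ∀ A : Matrix (Fin 2) (Fin 2) (ZMod n), ScM n 1 h A := fun A =>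
    ⟨Subsingleton.elim _ _, Subsingleton.elim _ _, Subsingleton.elim _ _⟩
  let f : {A : GL (Fin 2) (ZMod n) // A.val.det = (d : ZMod n)} → ZMod n := fun A => A.1.val.trace
  have e2 : Nat.card {A : GL (Fin 2) (ZMod n) // A.val.det = (d : ZMod n)} = ∑ y : ZMod n, Nat.card {x // f x = y} := by
    rw [← Nat.card_sigma]
    exact (Nat.card_congr (Equiv.sigmaFiberEquiv f)).symm
  rw [e2]
  have e3 : ∀ t : ℕ, Nat.card {x // f x = ((t : ℤ) : ZMod n)} =
      Nat.card {A : GL (Fin 2) (ZMod n) // A.val.det = (d : ZMod n) ∧ ScM n 1 h A.val ∧ A.val.trace = ((t : ℤ) : ZMod n)} := by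
    intro t
    exact Nat.card_congr ⟨fun x => ⟨x.1.1, x.1.2, hsc _, x.2⟩, fun x => ⟨⟨x.1, x.2.1⟩, x.2.2.2⟩, fun x => rfl, fun x => rfl⟩
  rw [← Finset.sum_congr rfl (fun t _ => e3 t)]
  symm
  refine Finset.sum_nbij' (fun t => ((t : ℤ) : ZMod n)) (fun y => y.val) ?_ ?_ ?_ ?_ ?_
  · intro t _; exact Finset.mem_univ _
  · intro y _; exact Finset.mem_range.2 (ZMod.val_lt y)
  · intro t ht
    have := Finset.mem_range.1 ht
    simp [ZMod.val_natCast, Nat.mod_eq_of_lt this]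
  · intro y _
    simp
  · intro t _; rfl

/-- PIECE [JC-N3] (about 100 lines). PROOF. `cnt_s` with `s = 1` (`ScM n 1` is trivial), summed over the traces `t < n` : `∑_{t < n} Dn 1 (Cw d 1) n t = (1 / n²) ∑_{g ∣ n} φ(n / g) (n / g) ∑_{t < g} CC d t g` (`Cw_one_eq`, period `g`) and
`∑_{t < g} CC d t g = g` (`JB.avg_lcm` with `m = 1`, or `fam_s` with `m = 1`), `∑_{g ∣ n} φ(n / g) = n` (`sum_tot`). -/
theorem cnt_det (n : ℕ) (hn : 0 < n) (d : ℤ) (hc : IsCoprime d (n : ℤ)) :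
    (∏ l ∈ n.primeFactors, kap l) * (Nat.card {A : GL (Fin 2) (ZMod n) // A.val.det = (d : ZMod n)} : ℝ) = (n : ℝ) ^ 3 := by
  have h1 : 1 ∣ n := one_dvd n
  rw [tr_sum n hn d h1]
  push_cast
  rw [Finset.mul_sum]
  have e1 : ∀ t ∈ range n, (∏ l ∈ n.primeFactors, kap l) *
      (Nat.card {A : GL (Fin 2) (ZMod n) // A.val.det = (d : ZMod n) ∧ ScM n 1 h1 A.val ∧ A.val.trace = ((t : ℕ) : ZMod n)} : ℝ) =
      ∑ g ∈ n.divisors, (n : ℝ) * ((n / g).totient : ℝ) * CC d (t : ℤ) g := by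
    intro t _
    have h2 := cnt_s 1 n n one_pos hn (by ring) h1 d t hc
    rw [Int.cast_natCast] at h2
    rw [h2]
    unfold Dn
    have hn' : (n : ℝ) ≠ 0 := by positivity
    have h3 : ∀ g ∈ n.divisors, ((n / g).totient : ℝ) / n * Cw d 1 g (t : ℤ) = ((n / g).totient : ℝ) / n * CC d (t : ℤ) g := by
      intro g hg
      rw [Cw_one_eq d t g (Nat.pos_of_mem_divisors hg)]
    rw [Finset.sum_congr rfl h3, Finset.sum_div, Finset.mul_sum]
    refine Finset.sum_congr rfl fun g _ => ?_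
    push_cast
    field_simp
  rw [Finset.sum_congr rfl e1, Finset.sum_comm]
  have e2 : ∀ g ∈ n.divisors, ∑ t ∈ range n, (n : ℝ) * ((n / g).totient : ℝ) * CC d (t : ℤ) g =
      (n : ℝ) ^ 2 * ((n / g).totient : ℝ) := by
    intro g hg
    rw [← Finset.mul_sum, cc_sum d n g hn (Nat.dvd_of_mem_divisors hg) hc]
    ring
  rw [Finset.sum_congr rfl e2, ← Finset.mul_sum, sum_tot n hn]
  ring

/-- the proportion of the matrices of scalar level `s` and trace `t` among the matrices of determinant `d` -/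
theorem dn_eq (s q n : ℕ) (hs : 0 < s) (hq : 0 < q) (hn : n = s ^ 2 * q) (h : s ∣ n) (d t : ℤ) (hc : IsCoprime d (n : ℤ)) :
    Dn (s ^ 2) (Cw d s) q t =
      (Nat.card {A : GL (Fin 2) (ZMod n) // A.val.det = (d : ZMod n) ∧ ScM n s h A.val ∧ A.val.trace = (t : ZMod n)} : ℝ) /
        (Nat.card {A : GL (Fin 2) (ZMod n) // A.val.det = (d : ZMod n)} : ℝ) := by
  have hn0 : 0 < n := by rw [hn]; positivity
  have h1 := cnt_s s q n hs hq hn h d t hc
  have h2 := cnt_det n hn0 d hc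
  have hk : 0 < ∏ l ∈ n.primeFactors, kap l :=
    Finset.prod_pos fun l hl => kap_pos (Nat.prime_of_mem_primeFactors hl).two_le
  have hn3 : (0 : ℝ) < (n : ℝ) ^ 3 := by positivity
  have hY : (Nat.card {A : GL (Fin 2) (ZMod n) // A.val.det = (d : ZMod n)} : ℝ) ≠ 0 := by
    intro h0
    rw [h0, mul_zero] at h2
    exact absurd h2.symm hn3.ne'
  rw [eq_div_iff hY]
  apply mul_left_cancel₀ hk.ne'
  rw [h1, ← h2]
  ring

end Pool.Agent.JC
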