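import Pool.Agent.Lib_MP_f1937f_jc.CwRs
import Pool.Agent.Lib_MP_f1937f_jc.Mats
import Pool.Agent.Lib_MP_f1937f_jd.Cnt

/-!
# Counting the matrices of a scalar level
-/

set_option autoImplicit false

namespace Pool.Agent.JC

open Finset Pool.Agent.TB Pool.Agent.JB Pool.Agent.JD

/-- counting by fibres -/
private theorem card_fib_cs {α : Type} [Finite α] (P : α → Prop) (f : α → ℕ) (T : Finset ℕ) (hT : ∀ a, P a → f a ∈ T) :
    Nat.card {a // P a} = ∑ lam ∈ T, Nat.card {a // P a ∧ f a = lam} := by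
  classical
  have := Fintype.ofFinite α
  simp only [Nat.card_eq_fintype_card, Fintype.card_subtype]
  rw [Finset.card_eq_sum_card_fiberwise (f := f) (t := T) (fun a ha => hT a (by simpa using ha))]
  refine Finset.sum_congr rfl fun lam _ => ?_
  rw [Finset.filter_filter]

/-- the scalar matrix -/
private theorem exists_scal_cs (s : ℕ) (hs : 0 < s) (d : ℤ) (hd : IsCoprime d (s : ℤ)) (lam : ℕ)
    (h : (s : ℤ) ∣ (lam : ℤ) ^ 2 - d) : ∃ G : GL (Fin 2) (ZMod s), G.val = !![(lam : ZMod s), 0; 0, (lam : ZMod s)] ∧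
      G.val.det = (d : ZMod s) := by
  have h1 : IsCoprime ((lam : ℤ) ^ 2) (s : ℤ) := by
    obtain ⟨k, hk⟩ := h
    have h2 : (lam : ℤ) ^ 2 = d + (s : ℤ) * k := by linarith
    rw [h2]
    exact hd.add_mul_left_left k
  have h3 : IsCoprime (lam : ℤ) (s : ℤ) := (IsCoprime.pow_left_iff two_pos).1 h1
  have h4 : IsUnit (lam : ZMod s) := (ZMod.isUnit_iff_coprime lam s).2 (Nat.isCoprime_iff_coprime.1 h3)
  have h5 : (!![(lam : ZMod s), 0; 0, (lam : ZMod s)]).det = (lam : ZMod s) * lam := by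
    rw [Matrix.det_fin_two_of]
    ring
  have h6 : (lam : ZMod s) * lam = (d : ZMod s) := by
    have h7 : (((lam : ℤ) ^ 2 - d : ℤ) : ZMod s) = 0 := (ZMod.intCast_zmod_eq_zero_iff_dvd _ s).2 h
    push_cast at h7
    rw [← sub_eq_zero, ← sq]
    exact h7
  refine ⟨Matrix.GeneralLinearGroup.mk'' _ (by rw [h5]; exact h4.mul h4), rfl, ?_⟩
  show (!![(lam : ZMod s), 0; 0, (lam : ZMod s)]).det = _
  rw [h5, h6]

/-- PIECE [JC-N2] (about 200 lines). PROOF. The matrices modulo `n = s² q` of determinant `d`, trace `t`, scalar modulo `s` are, for the `lam < s` with `s ∣ lam² - d` (necessary: `d = lam²` modulo `s`), those counted by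
`NN s n g₀ t d` with `g₀ = lam` (scalar matrix modulo `s`, `lam` a unit). `count_g` with `M := s`, `N := 1`, `S := s`, `m := q` (`Blk s 1 s lam 0 0 lam`; the entries of `g₀` are `lam`, `0`, `0`, `lam`):
`(∏_{l ∣ q, l ∤ s} kap l) NN = s q ∑_{g ∣ q} φ(q / g) Cg s 1 s lam 0 0 lam d g t`. Sum over `lam` and multiply by `∏_{l ∣ s} kap l` : `Cg_sum`, so
`(∏_{l ∣ n} kap l) # = s⁴ q ∑_{g ∣ q} φ(q / g) Cw d s g t = n³ Dn (s²) (Cw d s) q t` (`n³ = s⁶ q³`, `Dn = ∑ (φ(q / g) / q) Cw / (s² q)`). -/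
theorem cnt_s (s q n : ℕ) (hs : 0 < s) (hq : 0 < q) (hn : n = s ^ 2 * q) (h : s ∣ n) (d t : ℤ) (hc : IsCoprime d (n : ℤ)) :
    (∏ l ∈ n.primeFactors, kap l) *
        (Nat.card {A : GL (Fin 2) (ZMod n) // A.val.det = (d : ZMod n) ∧ ScM n s h A.val ∧ A.val.trace = (t : ZMod n)} : ℝ) =
      (n : ℝ) ^ 3 * Dn (s ^ 2) (Cw d s) q t := by
  subst hn
  have hn0 : 0 < s ^ 2 * q := by positivity
  have : NeZero (s ^ 2 * q) := ⟨hn0.ne'⟩
  have : NeZero s := ⟨hs.ne'⟩
  have hds : IsCoprime d (s : ℤ) := hc.of_isCoprime_of_dvd_right (by exact_mod_cast h)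
  have hdsq : IsCoprime d ((s * q : ℕ) : ℤ) := by
    refine hc.of_isCoprime_of_dvd_right ?_
    have h1 : s * q ∣ s ^ 2 * q := ⟨s, by ring⟩
    exact_mod_cast h1
  set T := (range s).filter (fun lam : ℕ => (s : ℤ) ∣ (lam : ℤ) ^ 2 - d) with hTdef
  set P : GL (Fin 2) (ZMod (s ^ 2 * q)) → Prop := fun A =>
    A.val.det = (d : ZMod (s ^ 2 * q)) ∧ ScM (s ^ 2 * q) s h A.val ∧ A.val.trace = (t : ZMod (s ^ 2 * q)) with hP
  set f : GL (Fin 2) (ZMod (s ^ 2 * q)) → ℕ := fun A => (ZMod.castHom h (ZMod s) (A.val 0 0)).val with hf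
  have hfT : ∀ A, P A → f A ∈ T := by
    rintro A ⟨h1, ⟨h2, h3, h4⟩, -⟩
    rw [hTdef, mem_filter, mem_range]
    refine ⟨ZMod.val_lt _, ?_⟩
    rw [← ZMod.intCast_zmod_eq_zero_iff_dvd]
    push_cast
    have h5 := congrArg (ZMod.castHom h (ZMod s)) h1
    rw [Matrix.det_fin_two, map_sub, map_mul, map_mul, h2, zero_mul, sub_zero, map_intCast] at h5
    rw [map_sub, sub_eq_zero] at h4
    rw [← h4] at h5
    rw [hf]
    simp only
    rw [ZMod.natCast_zmod_val, sq, h5, sub_self]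
  have hsplit := card_fib_cs P f T hfT
  set K1 : ℝ := ∏ l ∈ q.primeFactors.filter (fun l => ¬ l ∣ s), kap l with hK1
  have key : ∀ lam ∈ T, K1 * (Nat.card {A // P A ∧ f A = lam} : ℝ) =
      s * q * ∑ g ∈ q.divisors, ((q / g).totient : ℝ) * Cg s 1 s lam 0 0 lam d g t := by
    intro lam hlam
    rw [hTdef, mem_filter, mem_range] at hlam
    obtain ⟨hl1, hl2⟩ := hlam
    obtain ⟨G, hG, hGdet⟩ := exists_scal_cs s hs d hds lam hl2
    have e00 : ((G 0 0).val : ℤ) = lam := by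
      rw [hG]
      show (((lam : ZMod s)).val : ℤ) = lam
      rw [ZMod.val_natCast_of_lt hl1]
    have e01 : ((G 0 1).val : ℤ) = 0 := by
      rw [hG]
      show (((0 : ZMod s)).val : ℤ) = 0
      simp
    have e10 : ((G 1 0).val : ℤ) = 0 := by
      rw [hG]
      show (((0 : ZMod s)).val : ℤ) = 0
      simp
    have e11 : ((G 1 1).val : ℤ) = lam := by
      rw [hG]
      show (((lam : ZMod s)).val : ℤ) = lam
      rw [ZMod.val_natCast_of_lt hl1]
    have hcard : Nat.card {A // P A ∧ f A = lam} = NN s (s ^ 2 * q) h G t d := by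
      refine Nat.card_congr (Equiv.subtypeEquivRight fun A => ?_)
      have hmap : Matrix.GeneralLinearGroup.map (ZMod.castHom h (ZMod s)) A = G ↔
          (ZMod.castHom h (ZMod s) (A.val 0 0) = (lam : ZMod s) ∧ ZMod.castHom h (ZMod s) (A.val 0 1) = 0 ∧
            ZMod.castHom h (ZMod s) (A.val 1 0) = 0 ∧ ZMod.castHom h (ZMod s) (A.val 1 1) = (lam : ZMod s)) := by
        rw [Units.ext_iff, hG]
        constructor
        · intro h1
          refine ⟨congrFun (congrFun h1 0) 0, congrFun (congrFun h1 0) 1, congrFun (congrFun h1 1) 0,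
            congrFun (congrFun h1 1) 1⟩
        · rintro ⟨h1, h2, h3, h4⟩
          ext i j
          fin_cases i <;> fin_cases j
          · exact h1
          · exact h2
          · exact h3
          · exact h4
      have hval : f A = lam ↔ ZMod.castHom h (ZMod s) (A.val 0 0) = (lam : ZMod s) := by
        rw [hf]
        simp only
        constructor
        · intro h1
          rw [← h1, ZMod.natCast_zmod_val]
        · intro h1
          rw [h1, ZMod.val_natCast_of_lt hl1]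
      rw [hmap, hval]
      constructor
      · rintro ⟨⟨h1, ⟨h2, h3, h4⟩, h5⟩, h6⟩
        rw [map_sub, sub_eq_zero, h6] at h4
        exact ⟨⟨h6, h2, h3, h4.symm⟩, h1, h5⟩
      · rintro ⟨⟨h6, h2, h3, h4⟩, h1, h5⟩
        refine ⟨⟨h1, ⟨h2, h3, ?_⟩, h5⟩, h6⟩
        rw [map_sub, h6, h4, sub_self]
    rw [hcard]
    have hb : Blk s 1 s ((G 0 0).val : ℤ) ((G 0 1).val : ℤ) ((G 1 0).val : ℤ) ((G 1 1).val : ℤ) := by
      rw [e00, e01, e10, e11]
      refine ⟨(one_mul s).symm, Nat.coprime_one_left s, dvd_zero _, dvd_zero _, ?_, ?_⟩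
      · rw [sub_self]
        exact dvd_zero _
      · intro l hl h1
        exact absurd (Nat.dvd_one.1 h1) hl.one_lt.ne'
    have hcount := count_g s 1 s q hs hq h G t d hb hGdet hdsq
    rw [e00, e01, e10, e11] at hcount
    exact hcount
  have hsum : K1 * (Nat.card {A // P A} : ℝ) =
      s * q * ∑ g ∈ q.divisors, ((q / g).totient : ℝ) * ∑ lam ∈ T, Cg s 1 s lam 0 0 lam d g t := by
    rw [hsplit, Nat.cast_sum, mul_sum, sum_congr rfl key, ← mul_sum, sum_comm]
    congr 1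
    refine sum_congr rfl fun g _ => ?_
    rw [mul_sum]
  have hprod : ∏ l ∈ (s ^ 2 * q).primeFactors, kap l = (∏ l ∈ s.primeFactors, kap l) * K1 := by
    have h1 : (s ^ 2 * q).primeFactors = s.primeFactors ∪ q.primeFactors.filter (fun l => ¬ l ∣ s) := by
      ext l
      simp only [Nat.mem_primeFactors, mem_union, mem_filter]
      constructor
      · rintro ⟨hl, h1, -⟩
        by_cases h2 : l ∣ s
        · exact Or.inl ⟨hl, h2, hs.ne'⟩
        · rcases hl.dvd_mul.1 h1 with h3 | h3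
          · exact absurd (hl.dvd_of_dvd_pow h3) h2
          · exact Or.inr ⟨⟨hl, h3, hq.ne'⟩, h2⟩
      · rintro (⟨hl, h1, -⟩ | ⟨⟨hl, h1, -⟩, -⟩)
        · exact ⟨hl, (dvd_pow h1 two_ne_zero).mul_right q, hn0.ne'⟩
        · exact ⟨hl, h1.mul_left _, hn0.ne'⟩
    have h2 : Disjoint s.primeFactors (q.primeFactors.filter (fun l => ¬ l ∣ s)) := by
      rw [Finset.disjoint_left]
      intro l h3 h4
      exact (mem_filter.1 h4).2 (Nat.dvd_of_mem_primeFactors h3)
    rw [h1, prod_union h2]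
  have hcg : ∀ g ∈ q.divisors, (∏ l ∈ s.primeFactors, kap l) * ∑ lam ∈ T, Cg s 1 s lam 0 0 lam d g t =
      (s : ℝ) ^ 3 * Cw d s g t := fun g hg => Cg_sum d t s g hs (Nat.pos_of_mem_divisors hg) hds
  rw [hprod, mul_assoc, hsum]
  have hfin : (∏ l ∈ s.primeFactors, kap l) *
      (s * q * ∑ g ∈ q.divisors, ((q / g).totient : ℝ) * ∑ lam ∈ T, Cg s 1 s lam 0 0 lam d g t) =
      s * q * ∑ g ∈ q.divisors, ((q / g).totient : ℝ) * ((s : ℝ) ^ 3 * Cw d s g t) := by
    rw [mul_left_comm, mul_sum]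
    congr 1
    refine sum_congr rfl fun g hg => ?_
    rw [← hcg g hg]
    ring
  rw [hfin]
  unfold Dn
  have hsr : (s : ℝ) ≠ 0 := by exact_mod_cast hs.ne'
  have hqr : (q : ℝ) ≠ 0 := by exact_mod_cast hq.ne'
  have h9 : ∑ g ∈ q.divisors, ((q / g).totient : ℝ) / q * Cw d s g t =
      (∑ g ∈ q.divisors, ((q / g).totient : ℝ) * Cw d s g t) / q := by
    rw [sum_div]
    refine sum_congr rfl fun g _ => ?_
    ring
  have h10 : ∑ g ∈ q.divisors, ((q / g).totient : ℝ) * ((s : ℝ) ^ 3 * Cw d s g t) =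
      (s : ℝ) ^ 3 * ∑ g ∈ q.divisors, ((q / g).totient : ℝ) * Cw d s g t := by
    rw [mul_sum]
    refine sum_congr rfl fun g _ => ?_
    ring
  rw [h9, h10]
  push_cast
  field_simp

end Pool.Agent.JC
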