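import Pool.Agent.Lib_MP_f1937f_jc.Defs

/-!
# Cyclic matrices
-/

set_option autoImplicit false

namespace Pool.Agent.JC

open Finset Pool.Agent.TB Pool.Agent.JB Pool.Agent.JD

private def cqf (A : Mz) (x y : ℤ) : ℤ := A 1 0 * x ^ 2 + (A 1 1 - A 0 0) * x * y - A 0 1 * y ^ 2

private theorem cyc_dvd_prod (l : ℕ) (hl : l.Prime) (S : Finset ℕ) (hS : ∀ i ∈ S, Nat.Prime i) :
    (l : ℤ) ∣ ∏ i ∈ S, (i : ℤ) ↔ l ∈ S := by
  constructor
  · intro h
    rw [(Nat.prime_iff_prime_int.mp hl).dvd_finsetProd_iff] at h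
    obtain ⟨i, hi, hd⟩ := h
    have h1 : l ∣ i := by exact_mod_cast hd
    rwa [(Nat.prime_dvd_prime_iff_eq hl (hS i hi)).mp h1]
  · intro h
    exact Finset.dvd_prod_of_mem (fun i : ℕ => (i : ℤ)) h

private theorem cyc_vec (n : ℕ) (hn : 0 < n) (A : Mz) (hA : ∀ l : ℕ, l.Prime → l ∣ n → ¬ Lv l A) :
    ∃ x y : ℤ, IsCoprime (cqf A x y) (n : ℤ) := by
  classical
  refine ⟨∏ l ∈ n.primeFactors.filter (fun l : ℕ => (l : ℤ) ∣ A 1 0 ∧ ¬ (l : ℤ) ∣ A 0 1), (l : ℤ),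
    ∏ l ∈ n.primeFactors.filter (fun l : ℕ => ¬ (l : ℤ) ∣ A 1 0), (l : ℤ), ?_⟩
  rw [Int.isCoprime_iff_gcd_eq_one]
  by_contra hne
  obtain ⟨l, hl, hlg⟩ := Nat.exists_prime_and_dvd hne
  have hlq := (Int.natCast_dvd_natCast.mpr hlg).trans (Int.gcd_dvd_left _ _)
  have hln : l ∣ n := by
    have := (Int.natCast_dvd_natCast.mpr hlg).trans (Int.gcd_dvd_right _ _)
    exact_mod_cast this
  have hlp : Prime (l : ℤ) := Nat.prime_iff_prime_int.mp hl
  have hmem : l ∈ n.primeFactors := Nat.mem_primeFactors.mpr ⟨hl, hln, hn.ne'⟩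
  have hx := cyc_dvd_prod l hl (n.primeFactors.filter (fun l : ℕ => (l : ℤ) ∣ A 1 0 ∧ ¬ (l : ℤ) ∣ A 0 1))
    (fun i hi => Nat.prime_of_mem_primeFactors (Finset.mem_filter.mp hi).1)
  have hy := cyc_dvd_prod l hl (n.primeFactors.filter (fun l : ℕ => ¬ (l : ℤ) ∣ A 1 0))
    (fun i hi => Nat.prime_of_mem_primeFactors (Finset.mem_filter.mp hi).1)
  rw [Finset.mem_filter] at hx hy
  set x := ∏ l ∈ n.primeFactors.filter (fun l : ℕ => (l : ℤ) ∣ A 1 0 ∧ ¬ (l : ℤ) ∣ A 0 1), (l : ℤ) with hxd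
  set y := ∏ l ∈ n.primeFactors.filter (fun l : ℕ => ¬ (l : ℤ) ∣ A 1 0), (l : ℤ) with hyd
  have hq : (l : ℤ) ∣ A 1 0 * x ^ 2 + (A 1 1 - A 0 0) * x * y - A 0 1 * y ^ 2 := hlq
  have hA' := hA l hl hln
  unfold Lv at hA'
  by_cases h10 : (l : ℤ) ∣ A 1 0
  · have hy' : ¬ (l : ℤ) ∣ y := by
      rw [hy]
      tauto
    by_cases h01 : (l : ℤ) ∣ A 0 1
    · have hx' : ¬ (l : ℤ) ∣ x := by
        rw [hx]
        tauto
      have h3 : ¬ (l : ℤ) ∣ A 0 0 - A 1 1 := by tauto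
      have h4 : (l : ℤ) ∣ (A 0 0 - A 1 1) * x * y := by
        have e : (A 0 0 - A 1 1) * x * y = A 1 0 * x ^ 2 - A 0 1 * y ^ 2 -
          (A 1 0 * x ^ 2 + (A 1 1 - A 0 0) * x * y - A 0 1 * y ^ 2) := by ring
        rw [e]
        exact dvd_sub (dvd_sub (h10.mul_right _) (h01.mul_right _)) hq
      rcases hlp.dvd_or_dvd h4 with h5 | h5
      · rcases hlp.dvd_or_dvd h5 with h6 | h6
        · exact h3 h6
        · exact hx' h6
      · exact hy' h5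
    · have hx' : (l : ℤ) ∣ x := by
        rw [hx]
        exact ⟨hmem, h10, h01⟩
      have h4 : (l : ℤ) ∣ A 0 1 * y ^ 2 := by
        have e : A 0 1 * y ^ 2 = A 1 0 * x ^ 2 + (A 1 1 - A 0 0) * y * x -
          (A 1 0 * x ^ 2 + (A 1 1 - A 0 0) * x * y - A 0 1 * y ^ 2) := by ring
        rw [e]
        exact dvd_sub (dvd_add (h10.mul_right _) (hx'.mul_left _)) hq
      rcases hlp.dvd_or_dvd h4 with h5 | h5
      · exact h01 h5
      · exact hy' (hlp.dvd_of_dvd_pow h5)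
  · have hy' : (l : ℤ) ∣ y := by
      rw [hy]
      exact ⟨hmem, h10⟩
    have hx' : ¬ (l : ℤ) ∣ x := by
      rw [hx]
      tauto
    have h4 : (l : ℤ) ∣ A 1 0 * x ^ 2 := by
      have e : A 1 0 * x ^ 2 = (A 1 0 * x ^ 2 + (A 1 1 - A 0 0) * x * y - A 0 1 * y ^ 2) -
        ((A 1 1 - A 0 0) * x - A 0 1 * y) * y := by ring
      rw [e]
      exact dvd_sub hq (hy'.mul_left _)
    rcases hlp.dvd_or_dvd h4 with h5 | h5
    · exact h10 h5
    · exact hx' (hlp.dvd_of_dvd_pow h5)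

private theorem cyc_frob (n : ℕ) (hn : 0 < n) (A : Mz) (hA : ∀ l : ℕ, l.Prime → l ∣ n → ¬ Lv l A) :
    ∃ P : GL (Fin 2) (ZMod n), rd n A * P.val =
      P.val * !![0, -((A.det : ℤ) : ZMod n); 1, ((A.trace : ℤ) : ZMod n)] := by
  obtain ⟨x, y, hxy⟩ := cyc_vec n hn A hA
  have hu : IsUnit ((cqf A x y : ℤ) : ZMod n) := by
    rw [ZMod.coe_int_isUnit_iff_isCoprime]
    exact hxy.symm
  let Q : Matrix (Fin 2) (Fin 2) (ZMod n) :=
    !![(x : ZMod n), (A 0 0 : ZMod n) * x + (A 0 1 : ZMod n) * y;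
       (y : ZMod n), (A 1 0 : ZMod n) * x + (A 1 1 : ZMod n) * y]
  have hdet : Q.det = ((cqf A x y : ℤ) : ZMod n) := by
    show (!![(x : ZMod n), (A 0 0 : ZMod n) * x + (A 0 1 : ZMod n) * y;
       (y : ZMod n), (A 1 0 : ZMod n) * x + (A 1 1 : ZMod n) * y]).det = _
    rw [Matrix.det_fin_two_of]
    unfold cqf
    push_cast
    ring
  have hQ : IsUnit Q := by
    rw [Matrix.isUnit_iff_isUnit_det, hdet]
    exact hu
  refine ⟨hQ.unit, ?_⟩
  have e : hQ.unit.val = Q := hQ.unit_spec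
  rw [e]
  have hrd : rd n A = !![(A 0 0 : ZMod n), (A 0 1 : ZMod n); (A 1 0 : ZMod n), (A 1 1 : ZMod n)] := by
    ext i j
    fin_cases i <;> fin_cases j <;> rfl
  rw [hrd, Matrix.det_fin_two, Matrix.trace_fin_two]
  show _ * !![(x : ZMod n), (A 0 0 : ZMod n) * x + (A 0 1 : ZMod n) * y;
       (y : ZMod n), (A 1 0 : ZMod n) * x + (A 1 1 : ZMod n) * y] =
       !![(x : ZMod n), (A 0 0 : ZMod n) * x + (A 0 1 : ZMod n) * y;
       (y : ZMod n), (A 1 0 : ZMod n) * x + (A 1 1 : ZMod n) * y] * _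
  rw [Matrix.mul_fin_two, Matrix.mul_fin_two]
  push_cast
  congr 1
  ext i j
  fin_cases i <;> fin_cases j <;> simp <;> ring

/-- PIECE [JC-T1] (about 150 lines). `n ≥ 1`, `A`, `B` integer matrices with the same trace and determinant modulo `n` and not scalar modulo any prime `l ∣ n`. PROOF. For a prime `l ∣ n` one of the vectors `v = (1,0), (0,1), (1,1)` has
`det (v, A v) ≠ 0` modulo `l` (the determinants are `A 1 0`, `- A 0 1`, `A 1 0 - A 0 1 + A 1 1 - A 0 0`). By the Chinese remainder theorem (over the primes of `n`) there is an integer vector `v` with `det (v, A v)` prime to `n`; `P = (v | A v)` is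
invertible modulo `n` and `A P = P C` with `C = !![0, -det; 1, trace]` (Cayley-Hamilton). Likewise `B P' = P' C`. `γ = P' P⁻¹`. -/
theorem cyc (n : ℕ) (hn : 0 < n) (A B : Mz) (ht : (n : ℤ) ∣ A.trace - B.trace) (hd : (n : ℤ) ∣ A.det - B.det)
    (hA : ∀ l : ℕ, l.Prime → l ∣ n → ¬ Lv l A) (hB : ∀ l : ℕ, l.Prime → l ∣ n → ¬ Lv l B) : Cj n (rd n A) (rd n B) := by
  obtain ⟨P, hP⟩ := cyc_frob n hn A hA
  obtain ⟨P', hP'⟩ := cyc_frob n hn B hB
  have e1 : ((A.trace : ℤ) : ZMod n) = ((B.trace : ℤ) : ZMod n) := by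
    rw [← sub_eq_zero, ← Int.cast_sub, ZMod.intCast_zmod_eq_zero_iff_dvd]
    exact ht
  have e2 : ((A.det : ℤ) : ZMod n) = ((B.det : ℤ) : ZMod n) := by
    rw [← sub_eq_zero, ← Int.cast_sub, ZMod.intCast_zmod_eq_zero_iff_dvd]
    exact hd
  rw [e1, e2] at hP
  set C : Matrix (Fin 2) (Fin 2) (ZMod n) := !![0, -((B.det : ℤ) : ZMod n); 1, ((B.trace : ℤ) : ZMod n)] with hC
  refine ⟨P' * P⁻¹, ?_⟩
  have h1 : (P⁻¹).val * rd n A = C * (P⁻¹).val := by
    have h2 : (P⁻¹).val * (rd n A * P.val) * (P⁻¹).val = (P⁻¹).val * (P.val * C) * (P⁻¹).val := by rw [hP]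
    have h3 : P.val * (P⁻¹).val = 1 := by
      rw [← Units.val_mul, mul_inv_cancel, Units.val_one]
    have h4 : (P⁻¹).val * P.val = 1 := by
      rw [← Units.val_mul, inv_mul_cancel, Units.val_one]
    calc (P⁻¹).val * rd n A = (P⁻¹).val * rd n A * (P.val * (P⁻¹).val) := by rw [h3, mul_one]
      _ = (P⁻¹).val * (rd n A * P.val) * (P⁻¹).val := by simp only [mul_assoc]
      _ = (P⁻¹).val * (P.val * C) * (P⁻¹).val := h2
      _ = ((P⁻¹).val * P.val) * C * (P⁻¹).val := by simp only [mul_assoc]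
      _ = C * (P⁻¹).val := by rw [h4, one_mul]
  calc (P' * P⁻¹).val * rd n A = P'.val * ((P⁻¹).val * rd n A) := by rw [Units.val_mul, mul_assoc]
    _ = P'.val * (C * (P⁻¹).val) := by rw [h1]
    _ = (P'.val * C) * (P⁻¹).val := by rw [mul_assoc]
    _ = (rd n B * P'.val) * (P⁻¹).val := by rw [hP']
    _ = rd n B * (P' * P⁻¹).val := by rw [Units.val_mul, mul_assoc]

end Pool.Agent.JC
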