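import Pool.Agent.Lib_MP_f1937f_jc.Defs
import Pool.Agent.Lib_MP_f1937f_jd.PartL

/-!
# Lifting of matrices
-/

set_option autoImplicit false

namespace Pool.Agent.JC

open Finset Pool.Agent.TB Pool.Agent.JB Pool.Agent.JD

theorem co_coprime_aux (n m : ℕ) : Nat.Coprime n (co n m) := by
  rw [Nat.coprime_iff_gcd_eq_one]
  by_contra hne
  obtain ⟨l, hl, hd⟩ := Nat.exists_prime_and_dvd hne
  exact co_prime n m l hl (hd.trans (Nat.gcd_dvd_right _ _)) (hd.trans (Nat.gcd_dvd_left _ _))

theorem dvd_co_aux (n m : ℕ) (hm : 0 < m) (l : ℕ) (hl : l.Prime) (h : l ∣ m) (hn : ¬ l ∣ n) :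
    l ∣ co n m := by
  unfold co
  have h1 : l ∈ m.primeFactors.filter (fun l => ¬ l ∣ n) := by
    simp only [Finset.mem_filter, Nat.mem_primeFactors]
    exact ⟨⟨hl, h, hm.ne'⟩, hn⟩
  have h2 : l ∣ l ^ m.factorization l := by
    apply dvd_pow_self
    exact (hl.factorization_pos_of_dvd hm.ne' h).ne'
  exact h2.trans (Finset.dvd_prod_of_mem _ h1)

/-- PIECE [JC-T2] (both theorems, about 150 lines). PROOF. Choose an integer matrix which is `γ` modulo `n` and `1` modulo `co n m` (the part of `m` made of the primes not dividing `n`; it is prime to `n`; Chinese remainder theorem entry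
by entry): its determinant is prime to every prime of `m`. -/
theorem gl_surj (m n : ℕ) (hm : 0 < m) (h : n ∣ m) (γ : GL (Fin 2) (ZMod n)) :
    ∃ γ' : GL (Fin 2) (ZMod m), Matrix.GeneralLinearGroup.map (ZMod.castHom h (ZMod n)) γ' = γ := by
  have hn : 0 < n := Nat.pos_of_dvd_of_pos h hm
  have : NeZero n := ⟨hn.ne'⟩
  have : NeZero m := ⟨hm.ne'⟩
  set c : ℕ := co n m with hc
  have hcop : IsCoprime (n : ℤ) (c : ℤ) := Nat.isCoprime_iff_coprime.mpr (co_coprime_aux n m)
  obtain ⟨u, v, huv⟩ := hcop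
  -- integer lift
  let G : Mz := fun i j => ((γ.val i j).val : ℤ)
  let F : Mz := fun i j => G i j * (v * c) + (1 : Mz) i j * (u * n)
  have hG : ∀ i j, ((G i j : ℤ) : ZMod n) = γ.val i j := by
    intro i j
    simp [G]
  have hF1 : ∀ i j, (n : ℤ) ∣ F i j - G i j := by
    intro i j
    refine ⟨(1 : Mz) i j * u - G i j * u, ?_⟩
    have e : v * (c : ℤ) = 1 - u * n := by linarith
    simp only [F]
    rw [e]
    ring
  have hF2 : ∀ i j, (c : ℤ) ∣ F i j - (1 : Mz) i j := by
    intro i j
    refine ⟨G i j * v - (1 : Mz) i j * v, ?_⟩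
    have e : u * (n : ℤ) = 1 - v * c := by linarith
    simp only [F]
    rw [e]
    ring
  have hdet : IsUnit ((rd m F).det) := by
    have e1 : (rd m F).det = ((F.det : ℤ) : ZMod m) := by
      unfold rd
      rw [Matrix.det_fin_two, Matrix.det_fin_two]
      simp only [Matrix.map_apply]
      push_cast
      ring
    rw [e1]
    rw [ZMod.coe_int_isUnit_iff_isCoprime]
    have hco : Nat.Coprime m F.det.natAbs := by
      rw [Nat.coprime_iff_gcd_eq_one]
      by_contra hne
      obtain ⟨l, hl, hd⟩ := Nat.exists_prime_and_dvd hne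
      have hlm : l ∣ m := hd.trans (Nat.gcd_dvd_left _ _)
      have hlF : (l : ℤ) ∣ F.det := Int.natCast_dvd.mpr (hd.trans (Nat.gcd_dvd_right _ _))
      have : Fact l.Prime := ⟨hl⟩
      by_cases hln : l ∣ n
      · -- det F = det G modulo l, unit
        have e2 : ((F.det : ℤ) : ZMod n) = γ.val.det := by
          rw [Matrix.det_fin_two, Matrix.det_fin_two]
          push_cast
          have e3 : ∀ i j, ((F i j : ℤ) : ZMod n) = γ.val i j := by
            intro i j
            rw [← hG i j]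
            rw [← sub_eq_zero, ← Int.cast_sub, ZMod.intCast_zmod_eq_zero_iff_dvd]
            exact hF1 i j
          rw [e3, e3, e3, e3]
        have hu : IsUnit (γ.val.det) := by
          have := γ.isUnit
          exact (Matrix.isUnit_iff_isUnit_det _).mp this
        rw [← e2] at hu
        have hu2 := hu.map (ZMod.castHom hln (ZMod l))
        rw [map_intCast] at hu2
        rw [(ZMod.intCast_zmod_eq_zero_iff_dvd _ _).mpr hlF] at hu2
        exact not_isUnit_zero hu2
      · have hlc : l ∣ c := dvd_co_aux n m hm l hl hlm hln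
        have e3 : ∀ i j, ((F i j : ℤ) : ZMod l) = (((1 : Mz) i j : ℤ) : ZMod l) := by
          intro i j
          rw [← sub_eq_zero, ← Int.cast_sub, ZMod.intCast_zmod_eq_zero_iff_dvd]
          exact (Int.natCast_dvd_natCast.mpr hlc).trans (hF2 i j)
        have e2 : ((F.det : ℤ) : ZMod l) = 1 := by
          rw [Matrix.det_fin_two]
          push_cast
          rw [e3, e3, e3, e3]
          simp
        rw [(ZMod.intCast_zmod_eq_zero_iff_dvd _ _).mpr hlF] at e2
        exact zero_ne_one e2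
    have := Int.isCoprime_iff_gcd_eq_one (m := (m : ℤ)) (n := F.det)
    rw [this]
    rw [Int.gcd_eq_natAbs]
    simpa using hco
  refine ⟨Matrix.GeneralLinearGroup.mk'' (rd m F) hdet, ?_⟩
  ext i j
  simp only [Matrix.GeneralLinearGroup.map_apply, Matrix.GeneralLinearGroup.mk'',
    Matrix.nonsingInvUnit]
  show (ZMod.castHom h (ZMod n)) (rd m F i j) = γ.val i j
  unfold rd
  simp only [Matrix.map_apply]
  rw [map_intCast, ← hG i j]
  rw [← sub_eq_zero, ← Int.cast_sub, ZMod.intCast_zmod_eq_zero_iff_dvd]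
  exact hF1 i j

/-- PROOF. Let `(a, b; c, d)` be an integer lift, `a d - b c = 1` modulo `n`. Changing `c` by a multiple of `n` (`c ≠ 0`) and then `d` by a multiple of `n` one gets `gcd (c, d) = 1` (`gcd (c, d, n) = 1`; choose `d + n k` prime to `c`: `k` = the product of
the primes of `c` which do not divide `d`... or by the Chinese remainder theorem). Then `a d - b c = 1 + n k`, and `u d - v c = 1` gives `(a - n k u, b - n k v; c, d)` of determinant `1`. -/
theorem sl_surj (n : ℕ) (hn : 0 < n) (A : Mz) (hA : (n : ℤ) ∣ A.det - 1) :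
    ∃ σ : Matrix.SpecialLinearGroup (Fin 2) ℤ, rd n σ.val = rd n A := by
  have hn' : (n : ℤ) ≠ 0 := by exact_mod_cast hn.ne'
  rw [Matrix.det_fin_two] at hA
  set a := A 0 0 with ha
  set b := A 0 1 with hb
  set c := A 1 0 with hc
  set d := A 1 1 with hd
  -- a nonzero lower left entry
  obtain ⟨c', hc0, hcc⟩ : ∃ c' : ℤ, c' ≠ 0 ∧ (n : ℤ) ∣ c' - c := by
    by_cases h0 : c = 0
    · exact ⟨n, hn', by rw [h0]; simp⟩
    · exact ⟨c, h0, by simp⟩
  -- gcd
  set e : ℤ := (Int.gcd c' n : ℤ) with he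
  have hec : e ∣ c' := Int.gcd_dvd_left _ _
  have hen : e ∣ (n : ℤ) := Int.gcd_dvd_right _ _
  have hde : IsCoprime d e := by
    obtain ⟨k, hk⟩ := hA
    obtain ⟨t, ht⟩ := hen
    obtain ⟨s, hs⟩ := hcc
    obtain ⟨w, hw⟩ := hec
    -- a d - b c = 1 + n k, c = c' - n s
    refine ⟨a, -(b * (w - t * s)) - t * k, ?_⟩
    have h1 : c = e * (w - t * s) := by
      have : c = c' - n * s := by linarith
      rw [this, hw, ht]
      ring
    have h2 : a * d - b * c - 1 = e * t * k := by rw [hk, ht]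
    rw [h1] at h2
    linarith
  -- a unit modulo c'
  obtain ⟨d', hd1, hd2⟩ : ∃ d' : ℤ, (n : ℤ) ∣ d' - d ∧ IsCoprime d' c' := by
    have hcn : 0 < c'.natAbs := Int.natAbs_pos.mpr hc0
    have : NeZero c'.natAbs := ⟨hcn.ne'⟩
    have hdv : Int.gcd c' n ∣ c'.natAbs := by
      rw [Int.gcd_eq_natAbs]
      exact Nat.gcd_dvd_left _ _
    have hud : IsUnit ((d : ℤ) : ZMod (Int.gcd c' n)) := by
      rw [ZMod.coe_int_isUnit_iff_isCoprime]
      exact hde.symm
    obtain ⟨U, hU⟩ := ZMod.unitsMap_surjective hdv hud.unit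
    have hU2 : ZMod.castHom hdv (ZMod (Int.gcd c' n)) U.val = ((d : ℤ) : ZMod (Int.gcd c' n)) := by
      have := congrArg Units.val hU
      simpa [ZMod.unitsMap] using this
    -- integer lift of U
    set x : ℤ := (U.val.val : ℤ) with hx
    have hx1 : ((x : ℤ) : ZMod c'.natAbs) = U.val := by
      simp [hx]
    have hx2 : e ∣ x - d := by
      rw [he, ← ZMod.intCast_zmod_eq_zero_iff_dvd, Int.cast_sub, sub_eq_zero, ← hU2, ← hx1, map_intCast]
    have hx3 : IsCoprime x c' := by
      have h3 : IsUnit ((x : ℤ) : ZMod c'.natAbs) := by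
        rw [hx1]
        exact U.isUnit
      rw [ZMod.coe_int_isUnit_iff_isCoprime] at h3
      rw [Int.isCoprime_iff_gcd_eq_one] at h3 ⊢
      rw [Int.gcd_comm]
      simpa [Int.gcd_eq_natAbs, Int.natAbs_abs] using h3
    obtain ⟨q, hq⟩ := hx2
    have hbez : e = c' * Int.gcdA c' n + n * Int.gcdB c' n := Int.gcd_eq_gcd_ab c' n
    refine ⟨d + n * (Int.gcdB c' n * q), ⟨Int.gcdB c' n * q, by ring⟩, ?_⟩
    have h4 : d + n * (Int.gcdB c' n * q) = x + c' * (-(Int.gcdA c' n * q)) := by
      have : x = d + e * q := by linarith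
      rw [this, hbez]
      ring
    rw [h4]
    exact hx3.add_mul_left_left _
  obtain ⟨u, v, huv⟩ := hd2
  -- `u d' + v c' = 1`
  obtain ⟨k, hk⟩ : (n : ℤ) ∣ a * d' - b * c' - 1 := by
    obtain ⟨k1, hk1⟩ := hA
    obtain ⟨k2, hk2⟩ := hd1
    obtain ⟨k3, hk3⟩ := hcc
    refine ⟨k1 + a * k2 - b * k3, ?_⟩
    have h5 : d' = d + n * k2 := by linarith
    have h6 : c' = c + n * k3 := by linarith
    rw [h5, h6]
    linear_combination hk1
  refine ⟨⟨!![a - n * k * u, b + n * k * v; c', d'], ?_⟩, ?_⟩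
  · rw [Matrix.det_fin_two_of]
    linear_combination hk - n * k * huv
  · ext i j
    unfold rd
    simp only [Matrix.map_apply]
    rw [← sub_eq_zero, ← Int.cast_sub, ZMod.intCast_zmod_eq_zero_iff_dvd]
    fin_cases i <;> fin_cases j
    · refine ⟨-(k * u), ?_⟩
      simp [ha]
      ring
    · refine ⟨k * v, ?_⟩
      simp [hb]
      ring
    · simpa [hc] using hcc
    · simpa [hd] using hd1

end Pool.Agent.JC
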