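import Pool.Agent.Lib_MP_f1937f_jc.Ctrs
import Pool.Agent.Lib_MP_f1937f_jc.Mats
import Pool.Agent.Lib_MP_f1937f_jc.Cyc
import Pool.Agent.Lib_MP_f1937f_jc.Lifts

/-!
# The conjugacy classes modulo m
-/

set_option autoImplicit false

namespace Pool.Agent.JC

open Finset Pool.Agent.TB Pool.Agent.JB Pool.Agent.JD

private theorem rd_eq_cji (m : ℕ) (A B : Mz) : rd m A = rd m B ↔ ∀ i j, (m : ℤ) ∣ A i j - B i j := by
  constructor
  · intro h i j
    have h1 := congrFun (congrFun h i) j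
    simp only [rd, Matrix.map_apply] at h1
    exact (ZMod.intCast_eq_intCast_iff_dvd_sub (B i j) (A i j) m).1 h1.symm
  · intro h
    ext i j
    simp only [rd, Matrix.map_apply]
    exact ((ZMod.intCast_eq_intCast_iff_dvd_sub (B i j) (A i j) m).2 (h i j)).symm

private theorem cop_cji (m s' : ℕ) (h : s' ∣ m) (γ : GL (Fin 2) (ZMod m)) (Γ : Mz) (hΓ : rd m Γ = γ.val) :
    IsCoprime Γ.det (s' : ℤ) := by
  have h1 : IsUnit ((Γ.det : ℤ) : ZMod m) := by
    rw [← rd_det, hΓ]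
    exact (Matrix.isUnit_iff_isUnit_det _).1 γ.isUnit
  have h2 := (ZMod.coe_int_isUnit_iff_isCoprime Γ.det m).1 h1
  exact (IsCoprime.of_isCoprime_of_dvd_left h2 (Int.natCast_dvd_natCast.2 h)).symm

private theorem killr_cji (s' : ℤ) (Γ X : Mz) (hΓ : IsCoprime Γ.det s') (h : ∀ i j, s' ∣ (X * Γ) i j) :
    ∀ i j, s' ∣ X i j := by
  intro i j
  have h1 : (X * Γ * Γ.adjugate) i j = X i j * Γ.det := by
    rw [Matrix.mul_assoc, Matrix.mul_adjugate, Matrix.mul_smul, Matrix.mul_one, Matrix.smul_apply, smul_eq_mul, mul_comm]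
  have h2 : s' ∣ X i j * Γ.det := by
    rw [← h1, Matrix.mul_apply]
    exact Finset.dvd_sum fun k _ => Dvd.dvd.mul_right (h i k) _
  exact hΓ.symm.dvd_of_dvd_mul_right h2

private theorem killl_cji (s' : ℤ) (Γ X : Mz) (hΓ : IsCoprime Γ.det s') (h : ∀ i j, s' ∣ (Γ * X) i j) :
    ∀ i j, s' ∣ X i j := by
  intro i j
  have h1 : (Γ.adjugate * (Γ * X)) i j = Γ.det * X i j := by
    rw [← Matrix.mul_assoc, Matrix.adjugate_mul, Matrix.smul_mul, Matrix.one_mul, Matrix.smul_apply, smul_eq_mul]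
  have h2 : s' ∣ Γ.det * X i j := by
    rw [← h1, Matrix.mul_apply]
    exact Finset.dvd_sum fun k _ => Dvd.dvd.mul_left (h k j) _
  exact hΓ.symm.dvd_of_dvd_mul_left h2

private theorem sub_cji (A : Mz) (x : ℤ) (i j : Fin 2) : (A - x • (1 : Mz)) i j = A i j - x * (if i = j then 1 else 0) := by
  rw [Matrix.sub_apply, Matrix.smul_apply, Matrix.one_apply, smul_eq_mul]

/-- scalar modulo `s'`, read entrywise -/
private theorem lv_ent_cji (s' : ℕ) (A : Mz) (h : Lv s' A) : ∀ i j, (s' : ℤ) ∣ (A - A 0 0 • (1 : Mz)) i j := by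
  obtain ⟨h1, h2, h3⟩ := h
  intro i j
  rw [sub_cji]
  fin_cases i <;> fin_cases j
  · simp
  · simpa using h1
  · simpa using h2
  · have h4 : (s' : ℤ) ∣ A 1 1 - A 0 0 := by
      rw [← dvd_neg, neg_sub]
      exact h3
    simpa using h4

private theorem ent_lv_cji (s' : ℕ) (A : Mz) (x : ℤ) (h : ∀ i j, (s' : ℤ) ∣ (A - x • (1 : Mz)) i j) :
    Lv s' A ∧ (s' : ℤ) ∣ A 0 0 - x ∧ (s' : ℤ) ∣ A 1 1 - x := by
  have h00 := h 0 0
  have h01 := h 0 1
  have h10 := h 1 0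
  have h11 := h 1 1
  rw [sub_cji] at h00 h01 h10 h11
  simp at h00 h01 h10 h11
  refine ⟨⟨h01, h10, ?_⟩, h00, h11⟩
  have h4 := dvd_sub h00 h11
  have h5 : A 0 0 - x - (A 1 1 - x) = A 0 0 - A 1 1 := by ring
  rwa [h5] at h4

private theorem fwd_cji (s' : ℕ) (Γ g F : Mz) (hΓ : IsCoprime Γ.det (s' : ℤ)) (h : ∀ i j, (s' : ℤ) ∣ (Γ * g) i j - (F * Γ) i j)
    (hg : Lv s' g) : Lv s' F ∧ (s' : ℤ) ∣ F 0 0 - g 0 0 ∧ (s' : ℤ) ∣ F 1 1 - g 0 0 := by
  refine ent_lv_cji s' F (g 0 0) (killr_cji (s' : ℤ) Γ _ hΓ fun i j => ?_)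
  have h1 : (F - g 0 0 • (1 : Mz)) * Γ = Γ * (g - g 0 0 • (1 : Mz)) - (Γ * g - F * Γ) := by
    simp only [sub_mul, mul_sub, smul_mul_assoc, mul_smul_comm, one_mul, mul_one]
    abel
  rw [h1, Matrix.sub_apply, Matrix.sub_apply]
  refine dvd_sub ?_ (h i j)
  rw [Matrix.mul_apply]
  exact Finset.dvd_sum fun k _ => Dvd.dvd.mul_left (lv_ent_cji s' g hg k j) _

private theorem bwd_cji (s' : ℕ) (Γ g F : Mz) (hΓ : IsCoprime Γ.det (s' : ℤ)) (h : ∀ i j, (s' : ℤ) ∣ (Γ * g) i j - (F * Γ) i j)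
    (hF : Lv s' F) : Lv s' g := by
  refine (ent_lv_cji s' g (F 0 0) (killl_cji (s' : ℤ) Γ _ hΓ fun i j => ?_)).1
  have h1 : Γ * (g - F 0 0 • (1 : Mz)) = (F - F 0 0 • (1 : Mz)) * Γ + (Γ * g - F * Γ) := by
    simp only [sub_mul, mul_sub, smul_mul_assoc, mul_smul_comm, one_mul, mul_one]
    abel
  rw [h1, Matrix.add_apply, Matrix.sub_apply]
  refine dvd_add ?_ (h i j)
  rw [Matrix.mul_apply]
  exact Finset.dvd_sum fun k _ => Dvd.dvd.mul_right (lv_ent_cji s' F hF i k) _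

/-- subtract the centre and divide by the level -/
private theorem dec_cji (s : ℕ) (A : Mz) (x : ℤ) (h : Lv s A) (hx : (s : ℤ) ∣ A 0 0 - x) :
    ∃ A' : Mz, A = x • (1 : Mz) + (s : ℤ) • A' := by
  obtain ⟨⟨b, hb⟩, ⟨c, hc⟩, ⟨d, hd⟩⟩ := h
  obtain ⟨a, ha⟩ := hx
  refine ⟨!![a, b; c, a - d], ?_⟩
  ext i j
  rw [Matrix.add_apply, Matrix.smul_apply, Matrix.smul_apply, Matrix.one_apply, smul_eq_mul, smul_eq_mul]
  fin_cases i <;> fin_cases j
  · simp
    linarith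
  · simp [hb]
  · simp [hc]
  · simp
    linarith

private theorem dif_cji (s : ℕ) (x : ℤ) (Γ g F g' F' : Mz) (hg : g = x • (1 : Mz) + (s : ℤ) • g') (hF : F = x • (1 : Mz) + (s : ℤ) • F') (i j : Fin 2) :
    (Γ * g) i j - (F * Γ) i j = (s : ℤ) * ((Γ * g') i j - (F' * Γ) i j) := by
  have h1 : Γ * g - F * Γ = (s : ℤ) • (Γ * g' - F' * Γ) := by
    rw [hg, hF]
    simp only [mul_add, add_mul, smul_mul_assoc, mul_smul_comm, one_mul, mul_one, smul_sub]
    abel
  have h2 := congrFun (congrFun h1 i) j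
  simpa [Matrix.sub_apply, Matrix.smul_apply, smul_eq_mul] using h2

private theorem ent_cji (s : ℕ) (x : ℤ) (A A' : Mz) (hA : A = x • (1 : Mz) + (s : ℤ) • A') :
    A 0 0 = x + s * A' 0 0 ∧ A 0 1 = s * A' 0 1 ∧ A 1 0 = s * A' 1 0 ∧ A 1 1 = x + s * A' 1 1 := by
  have h : ∀ i j, A i j = x * (if i = j then 1 else 0) + s * A' i j := by
    intro i j
    rw [hA, Matrix.add_apply, Matrix.smul_apply, Matrix.smul_apply, Matrix.one_apply, smul_eq_mul, smul_eq_mul]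
  refine ⟨?_, ?_, ?_, ?_⟩
  · simpa using h 0 0
  · simpa using h 0 1
  · simpa using h 1 0
  · simpa using h 1 1

/-- PIECE [JC-T3] (`conj_iff`, about 250 lines). `s` is the scalar level of `g` modulo `m` : `g` is scalar modulo `s ∣ m` and not modulo `s l`, `l` prime, `s l ∣ m`. `t` is the class of the trace modulo `m s`. PROOF. Put `x = g 0 0`, `n = m / s`,
`g' = (g - x) / s` (integer entries), `F' = (F - x) / s` when `s ∣ F 0 0 - x`.
`→` : let `γ g = F γ` modulo `m`. `F - x = γ (g - x) γ⁻¹ = 0` modulo `s`, so `Lv s F` and `s ∣ F 0 0 - x`; if `Lv (s l) F`, `s l ∣ m`, then `g = γ⁻¹ F γ` is scalar modulo `s l`. `γ g' = F' γ` modulo `n` (divide by `s`), so `det F' = det g'` modulo `n`, and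
`det (F - x) = s² det F'`, `det (g - x) = s² det g' = - g 0 1 * g 1 0`; so `x² - T x + p = - g 0 1 g 1 0` modulo `m s` for `T = trace F` (`s² n = m s`). With `ht2`: `m s ∣ (T - t) x`; `m ∣ T - t` (traces), `T - t = m u`, `s ∣ u x`, and `x` is prime to `s` (`x² = p` modulo `s`).
`←` : `F 0 0` and `x` are centres of level `s` of `X² - T X + p` (`T = trace F = t` modulo `m s`, `s² ∣ m s`; for `x`: `2 x - T = 2 x - trace g = 0` modulo `s` as `Lv s g`; `ht2`), so `s ∣ F 0 0 - x` (`ctr_unique`). `trace F' = trace g'` modulo `n`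
(`s (trace F' - trace g') = T - trace g = 0` modulo `m`), `det F' = det g'` modulo `n` (`s² (det F' - det g') = (x² - T x + det F) + g 0 1 g 1 0 = 0` modulo `m s`). `F'`, `g'` are not scalar modulo any prime `l ∣ n` (`F'` is iff `Lv (s l) F`). By `cyc` there is `γ` modulo `n` with
`γ g' = F' γ`; lift it to `m` (`gl_surj`): `γ g = F γ` modulo `s n = m`. -/
theorem conj_iff (m s : ℕ) (hm : 0 < m) (hs : s ∣ m) (p : ℤ) (hp : IsCoprime p (m : ℤ)) (g F : Mz) (t : ℤ)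
    (hg : (m : ℤ) ∣ g.det - p) (hgl : Lv s g) (hgm : ∀ l : ℕ, l.Prime → s * l ∣ m → ¬ Lv (s * l) g)
    (ht1 : (m : ℤ) ∣ t - g.trace) (ht2 : ((m * s : ℕ) : ℤ) ∣ g 0 0 ^ 2 - t * g 0 0 + p + g 0 1 * g 1 0)
    (hF : ((m * s : ℕ) : ℤ) ∣ F.det - p) :
    Cj m (rd m g) (rd m F) ↔
      (Lv s F ∧ ((m * s : ℕ) : ℤ) ∣ F.trace - t ∧ ∀ l : ℕ, l.Prime → s * l ∣ m → ¬ Lv (s * l) F) := by
  obtain ⟨n, hn⟩ := hs
  have hs0 : 0 < s := by
    rcases Nat.eq_zero_or_pos s with h | h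
    · rw [h, zero_mul] at hn
      omega
    · exact h
  have hn0 : 0 < n := by
    rcases Nat.eq_zero_or_pos n with h | h
    · rw [h, mul_zero] at hn
      omega
    · exact h
  have hsm : s ∣ m := ⟨n, hn⟩
  have hnm : n ∣ m := ⟨s, by rw [hn, mul_comm]⟩
  have hsZ : (s : ℤ) ≠ 0 := by exact_mod_cast hs0.ne'
  have hmZ : (m : ℤ) ≠ 0 := by exact_mod_cast hm.ne'
  have hmn : (m : ℤ) = s * n := by rw [hn]; push_cast; ring
  have hms : ((m * s : ℕ) : ℤ) = s * (s * n) := by rw [hn]; push_cast; ring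
  have hms' : ((m * s : ℕ) : ℤ) = m * s := by push_cast; ring
  have hsmZ : (s : ℤ) ∣ (m : ℤ) := ⟨n, hmn⟩
  have hs2 : (s : ℤ) ^ 2 ∣ ((m * s : ℕ) : ℤ) := ⟨n, by rw [hms]; ring⟩
  have hmms : (m : ℤ) ∣ ((m * s : ℕ) : ℤ) := ⟨s, hms'⟩
  -- the decomposition of `g`
  obtain ⟨g', hg'⟩ := dec_cji s g (g 0 0) hgl (by simp)
  obtain ⟨e00, e01, e10, e11⟩ := ent_cji s (g 0 0) g g' hg'
  have z00 : g' 0 0 = 0 := by
    have h1 : (s : ℤ) * g' 0 0 = 0 := by linarith
    rcases mul_eq_zero.1 h1 with h | h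
    · exact absurd h hsZ
    · exact h
  have dg : g'.det = -(g' 0 1 * g' 1 0) := by
    rw [Matrix.det_fin_two, z00]
    ring
  have trg : g.trace = 2 * g 0 0 + s * g'.trace := by
    rw [Matrix.trace_fin_two, Matrix.trace_fin_two]
    linarith
  have gg : g 0 1 * g 1 0 = -((s : ℤ) ^ 2 * g'.det) := by
    rw [dg, e01, e10]
    ring
  have hxp : (s : ℤ) ∣ g 0 0 ^ 2 - p := by
    have h1 : g 0 0 ^ 2 - p = (g.det - p) + s * (-(g 0 0 * g' 1 1) + s * (g' 0 1 * g' 1 0)) := by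
      rw [Matrix.det_fin_two, e01, e10, e11]
      ring
    rw [h1]
    exact dvd_add (hsmZ.trans hg) (dvd_mul_right _ _)
  have hxs : IsCoprime (g 0 0) (s : ℤ) := by
    have h1 : IsCoprime p (s : ℤ) := IsCoprime.of_isCoprime_of_dvd_right hp hsmZ
    obtain ⟨k, hk⟩ := hxp
    have h2 : g 0 0 ^ 2 = p + s * k := by linarith
    have h3 : IsCoprime (g 0 0 ^ 2) (s : ℤ) := by
      rw [h2]
      exact h1.add_mul_left_left k
    exact (IsCoprime.pow_left_iff (by norm_num)).1 h3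
  constructor
  · rintro ⟨γ, hγ⟩
    obtain ⟨Γ, hΓ⟩ := rd_surj m γ.val
    have hc : ∀ i j, (m : ℤ) ∣ (Γ * g) i j - (F * Γ) i j :=
      (rd_eq_cji m _ _).1 (by rw [rd_mul, rd_mul, hΓ, hγ])
    obtain ⟨hLF, hF0, hF1⟩ := fwd_cji s Γ g F (cop_cji m s hsm γ Γ hΓ) (fun i j => hsmZ.trans (hc i j)) hgl
    refine ⟨hLF, ?_, ?_⟩
    · obtain ⟨F', hF'⟩ := dec_cji s F (g 0 0) hLF hF0
      obtain ⟨f00, f01, f10, f11⟩ := ent_cji s (g 0 0) F F' hF'
      have hc' : ∀ i j, (n : ℤ) ∣ (Γ * g') i j - (F' * Γ) i j := by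
        intro i j
        have h1 := hc i j
        rw [dif_cji s (g 0 0) Γ g F g' F' hg' hF' i j, hmn] at h1
        exact (mul_dvd_mul_iff_left hsZ).1 h1
      have hdet : (n : ℤ) ∣ F'.det - g'.det := by
        have h1 := congrArg Matrix.det ((rd_eq_cji n _ _).2 hc')
        rw [rd_det, rd_det, Matrix.det_mul, Matrix.det_mul] at h1
        have h2 := (ZMod.intCast_eq_intCast_iff_dvd_sub _ _ _).1 h1
        have h3 : F'.det * Γ.det - Γ.det * g'.det = (F'.det - g'.det) * Γ.det := by ring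
        rw [h3] at h2
        exact (cop_cji m n hnm γ Γ hΓ).symm.dvd_of_dvd_mul_right h2
      have htr : (m : ℤ) ∣ F.trace - g.trace := by
        have h1 : rd m F = γ.val * rd m g * (γ⁻¹).val := by
          rw [hγ, Matrix.mul_assoc]
          have h2 : γ.val * (γ⁻¹).val = 1 := Units.mul_inv γ
          rw [h2, Matrix.mul_one]
        have h3 : (rd m F).trace = (rd m g).trace := by
          rw [h1, Matrix.trace_mul_comm, ← Matrix.mul_assoc]
          have h2 : (γ⁻¹).val * γ.val = 1 := Units.inv_mul γ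
          rw [h2, Matrix.one_mul]
        rw [rd_trace, rd_trace] at h3
        exact (ZMod.intCast_eq_intCast_iff_dvd_sub _ _ _).1 h3.symm
      have hx1 : ((m * s : ℕ) : ℤ) ∣ (F.trace - t) * g 0 0 := by
        have h1 : (F.trace - t) * g 0 0 = (g 0 0 ^ 2 - t * g 0 0 + p + g 0 1 * g 1 0) + (F.det - p) - (s : ℤ) ^ 2 * (F'.det - g'.det) := by
          rw [gg, Matrix.trace_fin_two F, Matrix.det_fin_two F, Matrix.det_fin_two F', f00, f01, f10, f11]
          ring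
        rw [h1]
        refine dvd_sub (dvd_add ht2 hF) ?_
        obtain ⟨k, hk⟩ := hdet
        exact ⟨k, by rw [hk, hms]; ring⟩
      obtain ⟨u, hu⟩ : (m : ℤ) ∣ F.trace - t := by
        have h1 := dvd_sub htr ht1
        have h2 : F.trace - g.trace - (t - g.trace) = F.trace - t := by ring
        rwa [h2] at h1
      rw [hu, hms', mul_assoc] at hx1
      have h3 := (mul_dvd_mul_iff_left hmZ).1 hx1
      have h4 : (s : ℤ) ∣ u := hxs.symm.dvd_of_dvd_mul_right h3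
      rw [hu, hms']
      exact mul_dvd_mul_left _ h4
    · intro l hl hlm hLl
      have h1 : ((s * l : ℕ) : ℤ) ∣ (m : ℤ) := Int.natCast_dvd_natCast.2 hlm
      exact hgm l hl hlm (bwd_cji (s * l) Γ g F (cop_cji m (s * l) hlm γ Γ hΓ) (fun i j => h1.trans (hc i j)) hLl)
  · rintro ⟨hLF, hT, hN⟩
    -- both centres
    have hcF : Ctr s p F.trace (F 0 0) := by
      refine ⟨?_, ?_⟩
      · have h1 : 2 * F 0 0 - F.trace = F 0 0 - F 1 1 := by
          rw [Matrix.trace_fin_two]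
          ring
        rw [h1]
        exact hLF.2.2
      · have h1 : F 0 0 ^ 2 - F.trace * F 0 0 + p = -(F.det - p) - F 0 1 * F 1 0 := by
          rw [Matrix.trace_fin_two, Matrix.det_fin_two]
          ring
        rw [h1]
        refine dvd_sub ((dvd_neg).2 (hs2.trans hF)) ?_
        rw [sq]
        exact mul_dvd_mul hLF.1 hLF.2.1
    have hcx : Ctr s p F.trace (g 0 0) := by
      refine ⟨?_, ?_⟩
      · have h1 : 2 * g 0 0 - F.trace = (g 0 0 - g 1 1) - (t - g.trace) - (F.trace - t) := by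
          rw [Matrix.trace_fin_two g]
          ring
        rw [h1]
        exact dvd_sub (dvd_sub hgl.2.2 (hsmZ.trans ht1)) ((hsmZ.trans hmms).trans hT)
      · have h1 : g 0 0 ^ 2 - F.trace * g 0 0 + p = (g 0 0 ^ 2 - t * g 0 0 + p + g 0 1 * g 1 0) - g 0 1 * g 1 0 - (F.trace - t) * g 0 0 := by
          ring
        rw [h1]
        refine dvd_sub (dvd_sub (hs2.trans ht2) ?_) (Dvd.dvd.mul_right (hs2.trans hT) _)
        rw [sq]
        exact mul_dvd_mul hgl.1 hgl.2.1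
    have hF0 : (s : ℤ) ∣ F 0 0 - g 0 0 := ctr_unique s p F.trace (F 0 0) (g 0 0) hs0 hcF hcx
    obtain ⟨F', hF'⟩ := dec_cji s F (g 0 0) hLF hF0
    obtain ⟨f00, f01, f10, f11⟩ := ent_cji s (g 0 0) F F' hF'
    have trF : F.trace = 2 * g 0 0 + s * F'.trace := by
      rw [Matrix.trace_fin_two, Matrix.trace_fin_two, f00, f11]
      ring
    have htr : (n : ℤ) ∣ g'.trace - F'.trace := by
      have h1 : (m : ℤ) ∣ (t - g.trace) + (F.trace - t) := dvd_add ht1 (hmms.trans hT)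
      have h2 : (t - g.trace) + (F.trace - t) = s * (F'.trace - g'.trace) := by
        rw [trg, trF]
        ring
      rw [h2, hmn] at h1
      have h3 := (mul_dvd_mul_iff_left hsZ).1 h1
      rw [← dvd_neg, neg_sub]
      exact h3
    have hdet : (n : ℤ) ∣ g'.det - F'.det := by
      have h1 : (s : ℤ) ^ 2 * (F'.det - g'.det) = (g 0 0 ^ 2 - t * g 0 0 + p + g 0 1 * g 1 0) + (F.det - p) - (F.trace - t) * g 0 0 := by
        rw [gg, Matrix.trace_fin_two F, Matrix.det_fin_two F, Matrix.det_fin_two F', f00, f01, f10, f11]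
        ring
      have h2 : ((m * s : ℕ) : ℤ) ∣ (s : ℤ) ^ 2 * (F'.det - g'.det) := by
        rw [h1]
        exact dvd_sub (dvd_add ht2 hF) (Dvd.dvd.mul_right hT _)
      have h3 : ((m * s : ℕ) : ℤ) = (s : ℤ) ^ 2 * n := by rw [hms]; ring
      rw [h3] at h2
      have h4 := (mul_dvd_mul_iff_left (pow_ne_zero 2 hsZ)).1 h2
      rw [← dvd_neg, neg_sub]
      exact h4
    have hlv : ∀ (A A' : Mz), A = g 0 0 • (1 : Mz) + (s : ℤ) • A' → ∀ l : ℕ, Lv l A' → Lv (s * l) A := by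
      intro A A' hA l hl
      obtain ⟨a00, a01, a10, a11⟩ := ent_cji s (g 0 0) A A' hA
      refine ⟨?_, ?_, ?_⟩
      · rw [a01]
        push_cast
        exact mul_dvd_mul_left _ hl.1
      · rw [a10]
        push_cast
        exact mul_dvd_mul_left _ hl.2.1
      · have h1 : A 0 0 - A 1 1 = s * (A' 0 0 - A' 1 1) := by
          rw [a00, a11]
          ring
        rw [h1]
        push_cast
        exact mul_dvd_mul_left _ hl.2.2
    obtain ⟨γ, hγ⟩ := cyc n hn0 g' F' htr hdet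
      (fun l hl hln h => hgm l hl (by rw [hn]; exact Nat.mul_dvd_mul_left s hln) (hlv g g' hg' l h))
      (fun l hl hln h => hN l hl (by rw [hn]; exact Nat.mul_dvd_mul_left s hln) (hlv F F' hF' l h))
    obtain ⟨γ', hγ'⟩ := gl_surj m n hm hnm γ
    obtain ⟨Γ, hΓ⟩ := rd_surj m γ'.val
    have hΓn : rd n Γ = γ.val := by
      rw [← rd_map m n hnm Γ, hΓ, ← hγ']
      rfl
    have hc' : ∀ i j, (n : ℤ) ∣ (Γ * g') i j - (F' * Γ) i j :=
      (rd_eq_cji n _ _).1 (by rw [rd_mul, rd_mul, hΓn, hγ])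
    have hc : ∀ i j, (m : ℤ) ∣ (Γ * g) i j - (F * Γ) i j := by
      intro i j
      rw [dif_cji s (g 0 0) Γ g F g' F' hg' hF' i j, hmn]
      exact mul_dvd_mul_left _ (hc' i j)
    have h1 := (rd_eq_cji m _ _).2 hc
    rw [rd_mul, rd_mul, hΓ] at h1
    exact ⟨γ', h1⟩

end Pool.Agent.JC
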