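import Pool.Agent.Lib_MP_f1937f_jc.Defs

/-!
# Centres

Let `f x = x² - a x + d`. A centre of level `s` is `lam` with `s ∣ f' lam` and `s² ∣ f lam`. Centres of level `s` are unique modulo `s`,
they depend only on `a` modulo `s²`, and their existence is multiplicative in `s`.
-/

set_option autoImplicit false

namespace Pool.Agent.JC

open Finset Pool.Agent.TB Pool.Agent.JB Pool.Agent.JD

/-- `f x = x² - a x + d`, `δ = lam - lam'`, `2 lam' - a = s u`: `s² ∣ δ² + δ s u`. After division by `g = gcd (s, δ)` the quotient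
`s / g` divides `(δ / g)²` and is coprime to it, so it is a unit. -/
theorem ctr_unique (s : ℕ) (d a lam lam' : ℤ) (hs : 0 < s) (h : Ctr s d a lam) (h' : Ctr s d a lam') : (s : ℤ) ∣ lam - lam' := by
  obtain ⟨_, h2⟩ := h
  obtain ⟨⟨u, hu⟩, h4⟩ := h'
  obtain ⟨w, hw⟩ := dvd_sub h2 h4
  have hs0 : (s : ℤ) ≠ 0 := by exact_mod_cast hs.ne'
  have key : (lam - lam') ^ 2 + (lam - lam') * (s * u) = (s : ℤ) ^ 2 * w := by
    rw [← hw, ← hu]; ring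
  have hg : 0 < Int.gcd (s : ℤ) (lam - lam') := Int.gcd_pos_of_ne_zero_left _ hs0
  obtain ⟨s', δ', hc, h5, h6⟩ := Int.exists_gcd_one hg
  set g : ℤ := (Int.gcd (s : ℤ) (lam - lam') : ℤ) with hgdef
  have hg0 : g ≠ 0 := by rw [hgdef]; exact_mod_cast hg.ne'
  have key2 : δ' ^ 2 + δ' * (s' * u) = s' ^ 2 * w := by
    have : g ^ 2 * (δ' ^ 2 + δ' * (s' * u)) = g ^ 2 * (s' ^ 2 * w) := by
      have h7 := key
      rw [h6, h5] at h7
      linear_combination h7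
    exact mul_left_cancel₀ (pow_ne_zero 2 hg0) this
  have h8 : s' ∣ δ' * δ' := ⟨s' * w - δ' * u, by linear_combination key2⟩
  have hcop : IsCoprime s' δ' := Int.isCoprime_iff_gcd_eq_one.2 hc
  have h9 : s' ∣ 1 := by
    have := hcop.dvd_of_dvd_mul_left h8
    have h10 := hcop.dvd_of_dvd_mul_left (show s' ∣ δ' * 1 by simpa using this)
    exact h10
  rw [h5, h6]
  obtain ⟨t, ht⟩ := h9
  exact ⟨t * δ', by linear_combination (δ' * g) * ht⟩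

theorem ctr_congr (s : ℕ) (d a a' lam : ℤ) (h : Ctr s d a lam) (ha : (s : ℤ) ^ 2 ∣ a - a') : Ctr s d a' lam := by
  obtain ⟨⟨u, hu⟩, ⟨w, hw⟩⟩ := h
  obtain ⟨v, hv⟩ := ha
  exact ⟨⟨u + s * v, by linear_combination hu + hv⟩, ⟨w + v * lam, by linear_combination hw + lam * hv⟩⟩

theorem ctr_shift (s : ℕ) (d a lam n : ℤ) (h : Ctr s d a lam) : Ctr s d a (lam + s * n) := by
  obtain ⟨⟨u, hu⟩, ⟨w, hw⟩⟩ := h
  exact ⟨⟨u + 2 * n, by linear_combination hu⟩, ⟨w + n * u + n ^ 2, by linear_combination hw + s * n * hu⟩⟩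

theorem ctr_dvd (s s' : ℕ) (d a lam : ℤ) (hs : s' ∣ s) (h : Ctr s d a lam) : Ctr s' d a lam := by
  have h1 : (s' : ℤ) ∣ s := by exact_mod_cast hs
  exact ⟨h1.trans h.1, (pow_dvd_pow_of_dvd h1 2).trans h.2⟩

theorem sc_congr (s : ℕ) (d a a' : ℤ) (ha : (s : ℤ) ^ 2 ∣ a - a') : Sc s d a ↔ Sc s d a' := by
  constructor
  · rintro ⟨lam, h⟩
    exact ⟨lam, ctr_congr s d a a' lam h ha⟩
  · rintro ⟨lam, h⟩
    refine ⟨lam, ctr_congr s d a' a lam h ?_⟩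
    rw [← neg_sub]
    exact ha.neg_right

theorem sc_dvd (s s' : ℕ) (d a : ℤ) (hs : s' ∣ s) (h : Sc s d a) : Sc s' d a := by
  obtain ⟨lam, h⟩ := h
  exact ⟨lam, ctr_dvd s s' d a lam hs h⟩

theorem sc_one (d a : ℤ) : Sc 1 d a := by
  refine ⟨0, ?_, ?_⟩ <;> simp

/-- `lam² = d` modulo `s` -/
theorem ctr_sq (s : ℕ) (d a lam : ℤ) (h : Ctr s d a lam) : (s : ℤ) ∣ lam ^ 2 - d := by
  obtain ⟨⟨u, hu⟩, ⟨w, hw⟩⟩ := h
  exact ⟨lam * u - s * w, by linear_combination lam * hu - hw⟩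

theorem sc_disc (s : ℕ) (d a : ℤ) (h : Sc s d a) : (s : ℤ) ^ 2 ∣ a ^ 2 - 4 * d := by
  obtain ⟨lam, ⟨u, hu⟩, ⟨w, hw⟩⟩ := h
  exact ⟨u ^ 2 - 4 * w, by linear_combination (2 * lam - a + s * u) * hu - 4 * hw⟩

/-- `s² ∣ a² - 4 p ≠ 0` (`0 < 4 p - a²`, as `p` is a prime), so `s² ≤ 4 p` -/
theorem sc_le (s p : ℕ) (hp : p.Prime) (a : ℤ) (ha : a ∈ V p) (h : Sc s p a) : 1 ≤ s ∧ s ^ 2 ≤ 4 * p := by
  have h1 := sc_disc s p a h
  have ha1 : a ^ 2 ≤ 4 * p := by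
    unfold V at ha
    rw [Finset.mem_Icc] at ha
    have h2 : a ^ 2 ≤ (Nat.sqrt (4 * p) : ℤ) ^ 2 := sq_le_sq' ha.1 ha.2
    have h3 : Nat.sqrt (4 * p) ^ 2 ≤ 4 * p := Nat.sqrt_le' _
    have h4 : ((Nat.sqrt (4 * p) : ℤ)) ^ 2 ≤ 4 * p := by exact_mod_cast h3
    exact h2.trans h4
  have ha2 : a ^ 2 ≠ 4 * p := by
    intro h2
    have h3 : a.natAbs ^ 2 = 4 * p := by
      have : ((a.natAbs : ℤ)) ^ 2 = 4 * p := by rw [Int.natAbs_sq]; exact h2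
      exact_mod_cast this
    have h4 : 2 ∣ a.natAbs := by
      have : 2 ∣ a.natAbs ^ 2 := by rw [h3]; exact ⟨2 * p, by ring⟩
      exact Nat.prime_two.dvd_of_dvd_pow this
    obtain ⟨b, hb⟩ := h4
    have h5 : b ^ 2 = p := by
      rw [hb] at h3
      have : 4 * b ^ 2 = 4 * p := by rw [← h3]; ring
      omega
    rw [← h5] at hp
    exact (Nat.Prime.not_prime_pow (le_refl 2)) hp
  have hpos : 0 < 4 * (p : ℤ) - a ^ 2 := by
    have := lt_of_le_of_ne ha1 ha2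
    linarith
  have hdvd : (s : ℤ) ^ 2 ∣ 4 * (p : ℤ) - a ^ 2 := by
    rw [← neg_sub]; exact h1.neg_right
  have hle := Int.le_of_dvd hpos hdvd
  constructor
  · rcases Nat.eq_zero_or_pos s with h0 | h0
    · exfalso
      rw [h0] at hdvd
      simp at hdvd
      omega
    · exact h0
  · have h6 : ((s : ℤ)) ^ 2 ≤ 4 * p := by
      have : 0 ≤ a ^ 2 := sq_nonneg a
      linarith
    exact_mod_cast h6

theorem ctr_spec (s : ℕ) (d a : ℤ) (hs : 0 < s) (h : Sc s d a) : Ctr s d a (ctr s d a) := by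
  obtain ⟨lam, h⟩ := h
  have hne : {n : ℕ | Ctr s d a n}.Nonempty := by
    refine ⟨(lam + s * |lam|).toNat, ?_⟩
    have h1 : 0 ≤ lam + s * |lam| := by
      have h2 : (1 : ℤ) ≤ s := by exact_mod_cast hs
      have h3 : -|lam| ≤ lam := neg_abs_le lam
      have h4 : 1 * |lam| ≤ s * |lam| := mul_le_mul_of_nonneg_right h2 (abs_nonneg lam)
      linarith
    show Ctr s d a (((lam + s * |lam|).toNat : ℕ) : ℤ)
    rw [Int.toNat_of_nonneg h1]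
    exact ctr_shift s d a lam _ h
  exact Nat.sInf_mem hne

theorem ctr_eq (s : ℕ) (d a a' : ℤ) (ha : (s : ℤ) ^ 2 ∣ a - a') : ctr s d a = ctr s d a' := by
  unfold ctr
  congr 1
  ext n
  constructor
  · intro h
    exact ctr_congr s d a a' n h ha
  · intro h
    refine ctr_congr s d a' a n h ?_
    rw [← neg_sub]
    exact ha.neg_right

/-- the scalar levels are multiplicative (Chinese remainder theorem: `lam = lam₁` modulo `s₁²`, `lam = lam₂` modulo `s₂²`) -/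
theorem sc_mul (s₁ s₂ : ℕ) (d a : ℤ) (hc : s₁.Coprime s₂) (h₁ : Sc s₁ d a) (h₂ : Sc s₂ d a) : Sc (s₁ * s₂) d a := by
  obtain ⟨l₁, h₁⟩ := h₁
  obtain ⟨l₂, h₂⟩ := h₂
  have hcop : IsCoprime (s₁ : ℤ) (s₂ : ℤ) := Nat.isCoprime_iff_coprime.2 hc
  obtain ⟨x, y, hxy⟩ := hcop
  -- `lam = l₁ + x s₁ (l₂ - l₁)`
  have h3 : Ctr s₁ d a (l₁ + s₁ * (x * (l₂ - l₁))) := ctr_shift s₁ d a l₁ _ h₁
  have h4 : Ctr s₂ d a (l₁ + s₁ * (x * (l₂ - l₁))) := by
    have h5 : l₁ + s₁ * (x * (l₂ - l₁)) = l₂ + s₂ * (y * (l₁ - l₂)) := by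
      linear_combination (l₂ - l₁) * hxy
    rw [h5]
    exact ctr_shift s₂ d a l₂ _ h₂
  have hcop' : IsCoprime (s₁ : ℤ) (s₂ : ℤ) := ⟨x, y, hxy⟩
  refine ⟨l₁ + s₁ * (x * (l₂ - l₁)), ?_, ?_⟩
  · push_cast
    exact hcop'.mul_dvd h3.1 h4.1
  · push_cast
    rw [mul_pow]
    exact (hcop'.pow).mul_dvd h3.2 h4.2

end Pool.Agent.JC
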