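import Pool.Agent.Lib_MP_f1937f_jc.Cws
import Pool.Agent.Lib_MP_f1937f_jd.RsMul
import Pool.Agent.Lib_MP_f1937f_jd.PartL

/-!
# The weights in terms of the roots in a class
-/

set_option autoImplicit false

namespace Pool.Agent.JC

open Finset Pool.Agent.TB Pool.Agent.JB Pool.Agent.JD

/-- the two conditions in terms of integers -/
private theorem cond_iff (Q S : ℕ) (h : S ∣ Q) (d a n : ℤ) :
    (((n : ℤ) : ZMod Q) ^ 2 - (a : ZMod Q) * ((n : ℤ) : ZMod Q) + (d : ZMod Q) = 0 ∧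
      ZMod.castHom h (ZMod S) (2 * ((n : ℤ) : ZMod Q) - (a : ZMod Q)) = 0) ↔
      (Q : ℤ) ∣ n ^ 2 - a * n + d ∧ (S : ℤ) ∣ 2 * n - a := by
  rw [← ZMod.intCast_zmod_eq_zero_iff_dvd, ← ZMod.intCast_zmod_eq_zero_iff_dvd]
  push_cast
  rw [map_sub, map_mul, map_intCast, map_intCast, map_ofNat]

/-- Chinese remainder theorem for the roots -/
private theorem rr_mul_aux (S₁ S₂ S W₁ W₂ Q : ℕ) (d a : ℤ) (hQ : Q = W₁ * W₂) (hS : S = S₁ * S₂) (h1 : S₁ ∣ W₁)
    (h2 : S₂ ∣ W₂) (h : S ∣ Q) (hc : W₁.Coprime W₂) :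
    Nat.card {x : ZMod Q // x ^ 2 - (a : ZMod Q) * x + (d : ZMod Q) = 0 ∧
      ZMod.castHom h (ZMod S) (2 * x - (a : ZMod Q)) = 0} =
      Nat.card {x : ZMod W₁ // x ^ 2 - (a : ZMod W₁) * x + (d : ZMod W₁) = 0 ∧
        ZMod.castHom h1 (ZMod S₁) (2 * x - (a : ZMod W₁)) = 0} *
      Nat.card {x : ZMod W₂ // x ^ 2 - (a : ZMod W₂) * x + (d : ZMod W₂) = 0 ∧
        ZMod.castHom h2 (ZMod S₂) (2 * x - (a : ZMod W₂)) = 0} := by
  subst hQ
  rw [← Nat.card_prod]
  refine Nat.card_congr ?_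
  refine ((ZMod.chineseRemainder hc).toEquiv.subtypeEquiv
    (q := fun x : ZMod W₁ × ZMod W₂ => (x.1 ^ 2 - (a : ZMod W₁) * x.1 + (d : ZMod W₁) = 0 ∧
        ZMod.castHom h1 (ZMod S₁) (2 * x.1 - (a : ZMod W₁)) = 0) ∧
      (x.2 ^ 2 - (a : ZMod W₂) * x.2 + (d : ZMod W₂) = 0 ∧
        ZMod.castHom h2 (ZMod S₂) (2 * x.2 - (a : ZMod W₂)) = 0)) ?_).trans
    (Equiv.subtypeProdEquivProd (p := fun x : ZMod W₁ => x ^ 2 - (a : ZMod W₁) * x + (d : ZMod W₁) = 0 ∧
        ZMod.castHom h1 (ZMod S₁) (2 * x - (a : ZMod W₁)) = 0)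
      (q := fun x : ZMod W₂ => x ^ 2 - (a : ZMod W₂) * x + (d : ZMod W₂) = 0 ∧
        ZMod.castHom h2 (ZMod S₂) (2 * x - (a : ZMod W₂)) = 0))
  intro c
  obtain ⟨n, rfl⟩ := ZMod.intCast_surjective c
  have e1 : ((ZMod.chineseRemainder hc).toEquiv ((n : ℤ) : ZMod (W₁ * W₂))) = (((n : ℤ) : ZMod W₁), ((n : ℤ) : ZMod W₂)) := by
    change (ZMod.chineseRemainder hc) ((n : ℤ) : ZMod (W₁ * W₂)) = _
    rw [map_intCast]
    rfl
  rw [e1, cond_iff]
  dsimp only
  rw [cond_iff, cond_iff, hS]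
  have hcS : IsCoprime (S₁ : ℤ) (S₂ : ℤ) :=
    Nat.isCoprime_iff_coprime.2 (Nat.Coprime.of_dvd h1 h2 hc)
  have hcW : IsCoprime (W₁ : ℤ) (W₂ : ℤ) := Nat.isCoprime_iff_coprime.2 hc
  push_cast
  constructor
  · rintro ⟨h3, h4⟩
    exact ⟨⟨(dvd_mul_right _ _).trans h3, (dvd_mul_right _ _).trans h4⟩,
      ⟨(dvd_mul_left _ _).trans h3, (dvd_mul_left _ _).trans h4⟩⟩
  · rintro ⟨⟨h3, h4⟩, ⟨h5, h6⟩⟩
    exact ⟨hcW.mul_dvd h3 h5, hcS.mul_dvd h4 h6⟩

private theorem rr_mul (s₁ e₁ s₂ e₂ : ℕ) (d a : ℤ) (hc : (s₁ * e₁).Coprime (s₂ * e₂)) :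
    Rr (s₁ * s₂) d a (e₁ * e₂) = Rr s₁ d a e₁ * Rr s₂ d a e₂ := by
  unfold Rr
  refine rr_mul_aux s₁ s₂ (s₁ * s₂) (s₁ ^ 2 * e₁) (s₂ ^ 2 * e₂) ((s₁ * s₂) ^ 2 * (e₁ * e₂)) d a (by ring) rfl
    (sdvd s₁ e₁) (sdvd s₂ e₂) (sdvd (s₁ * s₂) (e₁ * e₂)) ?_
  have c1 : s₁.Coprime s₂ := Nat.Coprime.of_dvd (dvd_mul_right _ _) (dvd_mul_right _ _) hc
  have c2 : s₁.Coprime e₂ := Nat.Coprime.of_dvd (dvd_mul_right _ _) (dvd_mul_left _ _) hc
  have c3 : e₁.Coprime s₂ := Nat.Coprime.of_dvd (dvd_mul_left _ _) (dvd_mul_right _ _) hc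
  have c4 : e₁.Coprime e₂ := Nat.Coprime.of_dvd (dvd_mul_left _ _) (dvd_mul_left _ _) hc
  exact Nat.Coprime.mul_left (Nat.Coprime.mul_right (Nat.Coprime.pow 2 2 c1) (Nat.Coprime.pow_left 2 c2))
    (Nat.Coprime.mul_right (Nat.Coprime.pow_right 2 c3) c4)

private theorem rr_one_one (d a : ℤ) : Rr 1 d a 1 = 1 := by
  unfold Rr
  haveI : Subsingleton (ZMod (1 ^ 2 * 1)) := by rw [one_pow, mul_one]; infer_instance
  rw [Nat.card_eq_one_iff_exists]
  exact ⟨⟨0, Subsingleton.elim _ _, Subsingleton.elim _ _⟩, fun y => Subtype.ext (Subsingleton.elim _ _)⟩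

private theorem rr_prod_aux (s : ℕ) (d a : ℤ) (e : ℕ) (T : Finset ℕ) (hT : ∀ l ∈ T, l.Prime) :
    Rr (∏ l ∈ T, l ^ s.factorization l) d a (∏ l ∈ T, l ^ e.factorization l) =
      ∏ l ∈ T, Rr (l ^ s.factorization l) d a (l ^ e.factorization l) := by
  classical
  induction T using Finset.induction_on with
  | empty => rw [prod_empty, prod_empty, prod_empty, rr_one_one]
  | insert q T hq ih =>
    rw [prod_insert hq, prod_insert hq, prod_insert hq, rr_mul, ih fun l hl => hT l (mem_insert_of_mem hl)]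
    have hqp := hT q (mem_insert_self _ _)
    rw [← pow_add, ← prod_mul_distrib]
    refine Nat.Coprime.prod_right fun l hl => ?_
    have hlp := hT l (mem_insert_of_mem hl)
    have hne : q ≠ l := fun h => hq (h ▸ hl)
    rw [← pow_add]
    exact Nat.Coprime.pow _ _ ((Nat.coprime_primes hqp hlp).2 hne)

/-- PIECE [JC-N1] (both theorems, about 180 lines). PROOF. Chinese remainder theorem for the roots `x` modulo `s² e` with `s ∣ 2 x - a` (all primes of `e` divide `s`). -/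
theorem rr_prod (s : ℕ) (d a : ℤ) (e : ℕ) (hs : 0 < s) (he : 0 < e) (hp : ∀ l : ℕ, l.Prime → l ∣ e → l ∣ s) :
    Rr s d a e = ∏ l ∈ s.primeFactors, Rr (l ^ s.factorization l) d a (l ^ e.factorization l) := by
  rw [← rr_prod_aux s d a e s.primeFactors fun l hl => Nat.prime_of_mem_primeFactors hl]
  have h1 : ∏ l ∈ s.primeFactors, l ^ s.factorization l = s := Nat.prod_factorization_pow_eq_self hs.ne'
  have h2 : ∏ l ∈ s.primeFactors, l ^ e.factorization l = e := by
    have h3 : ∏ l ∈ e.primeFactors, l ^ e.factorization l = e := Nat.prod_factorization_pow_eq_self he.ne'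
    have h4 : e.primeFactors ⊆ s.primeFactors := fun l hl =>
      Nat.mem_primeFactors.2 ⟨Nat.prime_of_mem_primeFactors hl,
        hp l (Nat.prime_of_mem_primeFactors hl) (Nat.dvd_of_mem_primeFactors hl), hs.ne'⟩
    rw [← prod_subset h4, h3]
    intro l _ hl
    have : e.factorization l = 0 := by
      rw [← Finsupp.notMem_support_iff, Nat.support_factorization]
      exact hl
    rw [this, pow_zero]
  rw [h1, h2]

/-! ### the roots in the classes -/

private theorem rs_sum (s : ℕ) (d a : ℤ) (e : ℕ) (hs : 0 < s) (he : 0 < e) (hc : IsCoprime d (s : ℤ)) :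
    ∑ lam ∈ (range s).filter (fun lam : ℕ => (s : ℤ) ∣ (lam : ℤ) ^ 2 - d), rs s lam d a e = Rr s d a e := by
  classical
  haveI : NeZero s := ⟨hs.ne'⟩
  haveI : NeZero (s ^ 2 * e) := ⟨by positivity⟩
  obtain ⟨u, v, huv⟩ := hc
  have hu : (u : ZMod s) * (d : ZMod s) = 1 := by
    have := congrArg (fun z : ℤ => (z : ZMod s)) huv
    simpa using this
  have hR : Rr s d a e = (univ.filter (fun x : ZMod (s ^ 2 * e) =>
      x ^ 2 - (a : ZMod (s ^ 2 * e)) * x + (d : ZMod (s ^ 2 * e)) = 0 ∧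
        ZMod.castHom (sdvd s e) (ZMod s) (2 * x - (a : ZMod (s ^ 2 * e))) = 0)).card := by
    unfold Rr
    rw [Nat.card_eq_fintype_card, Fintype.card_subtype]
  have hr : ∀ lam : ℤ, rs s lam d a e = (univ.filter (fun x : ZMod (s ^ 2 * e) =>
      ZMod.castHom (sdvd s e) (ZMod s) x = (lam : ZMod s) ∧
        x ^ 2 - (a : ZMod (s ^ 2 * e)) * x + (d : ZMod (s ^ 2 * e)) = 0)).card := by
    intro lam
    unfold rs
    rw [Nat.card_eq_fintype_card, Fintype.card_subtype]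
  -- `y (2 y - a) = y² - d` for a root
  have key : ∀ x : ZMod (s ^ 2 * e), x ^ 2 - (a : ZMod (s ^ 2 * e)) * x + (d : ZMod (s ^ 2 * e)) = 0 →
      ZMod.castHom (sdvd s e) (ZMod s) x * ZMod.castHom (sdvd s e) (ZMod s) (2 * x - (a : ZMod (s ^ 2 * e))) =
        ZMod.castHom (sdvd s e) (ZMod s) x ^ 2 - (d : ZMod s) := by
    intro x hx
    have h1 := congrArg (ZMod.castHom (sdvd s e) (ZMod s)) hx
    rw [map_add, map_sub, map_mul, map_pow, map_intCast, map_intCast, map_zero] at h1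
    rw [map_sub, map_mul, map_intCast, map_ofNat]
    linear_combination h1
  rw [hR, card_eq_sum_card_fiberwise (f := fun x => (ZMod.castHom (sdvd s e) (ZMod s) x).val)
    (t := (range s).filter (fun lam : ℕ => (s : ℤ) ∣ (lam : ℤ) ^ 2 - d))]
  · refine sum_congr rfl fun lam hlam => ?_
    rw [mem_filter, mem_range] at hlam
    rw [hr]
    congr 1
    ext x
    simp only [mem_filter, mem_univ, true_and]
    constructor
    · rintro ⟨h1, h2⟩
      have h3 := key x h2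
      have h4 : ((lam : ℕ) : ZMod s) ^ 2 - (d : ZMod s) = 0 := by
        have := (ZMod.intCast_zmod_eq_zero_iff_dvd ((lam : ℤ) ^ 2 - d) s).2 hlam.2
        simpa using this
      rw [Int.cast_natCast] at h1
      rw [h1, h4] at h3
      refine ⟨⟨h2, ?_⟩, ?_⟩
      · have h5 : (lam : ZMod s) ^ 2 = (d : ZMod s) := sub_eq_zero.1 h4
        calc ZMod.castHom (sdvd s e) (ZMod s) (2 * x - (a : ZMod (s ^ 2 * e)))
            = ((u : ZMod s) * (lam : ZMod s) ^ 2) * ZMod.castHom (sdvd s e) (ZMod s) (2 * x - (a : ZMod (s ^ 2 * e))) := by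
              rw [h5, hu, one_mul]
          _ = (u : ZMod s) * (lam : ZMod s) * ((lam : ZMod s) * ZMod.castHom (sdvd s e) (ZMod s) (2 * x - (a : ZMod (s ^ 2 * e)))) := by
              ring
          _ = 0 := by rw [h3, mul_zero]
      · rw [h1]
        exact ZMod.val_natCast_of_lt hlam.1
    · rintro ⟨⟨h1, h2⟩, h3⟩
      refine ⟨?_, h1⟩
      rw [Int.cast_natCast, ← h3, ZMod.natCast_zmod_val]
  · intro x hx
    simp only [coe_filter, mem_univ, true_and, Set.mem_setOf_eq] at hx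
    simp only [coe_filter, mem_range, Set.mem_setOf_eq]
    refine ⟨ZMod.val_lt _, ?_⟩
    have h3 := key x hx.1
    rw [hx.2, mul_zero] at h3
    rw [← ZMod.intCast_zmod_eq_zero_iff_dvd]
    push_cast
    rw [ZMod.natCast_zmod_val]
    exact h3.symm

private theorem T3_one (al be ga t d : ℤ) : T3 1 (1 ^ 2) (dvd_pow_self 1 two_ne_zero) al be ga t d = 1 := by
  unfold T3
  haveI : Subsingleton (ZMod (1 ^ 2)) := by rw [one_pow]; infer_instance
  rw [Nat.card_eq_one_iff_exists]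
  exact ⟨⟨(0, 0, 0), ⟨Subsingleton.elim _ _, Subsingleton.elim _ _, Subsingleton.elim _ _⟩, Subsingleton.elim _ _⟩,
    fun y => Subtype.ext (Subsingleton.elim _ _)⟩

/-! ### factorizations -/

private theorem fact_pr (s h l : ℕ) (hh : 0 < h) (hls : l ∣ s) :
    (pr s h).factorization l = h.factorization l := by
  by_cases hl : l.Prime
  · have h1 : (pr s h * co s h).factorization l = h.factorization l := by rw [pr_mul_co s h hh]
    rw [Nat.factorization_mul (pr_pos s h).ne' (co_pos s h).ne', Finsupp.add_apply,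
      Nat.factorization_eq_zero_of_not_dvd (fun h2 => co_prime s h l hl h2 hls), add_zero] at h1
    exact h1
  · rw [Nat.factorization_eq_zero_of_not_prime _ hl, Nat.factorization_eq_zero_of_not_prime _ hl]

private theorem fact_co (s h l : ℕ) (hh : 0 < h) (hls : ¬ l ∣ s) :
    (co s h).factorization l = h.factorization l := by
  by_cases hl : l.Prime
  · have h1 : (pr s h * co s h).factorization l = h.factorization l := by rw [pr_mul_co s h hh]
    rw [Nat.factorization_mul (pr_pos s h).ne' (co_pos s h).ne', Finsupp.add_apply,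
      Nat.factorization_eq_zero_of_not_dvd (fun h2 => hls (pr_prime s h l hl h2)), zero_add] at h1
    exact h1
  · rw [Nat.factorization_eq_zero_of_not_prime _ hl, Nat.factorization_eq_zero_of_not_prime _ hl]

private theorem pf_co (s h : ℕ) (hh : 0 < h) : (co s h).primeFactors = h.primeFactors.filter (fun l => ¬ l ∣ s) := by
  ext l
  rw [mem_filter, Nat.mem_primeFactors, Nat.mem_primeFactors]
  constructor
  · rintro ⟨h1, h2, _⟩
    exact ⟨⟨h1, h2.trans (co_dvd s h hh), hh.ne'⟩, co_prime s h l h1 h2⟩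
  · rintro ⟨⟨h1, h2, _⟩, h3⟩
    refine ⟨h1, ?_, (co_pos s h).ne'⟩
    rw [← pr_mul_co s h hh] at h2
    rcases h1.dvd_mul.1 h2 with h4 | h4
    · exact absurd (pr_prime s h l h1 h4) h3
    · exact h4

/-- PROOF. `Rr s d a e = ∑ lam < s, s ∣ lam² - d, rs s lam d a e`: a root `x` modulo `s² e` with `x = lam` modulo `s` and `lam² = d` modulo `s` has `x (2 x - a) = x² - d + (x² - a x + d) = 0` modulo `s`, so `s ∣ 2 x - a` (`x` is a unit), and
conversely (`ctr_sq`). With `rr_prod`, `e = pr s h`, and `CC d a (co s h) = ∏` over the primes of `h` not dividing `s` : `Cw d s h a = (∏_{l ∣ s} kap l) / s² * (∑ lam, rs s lam d a (pr s h)) * CC d a (co s h)`. With `N = 1` the first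
factor of `Cg` is `1` (`T3 1 1`: one triple). -/
theorem Cg_sum (d a : ℤ) (s h : ℕ) (hs : 0 < s) (hh : 0 < h) (hc : IsCoprime d (s : ℤ)) :
    (∏ l ∈ s.primeFactors, kap l) * ∑ lam ∈ (range s).filter (fun lam : ℕ => (s : ℤ) ∣ (lam : ℤ) ^ 2 - d), Cg s 1 s lam 0 0 lam d h a =
      (s : ℝ) ^ 3 * Cw d s h a := by
  have h1 : ∀ lam : ℕ, Cg s 1 s lam 0 0 lam d h a =
      ((s : ℝ) * CC d a (co s h)) * ((rs s lam d a (pr s h) : ℕ) : ℝ) := by
    intro lam
    unfold Cg
    rw [T3_one, if_pos (by simp)]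
    simp only [Nat.cast_one, div_one, one_mul]
    ring
  have hsum : ∑ lam ∈ (range s).filter (fun lam : ℕ => (s : ℤ) ∣ (lam : ℤ) ^ 2 - d), Cg s 1 s lam 0 0 lam d h a =
      ((s : ℝ) * CC d a (co s h)) * ((Rr s d a (pr s h) : ℕ) : ℝ) := by
    rw [sum_congr rfl fun lam _ => h1 lam, ← mul_sum, ← Nat.cast_sum, rs_sum s d a (pr s h) hs (pr_pos s h) hc]
  have hpf : (s * h).primeFactors = s.primeFactors ∪ h.primeFactors.filter (fun l => ¬ l ∣ s) := by
    rw [Nat.primeFactors_mul hs.ne' hh.ne']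
    ext l
    simp only [mem_union, mem_filter]
    constructor
    · rintro (h2 | h2)
      · exact Or.inl h2
      · by_cases h3 : l ∣ s
        · exact Or.inl (Nat.mem_primeFactors.2 ⟨Nat.prime_of_mem_primeFactors h2, h3, hs.ne'⟩)
        · exact Or.inr ⟨h2, h3⟩
    · rintro (h2 | h2)
      · exact Or.inl h2
      · exact Or.inr h2.1
  have hdis : Disjoint s.primeFactors (h.primeFactors.filter (fun l => ¬ l ∣ s)) := by
    rw [disjoint_left]
    intro l h2 h3
    exact (mem_filter.1 h3).2 (Nat.dvd_of_mem_primeFactors h2)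
  have hA : ∏ l ∈ s.primeFactors, lw l (s.factorization l) (h.factorization l) d a =
      (∏ l ∈ s.primeFactors, kap l) / (s : ℝ) ^ 2 * ((Rr s d a (pr s h) : ℕ) : ℝ) := by
    rw [rr_prod s d a (pr s h) hs (pr_pos s h) fun l hl h2 => pr_prime s h l hl h2, Nat.cast_prod]
    have hP : ∏ l ∈ s.primeFactors, ((l : ℝ) ^ (2 * s.factorization l)) = (s : ℝ) ^ 2 := by
      have h2 : ∏ l ∈ s.primeFactors, l ^ s.factorization l = s := Nat.prod_factorization_pow_eq_self hs.ne'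
      have h3 : ((∏ l ∈ s.primeFactors, l ^ s.factorization l : ℕ) : ℝ) = (s : ℝ) := by rw [h2]
      rw [← h3, Nat.cast_prod, ← prod_pow]
      refine prod_congr rfl fun l _ => ?_
      rw [Nat.cast_pow, ← pow_mul, mul_comm 2]
    rw [← hP, ← prod_div_distrib, ← prod_mul_distrib]
    refine prod_congr rfl fun l hl => ?_
    have hlp := Nat.prime_of_mem_primeFactors hl
    have hls := Nat.dvd_of_mem_primeFactors hl
    have hk : s.factorization l ≠ 0 := (hlp.factorization_pos_of_dvd hs.ne' hls).ne'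
    unfold lw
    rw [if_neg hk, fact_pr s h l hh hls]
  have hB : ∏ l ∈ h.primeFactors.filter (fun l => ¬ l ∣ s), lw l (s.factorization l) (h.factorization l) d a =
      CC d a (co s h) := by
    unfold CC
    rw [pf_co s h hh]
    refine prod_congr rfl fun l hl => ?_
    rw [mem_filter] at hl
    have hlp := Nat.prime_of_mem_primeFactors hl.1
    have hk : s.factorization l = 0 := Nat.factorization_eq_zero_of_not_dvd hl.2
    have hj : h.factorization l ≠ 0 :=
      (hlp.factorization_pos_of_dvd hh.ne' (Nat.dvd_of_mem_primeFactors hl.1)).ne'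
    unfold lw
    rw [if_pos hk, if_neg hj, fact_co s h l hh hl.2]
  rw [hsum, Cw, hpf, prod_union hdis, hA, hB]
  have hs0 : (s : ℝ) ≠ 0 := Nat.cast_ne_zero.2 hs.ne'
  field_simp

end Pool.Agent.JC
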