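import Pool.Agent.Lib_MP_f1937f_jc.Lws
import Pool.Agent.Lib_MP_f1937f_jd.AvgS

/-!
# The families of the scalar levels
-/

set_option autoImplicit false

namespace Pool.Agent.JC

open Finset Pool.Agent.TB Pool.Agent.JB Pool.Agent.JD

private theorem cws_split (d : ℤ) (s h l : ℕ) (a : ℤ) (hs : 0 < s) (hh : 0 < h) (hl : l.Prime) :
    Cw d s h a = lw l (s.factorization l) (h.factorization l) d a *
      ∏ q ∈ (s * h).primeFactors.erase l, lw q (s.factorization q) (h.factorization q) d a := by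
  unfold Cw
  by_cases hm : l ∈ (s * h).primeFactors
  · exact (Finset.mul_prod_erase (s * h).primeFactors
      (fun q => lw q (s.factorization q) (h.factorization q) d a) hm).symm
  · have hn : ¬ l ∣ s * h := fun hd => hm (Nat.mem_primeFactors.2 ⟨hl, hd, (Nat.mul_pos hs hh).ne'⟩)
    have h1 : s.factorization l = 0 := Nat.factorization_eq_zero_of_not_dvd fun hd => hn (hd.mul_right h)
    have h2 : h.factorization l = 0 := Nat.factorization_eq_zero_of_not_dvd fun hd => hn (hd.mul_left s)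
    rw [Finset.erase_eq_of_notMem hm, h1, h2, lw_zero_zero, one_mul]

private theorem cws_erase (n l : ℕ) (hn : 0 < n) (hl : l.Prime) :
    (n * l).primeFactors.erase l = n.primeFactors.erase l := by
  ext q
  rw [Finset.mem_erase, Finset.mem_erase, Nat.mem_primeFactors, Nat.mem_primeFactors]
  constructor
  · rintro ⟨h1, h2, h3, _⟩
    refine ⟨h1, h2, ?_, hn.ne'⟩
    rcases (Nat.Prime.dvd_mul h2).1 h3 with h4 | h4
    · exact h4
    · exact absurd ((Nat.prime_dvd_prime_iff_eq h2 hl).1 h4) h1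
  · rintro ⟨h1, h2, h3, _⟩
    exact ⟨h1, h2, h3.mul_right l, (Nat.mul_pos hn hl.pos).ne'⟩

private theorem cws_fac (s h q : ℕ) (hs : 0 < s) (hh : 0 < h) :
    (s ^ 2 * h).factorization q = 2 * s.factorization q + h.factorization q := by
  rw [Nat.factorization_mul (pow_ne_zero 2 hs.ne') hh.ne', Nat.factorization_pow]
  simp

private theorem cws_dvd (s h q : ℕ) (hs : 0 < s) (hh : 0 < h) :
    q ^ (2 * s.factorization q + h.factorization q) ∣ s ^ 2 * h := by
  rw [← cws_fac s h q hs hh]
  exact Nat.ordProj_dvd _ _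

private theorem cws_facmul (n l q : ℕ) (hn : 0 < n) (hl : l.Prime) (hq : q ≠ l) :
    (n * l).factorization q = n.factorization q := by
  rw [Nat.factorization_mul hn.ne' hl.ne_zero, hl.factorization]
  simp [Finsupp.single_eq_of_ne hq]

private theorem cws_facl (n l : ℕ) (hn : 0 < n) (hl : l.Prime) :
    (n * l).factorization l = n.factorization l + 1 := by
  rw [Nat.factorization_mul hn.ne' hl.ne_zero, hl.factorization]
  simp

private theorem cws_kap_one (n : ℕ) (hn : 2 ≤ n) : 1 ≤ kap n := by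
  have h : (2 : ℝ) ≤ (n : ℝ) := by exact_mod_cast hn
  unfold kap
  rw [le_div_iff₀ (by nlinarith)]
  linarith

private theorem cws_kap : ∀ (N : ℕ), 1 ≤ N → ∀ T : Finset ℕ, T ⊆ Icc 2 N →
    ∏ n ∈ T, kap n ≤ 2 * (N : ℝ) / ((N : ℝ) + 1) := by
  intro N hN
  induction N, hN using Nat.le_induction with
  | base =>
    intro T hT
    have h0 : T = ∅ := by
      rw [← Finset.subset_empty]
      intro x hx
      have := Finset.mem_Icc.1 (hT hx)
      omega
    rw [h0, Finset.prod_empty]
    norm_num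
  | succ N hN ih =>
    intro T hT
    have hN' : (1 : ℝ) ≤ (N : ℝ) := by exact_mod_cast hN
    have hsub : T.erase (N + 1) ⊆ Icc 2 N := by
      intro x hx
      rw [Finset.mem_erase] at hx
      have := Finset.mem_Icc.1 (hT hx.2)
      rw [Finset.mem_Icc]
      omega
    have h1 := ih _ hsub
    by_cases hm : N + 1 ∈ T
    · rw [← Finset.mul_prod_erase _ _ hm]
      have hk : 0 ≤ kap (N + 1) := (kap_pos (by omega)).le
      refine (mul_le_mul_of_nonneg_left h1 hk).trans (le_of_eq ?_)
      unfold kap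
      have h2 : (((N + 1 : ℕ) : ℝ)) ^ 2 - 1 = (N : ℝ) * ((N : ℝ) + 2) := by push_cast; ring
      rw [h2]
      push_cast
      have h3 : (N : ℝ) ≠ 0 := by positivity
      have h4 : (N : ℝ) + 2 ≠ 0 := by positivity
      have h5 : (N : ℝ) + 1 ≠ 0 := by positivity
      have h6 : (N : ℝ) + 1 + 1 ≠ 0 := by positivity
      field_simp
      ring
    · rw [Finset.erase_eq_of_notMem hm] at h1
      refine h1.trans ?_
      push_cast
      rw [div_le_div_iff₀ (by positivity) (by positivity)]
      nlinarith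

private theorem cws_val (d : ℤ) (s : ℕ) (a : ℤ) (hs : 0 < s) (h : Sc s d a) :
    Cw d s 1 a = (∏ l ∈ s.primeFactors, kap l) / (s : ℝ) := by
  unfold Cw
  rw [mul_one]
  have h1 : ∀ l ∈ s.primeFactors, lw l (s.factorization l) ((1 : ℕ).factorization l) d a =
      kap l / (l : ℝ) ^ (s.factorization l) := by
    intro l hl
    have hlp := Nat.prime_of_mem_primeFactors hl
    have hk : 1 ≤ s.factorization l :=
      (hlp.dvd_iff_one_le_factorization hs.ne').1 (Nat.dvd_of_mem_primeFactors hl)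
    rw [Nat.factorization_one, Finsupp.coe_zero, Pi.zero_apply]
    exact lw_one l _ hlp hk d a (sc_dvd _ _ d a (Nat.ordProj_dvd s l) h)
  rw [Finset.prod_congr rfl h1, Finset.prod_div_distrib]
  congr 1
  have h2 := Nat.factorization_prod_pow_eq_self hs.ne'
  rw [Finsupp.prod, Nat.support_factorization] at h2
  conv_rhs => rw [← h2]
  push_cast
  rfl

/-- PIECE [JC-L5] (all theorems of this file, about 200 lines). -/
theorem Cw_nonneg (d : ℤ) (s h : ℕ) (a : ℤ) : 0 ≤ Cw d s h a := by
  unfold Cw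
  exact Finset.prod_nonneg fun l hl => lw_nonneg l _ _ (Nat.prime_of_mem_primeFactors hl) d a

theorem Cw_one_eq (d a : ℤ) (h : ℕ) (hh : 0 < h) : Cw d 1 h a = CC d a h := by
  unfold Cw CC
  rw [one_mul]
  refine Finset.prod_congr rfl fun l hl => ?_
  have hlp := Nat.prime_of_mem_primeFactors hl
  have hk : 1 ≤ h.factorization l :=
    (hlp.dvd_iff_one_le_factorization hh.ne').1 (Nat.dvd_of_mem_primeFactors hl)
  rw [Nat.factorization_one, Finsupp.coe_zero, Pi.zero_apply]
  unfold lw
  rw [if_pos rfl, if_neg (by omega)]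

/-- the local factors have the period `l ^ (2 v(s) + v(h))`, a divisor of `s² h` -/
theorem Cw_per (d : ℤ) (s h : ℕ) (a a' : ℤ) (hs : 0 < s) (hh : 0 < h) (hd : ((s ^ 2 * h : ℕ) : ℤ) ∣ a - a') :
    Cw d s h a = Cw d s h a' := by
  unfold Cw
  refine Finset.prod_congr rfl fun l _ => ?_
  exact lw_per l _ _ d a a' ((Int.natCast_dvd_natCast.2 (cws_dvd s h l hs hh)).trans hd)

/-- Only the local factor at `l` changes: the other ones have a period dividing `s² h` (and do not see `v_l(h l)`); `s² h = l ^ (2 k + j) w`, `l ∤ w`: `lw_step`. -/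
theorem Cw_step (d : ℤ) (s h l : ℕ) (t : ℤ) (hs : 0 < s) (hh : 0 < h) (hl : l.Prime) (hc : IsCoprime d ((s * (h * l) : ℕ) : ℤ)) :
    ∑ i ∈ range l, Cw d s (h * l) (t + ((s ^ 2 * h : ℕ) : ℤ) * i) = l * Cw d s h t := by
  have hhl : 0 < h * l := Nat.mul_pos hh hl.pos
  have hld : ¬ (l : ℤ) ∣ d := by
    intro h1
    have h2 : IsCoprime (l : ℤ) (l : ℤ) := IsCoprime.of_isCoprime_of_dvd_left
      (IsCoprime.of_isCoprime_of_dvd_right hc (by push_cast; exact ⟨s * h, by ring⟩)) h1
    have h3 := Int.isUnit_iff.1 (isCoprime_self.1 h2)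
    have h4 := hl.two_le
    omega
  obtain ⟨w, hw⟩ := cws_dvd s h l hs hh
  have hwl : ¬ (l : ℤ) ∣ (w : ℤ) := by
    intro h1
    have h2 : l ∣ w := Int.natCast_dvd_natCast.1 h1
    have h3 : l ^ (2 * s.factorization l + h.factorization l + 1) ∣ s ^ 2 * h := by
      rw [pow_succ, hw]
      exact Nat.mul_dvd_mul_left _ h2
    have h4 := (hl.pow_dvd_iff_le_factorization (Nat.mul_pos (pow_pos hs 2) hh).ne').1 h3
    rw [cws_fac s h l hs hh] at h4
    omega
  have h1 : ∀ i ∈ range l, Cw d s (h * l) (t + ((s ^ 2 * h : ℕ) : ℤ) * i) =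
      lw l (s.factorization l) (h.factorization l + 1) d
        (t + ((l ^ (2 * s.factorization l + h.factorization l) : ℕ) : ℤ) * (w : ℤ) * i) *
      ∏ q ∈ (s * h).primeFactors.erase l, lw q (s.factorization q) (h.factorization q) d t := by
    intro i _
    rw [cws_split d s (h * l) l _ hs hhl hl, cws_facl h l hh hl, ← mul_assoc,
      cws_erase (s * h) l (Nat.mul_pos hs hh) hl]
    congr 1
    · congr 1
      rw [hw]
      push_cast
      ring
    · refine Finset.prod_congr rfl fun q hq => ?_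
      have hql : q ≠ l := (Finset.mem_erase.1 hq).1
      rw [cws_facmul h l q hh hl hql]
      refine lw_per q _ _ d _ _ ?_
      have h2 : t + ((s ^ 2 * h : ℕ) : ℤ) * i - t = ((s ^ 2 * h : ℕ) : ℤ) * i := by ring
      rw [h2]
      exact (Int.natCast_dvd_natCast.2 (cws_dvd s h q hs hh)).mul_right _
  rw [Finset.sum_congr rfl h1, ← Finset.sum_mul, lw_step l _ _ hl d t w hld hwl,
    cws_split d s h l t hs hh hl, mul_assoc]

/-- `avg_of_step` with `K = s ^ 2` -/
theorem fam_s (p s : ℕ) (hs : 0 < s) (hps : p.Coprime s) : Fam (s ^ 2) p (Cw p s 1) (Cw p s) := by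
  have hper : ∀ (h : ℕ) (a a' : ℤ), 0 < h → ((s ^ 2 * h : ℕ) : ℤ) ∣ a - a' → Cw p s h a = Cw p s h a' :=
    fun h a a' hh hd => Cw_per p s h a a' hs hh hd
  refine ⟨fun h a => Cw_nonneg p s h a, hper, fun a => rfl, ?_⟩
  refine avg_of_step (s ^ 2) p (pow_pos hs 2) (Cw p s) hper ?_
  intro h l t hh hl hp
  refine Cw_step p s h l t hs hh hl ?_
  exact Nat.isCoprime_iff_coprime.2 (Nat.Coprime.mul_right hps hp)

/-- some prime power `l ^ k ∥ s` has no centre (`sc_mul`), `lw_sc` -/
theorem Cw_sc (d : ℤ) (s h : ℕ) (a : ℤ) (hs : 0 < s) (hh : 0 < h) (h0 : Cw d s h a ≠ 0) : Sc s d a := by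
  unfold Cw at h0
  rw [Finset.prod_ne_zero_iff] at h0
  have h1 : ∀ l ∈ s.primeFactors, Sc (l ^ s.factorization l) d a := by
    intro l hl
    by_contra hc
    have hlp := Nat.prime_of_mem_primeFactors hl
    exact h0 l (Nat.mem_primeFactors.2 ⟨hlp, (Nat.dvd_of_mem_primeFactors hl).mul_right h,
      (Nat.mul_pos hs hh).ne'⟩) (lw_sc l _ _ hlp d a hc)
  have h2 : ∀ T : Finset ℕ, T ⊆ s.primeFactors → Sc (∏ l ∈ T, l ^ s.factorization l) d a := by
    intro T
    induction T using Finset.induction_on with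
    | empty =>
      intro _
      rw [Finset.prod_empty]
      exact sc_one d a
    | insert q T hq ih =>
      intro hT
      rw [Finset.prod_insert hq]
      refine sc_mul _ _ d a ?_ (h1 q (hT (Finset.mem_insert_self q T)))
        (ih ((Finset.subset_insert q T).trans hT))
      refine Nat.Coprime.prod_right fun r hr => ?_
      have hqp := Nat.prime_of_mem_primeFactors (hT (Finset.mem_insert_self q T))
      have hrp := Nat.prime_of_mem_primeFactors (hT (Finset.mem_insert_of_mem hr))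
      refine Nat.Coprime.pow _ _ ((Nat.coprime_primes hqp hrp).2 ?_)
      rintro rfl
      exact hq hr
  have h3 := Nat.factorization_prod_pow_eq_self hs.ne'
  rw [Finsupp.prod, Nat.support_factorization] at h3
  rw [← h3]
  exact h2 _ (Finset.Subset.refl _)

/-- `Cw d s 1 a = ∏ kap l / s` or `0`; `∏ kap l ≤ ∏_{2 ≤ n ≤ N} n² / (n² - 1) ≤ 2` -/
theorem Cw_le (d : ℤ) (s : ℕ) (a : ℤ) (hs : 0 < s) : Cw d s 1 a ≤ 2 / s := by
  have hs' : (0 : ℝ) < (s : ℝ) := by exact_mod_cast hs
  by_cases h : Sc s d a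
  · rw [cws_val d s a hs h]
    refine div_le_div_of_nonneg_right ?_ hs'.le
    have h1 := cws_kap s hs s.primeFactors (by
      intro l hl
      rw [Finset.mem_Icc]
      exact ⟨(Nat.prime_of_mem_primeFactors hl).two_le, Nat.le_of_dvd hs (Nat.dvd_of_mem_primeFactors hl)⟩)
    refine h1.trans ?_
    rw [div_le_iff₀ (by positivity)]
    linarith
  · have h0 : Cw d s 1 a = 0 := by
      by_contra hc
      exact h (Cw_sc d s 1 a hs one_pos hc)
    rw [h0]
    positivity

theorem Cw_ge (d : ℤ) (s : ℕ) (a : ℤ) (hs : 0 < s) (h : Sc s d a) : 1 / (s : ℝ) ≤ Cw d s 1 a := by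
  have hs' : (0 : ℝ) < (s : ℝ) := by exact_mod_cast hs
  rw [cws_val d s a hs h]
  refine div_le_div_of_nonneg_right ?_ hs'.le
  have h1 : ∏ l ∈ s.primeFactors, (1 : ℝ) ≤ ∏ l ∈ s.primeFactors, kap l :=
    Finset.prod_le_prod (fun _ _ => zero_le_one) fun l hl => cws_kap_one l (Nat.prime_of_mem_primeFactors hl).two_le
  rwa [Finset.prod_const_one] at h1

/-- one more prime: `Cw d (s l) h a * lw l k j = Cw d s h a * lw l (k+1) j`, `k = v_l(s)`, `j = v_l(h)` -/
theorem Cw_prime (d : ℤ) (s h l : ℕ) (a : ℤ) (hs : 0 < s) (hh : 0 < h) (hl : l.Prime) :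
    Cw d (s * l) h a * lw l (s.factorization l) (h.factorization l) d a =
      Cw d s h a * lw l (s.factorization l + 1) (h.factorization l) d a := by
  have hsl : 0 < s * l := Nat.mul_pos hs hl.pos
  rw [cws_split d (s * l) h l a hsl hh hl, cws_split d s h l a hs hh hl, cws_facl s l hs hl,
    show s * l * h = s * h * l by ring, cws_erase (s * h) l (Nat.mul_pos hs hh) hl]
  have h1 : ∏ q ∈ (s * h).primeFactors.erase l, lw q ((s * l).factorization q) (h.factorization q) d a =
      ∏ q ∈ (s * h).primeFactors.erase l, lw q (s.factorization q) (h.factorization q) d a := by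
    refine Finset.prod_congr rfl fun q hq => ?_
    rw [cws_facmul s l q hs hl (Finset.mem_erase.1 hq).1]
  rw [h1]
  ring

end Pool.Agent.JC
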