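import Pool.Agent.Lib_MP_f1937f_jd.Defs

/-!
# Chebotarev information for the Lang-Trotter conjecture: definitions

Library for the complete Chebotarev version of `MP_f1937f_nt/Independence`. An outcome for the prime `p` is `ω = (a, s, σ)`: the trace `a`,
the scalar level `s` and `σ ∈ SL₂(ℤ)`; its matrix is `mt p ω = σ (Fc s p a) σ⁻¹`, an integer matrix of trace `a` and determinant `p` which is scalar
modulo `s'` if and only if `s' ∣ s`.
-/

set_option autoImplicit false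

namespace Pool.Agent.JC

open Finset Pool.Agent.TB Pool.Agent.JB Pool.Agent.JD

/-! ## centres and weights -/

/-- `lam` is a centre of level `s` of the polynomial `x² - a x + d` -/
def Ctr (s : ℕ) (d a lam : ℤ) : Prop := (s : ℤ) ∣ 2 * lam - a ∧ (s : ℤ) ^ 2 ∣ lam ^ 2 - a * lam + d

/-- there is a centre of level `s` -/
def Sc (s : ℕ) (d a : ℤ) : Prop := ∃ lam : ℤ, Ctr s d a lam

/-- the smallest natural centre -/
noncomputable def ctr (s : ℕ) (d a : ℤ) : ℕ := sInf {n : ℕ | Ctr s d a n}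

/-- number of the roots modulo `s² e` of `x² - a x + d` which are double roots modulo `s` -/
noncomputable def Rr (s : ℕ) (d a : ℤ) (e : ℕ) : ℕ :=
  Nat.card {x : ZMod (s ^ 2 * e) // x ^ 2 - (a : ZMod (s ^ 2 * e)) * x + (d : ZMod (s ^ 2 * e)) = 0 ∧
    ZMod.castHom (sdvd s e) (ZMod s) (2 * x - (a : ZMod (s ^ 2 * e))) = 0}

/-- the local weight for the scalar level `l ^ k` and the level `l ^ j` -/
noncomputable def lw (l k j : ℕ) (d a : ℤ) : ℝ :=
  if k = 0 then (if j = 0 then 1 else kap l * (rho d a (l ^ j) : ℝ) + 1 / ((l : ℝ) + 1))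
  else kap l / (l : ℝ) ^ (2 * k) * (Rr (l ^ k) d a (l ^ j) : ℝ)

/-- the weight of the level `h` for the scalar level `s` -/
noncomputable def Cw (d : ℤ) (s h : ℕ) (a : ℤ) : ℝ :=
  ∏ l ∈ (s * h).primeFactors, lw l (s.factorization l) (h.factorization l) d a

/-- the weight of the level `h` for the exact scalar level `s` (`B` is a bound for the levels) -/
noncomputable def ex (B : ℕ) (d : ℤ) (s h : ℕ) (a : ℤ) : ℝ :=
  ∑ n ∈ Icc 1 B, (ArithmeticFunction.moebius n : ℝ) * Cw d (s * n) h a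

/-- the length of the levels for the prime `p` -/
noncomputable def HH (p : ℕ) : ℕ := ⌊(p : ℝ) ^ (1 / 6 : ℝ)⌋₊ / 3

/-- a bound for the mass of the traces `|a| ≤ log p` -/
noncomputable def dl (p : ℕ) : ℝ :=
  1 / √(p : ℝ) * ∑ a ∈ Icc (-(⌊Real.log p⌋₊ : ℤ)) (⌊Real.log p⌋₊ : ℤ), (1 + 1 / (HH p : ℝ) * ∑ h ∈ Icc 1 (3 * HH p), CC p a h)

/-! ## matrices -/

/-- integer matrices -/
abbrev Mz := Matrix (Fin 2) (Fin 2) ℤ

/-- reduction modulo `m` -/
def rd (m : ℕ) (F : Mz) : Matrix (Fin 2) (Fin 2) (ZMod m) := F.map (Int.cast : ℤ → ZMod m)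

/-- scalar modulo `s` -/
def Lv (s : ℕ) (F : Mz) : Prop := (s : ℤ) ∣ F 0 1 ∧ (s : ℤ) ∣ F 1 0 ∧ (s : ℤ) ∣ F 0 0 - F 1 1

/-- the matrix of trace `a`, determinant `d`, scalar level `s` and centre `lam` -/
def Fm (s : ℕ) (d a lam : ℤ) : Mz := !![lam, -((lam ^ 2 - a * lam + d) / s); (s : ℤ), a - lam]

/-- the matrix of trace `a`, determinant `d` and scalar level `s` -/
noncomputable def Fc (s : ℕ) (d a : ℤ) : Mz := Fm s d a (ctr s d a)

/-- conjugate modulo `m` -/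
def Cj (m : ℕ) (A B : Matrix (Fin 2) (Fin 2) (ZMod m)) : Prop := ∃ γ : GL (Fin 2) (ZMod m), γ.val * A = B * γ.val

/-- conjugate modulo `m` by a matrix which reduces into `G` -/
def CjG (M m : ℕ) (h : M ∣ m) (G : Subgroup (GL (Fin 2) (ZMod M))) (A B : Matrix (Fin 2) (Fin 2) (ZMod m)) : Prop :=
  ∃ γ : GL (Fin 2) (ZMod m), Matrix.GeneralLinearGroup.map (ZMod.castHom h (ZMod M)) γ ∈ G ∧ γ.val * A = B * γ.val

/-- the matrix is an element of `G` -/
def InG (M : ℕ) (G : Subgroup (GL (Fin 2) (ZMod M))) (A : Matrix (Fin 2) (Fin 2) (ZMod M)) : Prop := ∃ g ∈ G, g.val = A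

/-- scalar modulo the divisor `s` of `m` -/
def ScM (m s : ℕ) (h : s ∣ m) (A : Matrix (Fin 2) (Fin 2) (ZMod m)) : Prop :=
  ZMod.castHom h (ZMod s) (A 0 1) = 0 ∧ ZMod.castHom h (ZMod s) (A 1 0) = 0 ∧ ZMod.castHom h (ZMod s) (A 0 0 - A 1 1) = 0

/-- the proportion of the conjugacy class of `g` in `GL₂(ℤ/m)` among the matrices of the same determinant -/
noncomputable def xdens (m : ℕ) (g : GL (Fin 2) (ZMod m)) : ℝ :=
  (Nat.card {g' : GL (Fin 2) (ZMod m) // Cj m g.val g'.val} : ℝ) / (Nat.card {g' : GL (Fin 2) (ZMod m) // g'.val.det = g.val.det} : ℝ)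

/-- the proportion of the conjugacy class of `g` in `G(m)` among the elements of `G(m)` of the same determinant -/
noncomputable def cdens (M m : ℕ) (h : M ∣ m) (G : Subgroup (GL (Fin 2) (ZMod M))) (g : GL (Fin 2) (ZMod m)) : ℝ :=
  (Nat.card {g' : GL (Fin 2) (ZMod m) // CjG M m h G g.val g'.val} : ℝ) /
    (Nat.card {g' : GL (Fin 2) (ZMod m) // Matrix.GeneralLinearGroup.map (ZMod.castHom h (ZMod M)) g' ∈ G ∧ g'.val.det = g.val.det} : ℝ)

/-- `b` is allowed for `p` -/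
def Al (M : ℕ) (G : Subgroup (GL (Fin 2) (ZMod M))) (p : ℕ) (b : ℤ) : Prop :=
  ∃ F : Mz, F.det = p ∧ F.trace = b ∧ InG M G (rd M F)

/-! ## outcomes and laws -/

/-- the outcomes `(a, s, σ)` -/
abbrev Om := ℤ × ℕ × Matrix.SpecialLinearGroup (Fin 2) ℤ

/-- the matrix of an outcome -/
noncomputable def mt (p : ℕ) (ω : Om) : Mz := ω.2.2.val * Fc ω.2.1 p ω.1 * (ω.2.2⁻¹).val

/-- the outcomes for the prime `p` -/
noncomputable def Sp (R : Finset (Matrix.SpecialLinearGroup (Fin 2) ℤ)) (p : ℕ) : Finset Om := V p ×ˢ Icc 1 (2 * p) ×ˢ R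

/-- the set `R ⊂ SL₂(ℤ)` distributes the conjugates of a matrix uniformly over the classes of `G(m)` in its conjugacy class -/
def Orb (M : ℕ) (G : Subgroup (GL (Fin 2) (ZMod M))) (R : Finset (Matrix.SpecialLinearGroup (Fin 2) ℤ)) : Prop :=
  R.Nonempty ∧ ∀ (m : ℕ) (h : M ∣ m), 0 < m → ∀ g : GL (Fin 2) (ZMod m), Matrix.GeneralLinearGroup.map (ZMod.castHom h (ZMod M)) g ∈ G →
    ∀ A : Mz, Cj m g.val (rd m A) →
      (Nat.card {σ : Matrix.SpecialLinearGroup (Fin 2) ℤ // σ ∈ R ∧ CjG M m h G g.val (rd m (σ.val * A * (σ⁻¹).val))}) *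
          Nat.card {g' : GL (Fin 2) (ZMod m) // Cj m g.val g'.val} =
        R.card * Nat.card {g' : GL (Fin 2) (ZMod m) // CjG M m h G g.val g'.val}

open Classical in
/-- a (not normalised) law for the prime `p` with the densities of all classes, jointly with the Sato-Tate distribution -/
structure ULC (M : ℕ) (G : Subgroup (GL (Fin 2) (ZMod M))) (R : Finset (Matrix.SpecialLinearGroup (Fin 2) ℤ)) (C δ : ℝ) (p : ℕ)
    (μ : Om → ℝ) : Prop where
  nonneg : ∀ ω, 0 ≤ μ ω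
  supp : ∀ ω, μ ω ≠ 0 → ω ∈ Sp R p ∧ Sc ω.2.1 p ω.1
  equi : ∀ (m : ℕ) (h : M ∣ m), 0 < m → m ≤ p → ¬ p ∣ m → ∀ (s : ℕ) (hs : s ∣ m) (g : GL (Fin 2) (ZMod m)),
    Matrix.GeneralLinearGroup.map (ZMod.castHom h (ZMod M)) g ∈ G → g.val.det = (p : ZMod m) → ScM m s hs g.val → ∀ k : ℕ,
      |∑ ω ∈ (Sp R p).filter (fun ω => CjG M m h G g.val (rd m (mt p ω))), μ ω * Uk k (xx p ω.1) -
          (if k = 0 then cdens M m h G g else 0)| ≤
        C * ((m : ℝ) / s) ^ 2 * (k + 1) * (Real.log p / √(p : ℝ)) + δ * (k + 1)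

open Classical in
/-- the complete Chebotarev information -/
def InfoC (M : ℕ) (G : Subgroup (GL (Fin 2) (ZMod M))) (F : ℕ → Mz) (r : ℝ) : Prop :=
  ∃ C : ℝ, ∀ (m : ℕ) (h : M ∣ m), 0 < m → ∀ (s : ℕ) (hs : s ∣ m) (g : GL (Fin 2) (ZMod m)),
    Matrix.GeneralLinearGroup.map (ZMod.castHom h (ZMod M)) g ∈ G → ScM m s hs g.val → ∀ k x : ℕ, 2 ≤ x →
      |∑ p ∈ ((range (x + 1)).filter Nat.Prime).filter (fun p => CjG M m h G g.val (rd m (F p))), Uk k (xx p (F p).trace) -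
          (if k = 0 then cdens M m h G g else 0) *
            ((((range (x + 1)).filter Nat.Prime).filter (fun p : ℕ => (p : ZMod m) = g.val.det)).card : ℝ)| ≤
        C * ((m : ℝ) / s) * (k + 1) * √(x : ℝ) * Real.log ((m : ℝ) * (k + 2) * x) ^ r

end Pool.Agent.JC
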