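import Pool.Agent.Lib_MP_f1937f_jc.Defs

/-!
# The Chebotarev information relative to a weight on the primes
-/

set_option autoImplicit false

namespace Pool.Agent.JC

open Finset Pool.Agent.TB Pool.Agent.JB Pool.Agent.JD

open Classical in
/-- the complete Chebotarev information relative to the function `w` on the primes -/
def InfoW (M : ℕ) (G : Subgroup (GL (Fin 2) (ZMod M))) (F : ℕ → Mz) (w : ℕ → ℝ) (r : ℝ) : Prop :=
  ∃ C : ℝ, ∀ (m : ℕ) (h : M ∣ m), 0 < m → ∀ (s : ℕ) (hs : s ∣ m) (g : GL (Fin 2) (ZMod m)),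
    Matrix.GeneralLinearGroup.map (ZMod.castHom h (ZMod M)) g ∈ G → ScM m s hs g.val → ∀ k x : ℕ, 2 ≤ x →
      |∑ p ∈ ((range (x + 1)).filter Nat.Prime).filter (fun p => CjG M m h G g.val (rd m (F p))), w p * Uk k (xx p (F p).trace) -
          (if k = 0 then cdens M m h G g else 0) *
            ∑ p ∈ ((range (x + 1)).filter Nat.Prime).filter (fun p : ℕ => (p : ZMod m) = g.val.det), w p| ≤
        C * ((m : ℝ) / s) * (k + 1) * √(x : ℝ) * Real.log ((m : ℝ) * (k + 2) * x) ^ r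

theorem infoW_one (M : ℕ) (G : Subgroup (GL (Fin 2) (ZMod M))) (F : ℕ → Mz) (r : ℝ) (h : InfoW M G F (fun _ => 1) r) : InfoC M G F r := by
  obtain ⟨C, hC⟩ := h
  refine ⟨C, fun m hm h0 s hs g hg hsc k x hx => ?_⟩
  have h1 := hC m hm h0 s hs g hg hsc k x hx
  simp only [one_mul, sum_const, nsmul_eq_mul, mul_one] at h1
  exact h1

end Pool.Agent.JC
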