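import Pool.Agent.Lib_MP_f1937f_jc.MeanC
import Pool.Agent.Lib_MP_f1937f_jb.Avg

/-!
# The mass of the small traces
-/

set_option autoImplicit false

namespace Pool.Agent.JC

open Finset Pool.Agent.TB Pool.Agent.JB Pool.Agent.JD

/-! ### periodic sequences against decreasing weights -/

theorem per_block {c : ℕ → ℝ} {h : ℕ} (hper : ∀ n, c (n + h) = c n) (m : ℕ) :
    ∑ n ∈ Ico m (m + h), c n = ∑ n ∈ range h, c n := by
  rw [sum_Ico_eq_sum_range, Nat.add_sub_cancel_left]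
  induction m with
  | zero => simp
  | succ m ih =>
    rw [← ih]
    have h1 := sum_range_succ' (fun i => c (m + i)) h
    rw [sum_range_succ, hper, add_zero] at h1
    have h2 : ∑ i ∈ range h, c (m + (i + 1)) = ∑ i ∈ range h, c (m + 1 + i) :=
      sum_congr rfl fun i _ => by rw [show m + (i + 1) = m + 1 + i by ring]
    rw [h2] at h1
    linarith

theorem per_sum {c f : ℕ → ℝ} {h : ℕ} (hh : 0 < h) (hc : ∀ n, 0 ≤ c n) (hper : ∀ n, c (n + h) = c n)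
    (k : ℕ) : ∀ n0 N : ℕ, N ≤ n0 + k * h → (∀ n, n0 ≤ n → 0 ≤ f n) → (∀ m n, n0 ≤ m → m ≤ n → f n ≤ f m) →
    ∑ n ∈ Ico n0 N, c n * f n ≤
      (∑ n ∈ range h, c n) * f n0 + (∑ n ∈ range h, c n) / h * ∑ n ∈ Ico n0 N, f n := by
  have hhR : (0 : ℝ) < h := by exact_mod_cast hh
  have hS : 0 ≤ ∑ n ∈ range h, c n := sum_nonneg fun n _ => hc n
  induction k with
  | zero =>
    intro n0 N hN hf0 hf
    rw [Ico_eq_empty (by omega), sum_empty, sum_empty, mul_zero, add_zero]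
    exact mul_nonneg hS (hf0 _ le_rfl)
  | succ k ih =>
    intro n0 N hN hf0 hf
    have hblock : ∀ N', N' ≤ n0 + h → ∑ n ∈ Ico n0 N', c n * f n ≤ (∑ n ∈ range h, c n) * f n0 := by
      intro N' hN'
      calc ∑ n ∈ Ico n0 N', c n * f n ≤ ∑ n ∈ Ico n0 (n0 + h), c n * f n :=
            sum_le_sum_of_subset_of_nonneg (Ico_subset_Ico le_rfl hN') fun n hn _ =>
              mul_nonneg (hc n) (hf0 n (mem_Ico.1 hn).1)
        _ ≤ ∑ n ∈ Ico n0 (n0 + h), c n * f n0 := sum_le_sum fun n hn =>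
              mul_le_mul_of_nonneg_left (hf n0 n le_rfl (mem_Ico.1 hn).1) (hc n)
        _ = _ := by rw [← sum_mul, per_block hper]
    rcases le_total N (n0 + h) with h1 | h1
    · refine (hblock N h1).trans (le_add_of_nonneg_right ?_)
      exact mul_nonneg (div_nonneg hS hhR.le) (sum_nonneg fun n hn => hf0 n (mem_Ico.1 hn).1)
    · have h2 : N ≤ n0 + h + k * h := by
        have : (k + 1) * h = h + k * h := by ring
        omega
      have h3 := ih (n0 + h) N h2 (fun n hn => hf0 n (by omega)) (fun m n hm hmn => hf m n (by omega) hmn)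
      have h4 := sum_Ico_consecutive (fun n => c n * f n) (by omega : n0 ≤ n0 + h) h1
      have h5 := sum_Ico_consecutive f (by omega : n0 ≤ n0 + h) h1
      have h6 : h * f (n0 + h) ≤ ∑ n ∈ Ico n0 (n0 + h), f n := by
        calc (h : ℝ) * f (n0 + h) = ∑ n ∈ Ico n0 (n0 + h), f (n0 + h) := by simp
          _ ≤ _ := sum_le_sum fun n hn => hf n (n0 + h) (mem_Ico.1 hn).1 (mem_Ico.1 hn).2.le
      have h7 : (∑ n ∈ range h, c n) * f (n0 + h) ≤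
          (∑ n ∈ range h, c n) / h * ∑ n ∈ Ico n0 (n0 + h), f n := by
        calc (∑ n ∈ range h, c n) * f (n0 + h) = (∑ n ∈ range h, c n) / h * (h * f (n0 + h)) := by
              field_simp
          _ ≤ _ := mul_le_mul_of_nonneg_left h6 (div_nonneg hS hhR.le)
      have h8 := hblock (n0 + h) le_rfl
      rw [← h4, ← h5, mul_add]
      linarith

/-! ### the levels -/

theorem HH_le (p : ℕ) : ((3 * HH p : ℕ) : ℝ) ≤ (p : ℝ) ^ (1 / 6 : ℝ) := by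
  have h1 : 3 * HH p ≤ ⌊(p : ℝ) ^ (1 / 6 : ℝ)⌋₊ := by
    unfold HH
    exact Nat.mul_div_le _ 3
  have h2 : ((3 * HH p : ℕ) : ℝ) ≤ (⌊(p : ℝ) ^ (1 / 6 : ℝ)⌋₊ : ℝ) := by exact_mod_cast h1
  exact h2.trans (Nat.floor_le (by positivity))

theorem HH_mono {m n : ℕ} (h : m ≤ n) : HH m ≤ HH n := by
  unfold HH
  refine Nat.div_le_div_right (Nat.floor_mono ?_)
  have : (m : ℝ) ≤ n := by exact_mod_cast h
  gcongr

theorem cube_le {n h : ℕ} (hn : h ≤ 3 * HH n) : (h : ℝ) ^ 3 ≤ √(n : ℝ) := by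
  have h1 : (h : ℝ) ≤ (n : ℝ) ^ (1 / 6 : ℝ) := by
    have : (h : ℝ) ≤ ((3 * HH n : ℕ) : ℝ) := by exact_mod_cast hn
    exact this.trans (HH_le n)
  have h2 : ((n : ℝ) ^ (1 / 6 : ℝ)) ^ 3 = √(n : ℝ) := by
    rw [← Real.rpow_natCast, ← Real.rpow_mul (by positivity), Real.sqrt_eq_rpow]
    norm_num
  rw [← h2]
  gcongr

/-- the weight of `n` -/
noncomputable def wf (n : ℕ) : ℝ := 1 / √(n : ℝ) * (1 / (HH n : ℝ))

theorem wf_nonneg (n : ℕ) : 0 ≤ wf n := by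
  unfold wf
  positivity

theorem wf_anti {m n : ℕ} (hm : 1 ≤ m) (hH : 1 ≤ HH m) (h : m ≤ n) : wf n ≤ wf m := by
  have h1 : (1 : ℝ) ≤ m := by exact_mod_cast hm
  have h2 : (1 : ℝ) ≤ HH m := by exact_mod_cast hH
  have h3 : (m : ℝ) ≤ n := by exact_mod_cast h
  have h4 : (HH m : ℝ) ≤ HH n := by exact_mod_cast HH_mono h
  have h5 : 0 < √(m : ℝ) := Real.sqrt_pos.2 (by linarith)
  unfold wf
  gcongr

/-- the mean of the weights of level `h` -/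
noncomputable def PP (h : ℕ) : ℝ := ∏ l ∈ h.primeFactors, (1 + (l : ℝ) / ((l : ℝ) ^ 2 - 1))

theorem PP_nonneg (h : ℕ) : 0 ≤ PP h := by
  unfold PP
  refine prod_nonneg fun l hl => ?_
  have h2 : (2 : ℝ) ≤ l := by exact_mod_cast (Nat.prime_of_mem_primeFactors hl).two_le
  have : 0 ≤ (l : ℝ) / ((l : ℝ) ^ 2 - 1) := div_nonneg (by linarith) (by nlinarith)
  linarith

theorem PP_le {h : ℕ} (hh : 0 < h) : PP h ≤ 2 * h := by
  refine le_trans ?_ (mean_mean h)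
  exact single_le_sum (f := PP) (fun i _ => PP_nonneg i) (mem_Icc.2 ⟨hh, le_rfl⟩)

theorem level_sum (a : ℤ) (x h : ℕ) (hh : 0 < h) :
    ∑ n ∈ (Icc 1 x).filter (fun n => h ≤ 3 * HH n), wf n * CC n a h ≤
      6 / (h : ℝ) ^ 2 + PP h * ∑ n ∈ (Icc 1 x).filter (fun n => h ≤ 3 * HH n), wf n := by
  have hhR : (1 : ℝ) ≤ h := by exact_mod_cast hh
  rcases ((Icc 1 x).filter (fun n => h ≤ 3 * HH n)).eq_empty_or_nonempty with h0 | h0
  · rw [h0, sum_empty, sum_empty, mul_zero, add_zero]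
    positivity
  · obtain ⟨n0, hn0⟩ : ∃ n0, n0 = ((Icc 1 x).filter (fun n => h ≤ 3 * HH n)).min' h0 := ⟨_, rfl⟩
    have hmem : n0 ∈ (Icc 1 x).filter (fun n => h ≤ 3 * HH n) := by
      rw [hn0]
      exact min'_mem _ _
    rw [mem_filter, mem_Icc] at hmem
    obtain ⟨⟨h1, h2⟩, h3⟩ := hmem
    have hset : (Icc 1 x).filter (fun n => h ≤ 3 * HH n) = Ico n0 (x + 1) := by
      ext n
      rw [mem_Ico]
      constructor
      · intro hn
        refine ⟨?_, ?_⟩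
        · rw [hn0]
          exact min'_le _ _ hn
        · have := (mem_Icc.1 (mem_filter.1 hn).1).2
          omega
      · rintro ⟨hn1, hn2⟩
        rw [mem_filter, mem_Icc]
        refine ⟨⟨by omega, by omega⟩, h3.trans ?_⟩
        have := HH_mono hn1
        omega
    have hH : 1 ≤ HH n0 := by omega
    rw [hset]
    have h4 := per_sum (c := fun n : ℕ => CC n a h) (f := wf) hh (fun n => CC_nonneg _ _ _)
      (fun n => CC_congr (by push_cast; ring_nf; exact dvd_rfl) (by simp)) (x + 1) n0 (x + 1)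
      (by nlinarith) (fun n _ => wf_nonneg n) (fun m n hm hmn => wf_anti (by omega)
        (hH.trans (HH_mono hm)) hmn)
    have h5 : ∑ n ∈ range h, CC (n : ℤ) a h = h * PP h := cc_mean a h hh
    rw [h5] at h4
    have h6 : ∑ n ∈ Ico n0 (x + 1), CC (n : ℤ) a h * wf n = ∑ n ∈ Ico n0 (x + 1), wf n * CC (n : ℤ) a h :=
      sum_congr rfl fun n _ => mul_comm _ _
    rw [h6] at h4
    refine h4.trans ?_
    have e1 : (h : ℝ) * PP h / h = PP h := by field_simp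
    rw [e1]
    refine add_le_add ?_ le_rfl
    have h7 := cube_le h3
    have h8 : (h : ℝ) ≤ 3 * HH n0 := by exact_mod_cast h3
    have h9 : wf n0 ≤ 3 / (h : ℝ) ^ 4 := by
      have g1 : 1 / √(n0 : ℝ) ≤ 1 / (h : ℝ) ^ 3 := one_div_le_one_div_of_le (by positivity) h7
      have g2 : 1 / (HH n0 : ℝ) ≤ 3 / h := by
        have : (0 : ℝ) < HH n0 := by exact_mod_cast hH
        rw [div_le_div_iff₀ this (by positivity)]
        linarith
      calc wf n0 ≤ 1 / (h : ℝ) ^ 3 * (3 / h) := mul_le_mul g1 g2 (by positivity) (by positivity)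
        _ = 3 / (h : ℝ) ^ 4 := by field_simp
    have h10 := PP_le hh
    calc (h : ℝ) * PP h * wf n0 ≤ h * (2 * h) * (3 / (h : ℝ) ^ 4) := by
          have := PP_nonneg h
          have := wf_nonneg n0
          gcongr
      _ = 6 / (h : ℝ) ^ 2 := by field_simp; ring

theorem inv_sqrt_sum (x : ℕ) : ∑ n ∈ Icc 1 x, 1 / √(n : ℝ) ≤ 2 * √(x : ℝ) := by
  induction x with
  | zero => simp
  | succ x ih =>
    rw [sum_Icc_succ_top (by omega)]
    have h1 : (0 : ℝ) ≤ x := Nat.cast_nonneg x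
    have h2 := Real.sq_sqrt h1
    have h3 : √((x + 1 : ℕ) : ℝ) ^ 2 = x + 1 := by
      rw [Real.sq_sqrt (by positivity)]
      push_cast
      ring
    have h4 : 0 < √((x + 1 : ℕ) : ℝ) := Real.sqrt_pos.2 (by positivity)
    have h5 := Real.sqrt_nonneg (x : ℝ)
    have h6 : 1 / √((x + 1 : ℕ) : ℝ) ≤ 2 * √((x + 1 : ℕ) : ℝ) - 2 * √(x : ℝ) := by
      rw [div_le_iff₀ h4]
      nlinarith [sq_nonneg (√((x + 1 : ℕ) : ℝ) - √(x : ℝ))]
    linarith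

theorem inv_sq_sum (X : ℕ) : ∑ h ∈ Icc 1 X, 6 / (h : ℝ) ^ 2 ≤ 12 := by
  have key : ∀ X : ℕ, ∑ h ∈ Icc 1 X, 6 / (h : ℝ) ^ 2 ≤ 12 - 12 / ((X : ℝ) + 1) := by
    intro X
    induction X with
    | zero => norm_num
    | succ X ih =>
      rw [sum_Icc_succ_top (by omega)]
      have h1 : (0 : ℝ) ≤ X := Nat.cast_nonneg X
      have h2 : 6 / ((X + 1 : ℕ) : ℝ) ^ 2 ≤ 12 / ((X : ℝ) + 1) - 12 / (((X + 1 : ℕ) : ℝ) + 1) := by
        have e : 12 / ((X : ℝ) + 1) - 12 / (((X + 1 : ℕ) : ℝ) + 1) =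
            6 / ((X + 1 : ℕ) : ℝ) ^ 2 + 6 * X / (((X : ℝ) + 1) ^ 2 * ((X : ℝ) + 2)) := by
          push_cast
          field_simp
          ring
        rw [e]
        have : 0 ≤ 6 * X / (((X : ℝ) + 1) ^ 2 * ((X : ℝ) + 2)) := by positivity
        linarith
      linarith
  refine (key X).trans ?_
  have : 0 ≤ 12 / ((X : ℝ) + 1) := by positivity
  linarith

/-- the double sum for one trace -/
theorem trace_sum (a : ℤ) (x : ℕ) (hx : 1 ≤ x) :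
    ∑ n ∈ Icc 1 x, 1 / √(n : ℝ) * (1 + 1 / (HH n : ℝ) * ∑ h ∈ Icc 1 (3 * HH n), CC n a h) ≤
      26 * √(x : ℝ) := by
  have e1 : ∀ n : ℕ, 1 / √(n : ℝ) * (1 + 1 / (HH n : ℝ) * ∑ h ∈ Icc 1 (3 * HH n), CC n a h) =
      1 / √(n : ℝ) + ∑ h ∈ Icc 1 (3 * HH n), wf n * CC n a h := by
    intro n
    rw [← mul_sum]
    unfold wf
    ring
  rw [sum_congr rfl fun n _ => e1 n, sum_add_distrib]
  have h1 := inv_sqrt_sum x
  have e2 : ∀ F : ℕ → ℕ → ℝ, ∑ n ∈ Icc 1 x, ∑ h ∈ Icc 1 (3 * HH n), F n h =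
      ∑ h ∈ Icc 1 (3 * HH x), ∑ n ∈ (Icc 1 x).filter (fun n => h ≤ 3 * HH n), F n h := by
    intro F
    refine sum_comm' fun n h => ?_
    simp only [mem_Icc, mem_filter]
    constructor
    · rintro ⟨⟨h1, h2⟩, h3, h4⟩
      have := HH_mono h2
      exact ⟨⟨⟨h1, h2⟩, h4⟩, h3, by omega⟩
    · rintro ⟨⟨⟨h1, h2⟩, h4⟩, h3, -⟩
      exact ⟨⟨h1, h2⟩, h3, h4⟩
  rw [e2]
  have h2 : ∑ h ∈ Icc 1 (3 * HH x), ∑ n ∈ (Icc 1 x).filter (fun n => h ≤ 3 * HH n), wf n * CC n a h ≤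
      ∑ h ∈ Icc 1 (3 * HH x), (6 / (h : ℝ) ^ 2 + ∑ n ∈ (Icc 1 x).filter (fun n => h ≤ 3 * HH n), PP h * wf n) := by
    refine sum_le_sum fun h hh => ?_
    rw [← mul_sum]
    exact level_sum a x h (mem_Icc.1 hh).1
  rw [sum_add_distrib, ← e2 (fun n h => PP h * wf n)] at h2
  have h3 := inv_sq_sum (3 * HH x)
  have h4 : ∑ n ∈ Icc 1 x, ∑ h ∈ Icc 1 (3 * HH n), PP h * wf n ≤ ∑ n ∈ Icc 1 x, 6 * (1 / √(n : ℝ)) := by
    refine sum_le_sum fun n hn => ?_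
    rw [← sum_mul]
    have h5 : ∑ h ∈ Icc 1 (3 * HH n), PP h ≤ 2 * ((3 * HH n : ℕ) : ℝ) := mean_mean (3 * HH n)
    have h6 : wf n = 1 / √(n : ℝ) * (1 / (HH n : ℝ)) := rfl
    have h7 : 0 ≤ 1 / √(n : ℝ) := by positivity
    calc (∑ h ∈ Icc 1 (3 * HH n), PP h) * wf n ≤ 2 * ((3 * HH n : ℕ) : ℝ) * wf n :=
          mul_le_mul_of_nonneg_right h5 (wf_nonneg n)
      _ = 6 * (1 / √(n : ℝ)) * ((HH n : ℝ) * (1 / (HH n : ℝ))) := by
          rw [h6]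
          push_cast
          ring
      _ ≤ 6 * (1 / √(n : ℝ)) * 1 := by
          refine mul_le_mul_of_nonneg_left ?_ (by positivity)
          rw [mul_one_div]
          exact div_self_le_one _
      _ = _ := mul_one _
  rw [← mul_sum] at h4
  have h8 : (1 : ℝ) ≤ √(x : ℝ) := Real.one_le_sqrt.2 (by exact_mod_cast hx)
  linarith

theorem dl_nonneg (p : ℕ) : 0 ≤ dl p := by
  unfold dl
  refine mul_nonneg (by positivity) (sum_nonneg fun a _ => ?_)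
  have : 0 ≤ ∑ h ∈ Icc 1 (3 * HH p), CC p a h := sum_nonneg fun h _ => CC_nonneg _ _ _
  positivity

/-- PIECE [JC-A5] (about 200 lines). PROOF. Dyadic blocks `2 ^ i ≤ p < 2 ^ (i+1)`. For fixed `a`, with `H' = HH (2 ^ i)` (if `H' = 0` the block is one of finitely many, bound it trivially) and `HH p ≤ H'' = HH (2 ^ (i+1)) ≤ 3 H'` :
`∑_p (1 / HH p) ∑_{h ≤ 3 HH p} CC p a h ≤ (1 / H') ∑_{h ≤ 3 H''} ∑_{2^i ≤ n < 2^(i+1)} CC n a h`, and for every `h` the inner sum (period `h` in `n`, `CC_congr`-like, non negative) is at most `(2 ^ i / h + 1) ∑_{n < h} CC n a h ≤ 2 ^ (i+1) ∏_{l ∣ h} (1 + l / (l² - 1))`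
(`cc_mean`, `h ≤ 2 ^ i`); `mean_mean`: at most `C 2 ^ i`. There are at most `2 log p + 1 ≤ C (i + 1)` values of `a`, `1 / √p ≤ 2 ^ (-i/2)`: the block contributes `C (i + 1) 2 ^ (i/2)`; sum over `i ≤ log₂ x`.
(Proved without dyadic blocks: `per_sum`, `level_sum`, `trace_sum`.) -/
theorem dl_sum : ∃ D : ℝ, 0 ≤ D ∧ ∀ x : ℕ, 2 ≤ x →
    ∑ p ∈ (range (x + 1)).filter Nat.Prime, dl p ≤ D * √(x : ℝ) * Real.log x := by
  refine ⟨104, by norm_num, fun x hx => ?_⟩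
  have hxR : (2 : ℝ) ≤ x := by exact_mod_cast hx
  have hlog : (693 / 1000 : ℝ) ≤ Real.log x := by
    have h1 := Real.log_two_gt_d9
    have h2 := Real.log_le_log (by norm_num) hxR
    linarith
  have hL : ((⌊Real.log x⌋₊ : ℕ) : ℝ) ≤ Real.log x := Nat.floor_le (by linarith)
  have h1 : ∑ p ∈ (range (x + 1)).filter Nat.Prime, dl p ≤
      ∑ p ∈ Icc 1 x, ∑ a ∈ Icc (-(⌊Real.log x⌋₊ : ℤ)) (⌊Real.log x⌋₊ : ℤ),
        1 / √(p : ℝ) * (1 + 1 / (HH p : ℝ) * ∑ h ∈ Icc 1 (3 * HH p), CC p a h) := by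
    have hnn : ∀ (p : ℕ) (a : ℤ), 0 ≤ 1 / √(p : ℝ) * (1 + 1 / (HH p : ℝ) * ∑ h ∈ Icc 1 (3 * HH p), CC p a h) := by
      intro p a
      have : 0 ≤ ∑ h ∈ Icc 1 (3 * HH p), CC p a h := sum_nonneg fun h _ => CC_nonneg _ _ _
      positivity
    calc ∑ p ∈ (range (x + 1)).filter Nat.Prime, dl p ≤ ∑ p ∈ (range (x + 1)).filter Nat.Prime,
          ∑ a ∈ Icc (-(⌊Real.log x⌋₊ : ℤ)) (⌊Real.log x⌋₊ : ℤ),
            1 / √(p : ℝ) * (1 + 1 / (HH p : ℝ) * ∑ h ∈ Icc 1 (3 * HH p), CC p a h) := by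
          refine sum_le_sum fun p hp => ?_
          rw [mem_filter, mem_range] at hp
          unfold dl
          rw [mul_sum]
          refine sum_le_sum_of_subset_of_nonneg ?_ fun a _ _ => hnn p a
          have h2 : Real.log p ≤ Real.log x := by
            have : (p : ℝ) ≤ x := by exact_mod_cast (by omega : p ≤ x)
            exact Real.log_le_log (by exact_mod_cast hp.2.pos) this
          have h3 : (⌊Real.log p⌋₊ : ℤ) ≤ (⌊Real.log x⌋₊ : ℤ) := by exact_mod_cast Nat.floor_mono h2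
          exact Icc_subset_Icc (neg_le_neg h3) h3
      _ ≤ _ := by
          refine sum_le_sum_of_subset_of_nonneg ?_ fun p _ _ => sum_nonneg fun a _ => hnn p a
          intro p hp
          rw [mem_filter, mem_range] at hp
          rw [mem_Icc]
          exact ⟨hp.2.one_lt.le, by omega⟩
  rw [sum_comm] at h1
  have h2 : ∑ a ∈ Icc (-(⌊Real.log x⌋₊ : ℤ)) (⌊Real.log x⌋₊ : ℤ), ∑ p ∈ Icc 1 x,
        1 / √(p : ℝ) * (1 + 1 / (HH p : ℝ) * ∑ h ∈ Icc 1 (3 * HH p), CC p a h) ≤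
      ∑ a ∈ Icc (-(⌊Real.log x⌋₊ : ℤ)) (⌊Real.log x⌋₊ : ℤ), 26 * √(x : ℝ) :=
    sum_le_sum fun a _ => trace_sum a x (by omega)
  rw [sum_const, Int.card_Icc, nsmul_eq_mul] at h2
  have h3 : (((⌊Real.log x⌋₊ : ℤ) + 1 - -(⌊Real.log x⌋₊ : ℤ)).toNat : ℝ) = 2 * (⌊Real.log x⌋₊ : ℝ) + 1 := by
    have : ((⌊Real.log x⌋₊ : ℤ) + 1 - -(⌊Real.log x⌋₊ : ℤ)).toNat = 2 * ⌊Real.log x⌋₊ + 1 := by omega
    rw [this]
    push_cast
    ring
  rw [h3] at h2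
  have h4 := Real.sqrt_nonneg (x : ℝ)
  have h5 : 2 * (⌊Real.log x⌋₊ : ℝ) + 1 ≤ 4 * Real.log x := by linarith
  have h6 := mul_le_mul_of_nonneg_right h5 (by positivity : 0 ≤ 26 * √(x : ℝ))
  linarith

/-- PROOF. `CC p a h ≤ h` for `p` prime, `p ∤ h` (`CC_le`), so `dl p ≤ (2 log p + 1) (1 + (1 / HH p) (3 HH p)²) / √p ≤ C log p p ^ (1/6) / √p` tends to `0`. -/
theorem dl_small (A : ℝ) : ∃ p₀ : ℕ, ∀ p : ℕ, p.Prime → p₀ ≤ p → A * dl p ≤ 1 / 8 := by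
  refine ⟨⌈(800 * |A|) ^ 4⌉₊, fun p hp hp0 => ?_⟩
  have hpR : (1 : ℝ) ≤ p := by exact_mod_cast hp.one_lt.le
  have hp0R : (0 : ℝ) < p := by linarith
  have hH := HH_le p
  have h6 : (1 : ℝ) ≤ (p : ℝ) ^ (1 / 6 : ℝ) := Real.one_le_rpow hpR (by norm_num)
  have h12 : (1 : ℝ) ≤ (p : ℝ) ^ (1 / 12 : ℝ) := Real.one_le_rpow hpR (by norm_num)
  have hcc : ∀ a : ℤ, 1 + 1 / (HH p : ℝ) * ∑ h ∈ Icc 1 (3 * HH p), CC p a h ≤ 4 * (p : ℝ) ^ (1 / 6 : ℝ) := by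
    intro a
    have h1 : ∑ h ∈ Icc 1 (3 * HH p), CC p a h ≤ ∑ h ∈ Icc 1 (3 * HH p), ((3 * HH p : ℕ) : ℝ) := by
      refine sum_le_sum fun h hh => ?_
      rw [mem_Icc] at hh
      have h2 : (h : ℝ) ≤ ((3 * HH p : ℕ) : ℝ) := by exact_mod_cast hh.2
      refine (CC_le p a h (by omega) ?_).trans h2
      rw [Nat.isCoprime_iff_coprime]
      refine (Nat.Prime.coprime_iff_not_dvd hp).2 fun hd => ?_
      have h3 := Nat.le_of_dvd (by omega) hd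
      have h4 : (p : ℝ) ≤ (p : ℝ) ^ (1 / 6 : ℝ) := by
        have : (p : ℝ) ≤ h := by exact_mod_cast h3
        linarith
      have h5 : (p : ℝ) ^ (1 / 6 : ℝ) < (p : ℝ) ^ (1 : ℝ) :=
        Real.rpow_lt_rpow_of_exponent_lt (by exact_mod_cast hp.one_lt) (by norm_num)
      rw [Real.rpow_one] at h5
      linarith
    rw [sum_const, Nat.card_Icc, nsmul_eq_mul, Nat.add_sub_cancel] at h1
    have h2 : 1 / (HH p : ℝ) * ∑ h ∈ Icc 1 (3 * HH p), CC p a h ≤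
        1 / (HH p : ℝ) * (((3 * HH p : ℕ) : ℝ) * ((3 * HH p : ℕ) : ℝ)) :=
      mul_le_mul_of_nonneg_left h1 (by positivity)
    have h3 : 1 / (HH p : ℝ) * (((3 * HH p : ℕ) : ℝ) * ((3 * HH p : ℕ) : ℝ)) ≤
        3 * ((3 * HH p : ℕ) : ℝ) := by
      have e : 1 / (HH p : ℝ) * (((3 * HH p : ℕ) : ℝ) * ((3 * HH p : ℕ) : ℝ)) =
          ((HH p : ℝ) * (1 / (HH p : ℝ))) * (3 * ((3 * HH p : ℕ) : ℝ)) := by
        push_cast
        ring
      rw [e]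
      have : (HH p : ℝ) * (1 / (HH p : ℝ)) ≤ 1 := by
        rw [mul_one_div]
        exact div_self_le_one _
      have := mul_le_mul_of_nonneg_right this (by positivity : 0 ≤ 3 * ((3 * HH p : ℕ) : ℝ))
      linarith
    linarith
  have hlog : Real.log p ≤ 12 * (p : ℝ) ^ (1 / 12 : ℝ) := by
    have := Real.log_le_rpow_div hp0R.le (by norm_num : (0 : ℝ) < 1 / 12)
    rw [div_eq_mul_inv] at this
    norm_num at this ⊢
    linarith
  have hlog0 : 0 ≤ Real.log p := Real.log_nonneg hpR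
  have hL : ((⌊Real.log p⌋₊ : ℕ) : ℝ) ≤ Real.log p := Nat.floor_le hlog0
  have hs : ∑ a ∈ Icc (-(⌊Real.log p⌋₊ : ℤ)) (⌊Real.log p⌋₊ : ℤ),
      (1 + 1 / (HH p : ℝ) * ∑ h ∈ Icc 1 (3 * HH p), CC p a h) ≤
      25 * (p : ℝ) ^ (1 / 12 : ℝ) * (4 * (p : ℝ) ^ (1 / 6 : ℝ)) := by
    have h1 : ∑ a ∈ Icc (-(⌊Real.log p⌋₊ : ℤ)) (⌊Real.log p⌋₊ : ℤ),
      (1 + 1 / (HH p : ℝ) * ∑ h ∈ Icc 1 (3 * HH p), CC p a h) ≤
      ∑ a ∈ Icc (-(⌊Real.log p⌋₊ : ℤ)) (⌊Real.log p⌋₊ : ℤ), 4 * (p : ℝ) ^ (1 / 6 : ℝ) :=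
      sum_le_sum fun a _ => hcc a
    rw [sum_const, Int.card_Icc, nsmul_eq_mul] at h1
    refine h1.trans ?_
    refine mul_le_mul_of_nonneg_right ?_ (by positivity)
    have h3 : ((⌊Real.log p⌋₊ : ℤ) + 1 - -(⌊Real.log p⌋₊ : ℤ)).toNat = 2 * ⌊Real.log p⌋₊ + 1 := by omega
    rw [h3]
    push_cast
    linarith
  have hdl : dl p ≤ 100 * (p : ℝ) ^ (-(1 / 4) : ℝ) := by
    unfold dl
    have h1 : 1 / √(p : ℝ) = (p : ℝ) ^ (-(1 / 2) : ℝ) := by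
      rw [Real.sqrt_eq_rpow, Real.rpow_neg hp0R.le, one_div]
    have h2 : (p : ℝ) ^ (-(1 / 2) : ℝ) * (25 * (p : ℝ) ^ (1 / 12 : ℝ) * (4 * (p : ℝ) ^ (1 / 6 : ℝ))) =
        100 * (p : ℝ) ^ (-(1 / 4) : ℝ) := by
      have h3 : (p : ℝ) ^ (-(1 / 2) : ℝ) * (p : ℝ) ^ (1 / 12 : ℝ) * (p : ℝ) ^ (1 / 6 : ℝ) =
          (p : ℝ) ^ (-(1 / 4) : ℝ) := by
        rw [← Real.rpow_add hp0R, ← Real.rpow_add hp0R]
        norm_num
      rw [← h3]
      ring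
    rw [h1, ← h2]
    exact mul_le_mul_of_nonneg_left hs (by positivity)
  have h4 : A * dl p ≤ |A| * (100 * (p : ℝ) ^ (-(1 / 4) : ℝ)) :=
    (mul_le_mul_of_nonneg_right (le_abs_self A) (dl_nonneg p)).trans
      (mul_le_mul_of_nonneg_left hdl (abs_nonneg A))
  refine h4.trans ?_
  have h5 : (800 * |A|) ^ 4 ≤ p := (Nat.le_ceil _).trans (by exact_mod_cast hp0)
  have h7 : 800 * |A| ≤ (p : ℝ) ^ (1 / 4 : ℝ) := by
    have h8 : ((800 * |A|) ^ 4) ^ (1 / 4 : ℝ) = 800 * |A| := by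
      rw [← Real.rpow_natCast, ← Real.rpow_mul (by positivity)]
      norm_num
    rw [← h8]
    exact Real.rpow_le_rpow (by positivity) h5 (by norm_num)
  have h9 : 0 < (p : ℝ) ^ (1 / 4 : ℝ) := by positivity
  rw [Real.rpow_neg hp0R.le]
  have h10 : |A| * (100 * ((p : ℝ) ^ (1 / 4 : ℝ))⁻¹) = 100 * |A| / (p : ℝ) ^ (1 / 4 : ℝ) := by
    field_simp
  rw [h10, div_le_iff₀ h9]
  linarith

end Pool.Agent.JC
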