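import Pool.Agent.Lib_MP_f1937f_jc.ConjIff

/-!
# The class of a matrix by inclusion and exclusion
-/

set_option autoImplicit false

namespace Pool.Agent.JC

open Finset Pool.Agent.TB Pool.Agent.JB Pool.Agent.JD

private theorem em_sum (n : ℕ) : ∑ d ∈ n.divisors, (ArithmeticFunction.moebius d : ℝ) = if n = 1 then 1 else 0 := by
  have h := ArithmeticFunction.coe_mul_zeta_apply (R := ℤ) (f := ArithmeticFunction.moebius) (x := n)
  rw [ArithmeticFunction.moebius_mul_coe_zeta, ArithmeticFunction.one_apply] at h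
  have h2 : (((∑ d ∈ n.divisors, ArithmeticFunction.moebius d : ℤ)) : ℝ) = ((if n = 1 then (1 : ℤ) else 0 : ℤ) : ℝ) := by
    rw [h]
  push_cast at h2
  exact h2

private theorem em_lv (s : ℕ) (hs : 0 < s) (F : Mz) (a b c : ℤ) (ha : F 0 1 = s * a) (hb : F 1 0 = s * b) (hc : F 0 0 - F 1 1 = s * c)
    (d : ℕ) : Lv (s * d) F ↔ d ∣ Nat.gcd a.natAbs (Nat.gcd b.natAbs c.natAbs) := by
  have hs' : (s : ℤ) ≠ 0 := by exact_mod_cast hs.ne'
  unfold Lv
  rw [ha, hb, hc]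
  push_cast
  rw [mul_dvd_mul_iff_left hs', mul_dvd_mul_iff_left hs', mul_dvd_mul_iff_left hs', Nat.dvd_gcd_iff, Nat.dvd_gcd_iff,
    Int.natCast_dvd, Int.natCast_dvd, Int.natCast_dvd]

private theorem em_mono (s d : ℕ) (F : Mz) (h : Lv (s * d) F) : Lv s F := by
  have hd : (s : ℤ) ∣ ((s * d : ℕ) : ℤ) := by
    push_cast
    exact dvd_mul_right _ _
  exact ⟨hd.trans h.1, hd.trans h.2.1, hd.trans h.2.2⟩

/-- PIECE [JC-T5] (about 80 lines). PROOF. `conj_iff`; if `Lv s F` and `m s ∣ trace F - t` the `d ∣ n = m / s` with `Lv (s d) F` are the divisors of `v = gcd (n, gcd (F 0 1, F 1 0, F 0 0 - F 1 1) / s)`, and `∑_{d ∣ v} μ(d) = [v = 1]`; `v = 1` iff no prime `l ∣ n` has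
`Lv (s l) F`. Otherwise both sides are `0` (`Lv (s d) F` implies `Lv s F`). -/
theorem event_mob (m s : ℕ) (hm : 0 < m) (hs : s ∣ m) (p : ℤ) (hp : IsCoprime p (m : ℤ)) (g F : Mz) (t : ℤ)
    (hg : (m : ℤ) ∣ g.det - p) (hgl : Lv s g) (hgm : ∀ l : ℕ, l.Prime → s * l ∣ m → ¬ Lv (s * l) g)
    (ht1 : (m : ℤ) ∣ t - g.trace) (ht2 : ((m * s : ℕ) : ℤ) ∣ g 0 0 ^ 2 - t * g 0 0 + p + g 0 1 * g 1 0)
    (hF : ((m * s : ℕ) : ℤ) ∣ F.det - p) :
    (open Classical in (if Cj m (rd m g) (rd m F) then (1 : ℝ) else 0)) =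
      ∑ d ∈ (m / s).divisors, (ArithmeticFunction.moebius d : ℝ) *
        (open Classical in (if Lv (s * d) F ∧ ((m * s : ℕ) : ℤ) ∣ F.trace - t then (1 : ℝ) else 0)) := by
  classical
  rw [if_congr (conj_iff m s hm hs p hp g F t hg hgl hgm ht1 ht2 hF) rfl rfl]
  by_cases hA : Lv s F ∧ ((m * s : ℕ) : ℤ) ∣ F.trace - t
  · obtain ⟨hL, hT⟩ := hA
    obtain ⟨n, rfl⟩ := hs
    have hs0 : 0 < s := Nat.pos_of_mul_pos_right hm
    have hn0 : 0 < n := Nat.pos_of_mul_pos_left hm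
    obtain ⟨⟨a, ha⟩, ⟨b, hb⟩, ⟨c, hc⟩⟩ := hL
    have hlv := em_lv s hs0 F a b c ha hb hc
    set u := Nat.gcd a.natAbs (Nat.gcd b.natAbs c.natAbs) with hu
    have hL : Lv s F := ⟨⟨a, ha⟩, ⟨b, hb⟩, ⟨c, hc⟩⟩
    rw [Nat.mul_div_cancel_left n hs0]
    have e1 : ∀ d ∈ n.divisors, (ArithmeticFunction.moebius d : ℝ) *
        (if Lv (s * d) F ∧ ((s * n * s : ℕ) : ℤ) ∣ F.trace - t then (1 : ℝ) else 0) =
        if d ∣ u then (ArithmeticFunction.moebius d : ℝ) else 0 := by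
      intro d _
      rw [mul_boole]
      exact if_congr (by rw [hlv d]; exact ⟨fun h => h.1, fun h => ⟨h, hT⟩⟩) rfl rfl
    rw [Finset.sum_congr rfl e1, ← Finset.sum_filter]
    have e2 : n.divisors.filter (fun d => d ∣ u) = (Nat.gcd n u).divisors := by
      ext d
      rw [Finset.mem_filter, Nat.mem_divisors, Nat.mem_divisors]
      have : Nat.gcd n u ≠ 0 := (Nat.gcd_pos_of_pos_left u hn0).ne'
      exact ⟨fun h => ⟨Nat.dvd_gcd h.1.1 h.2, this⟩, fun h => ⟨⟨h.1.trans (Nat.gcd_dvd_left n u), hn0.ne'⟩,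
        h.1.trans (Nat.gcd_dvd_right n u)⟩⟩
    rw [e2, em_sum]
    refine if_congr ?_ rfl rfl
    constructor
    · rintro ⟨-, -, h⟩
      by_contra h1
      obtain ⟨l, hl, hlu⟩ := Nat.exists_prime_and_dvd h1
      exact h l hl (Nat.mul_dvd_mul_left s (hlu.trans (Nat.gcd_dvd_left n u))) ((hlv l).2 (hlu.trans (Nat.gcd_dvd_right n u)))
    · intro h
      refine ⟨hL, hT, fun l hl hlm hlF => ?_⟩
      have h1 : l ∣ n := Nat.dvd_of_mul_dvd_mul_left hs0 hlm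
      have h2 : l ∣ Nat.gcd n u := Nat.dvd_gcd h1 ((hlv l).1 hlF)
      rw [h] at h2
      exact hl.one_lt.ne' (Nat.dvd_one.1 h2)
  · rw [if_neg (fun h => hA ⟨h.1, h.2.1⟩)]
    symm
    refine Finset.sum_eq_zero fun d _ => ?_
    rw [if_neg (fun h => hA ⟨em_mono s d F h.1, h.2⟩), mul_zero]

end Pool.Agent.JC
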