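import Pool.Agent.Lib_MP_f1937f_jc.Cws

/-!
# The exact scalar levels
-/

set_option autoImplicit false

namespace Pool.Agent.JC

open Finset Pool.Agent.TB Pool.Agent.JB Pool.Agent.JD

/-- the weights of the levels above `B` vanish -/
private theorem cw_big (B : ℕ) (d : ℤ) (s h : ℕ) (a : ℤ) (hh : 0 < h) (hB : ∀ s' : ℕ, B < s' → ¬ Sc s' d a) (hs : B < s) :
    Cw d s h a = 0 := by
  by_contra h0
  exact hB s hs (Cw_sc d s h a (by omega) hh h0)

/-- the ratio of two consecutive local weights -/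
private noncomputable def rt (s h : ℕ) (d a : ℤ) (l : ℕ) : ℝ :=
  lw l (s.factorization l + 1) (h.factorization l) d a / lw l (s.factorization l) (h.factorization l) d a

private theorem rt_nonneg (s h : ℕ) (d a : ℤ) (l : ℕ) (hl : l.Prime) : 0 ≤ rt s h d a l :=
  div_nonneg (lw_nonneg l _ _ hl d a) (lw_nonneg l _ _ hl d a)

private theorem rt_le_one (s h : ℕ) (d a : ℤ) (l : ℕ) (hl : l.Prime) : rt s h d a l ≤ 1 :=
  div_le_one_of_le₀ (lw_mono l _ _ hl d a) (lw_nonneg l _ _ hl d a)

/-- one more prime -/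
private theorem cw_mul_prime (d : ℤ) (s h n l : ℕ) (a : ℤ) (hs : 0 < s) (hh : 0 < h) (hn : 0 < n) (hl : l.Prime) (hln : ¬ l ∣ n) :
    Cw d (s * n * l) h a = Cw d (s * n) h a * rt s h d a l := by
  have hf : (s * n).factorization l = s.factorization l := by
    rw [Nat.factorization_mul hs.ne' hn.ne', Finsupp.add_apply, Nat.factorization_eq_zero_of_not_dvd hln, add_zero]
  have h1 := Cw_prime d (s * n) h l a (Nat.mul_pos hs hn) hh hl
  rw [hf] at h1
  unfold rt
  by_cases h0 : lw l (s.factorization l) (h.factorization l) d a = 0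
  · have h2 : lw l (s.factorization l + 1) (h.factorization l) d a = 0 :=
      le_antisymm (h0 ▸ lw_mono l _ _ hl d a) (lw_nonneg l _ _ hl d a)
    rw [h0, div_zero, mul_zero]
    unfold Cw
    refine Finset.prod_eq_zero (i := l) ?_ ?_
    · rw [Nat.mem_primeFactors]
      refine ⟨hl, (Dvd.intro_left (s * n) rfl).mul_right h, ?_⟩
      exact (Nat.mul_pos (Nat.mul_pos (Nat.mul_pos hs hn) hl.pos) hh).ne'
    · have h3 : (s * n * l).factorization l = s.factorization l + 1 := by
        rw [Nat.factorization_mul (Nat.mul_pos hs hn).ne' hl.ne_zero, Finsupp.add_apply, hf, hl.factorization_self]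
      rw [h3, h2]
  · rw [mul_div_assoc', eq_div_iff h0]
    exact h1

/-- all squarefree numbers -/
private theorem cw_mul_sqfree (d : ℤ) (s h : ℕ) (a : ℤ) (hs : 0 < s) (hh : 0 < h) : ∀ (N n : ℕ), n ≤ N → Squarefree n →
    Cw d (s * n) h a = Cw d s h a * ∏ l ∈ n.primeFactors, rt s h d a l := by
  intro N
  induction N with
  | zero =>
    intro n hn hq
    obtain rfl : n = 0 := by omega
    exact absurd hq not_squarefree_zero
  | succ N ih =>
    intro n hn hq
    rcases Nat.lt_or_ge 1 n with h1 | h1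
    · have hl : n.minFac.Prime := Nat.minFac_prime (by omega)
      obtain ⟨m, hm⟩ : n.minFac ∣ n := Nat.minFac_dvd n
      set l := n.minFac with hldef
      have hn0 : 0 < n := by omega
      have hm0 : 0 < m := by
        rcases Nat.eq_zero_or_pos m with h | h
        · rw [h, mul_zero] at hm
          omega
        · exact h
      have hlm : ¬ l ∣ m := by
        rintro ⟨k, hk⟩
        have h2 : l * l ∣ n := ⟨k, by rw [hm, hk, mul_assoc]⟩
        have h3 := hq l h2
        rw [Nat.isUnit_iff] at h3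
        exact hl.one_lt.ne' h3
      have hmN : m ≤ N := by
        have h4 : 2 * m ≤ l * m := Nat.mul_le_mul_right m hl.two_le
        omega
      have hmq : Squarefree m := hq.squarefree_of_dvd (Dvd.intro_left l hm.symm)
      have h5 := ih m hmN hmq
      have h6 : n.primeFactors = insert l m.primeFactors := by
        rw [hm, Nat.primeFactors_mul hl.ne_zero hm0.ne', hl.primeFactors]
        rfl
      have h7 : l ∉ m.primeFactors := fun h => hlm (Nat.dvd_of_mem_primeFactors h)
      rw [h6, Finset.prod_insert h7]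
      have h8 := cw_mul_prime d s h m l a hs hh hm0 hl hlm
      have h9 : s * n = s * m * l := by
        rw [hm]
        ring
      rw [h9, h8, h5]
      ring
    · have h0 : n ≠ 0 := by
        rintro rfl
        exact not_squarefree_zero hq
      obtain rfl : n = 1 := by omega
      simp

/-- the product formula -/
private theorem ex_prod (B : ℕ) (d : ℤ) (s h : ℕ) (a : ℤ) (hs : 0 < s) (hh : 0 < h) (hB : ∀ s' : ℕ, B < s' → ¬ Sc s' d a) :
    ex B d s h a = Cw d s h a * ∏ l ∈ (primorial B).primeFactors, (1 - rt s h d a l) := by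
  have hq : Squarefree (primorial B) := squarefree_primorial B
  have h0 : (primorial B) ≠ 0 := primorial_ne_zero B
  -- the multiplicative function
  have h1 := (ArithmeticFunction.IsMultiplicative.prodPrimeFactors (rt s h d a)).prodPrimeFactors_one_sub_of_squarefree _ hq
  have h2 : ∏ l ∈ (primorial B).primeFactors, (1 - rt s h d a l) =
      ∑ n ∈ (primorial B).divisors, ((ArithmeticFunction.moebius n : ℤ) : ℝ) * ∏ l ∈ n.primeFactors, rt s h d a l := by
    have e1 : ∏ l ∈ (primorial B).primeFactors, (1 - rt s h d a l) =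
        ∏ l ∈ (primorial B).primeFactors, (1 - (ArithmeticFunction.prodPrimeFactors (rt s h d a)) l) := by
      refine Finset.prod_congr rfl fun l hl => ?_
      have hlp := Nat.prime_of_mem_primeFactors hl
      rw [ArithmeticFunction.prodPrimeFactors_apply hlp.ne_zero, hlp.primeFactors, Finset.prod_singleton]
    rw [e1, h1]
    refine Finset.sum_congr rfl fun n hn => ?_
    rw [ArithmeticFunction.prodPrimeFactors_apply (Nat.pos_of_mem_divisors hn).ne']
  rw [h2, Finset.mul_sum]
  have h3 : ∀ n ∈ (primorial B).divisors, Cw d s h a * (((ArithmeticFunction.moebius n : ℤ) : ℝ) * ∏ l ∈ n.primeFactors, rt s h d a l) =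
      ((ArithmeticFunction.moebius n : ℤ) : ℝ) * Cw d (s * n) h a := by
    intro n hn
    have hnq : Squarefree n := hq.squarefree_of_dvd (Nat.dvd_of_mem_divisors hn)
    rw [cw_mul_sqfree d s h a hs hh n n le_rfl hnq]
    ring
  rw [Finset.sum_congr rfl h3]
  unfold ex
  -- compare the two index sets
  have h4 : ∑ n ∈ Icc 1 B, ((ArithmeticFunction.moebius n : ℤ) : ℝ) * Cw d (s * n) h a =
      ∑ n ∈ (Icc 1 B).filter (· ∈ (primorial B).divisors), ((ArithmeticFunction.moebius n : ℤ) : ℝ) * Cw d (s * n) h a := by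
    refine (Finset.sum_filter_of_ne fun n hn hne => ?_).symm
    have hm : ArithmeticFunction.moebius n ≠ 0 := by
      intro h
      rw [h] at hne
      simp at hne
    have hnq : Squarefree n := ArithmeticFunction.moebius_ne_zero_iff_squarefree.1 hm
    rw [Nat.mem_divisors]
    exact ⟨hnq.dvd_primorial.trans (primorial_dvd_primorial (Finset.mem_Icc.1 hn).2), h0⟩
  have h5 : ∑ n ∈ (primorial B).divisors, ((ArithmeticFunction.moebius n : ℤ) : ℝ) * Cw d (s * n) h a =
      ∑ n ∈ (primorial B).divisors.filter (· ∈ Icc 1 B), ((ArithmeticFunction.moebius n : ℤ) : ℝ) * Cw d (s * n) h a := by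
    refine (Finset.sum_filter_of_ne fun n hn hne => ?_).symm
    rw [Finset.mem_Icc]
    have hn1 : 1 ≤ n := Nat.pos_of_mem_divisors hn
    refine ⟨hn1, ?_⟩
    by_contra hlt
    apply hne
    rw [cw_big B d (s * n) h a hh hB (lt_of_lt_of_le (not_le.1 hlt) (Nat.le_mul_of_pos_left n hs)), mul_zero]
  rw [h4, h5]
  refine Finset.sum_congr ?_ fun _ _ => rfl
  ext n
  simp only [Finset.mem_filter]
  exact and_comm

/-- PIECE [JC-L6] (about 120 lines). PROOF. Let `r l = lw l (v_l(s)+1) (v_l(h)) / lw l (v_l(s)) (v_l(h)) ∈ [0, 1]` (`0` if the denominator is `0`). For squarefree `n` : `Cw d (s n) h a = Cw d s h a ∏_{l ∣ n} r l` (induction on the primes of `n`,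
`Cw_prime`; if a denominator is `0` both sides are `0`, `lw_mono`). `Cw d (s n) h a = 0` for `n > B` (`hB`). So `ex B d s h a = Cw d s h a ∏_{l ≤ B} (1 - r l) ≥ 0`, the product over the primes `l ≤ B` (expand; the squarefree
`n` with prime factors `≤ B` and `n > B` contribute `0`). -/
theorem ex_nonneg (B : ℕ) (d : ℤ) (s h : ℕ) (a : ℤ) (hs : 0 < s) (hh : 0 < h) (hB : ∀ s' : ℕ, B < s' → ¬ Sc s' d a) :
    0 ≤ ex B d s h a := by
  rw [ex_prod B d s h a hs hh hB]
  refine mul_nonneg (Cw_nonneg d s h a) (Finset.prod_nonneg fun l hl => ?_)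
  have := rt_le_one s h d a l (Nat.prime_of_mem_primeFactors hl)
  linarith

/-- the sum of the Moebius function -/
private theorem sum_moeb (n : ℕ) (hn : n ≠ 0) :
    ∑ i ∈ n.divisors, ((ArithmeticFunction.moebius (n / i) : ℤ) : ℝ) = if n = 1 then 1 else 0 := by
  have h1 : ∑ i ∈ n.divisors, ((ArithmeticFunction.moebius (n / i) : ℤ) : ℝ) =
      ∑ i ∈ n.divisors, ((ArithmeticFunction.moebius i : ℤ) : ℝ) :=
    Nat.sum_div_divisors n (fun i => ((ArithmeticFunction.moebius i : ℤ) : ℝ))
  rw [h1]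
  have h2 := congrArg (fun f : ArithmeticFunction ℤ => f n) ArithmeticFunction.moebius_mul_coe_zeta
  simp only [ArithmeticFunction.coe_mul_zeta_apply, ArithmeticFunction.one_apply] at h2
  have h3 := congrArg (fun z : ℤ => (z : ℝ)) h2
  push_cast at h3
  rw [h3]

/-- PROOF. Möbius inversion: `∑_{e ≥ 1} ex (s e) = ∑_e ∑_n μ(n) Cw (s e n) = ∑_N Cw (s N) ∑_{n ∣ N} μ(n) = Cw s`; all terms with `s e n > B` are `0`. -/
theorem ex_sum (B : ℕ) (d : ℤ) (s h : ℕ) (a : ℤ) (hs : 0 < s) (hh : 0 < h) (hB : ∀ s' : ℕ, B < s' → ¬ Sc s' d a) :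
    ∑ s' ∈ (Icc 1 B).filter (s ∣ ·), ex B d s' h a = Cw d s h a := by
  classical
  -- rewrite one term
  have h1 : ∀ s' ∈ (Icc 1 B).filter (s ∣ ·), ex B d s' h a =
      ∑ M ∈ Icc 1 B, if s' ∣ M then ((ArithmeticFunction.moebius (M / s') : ℤ) : ℝ) * Cw d M h a else 0 := by
    intro s' hs'
    have hs0 : 0 < s' := (Finset.mem_Icc.1 (Finset.mem_filter.1 hs').1).1
    rw [← Finset.sum_filter]
    unfold ex
    have e1 : ∑ n ∈ Icc 1 B, ((ArithmeticFunction.moebius n : ℤ) : ℝ) * Cw d (s' * n) h a =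
        ∑ n ∈ (Icc 1 B).filter (fun n => s' * n ≤ B), ((ArithmeticFunction.moebius n : ℤ) : ℝ) * Cw d (s' * n) h a := by
      refine (Finset.sum_filter_of_ne fun n _ hne => ?_).symm
      by_contra hlt
      apply hne
      rw [cw_big B d (s' * n) h a hh hB (not_le.1 hlt), mul_zero]
    rw [e1]
    refine Finset.sum_bij' (fun n _ => s' * n) (fun M _ => M / s') ?_ ?_ ?_ ?_ ?_
    · intro n hn
      rw [Finset.mem_filter, Finset.mem_Icc] at hn ⊢
      exact ⟨⟨Nat.mul_pos hs0 hn.1.1, hn.2⟩, Dvd.intro n rfl⟩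
    · intro M hM
      rw [Finset.mem_filter, Finset.mem_Icc] at hM ⊢
      have h2 : s' * (M / s') = M := Nat.mul_div_cancel' hM.2
      refine ⟨⟨Nat.div_pos (Nat.le_of_dvd hM.1.1 hM.2) hs0, (Nat.div_le_self M s').trans hM.1.2⟩, ?_⟩
      rw [h2]
      exact hM.1.2
    · intro n _
      exact Nat.mul_div_cancel_left n hs0
    · intro M hM
      exact Nat.mul_div_cancel' (Finset.mem_filter.1 hM).2
    · intro n _
      simp only [Nat.mul_div_cancel_left n hs0]
  rw [Finset.sum_congr rfl h1, Finset.sum_comm]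
  -- the inner sums
  have h2 : ∀ M ∈ Icc 1 B, (∑ s' ∈ (Icc 1 B).filter (s ∣ ·), if s' ∣ M then ((ArithmeticFunction.moebius (M / s') : ℤ) : ℝ) * Cw d M h a else 0) =
      if M = s then Cw d M h a else 0 := by
    intro M hM
    rw [Finset.mem_Icc] at hM
    rw [← Finset.sum_filter, ← Finset.sum_mul]
    by_cases hsM : s ∣ M
    · obtain ⟨m, rfl⟩ := hsM
      have hm0 : m ≠ 0 := by
        rintro rfl
        omega
      have e2 : ∑ s' ∈ ((Icc 1 B).filter (s ∣ ·)).filter (· ∣ s * m), ((ArithmeticFunction.moebius (s * m / s') : ℤ) : ℝ) =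
          ∑ i ∈ m.divisors, ((ArithmeticFunction.moebius (m / i) : ℤ) : ℝ) := by
        refine Finset.sum_bij' (fun s' _ => s' / s) (fun i _ => s * i) ?_ ?_ ?_ ?_ ?_
        · intro s' hs'
          simp only [Finset.mem_filter, Finset.mem_Icc] at hs'
          obtain ⟨⟨_, k, rfl⟩, h3⟩ := hs'
          rw [Nat.mem_divisors, Nat.mul_div_cancel_left k hs]
          exact ⟨Nat.dvd_of_mul_dvd_mul_left hs h3, hm0⟩
        · intro i hi
          rw [Nat.mem_divisors] at hi
          simp only [Finset.mem_filter, Finset.mem_Icc]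
          have h4 : s * i ∣ s * m := Nat.mul_dvd_mul_left s hi.1
          have h5 : 0 < i := Nat.pos_of_dvd_of_pos hi.1 (Nat.pos_of_ne_zero hm0)
          exact ⟨⟨⟨Nat.mul_pos hs h5, (Nat.le_of_dvd (by omega) h4).trans hM.2⟩, Dvd.intro i rfl⟩, h4⟩
        · intro s' hs'
          simp only [Finset.mem_filter, Finset.mem_Icc] at hs'
          exact Nat.mul_div_cancel' hs'.1.2
        · intro i _
          exact Nat.mul_div_cancel_left i hs
        · intro s' hs'
          simp only [Finset.mem_filter, Finset.mem_Icc] at hs'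
          obtain ⟨⟨_, k, rfl⟩, _⟩ := hs'
          rw [Nat.mul_div_mul_left _ _ hs, Nat.mul_div_cancel_left k hs]
      rw [e2, sum_moeb m hm0]
      by_cases hm1 : m = 1
      · subst hm1
        simp
      · rw [if_neg hm1, zero_mul, if_neg]
        intro h6
        exact hm1 (Nat.eq_of_mul_eq_mul_left hs (h6.trans (mul_one s).symm))
    · have e3 : ((Icc 1 B).filter (s ∣ ·)).filter (· ∣ M) = ∅ := by
        refine Finset.eq_empty_of_forall_notMem fun s' hs' => ?_
        simp only [Finset.mem_filter] at hs'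
        exact hsM (hs'.1.2.trans hs'.2)
      rw [e3, Finset.sum_empty, zero_mul, if_neg]
      rintro rfl
      exact hsM dvd_rfl
  rw [Finset.sum_congr rfl h2, Finset.sum_ite_eq' (Icc 1 B) s (fun M => Cw d M h a)]
  by_cases hsB : s ≤ B
  · rw [if_pos (Finset.mem_Icc.2 ⟨hs, hsB⟩)]
  · rw [if_neg (fun h7 => hsB (Finset.mem_Icc.1 h7).2), cw_big B d s h a hh hB (not_le.1 hsB)]

theorem ex_sc (B : ℕ) (d : ℤ) (s h : ℕ) (a : ℤ) (hs : 0 < s) (hh : 0 < h) (h0 : ex B d s h a ≠ 0) : Sc s d a := by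
  by_contra hn
  apply h0
  unfold ex
  refine Finset.sum_eq_zero fun n hn' => ?_
  have hn1 : 0 < n := (Finset.mem_Icc.1 hn').1
  have h1 : Cw d (s * n) h a = 0 := by
    by_contra h2
    exact hn (sc_dvd (s * n) s d a (Dvd.intro n rfl) (Cw_sc d (s * n) h a (Nat.mul_pos hs hn1) hh h2))
  rw [h1, mul_zero]

/-- PROOF. As in `ex_nonneg` `ex B d s 1 a = Cw d s 1 a ∏_{l ≤ B} (1 - r l)`; `r l ≤ 2 / 3` (`lw_ratio`), and `r l ≠ 0` only if there is a centre of level `l`, so `l² ∣ a² - 4 d` : at most `ω` primes, `ω` the number of the prime factors of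
`n = |a² - 4 d| ≠ 0`; `3 ^ ω ≤ 4 ^ ω ≤ τ(n)²`. `Cw_ge`. -/
theorem ex_low (B : ℕ) (d : ℤ) (s : ℕ) (a : ℤ) (hs : 0 < s) (hB : ∀ s' : ℕ, B < s' → ¬ Sc s' d a) (h : Sc s d a) (h0 : a ^ 2 - 4 * d ≠ 0) :
    1 / ((s : ℝ) * ((a ^ 2 - 4 * d).natAbs.divisors.card : ℝ) ^ 2) ≤ ex B d s 1 a := by
  rw [ex_prod B d s 1 a hs one_pos hB]
  set n := (a ^ 2 - 4 * d).natAbs with hn
  have hn0 : n ≠ 0 := by
    rw [hn]
    exact Int.natAbs_ne_zero.2 h0
  -- the ratios
  have hr : ∀ l : ℕ, l.Prime → rt s 1 d a l ≤ 2 / 3 := by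
    intro l hl
    unfold rt
    have e0 : (1 : ℕ).factorization l = 0 := by simp
    rw [e0]
    rcases (lw_nonneg l (s.factorization l) 0 hl d a).eq_or_lt with h1 | h1
    · rw [← h1, div_zero]
      norm_num
    · rw [div_le_iff₀ h1]
      exact lw_ratio l _ hl d a
  have hz : ∀ l : ℕ, l.Prime → ¬ l ∣ n → rt s 1 d a l = 0 := by
    intro l hl hln
    unfold rt
    have h1 : ¬ Sc (l ^ (s.factorization l + 1)) d a := by
      intro h2
      have h3 : Sc l d a := sc_dvd _ l d a (dvd_pow_self l (Nat.succ_ne_zero _)) h2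
      have h4 := sc_disc l d a h3
      apply hln
      have h5 : (l : ℤ) ∣ a ^ 2 - 4 * d := (dvd_pow_self (l : ℤ) two_ne_zero).trans h4
      rw [hn]
      exact Int.natCast_dvd.1 h5
    rw [lw_sc l _ _ hl d a h1, zero_div]
  -- the product
  have hp : (1 / 3 : ℝ) ^ n.primeFactors.card ≤ ∏ l ∈ (primorial B).primeFactors, (1 - rt s 1 d a l) := by
    have e1 : ∏ l ∈ (primorial B).primeFactors, (1 - rt s 1 d a l) =
        ∏ l ∈ (primorial B).primeFactors.filter (· ∣ n), (1 - rt s 1 d a l) := by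
      refine (Finset.prod_filter_of_ne fun l hl hne => ?_).symm
      by_contra hln
      apply hne
      rw [hz l (Nat.prime_of_mem_primeFactors hl) hln, sub_zero]
    rw [e1]
    have e2 : (1 / 3 : ℝ) ^ ((primorial B).primeFactors.filter (· ∣ n)).card ≤
        ∏ l ∈ (primorial B).primeFactors.filter (· ∣ n), (1 - rt s 1 d a l) := by
      rw [← Finset.prod_const]
      refine Finset.prod_le_prod (fun _ _ => by norm_num) fun l hl => ?_
      have := hr l (Nat.prime_of_mem_primeFactors (Finset.mem_filter.1 hl).1)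
      linarith
    refine le_trans ?_ e2
    refine pow_le_pow_of_le_one (by norm_num) (by norm_num) (Finset.card_le_card fun l hl => ?_)
    rw [Finset.mem_filter] at hl
    exact Nat.mem_primeFactors.2 ⟨Nat.prime_of_mem_primeFactors hl.1, hl.2, hn0⟩
  -- the number of the divisors
  have ht : (2 : ℝ) ^ n.primeFactors.card ≤ (n.divisors.card : ℝ) := by
    have h1 : 2 ^ n.primeFactors.card ≤ n.divisors.card := by
      rw [Nat.card_divisors hn0, ← Finset.prod_const]
      refine Finset.prod_le_prod' fun l hl => ?_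
      have h2 : 0 < n.factorization l :=
        (Nat.prime_of_mem_primeFactors hl).factorization_pos_of_dvd hn0 (Nat.dvd_of_mem_primeFactors hl)
      omega
    exact_mod_cast h1
  have ht0 : (0 : ℝ) < (n.divisors.card : ℝ) := lt_of_lt_of_le (by positivity) ht
  have hs0 : (0 : ℝ) < s := by exact_mod_cast hs
  have h3 : 1 / ((n.divisors.card : ℝ) ^ 2) ≤ (1 / 3 : ℝ) ^ n.primeFactors.card := by
    rw [one_div_pow, one_div_le_one_div (by positivity) (by positivity)]
    calc (3 : ℝ) ^ n.primeFactors.card ≤ 4 ^ n.primeFactors.card := pow_le_pow_left₀ (by norm_num) (by norm_num) _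
      _ = (2 ^ n.primeFactors.card) ^ 2 := by
        rw [← pow_mul, mul_comm, pow_mul]
        norm_num
      _ ≤ (n.divisors.card : ℝ) ^ 2 := pow_le_pow_left₀ (by positivity) ht 2
  calc 1 / ((s : ℝ) * (n.divisors.card : ℝ) ^ 2) = 1 / (s : ℝ) * (1 / (n.divisors.card : ℝ) ^ 2) := by
        rw [one_div_mul_one_div]
    _ ≤ Cw d s 1 a * ∏ l ∈ (primorial B).primeFactors, (1 - rt s 1 d a l) :=
        mul_le_mul (Cw_ge d s a hs h) (h3.trans hp) (by positivity) (Cw_nonneg d s 1 a)

end Pool.Agent.JC
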