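import Pool.Agent.Lib_MP_f1937f_jc.EventM
import Pool.Agent.Lib_MP_f1937f_jc.OneCl
import Pool.Agent.Lib_MP_f1937f_jc.CntDet
import Pool.Agent.Lib_MP_f1937f_jd.Fib3

/-!
# The densities of the classes
-/

set_option autoImplicit false

namespace Pool.Agent.JC

open Finset Pool.Agent.TB Pool.Agent.JB Pool.Agent.JD

/-- the density of the scalar level `s d` in the class of the trace `t` modulo `m s` -/
noncomputable def Td (p : ℤ) (m s : ℕ) (t : ℤ) (d : ℕ) : ℝ :=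
  open Classical in
  if h : ∃ t' : ℤ, ((m * s : ℕ) : ℤ) ∣ t' - t ∧ Sc (s * d) p t' then
    Dn ((s * d) ^ 2) (Cw p (s * d)) (m / s / Nat.gcd (m / s) (d ^ 2)) (Classical.choose h) else 0

private theorem haar_fib (N M : ℕ) (h : N ∣ M) (hM : 0 < M) (hpr : ∀ l : ℕ, l.Prime → l ∣ M → l ∣ N) (p : ℤ)
    (hp : IsUnit (p : ZMod M)) (P : GL (Fin 2) (ZMod N) → Prop) :
    Nat.card {A : GL (Fin 2) (ZMod M) // A.val.det = (p : ZMod M) ∧
        P (Matrix.GeneralLinearGroup.map (ZMod.castHom h (ZMod N)) A)} =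
      (M / N) ^ 3 * Nat.card {B : GL (Fin 2) (ZMod N) // B.val.det = (p : ZMod N) ∧ P B} := by
  classical
  have hN : 0 < N := Nat.pos_of_dvd_of_pos h hM
  have : NeZero N := ⟨hN.ne'⟩
  have : NeZero M := ⟨hM.ne'⟩
  set φ := ZMod.castHom h (ZMod N) with hφ
  have hdet : ∀ A : GL (Fin 2) (ZMod M), (Matrix.GeneralLinearGroup.map φ A).val.det = φ A.val.det := by
    intro A
    have h1 : (Matrix.GeneralLinearGroup.map φ A).val = A.val.map φ := rfl
    rw [h1, Matrix.det_fin_two, Matrix.det_fin_two, map_sub, map_mul, map_mul]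
    rfl
  let e : {A : GL (Fin 2) (ZMod M) // A.val.det = (p : ZMod M) ∧ P (Matrix.GeneralLinearGroup.map φ A)} ≃
      Σ B : {B : GL (Fin 2) (ZMod N) // B.val.det = (p : ZMod N) ∧ P B},
        {A : GL (Fin 2) (ZMod M) // Matrix.GeneralLinearGroup.map φ A = B.1 ∧ A.val.det = (p : ZMod M)} :=
    { toFun := fun A => ⟨⟨Matrix.GeneralLinearGroup.map φ A.1, by rw [hdet, A.2.1, map_intCast], A.2.2⟩,
        ⟨A.1, rfl, A.2.1⟩⟩
      invFun := fun x => ⟨x.2.1, x.2.2.2, by rw [x.2.2.1]; exact x.1.2.2⟩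
      left_inv := fun A => rfl
      right_inv := by
        rintro ⟨⟨B, hB⟩, A⟩
        change {A : GL (Fin 2) (ZMod M) // Matrix.GeneralLinearGroup.map φ A = B ∧ A.val.det = (p : ZMod M)} at A
        obtain ⟨A, hA, hA'⟩ := A
        subst hA
        rfl }
  rw [Nat.card_congr e, Nat.card_sigma]
  have h2 : ∀ B : {B : GL (Fin 2) (ZMod N) // B.val.det = (p : ZMod N) ∧ P B},
      Nat.card {A : GL (Fin 2) (ZMod M) // Matrix.GeneralLinearGroup.map φ A = B.1 ∧ A.val.det = (p : ZMod M)} =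
        (M / N) ^ 3 := by
    intro B
    apply fib3 N M h hM hpr B.1 (p : ZMod M) hp
    rw [map_intCast, B.2.1]
  rw [Finset.sum_congr rfl fun B _ => h2 B, Finset.sum_const, Finset.card_univ, smul_eq_mul, mul_comm, Nat.card_eq_fintype_card]

/-- a matrix of determinant `p` scalar modulo `S` has a centre -/
private theorem haar_sc (S : ℕ) (p : ℤ) (F : Mz) (hF : (S : ℤ) ^ 2 ∣ F.det - p) (hl : Lv S F) : Sc S p F.trace := by
  obtain ⟨⟨a, ha⟩, ⟨b, hb⟩, hc⟩ := hl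
  refine ⟨F 0 0, ?_, ?_⟩
  · rw [Matrix.trace_fin_two]
    have h1 : 2 * F 0 0 - (F 0 0 + F 1 1) = F 0 0 - F 1 1 := by ring
    rw [h1]
    exact hc
  · rw [Matrix.trace_fin_two]
    rw [Matrix.det_fin_two] at hF
    have h1 : F 0 0 ^ 2 - (F 0 0 + F 1 1) * F 0 0 + p = -(F 0 0 * F 1 1 - F 0 1 * F 1 0 - p) - (S : ℤ) ^ 2 * (a * b) := by
      rw [ha, hb]
      ring
    rw [h1]
    exact dvd_sub ((dvd_neg).mpr hF) (dvd_mul_right _ _)

/-- PIECE [JC-N4] (`haar_d`, about 150 lines). PROOF. Put `n = m / s`, `q = n / gcd (n, d²)`, `N = (s d)² q = lcm (m s, (s d)²)`, a divisor of `m²` (`s d ∣ m`) with the same prime factors (`m ∣ N`). If `A` modulo `m²` is scalar modulo `s d` (centre `lam`) its trace `t'` (any integer lift) has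
`Sc (s d) p t'` : `det (A - lam) = 0` modulo `(s d)²`. So if there is no `t'` as in `Td` both sides are `0`. Otherwise by `one_class` the traces of the counted `A` are `t'` modulo `N`, and the counted set is the set of the lifts with determinant `p` of the matrices modulo `N` counted in `dn_eq`; every matrix modulo `N` of
determinant `p` has `(m² / N)³` lifts modulo `m²` of determinant `p` (`fib3`), for both cardinals. -/
theorem haar_d (m s : ℕ) (hm : 0 < m) (hs : s ∣ m) (p t : ℤ) (hp : IsCoprime p (m : ℤ)) (d : ℕ) (hd : d ∣ m / s) (hsq : Squarefree d)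
    (h1 : s * d ∣ m ^ 2) (h2 : m * s ∣ m ^ 2) :
    (Nat.card {A : GL (Fin 2) (ZMod (m ^ 2)) // A.val.det = (p : ZMod (m ^ 2)) ∧ ScM (m ^ 2) (s * d) h1 A.val ∧
        ZMod.castHom h2 (ZMod (m * s)) A.val.trace = (t : ZMod (m * s))} : ℝ) =
      Td p m s t d * (Nat.card {A : GL (Fin 2) (ZMod (m ^ 2)) // A.val.det = (p : ZMod (m ^ 2))} : ℝ) := by
  have hs0 : 0 < s := Nat.pos_of_dvd_of_pos hs hm
  obtain ⟨n, hn⟩ := hs
  have hmn : m / s = n := by rw [hn, Nat.mul_div_cancel_left n hs0]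
  rw [hmn] at hd
  have hn0 : 0 < n := Nat.pos_of_ne_zero fun h => by rw [h, mul_zero] at hn; omega
  have hd0 : 0 < d := Nat.pos_of_dvd_of_pos hd hn0
  set g := Nat.gcd n (d ^ 2) with hg
  have hg0 : 0 < g := Nat.gcd_pos_of_pos_left _ hn0
  set q := n / g with hq
  have hnq : n = g * q := (Nat.mul_div_cancel' (Nat.gcd_dvd_left n (d ^ 2))).symm
  have hq0 : 0 < q := Nat.div_pos (Nat.le_of_dvd hn0 (Nat.gcd_dvd_left _ _)) hg0
  set N := (s * d) ^ 2 * q with hN
  have hN0 : 0 < N := Nat.mul_pos (pow_pos (Nat.mul_pos hs0 hd0) 2) hq0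
  have hlcm : Nat.lcm (m * s) ((s * d) ^ 2) = N := by
    have h3 : m * s = s ^ 2 * n := by rw [hn]; ring
    have h4 : (s * d) ^ 2 = s ^ 2 * d ^ 2 := mul_pow _ _ _
    rw [h3, h4, Nat.lcm_mul_left]
    have h5 : g * Nat.lcm n (d ^ 2) = g * (d ^ 2 * q) := by
      rw [hg, Nat.gcd_mul_lcm, ← hg]
      calc n * d ^ 2 = (g * q) * d ^ 2 := by rw [← hnq]
        _ = g * (d ^ 2 * q) := by ring
    rw [Nat.eq_of_mul_eq_mul_left hg0 h5, hN]
    ring
  have hsdm : s * d ∣ m := by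
    rw [hn]
    exact Nat.mul_dvd_mul_left s hd
  have hNm : N ∣ m ^ 2 := by
    rw [← hlcm]
    exact Nat.lcm_dvd h2 (pow_dvd_pow_of_dvd hsdm 2)
  have hmsN : m * s ∣ N := by
    rw [← hlcm]
    exact Nat.dvd_lcm_left _ _
  have hsdN : s * d ∣ N := by
    rw [hN]
    exact sdvd (s * d) q
  have hm2 : 0 < m ^ 2 := pow_pos hm 2
  have hpr : ∀ l : ℕ, l.Prime → l ∣ m ^ 2 → l ∣ N := fun l hl h3 =>
    ((hl.dvd_of_dvd_pow h3).mul_right s).trans hmsN
  have hcm2 : IsCoprime p ((m ^ 2 : ℕ) : ℤ) := by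
    rw [Nat.cast_pow]
    exact hp.pow_right
  have hpu : IsUnit (p : ZMod (m ^ 2)) := by
    rw [ZMod.coe_int_isUnit_iff_isCoprime]
    exact hcm2.symm
  have hcN : IsCoprime p ((N : ℕ) : ℤ) := hcm2.of_isCoprime_of_dvd_right (Int.natCast_dvd_natCast.mpr hNm)
  -- the conditions for an integer lift
  have hcond : ∀ (A : GL (Fin 2) (ZMod (m ^ 2))), A.val.det = (p : ZMod (m ^ 2)) → ∃ F : Mz, rd (m ^ 2) F = A.val ∧
      ((m ^ 2 : ℕ) : ℤ) ∣ F.det - p ∧ (ScM (m ^ 2) (s * d) h1 A.val ↔ Lv (s * d) F) ∧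
      (ZMod.castHom h2 (ZMod (m * s)) A.val.trace = (t : ZMod (m * s)) ↔ ((m * s : ℕ) : ℤ) ∣ t - F.trace) := by
    intro A hA
    obtain ⟨F, hF⟩ := rd_surj (m ^ 2) A.val
    refine ⟨F, hF, ?_, ?_, ?_⟩
    · rw [← hF, rd_det, eq_comm, ZMod.intCast_eq_intCast_iff_dvd_sub] at hA
      exact hA
    · rw [← hF]
      exact rd_scm _ _ _ F
    · rw [← hF, rd_trace, map_intCast, ZMod.intCast_eq_intCast_iff_dvd_sub]
  have hScF : ∀ F : Mz, ((m ^ 2 : ℕ) : ℤ) ∣ F.det - p → Lv (s * d) F → Sc (s * d) p F.trace := by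
    intro F hF hl
    apply haar_sc (s * d) p F _ hl
    have h3 : ((s * d : ℕ) : ℤ) ^ 2 ∣ ((m ^ 2 : ℕ) : ℤ) := by
      rw [Nat.cast_pow]
      exact pow_dvd_pow_of_dvd (Int.natCast_dvd_natCast.mpr hsdm) 2
    exact h3.trans hF
  unfold Td
  rw [hmn]
  split_ifs with h
  · -- the class of the traces
    have hspec := Classical.choose_spec h
    set t' := Classical.choose h with ht'
    obtain ⟨ht1, ht2⟩ := hspec
    have hms : ((m * s : ℕ) : ℤ) = ((s ^ 2 * n : ℕ) : ℤ) := by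
      rw [hn]
      push_cast
      ring
    have hpsn : IsCoprime p ((s * n : ℕ) : ℤ) := by rw [← hn]; exact hp
    have hNdvd : ∀ a : ℤ, ((m * s : ℕ) : ℤ) ∣ a → ((s * d : ℕ) : ℤ) ^ 2 ∣ a → ((N : ℕ) : ℤ) ∣ a := by
      intro a ha hb
      rw [← Nat.cast_pow] at hb
      rw [Int.natCast_dvd] at ha hb ⊢
      rw [← hlcm]
      exact Nat.lcm_dvd ha hb
    have hdn := dn_eq (s * d) q N (Nat.mul_pos hs0 hd0) hq0 hN hsdN p t' hcN
    have hcnt := cnt_det N hN0 p hcN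
    have hf1 := haar_fib N (m ^ 2) hNm hm2 hpr p hpu (fun B => ScM N (s * d) hsdN B.val ∧ B.val.trace = (t' : ZMod N))
    have hf2 := haar_fib N (m ^ 2) hNm hm2 hpr p hpu (fun _ => True)
    have hL : Nat.card {A : GL (Fin 2) (ZMod (m ^ 2)) // A.val.det = (p : ZMod (m ^ 2)) ∧ ScM (m ^ 2) (s * d) h1 A.val ∧
        ZMod.castHom h2 (ZMod (m * s)) A.val.trace = (t : ZMod (m * s))} =
        Nat.card {A : GL (Fin 2) (ZMod (m ^ 2)) // A.val.det = (p : ZMod (m ^ 2)) ∧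
          (ScM N (s * d) hsdN (Matrix.GeneralLinearGroup.map (ZMod.castHom hNm (ZMod N)) A).val ∧
            (Matrix.GeneralLinearGroup.map (ZMod.castHom hNm (ZMod N)) A).val.trace = (t' : ZMod N))} := by
      refine Nat.card_congr (Equiv.subtypeEquivRight fun A => and_congr_right fun hA => ?_)
      obtain ⟨F, hF, hFd, hF1, hF2⟩ := hcond A hA
      rw [hF1, hF2]
      have h3 : (Matrix.GeneralLinearGroup.map (ZMod.castHom hNm (ZMod N)) A).val = rd N F := by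
        have h4 : (Matrix.GeneralLinearGroup.map (ZMod.castHom hNm (ZMod N)) A).val = A.val.map (ZMod.castHom hNm (ZMod N)) := rfl
        rw [h4, ← hF, rd_map]
      rw [h3, rd_scm, rd_trace, ZMod.intCast_eq_intCast_iff_dvd_sub]
      refine and_congr_right fun hl => ⟨fun h5 => ?_, fun h5 => ?_⟩
      · have h6 : ((m * s : ℕ) : ℤ) ∣ t' - F.trace := by
          have h7 := dvd_add ht1 h5
          rwa [sub_add_sub_cancel] at h7
        refine hNdvd _ h6 ?_
        exact one_class s n d p t' F.trace hs0 hn0 hd hsq hpsn ht2 (hScF F hFd hl) (hms ▸ h6)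
      · have h6 : ((m * s : ℕ) : ℤ) ∣ t' - F.trace := (Int.natCast_dvd_natCast.mpr hmsN).trans h5
        have h7 := dvd_sub h6 ht1
        have h8 : t' - F.trace - (t' - t) = t - F.trace := by ring
        rwa [h8] at h7
    have hR : Nat.card {A : GL (Fin 2) (ZMod (m ^ 2)) // A.val.det = (p : ZMod (m ^ 2))} =
        (m ^ 2 / N) ^ 3 * Nat.card {B : GL (Fin 2) (ZMod N) // B.val.det = (p : ZMod N)} := by
      simp only [and_true] at hf2
      exact hf2
    have hne : (Nat.card {B : GL (Fin 2) (ZMod N) // B.val.det = (p : ZMod N)} : ℝ) ≠ 0 := by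
      intro h3
      rw [h3, mul_zero] at hcnt
      have h4 : (0 : ℝ) < (N : ℝ) ^ 3 := pow_pos (Nat.cast_pos.mpr hN0) 3
      exact h4.ne hcnt
    rw [hL, hf1, hR, hdn]
    push_cast
    field_simp
  · -- no trace
    rw [zero_mul, Nat.cast_eq_zero]
    have : IsEmpty {A : GL (Fin 2) (ZMod (m ^ 2)) // A.val.det = (p : ZMod (m ^ 2)) ∧ ScM (m ^ 2) (s * d) h1 A.val ∧
        ZMod.castHom h2 (ZMod (m * s)) A.val.trace = (t : ZMod (m * s))} := by
      refine ⟨?_⟩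
      rintro ⟨A, hA, hA1, hA2⟩
      obtain ⟨F, hF, hFd, hF1, hF2⟩ := hcond A hA
      rw [hF1] at hA1
      rw [hF2] at hA2
      refine h ⟨F.trace, ?_, hScF F hFd hA1⟩
      rw [← neg_sub]
      exact (dvd_neg).mpr hA2
    exact Nat.card_of_isEmpty

end Pool.Agent.JC
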