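import Pool.Agent.Lib_MP_f1937f_jc.BaseB
import Pool.Agent.Lib_MP_f1937f_jc.Exs
import Pool.Agent.Lib_MP_f1937f_jb.Wts

/-!
# The base law
-/

set_option autoImplicit false

namespace Pool.Agent.JC

open Finset Pool.Agent.TB Pool.Agent.JB Pool.Agent.JD

/-- the choice of `H` -/
private theorem lb_H (H₀ p : ℕ) (hp : (3 * H₀ + 6) ^ 6 ≤ p) : H₀ ≤ HH p ∧ 2 ≤ HH p ∧
    ((3 * HH p : ℕ) : ℝ) ^ 3 ≤ √(p : ℝ) ∧ 3 * HH p < p ∧ √(p : ℝ) ≤ 216 * (HH p : ℝ) ^ 3 := by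
  obtain ⟨r, hr⟩ : ∃ r : ℝ, r = (p : ℝ) ^ (1 / 6 : ℝ) := ⟨_, rfl⟩
  have hp0 : (0 : ℝ) ≤ (p : ℝ) := Nat.cast_nonneg p
  have hr0 : 0 ≤ r := hr ▸ Real.rpow_nonneg hp0 _
  have hr6 : r ^ 6 = p := by
    rw [hr, ← Real.rpow_natCast, ← Real.rpow_mul hp0]
    norm_num
  have hr3 : r ^ 3 = √(p : ℝ) := by
    rw [hr, ← Real.rpow_natCast, ← Real.rpow_mul hp0, Real.sqrt_eq_rpow]
    norm_num
  have hrge : (3 * (H₀ : ℝ) + 6) ≤ r := by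
    have h1 : (3 * (H₀ : ℝ) + 6) ^ 6 ≤ r ^ 6 := by
      rw [hr6]
      exact_mod_cast hp
    exact le_of_pow_le_pow_left₀ (by norm_num) hr0 h1
  have hH0r : (0 : ℝ) ≤ (H₀ : ℝ) := Nat.cast_nonneg _
  have hf1 : ((⌊r⌋₊ : ℕ) : ℝ) ≤ r := Nat.floor_le hr0
  have hf2 : r < (⌊r⌋₊ : ℕ) + 1 := Nat.lt_floor_add_one r
  have hf3 : 3 * H₀ + 6 ≤ ⌊r⌋₊ := Nat.le_floor (by push_cast; exact hrge)
  have hHH : HH p = ⌊r⌋₊ / 3 := by rw [hr]; rfl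
  rw [hHH]
  refine ⟨by omega, by omega, ?_, ?_, ?_⟩
  · have h1 : 3 * (⌊r⌋₊ / 3) ≤ ⌊r⌋₊ := Nat.mul_div_le _ _
    have h2 : ((3 * (⌊r⌋₊ / 3) : ℕ) : ℝ) ≤ r := le_trans (by exact_mod_cast h1) hf1
    rw [← hr3]
    exact pow_le_pow_left₀ (Nat.cast_nonneg _) h2 3
  · have h1 : 3 * (⌊r⌋₊ / 3) ≤ ⌊r⌋₊ := Nat.mul_div_le _ _
    have h2 : ((3 * (⌊r⌋₊ / 3) : ℕ) : ℝ) ≤ r := le_trans (by exact_mod_cast h1) hf1
    have h3 : r < r ^ 6 := by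
      have hr6' : 6 ≤ r := by linarith
      calc r < r * 2 := by linarith
        _ ≤ r * r ^ 5 := by
          have : (6 : ℝ) ^ 5 ≤ r ^ 5 := pow_le_pow_left₀ (by norm_num) hr6' 5
          have h5 : (2 : ℝ) ≤ r ^ 5 := by linarith
          exact mul_le_mul_of_nonneg_left h5 hr0
        _ = r ^ 6 := by ring
    rw [hr6] at h3
    exact_mod_cast h2.trans_lt h3
  · rw [← hr3]
    have h1 : ⌊r⌋₊ ≤ 3 * (⌊r⌋₊ / 3) + 2 := by omega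
    have h2 : ((⌊r⌋₊ : ℕ) : ℝ) ≤ 3 * ((⌊r⌋₊ / 3 : ℕ) : ℝ) + 2 := by exact_mod_cast h1
    have h3 : r ≤ 6 * ((⌊r⌋₊ / 3 : ℕ) : ℝ) := by
      have : 6 ≤ r := by linarith
      linarith
    calc r ^ 3 ≤ (6 * ((⌊r⌋₊ / 3 : ℕ) : ℝ)) ^ 3 := pow_le_pow_left₀ hr0 h3 3
      _ = 216 * ((⌊r⌋₊ / 3 : ℕ) : ℝ) ^ 3 := by ring

private theorem lb_sq (p : ℕ) (a : ℤ) (h : |(a : ℝ)| ≤ √(p : ℝ) / 2) : 4 * a ^ 2 ≤ p := by
  have h1 : (a : ℝ) ^ 2 ≤ (√(p : ℝ) / 2) ^ 2 := by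
    rw [← sq_abs]
    exact pow_le_pow_left₀ (abs_nonneg _) h 2
  rw [div_pow, Real.sq_sqrt (Nat.cast_nonneg p)] at h1
  have h2 : 4 * (a : ℝ) ^ 2 ≤ p := by linarith
  exact_mod_cast h2

private theorem lb_mem (p : ℕ) (a : ℤ) (h : |(a : ℝ)| ≤ √(p : ℝ) / 2) : a ∈ V p := by
  have h1 := lb_sq p a h
  have h2 : a.natAbs ≤ Nat.sqrt (4 * p) := by
    rw [Nat.le_sqrt']
    have h3 : ((a.natAbs ^ 2 : ℕ) : ℤ) ≤ ((4 * p : ℕ) : ℤ) := by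
      push_cast
      rw [sq_abs]
      nlinarith
    exact_mod_cast h3
  unfold V
  rw [mem_Icc]
  omega

/-- PIECE [JC-A3] (about 250 lines). PROOF. `wt_exists 1` (constants `Cw₀`, `c₀`, `H₀`), `H = HH p` (for large `p` : `H ≥ max 1 H₀`, `(3 H)³ ≤ √p ≤ 1000 H³`, `3 H < p`; see the private lemma `bj_H` in `Lib_MP_f1937f_jd/BaseF.lean`).
`ω a s = if a ∈ V p ∧ s ∈ Icc 1 (2 p) then (∑ h ∈ Icc 1 (3 H), w h * ex (2 p) p s h a) * sw p a else 0`. `sc_le` : there is no centre of level `> 2 p` for `a ∈ V p`, so `ex_nonneg`, `ex_sum`, `ex_sc`, `ex_low` (with `B = 2 p`, `a² - 4 p ≠ 0`; only the term `h = 1` for the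
lower bound, `w 1 ≥ c₀ / log H ≥ c₀ / log p`, `sw p a ≥ (3 / 10) / √p` for `|a| ≤ √p / 2` as in `EmptyF.lean`, `BaseF.lean`). The sum over `s`: `ex_sum` with `s = 1`, `Cw_one_eq`, `w h ≤ Cw₀ / H` (`h ≠ 1`), `sw ≤ 1 / √p` (constants). The last
claim: `∑ s' ∈ (Icc 1 (2 p)).filter (s ∣ ·), ω a s' = (∑ h, w h * Cw p s h a) sw p a` (`ex_sum`), `base_B` for `fam_s`, `K = s ^ 2`, `B = 2 / s` (`Cw_le`), `√K = s`. -/
theorem law_base : ∃ (E c : ℝ) (p₀ : ℕ), 0 ≤ E ∧ 0 < c ∧ 5 ≤ p₀ ∧ ∀ p : ℕ, p.Prime → p₀ ≤ p → ∃ ω : ℤ → ℕ → ℝ,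
    (∀ a s, 0 ≤ ω a s) ∧ (∀ a s, ω a s ≠ 0 → a ∈ V p ∧ s ∈ Icc 1 (2 * p) ∧ Sc s p a) ∧
    (∀ (a : ℤ) (s : ℕ), Sc s p a → |(a : ℝ)| ≤ √(p : ℝ) / 2 →
      c / Real.log p / √(p : ℝ) / ((s : ℝ) * ((a ^ 2 - 4 * p).natAbs.divisors.card : ℝ) ^ 2) ≤ ω a s) ∧
    (∀ a, ∑ s ∈ Icc 1 (2 * p), ω a s ≤ E / √(p : ℝ) * (1 + 1 / (HH p : ℝ) * ∑ h ∈ Icc 1 (3 * HH p), CC p a h)) ∧
    ∀ s q : ℕ, 0 < s → p.Coprime s → 0 < q → q ≤ p → p.Coprime q → ∀ (t : ℤ) (k : ℕ),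
      |∑ a ∈ (V p).filter (fun a => ((s ^ 2 * q : ℕ) : ℤ) ∣ a - t), (∑ s' ∈ (Icc 1 (2 * p)).filter (s ∣ ·), ω a s') * Uk k (xx p a) -
          (if k = 0 then Dn (s ^ 2) (Cw p s) q t else 0)| ≤
        E * (q : ℝ) ^ 2 * (k + 1) * (Real.log p / √(p : ℝ)) := by
  classical
  obtain ⟨Cw₀, c₀, hCw, hc, H₀, hH₀, hw⟩ := wt_exists 1 one_pos
  obtain ⟨E1, hE1, hbase⟩ := base_B Cw₀ c₀ hCw.le
  refine ⟨2 * E1 + Cw₀, c₀ * (3 / 10), (3 * H₀ + 6) ^ 6, by positivity, by positivity, ?_, ?_⟩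
  · calc 5 ≤ 6 := by norm_num
      _ ≤ 3 * H₀ + 6 := by omega
      _ ≤ (3 * H₀ + 6) ^ 6 := Nat.le_self_pow (by norm_num) _
  intro p hpp hp
  obtain ⟨hHH, hH2, hH3, hHp, hHs⟩ := lb_H H₀ p hp
  obtain ⟨w, hW⟩ := hw (HH p) hHH
  obtain ⟨H, hHdef⟩ : ∃ H : ℕ, H = HH p := ⟨_, rfl⟩
  rw [← hHdef] at hHH hH2 hH3 hHp hHs hW ⊢
  have hp2 : 2 ≤ p := hpp.two_le
  have hpr : (2 : ℝ) ≤ p := by exact_mod_cast hp2
  have hs0 : 0 < √(p : ℝ) := Real.sqrt_pos.2 (by linarith)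
  have hHr : (2 : ℝ) ≤ H := by exact_mod_cast hH2
  have hlogH : 0 < Real.log H := Real.log_pos (by linarith)
  have hlogHp : Real.log H ≤ Real.log p :=
    Real.log_le_log (by linarith) (by exact_mod_cast (by omega : H ≤ p))
  have hlogp : 0 < Real.log p := lt_of_lt_of_le hlogH hlogHp
  have hcop : ∀ h ∈ Icc 1 (3 * H), p.Coprime h := by
    intro h hh
    rw [mem_Icc] at hh
    exact (Nat.Prime.coprime_iff_not_dvd hpp).2 fun hd => by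
      have := Nat.le_of_dvd (by omega) hd
      omega
  have hB : ∀ a ∈ V p, ∀ s' : ℕ, 2 * p < s' → ¬ Sc s' p a := by
    intro a ha s' hs' h
    have h1 := (sc_le s' p hpp a ha h).2
    nlinarith
  have hswb : ∀ a, 0 ≤ sw p a ∧ sw p a ≤ 1 / √(p : ℝ) ∧ (|(a : ℝ)| ≤ √(p : ℝ) / 2 → 3 / 10 / √(p : ℝ) ≤ sw p a) :=
    fun a => sw_bounds p (by omega) a
  obtain ⟨ω, hω⟩ : ∃ ω : ℤ → ℕ → ℝ, ω = fun a s => if a ∈ V p ∧ s ∈ Icc 1 (2 * p) then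
      (∑ h ∈ Icc 1 (3 * H), w h * ex (2 * p) p s h a) * sw p a else 0 := ⟨_, rfl⟩
  have hω1 : ∀ a s, a ∈ V p → s ∈ Icc 1 (2 * p) → ω a s = (∑ h ∈ Icc 1 (3 * H), w h * ex (2 * p) p s h a) * sw p a := by
    intro a s ha hs
    rw [hω]
    exact if_pos ⟨ha, hs⟩
  have hω2 : ∀ a s, ¬ (a ∈ V p ∧ s ∈ Icc 1 (2 * p)) → ω a s = 0 := by
    intro a s ha
    rw [hω]
    exact if_neg ha
  have hterm : ∀ a ∈ V p, ∀ s : ℕ, 0 < s → ∀ h ∈ Icc 1 (3 * H), 0 ≤ w h * ex (2 * p) p s h a := by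
    intro a ha s hs h hh
    exact mul_nonneg (hW.nonneg h) (ex_nonneg _ _ _ _ _ hs (by have := mem_Icc.1 hh; omega) (hB a ha))
  have hsum : ∀ a ∈ V p, ∀ s : ℕ, 0 < s → ∑ s' ∈ (Icc 1 (2 * p)).filter (s ∣ ·), ω a s' =
      (∑ h ∈ Icc 1 (3 * H), w h * Cw p s h a) * sw p a := by
    intro a ha s hs
    have h1 : ∀ s' ∈ (Icc 1 (2 * p)).filter (s ∣ ·), ω a s' = (∑ h ∈ Icc 1 (3 * H), w h * ex (2 * p) p s' h a) * sw p a :=
      fun s' hs' => hω1 a s' ha (mem_filter.1 hs').1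
    rw [sum_congr rfl h1, ← sum_mul, sum_comm]
    congr 1
    refine sum_congr rfl fun h hh => ?_
    rw [← mul_sum, ex_sum (2 * p) p s h a hs (by have := mem_Icc.1 hh; omega) (hB a ha)]
  refine ⟨ω, ?_, ?_, ?_, ?_, ?_⟩
  · intro a s
    by_cases h : a ∈ V p ∧ s ∈ Icc 1 (2 * p)
    · rw [hω1 a s h.1 h.2]
      refine mul_nonneg (sum_nonneg (hterm a h.1 s ?_)) (hswb a).1
      have := mem_Icc.1 h.2
      omega
    · rw [hω2 a s h]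
  · intro a s h0
    by_cases h : a ∈ V p ∧ s ∈ Icc 1 (2 * p)
    · rw [hω1 a s h.1 h.2] at h0
      obtain ⟨h', hh', hne⟩ := exists_ne_zero_of_sum_ne_zero (left_ne_zero_of_mul h0)
      refine ⟨h.1, h.2, ex_sc (2 * p) p s h' a ?_ ?_ (right_ne_zero_of_mul hne)⟩
      · have := mem_Icc.1 h.2
        omega
      · have := mem_Icc.1 hh'
        omega
    · exact absurd (hω2 a s h) h0
  · intro a s hsc hab
    have haV := lb_mem p a hab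
    obtain ⟨hs1, hs2⟩ := sc_le s p hpp a haV hsc
    have hs3 : s ∈ Icc 1 (2 * p) := by
      rw [mem_Icc]
      refine ⟨hs1, ?_⟩
      by_contra hcon
      rw [not_le] at hcon
      nlinarith
    have hne : a ^ 2 - 4 * (p : ℤ) ≠ 0 := by
      have h1 := lb_sq p a hab
      have h2 : (2 : ℤ) ≤ p := by exact_mod_cast hp2
      nlinarith
    have hlow := ex_low (2 * p) p s a hs1 (hB a haV) hsc hne
    obtain ⟨X, hX⟩ : ∃ X : ℝ, X = (s : ℝ) * ((a ^ 2 - 4 * (p : ℤ)).natAbs.divisors.card : ℝ) ^ 2 := ⟨_, rfl⟩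
    rw [← hX] at hlow ⊢
    have hX0 : 0 ≤ X := by rw [hX]; positivity
    rw [hω1 a s haV hs3]
    have h1 : w 1 * ex (2 * p) p s 1 a ≤ ∑ h ∈ Icc 1 (3 * H), w h * ex (2 * p) p s h a :=
      single_le_sum (f := fun h => w h * ex (2 * p) p s h a) (hterm a haV s hs1) (mem_Icc.2 ⟨le_rfl, by omega⟩)
    have h2 : c₀ / Real.log p ≤ w 1 :=
      le_trans (div_le_div_of_nonneg_left hc.le hlogH hlogHp) hW.one_ge
    have h3 : c₀ / Real.log p * (1 / X) ≤ w 1 * ex (2 * p) p s 1 a :=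
      mul_le_mul h2 hlow (by positivity) (hW.nonneg 1)
    calc c₀ * (3 / 10) / Real.log p / √(p : ℝ) / X = c₀ / Real.log p * (1 / X) * (3 / 10 / √(p : ℝ)) := by ring
      _ ≤ _ := mul_le_mul (h3.trans h1) ((hswb a).2.2 hab) (by positivity)
        ((by positivity : (0 : ℝ) ≤ c₀ / Real.log p * (1 / X)).trans (h3.trans h1))
  · intro a
    have hCC : 0 ≤ 1 / (H : ℝ) * ∑ h ∈ Icc 1 (3 * H), CC p a h :=
      mul_nonneg (by positivity) (sum_nonneg fun h _ => CC_nonneg _ _ _)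
    by_cases haV : a ∈ V p
    · have h1 := hsum a haV 1 one_pos
      have h2 : (Icc 1 (2 * p)).filter (1 ∣ ·) = Icc 1 (2 * p) := filter_true_of_mem fun h _ => one_dvd h
      rw [h2] at h1
      rw [h1]
      have h3 : ∑ h ∈ Icc 1 (3 * H), w h * Cw p 1 h a ≤ Cw₀ * (1 + 1 / (H : ℝ) * ∑ h ∈ Icc 1 (3 * H), CC p a h) := by
        have h4 : ∀ h ∈ Icc 1 (3 * H), w h * Cw p 1 h a ≤ (if h = 1 then Cw₀ else 0) + Cw₀ / H * CC p a h := by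
          intro h hh
          rw [Cw_one_eq p a h (by have := mem_Icc.1 hh; omega)]
          by_cases h5 : h = 1
          · rw [if_pos h5, h5]
            have h6 : CC p a 1 = 1 := by
              unfold CC
              rw [Nat.primeFactors_one, prod_empty]
            rw [h6, mul_one]
            have h7 : 0 ≤ Cw₀ / H * 1 := by positivity
            linarith [hW.one_le]
          · rw [if_neg h5, zero_add]
            exact mul_le_mul_of_nonneg_right (hW.le h h5) (CC_nonneg _ _ _)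
        refine (sum_le_sum h4).trans ?_
        rw [sum_add_distrib, sum_ite_eq', ← mul_sum, if_pos (mem_Icc.2 ⟨le_rfl, by omega⟩)]
        apply le_of_eq
        ring
      obtain ⟨R, hR⟩ : ∃ R : ℝ, R = 1 + 1 / (H : ℝ) * ∑ h ∈ Icc 1 (3 * H), CC p a h := ⟨_, rfl⟩
      rw [← hR] at h3 ⊢
      have hR0 : 0 ≤ R := by rw [hR]; linarith
      calc (∑ h ∈ Icc 1 (3 * H), w h * Cw p 1 h a) * sw p a ≤ (Cw₀ * R) * (1 / √(p : ℝ)) :=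
            mul_le_mul h3 (hswb a).2.1 (hswb a).1 (by positivity)
        _ = Cw₀ / √(p : ℝ) * R := by ring
        _ ≤ (2 * E1 + Cw₀) / √(p : ℝ) * R := by
            have : Cw₀ ≤ 2 * E1 + Cw₀ := by linarith
            gcongr
    · rw [sum_eq_zero fun s _ => hω2 a s fun h => haV h.1]
      have : 0 ≤ 1 + 1 / (H : ℝ) * ∑ h ∈ Icc 1 (3 * H), CC p a h := by linarith
      positivity
  · intro s q hs hps hq hqp hpq t k
    have hsr : (0 : ℝ) < s := by exact_mod_cast hs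
    have h1 := hbase (s ^ 2) H p w (2 / s) (Cw p s 1) (Cw p s) (fam_s p s hs hps) (fun t => Cw_le p s t hs) (by positivity)
      (by omega) hW hp2 hcop hH3 (hHs.trans (by
        have : (0 : ℝ) ≤ (H : ℝ) ^ 3 := by positivity
        linarith)) q hq hqp hpq t k
    have h2 : ∑ a ∈ (V p).filter (fun a => ((s ^ 2 * q : ℕ) : ℤ) ∣ a - t), (∑ s' ∈ (Icc 1 (2 * p)).filter (s ∣ ·), ω a s') * Uk k (xx p a) =
        ∑ a ∈ (V p).filter (fun a => ((s ^ 2 * q : ℕ) : ℤ) ∣ a - t),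
          (∑ h ∈ Icc 1 (3 * H), w h * Cw p s h a) * sw p a * Uk k (xx p a) :=
      sum_congr rfl fun a ha => by rw [hsum a (mem_filter.1 ha).1 s hs]
    rw [h2]
    refine h1.trans ?_
    have h3 : √((s ^ 2 : ℕ) : ℝ) = s := by
      rw [Nat.cast_pow, Real.sqrt_sq hsr.le]
    rw [h3]
    have h4 : E1 * (2 / (s : ℝ)) * s = 2 * E1 := by
      field_simp
    rw [h4]
    have h5 : 0 ≤ Real.log p / √(p : ℝ) := by positivity
    have h6 : 2 * E1 ≤ 2 * E1 + Cw₀ := by linarith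
    gcongr

end Pool.Agent.JC
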