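import Pool.Agent.Lib_MP_f1937f_jc.Lifts
import Pool.Agent.Lib_MP_f1937f_jc.Mats

/-!
# Orbits
-/

set_option autoImplicit false

namespace Pool.Agent.JC

open Finset Pool.Agent.TB Pool.Agent.JB Pool.Agent.JD

/-- double counting in a finite group -/
private theorem orbE_abs {Γ ι : Type} [Group Γ] [Finite Γ] (H : Subgroup Γ) (R : Finset ι) (φ : ι → Γ) (c : ℕ) (hc : 0 < c)
    (hφ : ∀ γ : Γ, Nat.card {σ // σ ∈ R ∧ φ σ * γ⁻¹ ∈ H} = c) (g a : Γ) (ha : ∃ γ, γ * g = a * γ) :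
    Nat.card {σ : ι // σ ∈ R ∧ ∃ h ∈ H, h * g = (φ σ * a * (φ σ)⁻¹) * h} * Nat.card {x : Γ // ∃ γ, γ * g = x * γ} =
      R.card * Nat.card {x : Γ // ∃ h ∈ H, h * g = x * h} := by
  classical
  haveI := Fintype.ofFinite Γ
  obtain ⟨γ₀, hγ₀⟩ := ha
  have hga : g = γ₀⁻¹ * a * γ₀ := by
    rw [mul_assoc, ← hγ₀, inv_mul_cancel_left]
  let XG : Finset Γ := univ.filter (fun x => ∃ h ∈ H, h * g = x * h)
  let X : Finset Γ := univ.filter (fun x => ∃ γ, γ * g = x * γ)
  let F : Finset Γ := univ.filter (fun γ => γ * a * γ⁻¹ ∈ XG)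
  let Z : Finset Γ := univ.filter (fun z => z * a = a * z)
  let RF : Finset ι := R.filter (fun σ => φ σ * a * (φ σ)⁻¹ ∈ XG)
  let HF : Finset Γ := univ.filter (fun x => x ∈ H)
  have hXGm : ∀ x, x ∈ XG ↔ ∃ h ∈ H, h * g = x * h := fun x => by
    simp only [XG, mem_filter, mem_univ, true_and]
  have hXm : ∀ x, x ∈ X ↔ ∃ γ, γ * g = x * γ := fun x => by
    simp only [X, mem_filter, mem_univ, true_and]
  have hFm : ∀ x, x ∈ F ↔ x * a * x⁻¹ ∈ XG := fun x => by
    simp only [F, mem_filter, mem_univ, true_and]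
  have hZm : ∀ x, x ∈ Z ↔ x * a = a * x := fun x => by
    simp only [Z, mem_filter, mem_univ, true_and]
  have hHm : ∀ x, x ∈ HF ↔ x ∈ H := fun x => by
    simp only [HF, mem_filter, mem_univ, true_and]
  -- the fibres
  have hfib : ∀ x : Γ, (∃ γ, γ * g = x * γ) → (univ.filter (fun γ : Γ => γ * a * γ⁻¹ = x)).card = Z.card := by
    intro x hx
    obtain ⟨γ, hγ⟩ := hx
    have hx2 : x = (γ * γ₀⁻¹) * a * (γ * γ₀⁻¹)⁻¹ := by
      have h1 : x = γ * g * γ⁻¹ := by rw [hγ, mul_inv_cancel_right]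
      rw [h1, hga]
      group
    symm
    refine Finset.card_bij (fun z _ => (γ * γ₀⁻¹) * z) ?_ ?_ ?_
    · intro z hz
      rw [hZm] at hz
      simp only [mem_filter, mem_univ, true_and]
      rw [hx2, mul_inv_rev]
      have h2 : γ * γ₀⁻¹ * z * a * (z⁻¹ * (γ * γ₀⁻¹)⁻¹) = γ * γ₀⁻¹ * (z * a) * z⁻¹ * (γ * γ₀⁻¹)⁻¹ := by group
      rw [h2, hz]
      group
    · intro z _ z' _ h
      exact mul_left_cancel h
    · intro y hy
      simp only [mem_filter, mem_univ, true_and] at hy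
      refine ⟨(γ * γ₀⁻¹)⁻¹ * y, ?_, ?_⟩
      · rw [hZm]
        have h3 : y * a = x * y := by rw [← hy, inv_mul_cancel_right]
        have h4 : x * (γ * γ₀⁻¹) = (γ * γ₀⁻¹) * a := by
          conv_lhs => rw [hx2]
          rw [inv_mul_cancel_right]
        have h5 : (γ * γ₀⁻¹)⁻¹ * x = a * (γ * γ₀⁻¹)⁻¹ := by
          rw [inv_mul_eq_iff_eq_mul, ← mul_assoc, ← h4, mul_inv_cancel_right]
        rw [mul_assoc, h3, ← mul_assoc, h5, mul_assoc]
      · rw [mul_inv_cancel_left]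
  have hXGX : ∀ x, (∃ h ∈ H, h * g = x * h) → ∃ γ, γ * g = x * γ := fun x ⟨h, _, h2⟩ => ⟨h, h2⟩
  have hF : F.card = XG.card * Z.card := by
    rw [Finset.card_eq_sum_card_fiberwise (f := fun γ => γ * a * γ⁻¹) (t := XG)
      (fun γ hγ => (hFm γ).mp hγ)]
    apply Finset.sum_const_nat
    intro x hx
    rw [← hfib x (hXGX x ((hXGm x).mp hx))]
    apply congrArg
    ext γ
    simp only [mem_filter, mem_univ, true_and]
    constructor
    · exact fun h => h.2
    · intro h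
      refine ⟨?_, h⟩
      rw [hFm, h]
      exact hx
  have hΓ : (univ : Finset Γ).card = X.card * Z.card := by
    rw [Finset.card_eq_sum_card_fiberwise (f := fun γ => γ * a * γ⁻¹) (t := X)
      (fun γ _ => by
        rw [Finset.mem_coe, hXm]
        refine ⟨γ * γ₀, ?_⟩
        show γ * γ₀ * g = γ * a * γ⁻¹ * (γ * γ₀)
        rw [hga]
        group)]
    apply Finset.sum_const_nat
    intro x hx
    exact hfib x ((hXm x).mp hx)
  -- `f` is invariant
  have hinv : ∀ γ γ' : Γ, γ' * γ⁻¹ ∈ H → γ' * a * γ'⁻¹ ∈ XG → γ * a * γ⁻¹ ∈ XG := by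
    intro γ γ' hh hx
    rw [hXGm] at hx ⊢
    obtain ⟨k, hk, hk2⟩ := hx
    refine ⟨(γ' * γ⁻¹)⁻¹ * k, H.mul_mem (H.inv_mem hh) hk, ?_⟩
    rw [mul_assoc, hk2]
    group
  have hHc : ∀ σ : ι, (univ.filter (fun γ : Γ => φ σ * γ⁻¹ ∈ H)).card = HF.card := by
    intro σ
    refine Finset.card_bij (fun γ _ => φ σ * γ⁻¹) ?_ ?_ ?_
    · intro γ hγ
      simp only [mem_filter, mem_univ, true_and] at hγ
      exact (hHm _).mpr hγ
    · intro γ _ γ' _ h
      exact inv_injective (mul_left_cancel h)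
    · intro x hx
      refine ⟨x⁻¹ * φ σ, ?_, ?_⟩
      · simp only [mem_filter, mem_univ, true_and]
        rw [mul_inv_rev, inv_inv, mul_inv_cancel_left]
        exact (hHm _).mp hx
      · rw [mul_inv_rev, inv_inv, mul_inv_cancel_left]
  have hcc : ∀ γ : Γ, (R.filter (fun σ => φ σ * γ⁻¹ ∈ H)).card = c := by
    intro γ
    rw [← hφ γ]
    symm
    rw [Nat.card_congr (Equiv.subtypeEquivRight (q := fun σ => σ ∈ R.filter (fun σ => φ σ * γ⁻¹ ∈ H))
      (fun σ => by rw [mem_filter]))]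
    exact Nat.card_eq_fintype_card.trans (Fintype.card_coe _)
  have hd1 : RF.card * HF.card = F.card * c := by
    have h1 := Finset.sum_card_bipartiteAbove_eq_sum_card_bipartiteBelow (s := RF) (t := F)
      (fun σ γ => φ σ * γ⁻¹ ∈ H)
    have h2 : ∑ σ ∈ RF, (F.bipartiteAbove (fun σ γ => φ σ * γ⁻¹ ∈ H) σ).card = RF.card * HF.card := by
      apply Finset.sum_const_nat
      intro σ hσ
      rw [← hHc σ]
      apply congrArg
      ext γ
      rw [Finset.mem_bipartiteAbove]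
      simp only [mem_filter, mem_univ, true_and]
      constructor
      · exact fun h => h.2
      · intro h
        refine ⟨?_, h⟩
        rw [hFm]
        exact hinv γ (φ σ) h (mem_filter.mp hσ).2
    have h3 : ∑ γ ∈ F, (RF.bipartiteBelow (fun σ γ => φ σ * γ⁻¹ ∈ H) γ).card = F.card * c := by
      apply Finset.sum_const_nat
      intro γ hγ
      rw [← hcc γ]
      apply congrArg
      ext σ
      rw [Finset.mem_bipartiteBelow]
      simp only [mem_filter]
      constructor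
      · exact fun h => ⟨(mem_filter.mp h.1).1, h.2⟩
      · intro h
        refine ⟨mem_filter.mpr ⟨h.1, ?_⟩, h.2⟩
        apply hinv (φ σ) γ
        · have h4 := H.inv_mem h.2
          rw [mul_inv_rev, inv_inv] at h4
          exact h4
        · exact (hFm γ).mp hγ
    rw [← h2, h1, h3]
  have hd2 : R.card * HF.card = (univ : Finset Γ).card * c := by
    have h1 := Finset.sum_card_bipartiteAbove_eq_sum_card_bipartiteBelow (s := R) (t := (univ : Finset Γ))
      (fun σ γ => φ σ * γ⁻¹ ∈ H)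
    have h2 : ∑ σ ∈ R, ((univ : Finset Γ).bipartiteAbove (fun σ γ => φ σ * γ⁻¹ ∈ H) σ).card = R.card * HF.card := by
      apply Finset.sum_const_nat
      intro σ _
      exact hHc σ
    have h3 : ∑ γ ∈ (univ : Finset Γ), (R.bipartiteBelow (fun σ γ => φ σ * γ⁻¹ ∈ H) γ).card =
        (univ : Finset Γ).card * c := by
      apply Finset.sum_const_nat
      intro γ _
      exact hcc γ
    rw [← h2, h1, h3]
  have hH0 : 0 < HF.card := Finset.card_pos.mpr ⟨1, (hHm 1).mpr H.one_mem⟩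
  have hZ0 : 0 < Z.card := Finset.card_pos.mpr ⟨1, (hZm 1).mpr (by rw [one_mul, mul_one])⟩
  have e1 : Nat.card {σ : ι // σ ∈ R ∧ ∃ h ∈ H, h * g = (φ σ * a * (φ σ)⁻¹) * h} = RF.card := by
    rw [Nat.card_congr (Equiv.subtypeEquivRight (q := fun σ => σ ∈ RF) (fun σ => by
      rw [mem_filter, hXGm]))]
    exact Nat.card_eq_fintype_card.trans (Fintype.card_coe _)
  have e2 : Nat.card {x : Γ // ∃ γ, γ * g = x * γ} = X.card := by
    rw [Nat.card_congr (Equiv.subtypeEquivRight (q := fun x => x ∈ X) (fun x => by rw [hXm]))]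
    exact Nat.card_eq_fintype_card.trans (Fintype.card_coe _)
  have e3 : Nat.card {x : Γ // ∃ h ∈ H, h * g = x * h} = XG.card := by
    rw [Nat.card_congr (Equiv.subtypeEquivRight (q := fun x => x ∈ XG) (fun x => by rw [hXGm]))]
    exact Nat.card_eq_fintype_card.trans (Fintype.card_coe _)
  rw [e1, e2, e3]
  apply Nat.eq_of_mul_eq_mul_right (Nat.mul_pos hH0 hZ0)
  calc RF.card * X.card * (HF.card * Z.card) = (RF.card * HF.card) * (X.card * Z.card) := by ring
    _ = (F.card * c) * (X.card * Z.card) := by rw [hd1]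
    _ = (XG.card * Z.card * c) * (X.card * Z.card) := by rw [hF]
    _ = (XG.card * Z.card) * ((X.card * Z.card) * c) := by ring
    _ = (XG.card * Z.card) * (R.card * HF.card) := by rw [hd2, hΓ]
    _ = R.card * XG.card * (HF.card * Z.card) := by ring

/-- PIECE [JC-G1] (about 250 lines). PROOF. `R` = one `σ ∈ SL₂(ℤ)` over every element of `SL₂(ℤ/M)` (`sl_surj`; `SL₂(ℤ/M)` is finite). Let `A` be conjugate to `g` modulo `m`, `X` the class of `g` in `Γ = GL₂(ℤ/m)`, `X_G` the set of the `g'` with `CjG g g'`. `f γ = [γ A γ⁻¹ ∈ X_G]` for `γ ∈ Γ` satisfies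
`f (h γ) = f γ` if `h` reduces into `G`. (1) `∑_{γ ∈ Γ} f γ = |X_G| |Z|`, `|Γ| = |X| |Z|`, `Z` the centralizer of `A` (fibres of `γ ↦ γ A γ⁻¹`, onto `X`). (2) For every unit `u` modulo `m` there is `h_u ∈ Γ` of determinant `u` which reduces into `G` (`hG`; lift an element of `G` of determinant `u` modulo `M`, `gl_surj`, and multiply by `diag (v, 1)`,
`v = 1` modulo `M`), so the average of `f` over `Γ` is its average over `SL₂(ℤ/m)`. (3) `f` on `SL₂(ℤ/m)` depends only on the class modulo the kernel of `SL₂(ℤ/m) → SL₂(ℤ/M)` (`f (h γ) = f γ`, `h = 1` modulo `M`), which is onto (`sl_surj`), so the average is the average over `R`. -/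
theorem orb_exists (M : ℕ) (hM : 0 < M) (G : Subgroup (GL (Fin 2) (ZMod M)))
    (hG : ∀ d : (ZMod M)ˣ, ∃ g ∈ G, g.val.det = (d : ZMod M)) :
    ∃ R : Finset (Matrix.SpecialLinearGroup (Fin 2) ℤ), Orb M G R := by
  classical
  haveI : NeZero M := ⟨hM.ne'⟩
  haveI : Finite (Matrix (Fin 2) (Fin 2) (ZMod M)) := inferInstanceAs (Finite (Fin 2 → Fin 2 → ZMod M))
  haveI : Finite (Matrix.SpecialLinearGroup (Fin 2) (ZMod M)) := Subtype.finite
  haveI := Fintype.ofFinite (Matrix.SpecialLinearGroup (Fin 2) (ZMod M))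
  let red : Matrix.SpecialLinearGroup (Fin 2) ℤ →* Matrix.SpecialLinearGroup (Fin 2) (ZMod M) :=
    Matrix.SpecialLinearGroup.map (Int.castRingHom (ZMod M))
  have hsurj : ∀ τ : Matrix.SpecialLinearGroup (Fin 2) (ZMod M), ∃ σ, red σ = τ := by
    intro τ
    obtain ⟨A, hA⟩ := rd_surj M τ.val
    have hdet : ((A.det : ℤ) : ZMod M) = 1 := by
      rw [← rd_det, hA]
      exact τ.2
    obtain ⟨σ, hσ⟩ := sl_surj M hM A (by
      rw [← ZMod.intCast_zmod_eq_zero_iff_dvd, Int.cast_sub, hdet, Int.cast_one, sub_self])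
    refine ⟨σ, ?_⟩
    apply Subtype.ext
    rw [← hA, ← hσ]
    rfl
  choose sec hsec using hsurj
  have hinj : Function.Injective sec := fun τ τ' h => by rw [← hsec τ, h, hsec τ']
  refine ⟨univ.image sec, ⟨sec 1, mem_image_of_mem _ (mem_univ _)⟩, ?_⟩
  intro m h hm g hg A hA
  haveI : NeZero m := ⟨hm.ne'⟩
  haveI : Finite (Matrix (Fin 2) (Fin 2) (ZMod m)) := inferInstanceAs (Finite (Fin 2 → Fin 2 → ZMod m))
  haveI : Finite (GL (Fin 2) (ZMod m)) := inferInstanceAs (Finite (Matrix (Fin 2) (Fin 2) (ZMod m))ˣ)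
  let φ : Matrix.SpecialLinearGroup (Fin 2) ℤ →* GL (Fin 2) (ZMod m) :=
    (Matrix.SpecialLinearGroup.toGL).comp (Matrix.SpecialLinearGroup.map (Int.castRingHom (ZMod m)))
  have hφv : ∀ σ, (φ σ).val = rd m σ.val := fun σ => rfl
  let H : Subgroup (GL (Fin 2) (ZMod m)) :=
    G.comap (Matrix.GeneralLinearGroup.map (ZMod.castHom h (ZMod M)))
  have hHm : ∀ x, x ∈ H ↔ Matrix.GeneralLinearGroup.map (ZMod.castHom h (ZMod M)) x ∈ G := fun x => Iff.rfl
  have hredφ : ∀ τ : Matrix.SpecialLinearGroup (Fin 2) (ZMod M),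
      Matrix.GeneralLinearGroup.map (ZMod.castHom h (ZMod M)) (φ (sec τ)) = Matrix.SpecialLinearGroup.toGL τ := by
    intro τ
    apply Units.ext
    have h1 : (Matrix.GeneralLinearGroup.map (ZMod.castHom h (ZMod M)) (φ (sec τ))).val =
        (rd m (sec τ).val).map (ZMod.castHom h (ZMod M)) := rfl
    rw [h1, rd_map]
    have h2 : rd M (sec τ).val = (red (sec τ)).val := rfl
    rw [h2, hsec τ]
    rfl
  obtain ⟨γ₁, hγ₁⟩ := hA
  let a : GL (Fin 2) (ZMod m) := γ₁ * g * γ₁⁻¹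
  have ha : a.val = rd m A := by
    show γ₁.val * g.val * (γ₁⁻¹).val = rd m A
    rw [hγ₁, mul_assoc, ← Units.val_mul, mul_inv_cancel, Units.val_one, mul_one]
  let c : ℕ := Nat.card {τ : Matrix.SpecialLinearGroup (Fin 2) (ZMod M) // Matrix.SpecialLinearGroup.toGL τ ∈ G}
  have hc : 0 < c := by
    haveI : Nonempty {τ : Matrix.SpecialLinearGroup (Fin 2) (ZMod M) // Matrix.SpecialLinearGroup.toGL τ ∈ G} :=
      ⟨1, by rw [map_one]; exact G.one_mem⟩
    exact Nat.card_pos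
  have hφc : ∀ γ : GL (Fin 2) (ZMod m), Nat.card {σ // σ ∈ univ.image sec ∧ φ σ * γ⁻¹ ∈ H} = c := by
    intro γ
    let γb : GL (Fin 2) (ZMod M) := Matrix.GeneralLinearGroup.map (ZMod.castHom h (ZMod M)) γ
    obtain ⟨g₁, hg₁, hdet⟩ := hG (Matrix.GeneralLinearGroup.det γb)
    have hds : (g₁⁻¹ * γb).val.det = 1 := by
      have h1 : Matrix.GeneralLinearGroup.det (g₁⁻¹ * γb) = 1 := by
        rw [map_mul, map_inv]
        have h2 : Matrix.GeneralLinearGroup.det g₁ = Matrix.GeneralLinearGroup.det γb := Units.ext hdet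
        rw [h2, inv_mul_cancel]
      have h2 := congrArg Units.val h1
      exact h2
    let s : Matrix.SpecialLinearGroup (Fin 2) (ZMod M) := ⟨(g₁⁻¹ * γb).val, hds⟩
    have hs : Matrix.SpecialLinearGroup.toGL s = g₁⁻¹ * γb := Units.ext rfl
    have hiff : ∀ τ, φ (sec τ) * γ⁻¹ ∈ H ↔ Matrix.SpecialLinearGroup.toGL (τ * s⁻¹) ∈ G := by
      intro τ
      rw [hHm, map_mul, map_inv, hredφ, map_mul, map_inv, hs, mul_inv_rev, inv_inv, ← mul_assoc]
      exact (G.mul_mem_cancel_right hg₁).symm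
    apply Nat.card_congr
    refine (Equiv.ofBijective (fun τ : {τ : Matrix.SpecialLinearGroup (Fin 2) (ZMod M) //
      Matrix.SpecialLinearGroup.toGL τ ∈ G} => (⟨sec (τ.1 * s), ⟨mem_image_of_mem _ (mem_univ _), ?_⟩⟩ :
        {σ // σ ∈ univ.image sec ∧ φ σ * γ⁻¹ ∈ H})) ⟨?_, ?_⟩).symm
    · rw [hiff, mul_inv_cancel_right]
      exact τ.2
    · intro τ τ' hh
      have h1 := congrArg Subtype.val hh
      exact Subtype.ext (mul_right_cancel (hinj h1))
    · rintro ⟨σ, hσ, hσ2⟩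
      obtain ⟨τ, -, rfl⟩ := mem_image.mp hσ
      refine ⟨⟨τ * s⁻¹, (hiff τ).mp hσ2⟩, ?_⟩
      apply Subtype.ext
      show sec (τ * s⁻¹ * s) = sec τ
      rw [inv_mul_cancel_right]
  have key := orbE_abs H (univ.image sec) φ c hc hφc g a ⟨γ₁, by
    show γ₁ * g = γ₁ * g * γ₁⁻¹ * γ₁
    rw [inv_mul_cancel_right]⟩
  have hval : ∀ x y z w : GL (Fin 2) (ZMod m), x.val * y.val = z.val * w.val ↔ x * y = z * w := by
    intro x y z w
    rw [← Units.val_mul, ← Units.val_mul]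
    exact Units.val_inj
  have e1 : Nat.card {σ : Matrix.SpecialLinearGroup (Fin 2) ℤ // σ ∈ univ.image sec ∧
      CjG M m h G g.val (rd m (σ.val * A * (σ⁻¹).val))} =
      Nat.card {σ // σ ∈ univ.image sec ∧ ∃ k ∈ H, k * g = (φ σ * a * (φ σ)⁻¹) * k} := by
    apply Nat.card_congr
    apply Equiv.subtypeEquivRight
    intro σ
    have h1 : rd m (σ.val * A * (σ⁻¹).val) = (φ σ * a * (φ σ)⁻¹).val := by
      have h2 : (φ σ * a * (φ σ)⁻¹).val = (φ σ).val * a.val * (φ σ⁻¹).val := by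
        rw [map_inv]
        rfl
      rw [h2, ha, hφv, hφv, rd_mul, rd_mul]
    rw [h1]
    unfold CjG
    constructor
    · rintro ⟨hσ, k, hk, hk2⟩
      exact ⟨hσ, k, (hHm k).mpr hk, (hval _ _ _ _).mp hk2⟩
    · rintro ⟨hσ, k, hk, hk2⟩
      exact ⟨hσ, k, (hHm k).mp hk, (hval _ _ _ _).mpr hk2⟩
  have e2 : Nat.card {g' : GL (Fin 2) (ZMod m) // Cj m g.val g'.val} =
      Nat.card {x : GL (Fin 2) (ZMod m) // ∃ γ, γ * g = x * γ} := by
    apply Nat.card_congr
    apply Equiv.subtypeEquivRight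
    intro x
    unfold Cj
    constructor
    · rintro ⟨k, hk2⟩
      exact ⟨k, (hval _ _ _ _).mp hk2⟩
    · rintro ⟨k, hk2⟩
      exact ⟨k, (hval _ _ _ _).mpr hk2⟩
  have e3 : Nat.card {g' : GL (Fin 2) (ZMod m) // CjG M m h G g.val g'.val} =
      Nat.card {x : GL (Fin 2) (ZMod m) // ∃ k ∈ H, k * g = x * k} := by
    apply Nat.card_congr
    apply Equiv.subtypeEquivRight
    intro x
    unfold CjG
    constructor
    · rintro ⟨k, hk, hk2⟩
      exact ⟨k, (hHm k).mpr hk, (hval _ _ _ _).mp hk2⟩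
    · rintro ⟨k, hk, hk2⟩
      exact ⟨k, (hHm k).mp hk, (hval _ _ _ _).mpr hk2⟩
  rw [e1, e2, e3]
  exact key

end Pool.Agent.JC
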