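import Pool.Agent.Lib_MP_f1937f_jc.LawBase
import Pool.Agent.Lib_MP_f1937f_jc.ClassL
import Pool.Agent.Lib_MP_f1937f_jc.CardG
import Pool.Agent.Lib_MP_f1937f_jc.OrbE

/-!
# The law of the classes of G(m)
-/

set_option autoImplicit false

namespace Pool.Agent.JC

open Finset Pool.Agent.TB Pool.Agent.JB Pool.Agent.JD

private theorem lawG_xx {p : ℕ} (hp : 0 < p) {a : ℤ} (ha : a ∈ V p) : |xx p a| ≤ 1 := by
  rw [V, Finset.mem_Icc] at ha
  have h1 : |a| ≤ (Nat.sqrt (4 * p) : ℤ) := abs_le.2 ha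
  have h2 : |(a : ℝ)| ≤ (Nat.sqrt (4 * p) : ℝ) := by exact_mod_cast h1
  have h3 : (Nat.sqrt (4 * p) : ℝ) ≤ √((4 * p : ℕ) : ℝ) := Real.nat_sqrt_le_real_sqrt
  have h4 : √((4 * p : ℕ) : ℝ) = 2 * √(p : ℝ) := by
    push_cast
    rw [Real.sqrt_mul (by norm_num), show (4 : ℝ) = 2 ^ 2 by norm_num, Real.sqrt_sq (by norm_num)]
  have hp' : (0 : ℝ) < p := by exact_mod_cast hp
  have h5 : 0 < 2 * √(p : ℝ) := by positivity
  rw [xx, abs_div, abs_of_pos h5, div_le_one h5]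
  linarith

/-- the law: `(ι / #R) ω a s` for the outcomes in `G` modulo `M` with `|a| > log p` -/
private noncomputable def lawGmu (M : ℕ) (G : Subgroup (GL (Fin 2) (ZMod M))) (R : Finset (Matrix.SpecialLinearGroup (Fin 2) ℤ))
    (ι : ℝ) (ω : ℤ → ℕ → ℝ) (p : ℕ) (x : Om) : ℝ := by
  classical
  exact if x.2.2 ∈ R ∧ Real.log p < |(x.1 : ℝ)| ∧ InG M G (rd M (mt p x)) then ι / (R.card : ℝ) * ω x.1 x.2.1 else 0

private theorem lawGmu_pos (M : ℕ) (G : Subgroup (GL (Fin 2) (ZMod M))) (R : Finset (Matrix.SpecialLinearGroup (Fin 2) ℤ))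
    (ι : ℝ) (ω : ℤ → ℕ → ℝ) (p : ℕ) (x : Om) (h : x.2.2 ∈ R ∧ Real.log p < |(x.1 : ℝ)| ∧ InG M G (rd M (mt p x))) :
    lawGmu M G R ι ω p x = ι / (R.card : ℝ) * ω x.1 x.2.1 := by
  unfold lawGmu
  rw [if_pos h]

private theorem lawGmu_neg (M : ℕ) (G : Subgroup (GL (Fin 2) (ZMod M))) (R : Finset (Matrix.SpecialLinearGroup (Fin 2) ℤ))
    (ι : ℝ) (ω : ℤ → ℕ → ℝ) (p : ℕ) (x : Om) (h : ¬ (x.2.2 ∈ R ∧ Real.log p < |(x.1 : ℝ)| ∧ InG M G (rd M (mt p x)))) :
    lawGmu M G R ι ω p x = 0 := by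
  unfold lawGmu
  rw [if_neg h]

private theorem lawG_X_pos (m : ℕ) (hm : 0 < m) (g : GL (Fin 2) (ZMod m)) :
    0 < Nat.card {g' : GL (Fin 2) (ZMod m) // Cj m g.val g'.val} := by
  have : NeZero m := ⟨hm.ne'⟩
  have : Nonempty {g' : GL (Fin 2) (ZMod m) // Cj m g.val g'.val} := ⟨⟨g, 1, by simp⟩⟩
  exact Nat.card_pos

private theorem lawG_XG_le (M m : ℕ) (h : M ∣ m) (hm : 0 < m) (G : Subgroup (GL (Fin 2) (ZMod M))) (g : GL (Fin 2) (ZMod m)) :
    Nat.card {g' : GL (Fin 2) (ZMod m) // CjG M m h G g.val g'.val} ≤ Nat.card {g' : GL (Fin 2) (ZMod m) // Cj m g.val g'.val} := by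
  have : NeZero m := ⟨hm.ne'⟩
  exact Nat.card_le_card_of_injective (fun x : {g' : GL (Fin 2) (ZMod m) // CjG M m h G g.val g'.val} =>
    (⟨x.1, cjG_cj M m h G _ _ x.2⟩ : {g' : GL (Fin 2) (ZMod m) // Cj m g.val g'.val})) (by
      intro a b hab
      apply Subtype.ext
      exact congrArg (fun z : {g' : GL (Fin 2) (ZMod m) // Cj m g.val g'.val} => z.1) hab)

open Classical in
private theorem lawG_count (M : ℕ) (G : Subgroup (GL (Fin 2) (ZMod M))) (R : Finset (Matrix.SpecialLinearGroup (Fin 2) ℤ))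
    (hR : Orb M G R) (m : ℕ) (h : M ∣ m) (hm : 0 < m) (g : GL (Fin 2) (ZMod m))
    (hg : Matrix.GeneralLinearGroup.map (ZMod.castHom h (ZMod M)) g ∈ G) (A : Mz) :
    ((R.filter (fun σ => CjG M m h G g.val (rd m (σ.val * A * (σ⁻¹).val)))).card : ℝ) =
      if Cj m g.val (rd m A) then (R.card : ℝ) * ((Nat.card {g' : GL (Fin 2) (ZMod m) // CjG M m h G g.val g'.val} : ℝ) /
        (Nat.card {g' : GL (Fin 2) (ZMod m) // Cj m g.val g'.val} : ℝ)) else 0 := by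
  by_cases hA : Cj m g.val (rd m A)
  · rw [if_pos hA]
    have h1 := hR.2 m h hm g hg A hA
    have h2 : Nat.card {σ : Matrix.SpecialLinearGroup (Fin 2) ℤ // σ ∈ R ∧ CjG M m h G g.val (rd m (σ.val * A * (σ⁻¹).val))} =
        (R.filter (fun σ => CjG M m h G g.val (rd m (σ.val * A * (σ⁻¹).val)))).card :=
      Nat.subtype_card _ fun σ => by rw [Finset.mem_filter]
    rw [h2] at h1
    have h3 : (0 : ℝ) < (Nat.card {g' : GL (Fin 2) (ZMod m) // Cj m g.val g'.val} : ℝ) := by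
      exact_mod_cast lawG_X_pos m hm g
    rw [← mul_div_assoc, eq_div_iff h3.ne']
    exact_mod_cast h1
  · rw [if_neg hA]
    have h1 : R.filter (fun σ => CjG M m h G g.val (rd m (σ.val * A * (σ⁻¹).val))) = ∅ := by
      apply Finset.filter_eq_empty_iff.2
      intro σ _ hσ
      exact hA ((cj_conj m g.val A σ).1 (cjG_cj M m h G _ _ hσ))
    rw [h1, Finset.card_empty, Nat.cast_zero]

open Classical in
/-- the sum over the outcomes in terms of the sum over `(a, s)` -/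
private theorem lawG_sum (M : ℕ) (G : Subgroup (GL (Fin 2) (ZMod M))) (R : Finset (Matrix.SpecialLinearGroup (Fin 2) ℤ))
    (hR : Orb M G R) (ι : ℝ) (hι : 0 ≤ ι) (ω : ℤ → ℕ → ℝ) (p : ℕ) (hp : 0 < p) (h0 : ∀ a s, 0 ≤ ω a s)
    (E : ℝ)
    (hsum : ∀ a, ∑ s ∈ Icc 1 (2 * p), ω a s ≤ E / √(p : ℝ) * (1 + 1 / (HH p : ℝ) * ∑ h ∈ Icc 1 (3 * HH p), CC p a h))
    (m : ℕ) (h : M ∣ m) (hm : 0 < m) (g : GL (Fin 2) (ZMod m))
    (hg : Matrix.GeneralLinearGroup.map (ZMod.castHom h (ZMod M)) g ∈ G) (k : ℕ) :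
    |∑ x ∈ (Sp R p).filter (fun x => CjG M m h G g.val (rd m (mt p x))), lawGmu M G R ι ω p x * Uk k (xx p x.1) -
      ι * ((Nat.card {g' : GL (Fin 2) (ZMod m) // CjG M m h G g.val g'.val} : ℝ) /
        (Nat.card {g' : GL (Fin 2) (ZMod m) // Cj m g.val g'.val} : ℝ)) *
        ∑ a ∈ V p, ∑ s' ∈ Icc 1 (2 * p), (if Cj m g.val (rd m (Fc s' p a)) then ω a s' else 0) * Uk k (xx p a)| ≤
      ι * E * dl p * (k + 1) := by
  set q : ℝ := (Nat.card {g' : GL (Fin 2) (ZMod m) // CjG M m h G g.val g'.val} : ℝ) /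
        (Nat.card {g' : GL (Fin 2) (ZMod m) // Cj m g.val g'.val} : ℝ) with hq
  have hRc : (0 : ℝ) < (R.card : ℝ) := by exact_mod_cast hR.1.card_pos
  -- the sum over `σ`
  have hT : ι * q * ∑ a ∈ V p, ∑ s' ∈ Icc 1 (2 * p), (if Cj m g.val (rd m (Fc s' p a)) then ω a s' else 0) * Uk k (xx p a) =
      ∑ a ∈ V p, ∑ s' ∈ Icc 1 (2 * p), ∑ σ ∈ R, (if CjG M m h G g.val (rd m (mt p (a, s', σ))) then
        ι / (R.card : ℝ) * ω a s' * Uk k (xx p a) else 0) := by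
    rw [Finset.mul_sum]
    refine Finset.sum_congr rfl fun a _ => ?_
    rw [Finset.mul_sum]
    refine Finset.sum_congr rfl fun s' _ => ?_
    rw [← Finset.sum_filter, Finset.sum_const, nsmul_eq_mul]
    have h1 := lawG_count M G R hR m h hm g hg (Fc s' p a)
    rw [← hq] at h1
    have h2 : (R.filter (fun σ => CjG M m h G g.val (rd m (mt p (a, s', σ))))) =
        R.filter (fun σ => CjG M m h G g.val (rd m (σ.val * Fc s' p a * (σ⁻¹).val))) := rfl
    rw [h2, h1]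
    split_ifs
    · field_simp
    · ring
  have hS : ∑ x ∈ (Sp R p).filter (fun x => CjG M m h G g.val (rd m (mt p x))), lawGmu M G R ι ω p x * Uk k (xx p x.1) =
      ∑ a ∈ V p, ∑ s' ∈ Icc 1 (2 * p), ∑ σ ∈ R, (if CjG M m h G g.val (rd m (mt p (a, s', σ))) then
        lawGmu M G R ι ω p (a, s', σ) * Uk k (xx p a) else 0) := by
    rw [Finset.sum_filter, Sp, Finset.sum_product]
    refine Finset.sum_congr rfl fun a _ => ?_
    rw [Finset.sum_product]
  rw [hT, hS, ← Finset.sum_sub_distrib]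
  refine (Finset.abs_sum_le_sum_abs _ _).trans ?_
  have hb : ∀ a ∈ V p, |∑ s' ∈ Icc 1 (2 * p), ∑ σ ∈ R, (if CjG M m h G g.val (rd m (mt p (a, s', σ))) then
        lawGmu M G R ι ω p (a, s', σ) * Uk k (xx p a) else 0) -
      ∑ s' ∈ Icc 1 (2 * p), ∑ σ ∈ R, (if CjG M m h G g.val (rd m (mt p (a, s', σ))) then
        ι / (R.card : ℝ) * ω a s' * Uk k (xx p a) else 0)| ≤
      if |(a : ℝ)| ≤ Real.log p then
        ι * (k + 1) * (E / √(p : ℝ) * (1 + 1 / (HH p : ℝ) * ∑ h ∈ Icc 1 (3 * HH p), CC p a h)) else 0 := by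
    intro a ha
    have hU : |Uk k (xx p a)| ≤ k + 1 := Uk_le k (lawG_xx hp ha)
    rw [← Finset.sum_sub_distrib]
    have h3 : ∀ s' ∈ Icc 1 (2 * p), |∑ σ ∈ R, (if CjG M m h G g.val (rd m (mt p (a, s', σ))) then
        lawGmu M G R ι ω p (a, s', σ) * Uk k (xx p a) else 0) -
        ∑ σ ∈ R, (if CjG M m h G g.val (rd m (mt p (a, s', σ))) then ι / (R.card : ℝ) * ω a s' * Uk k (xx p a) else 0)| ≤
        if |(a : ℝ)| ≤ Real.log p then ι * (k + 1) * ω a s' else 0 := by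
      intro s' _
      rw [← Finset.sum_sub_distrib]
      refine (Finset.abs_sum_le_sum_abs _ _).trans ?_
      have h4 : ∀ σ ∈ R, |(if CjG M m h G g.val (rd m (mt p (a, s', σ))) then
          lawGmu M G R ι ω p (a, s', σ) * Uk k (xx p a) else 0) -
          (if CjG M m h G g.val (rd m (mt p (a, s', σ))) then ι / (R.card : ℝ) * ω a s' * Uk k (xx p a) else 0)| ≤
          if |(a : ℝ)| ≤ Real.log p then ι / (R.card : ℝ) * ω a s' * (k + 1) else 0 := by
        intro σ hσ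
        have hn : 0 ≤ ι / (R.card : ℝ) * ω a s' := mul_nonneg (div_nonneg hι hRc.le) (h0 a s')
        have hk : (0 : ℝ) ≤ (k : ℝ) + 1 := by positivity
        by_cases hJ : CjG M m h G g.val (rd m (mt p (a, s', σ)))
        · rw [if_pos hJ, if_pos hJ]
          have hin : InG M G (rd M (mt p (a, s', σ))) := cjG_inG M m h G g hg _ hJ
          by_cases hl : |(a : ℝ)| ≤ Real.log p
          · rw [if_pos hl, lawGmu_neg, zero_mul, zero_sub, abs_neg, abs_mul, abs_of_nonneg hn]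
            · exact mul_le_mul_of_nonneg_left hU hn
            · exact fun hc => absurd hc.2.1 (not_lt.2 hl)
          · rw [if_neg hl, lawGmu_pos M G R ι ω p _ ⟨hσ, not_le.1 hl, hin⟩, sub_self, abs_zero]
        · rw [if_neg hJ, if_neg hJ, sub_self, abs_zero]
          split_ifs
          · exact mul_nonneg hn hk
          · exact le_refl 0
      refine (Finset.sum_le_sum h4).trans ?_
      rw [Finset.sum_const, nsmul_eq_mul]
      split_ifs
      · refine le_of_eq ?_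
        field_simp
      · rw [mul_zero]
    refine (Finset.abs_sum_le_sum_abs _ _).trans ((Finset.sum_le_sum h3).trans ?_)
    split_ifs
    · rw [← Finset.mul_sum]
      exact mul_le_mul_of_nonneg_left (hsum a) (mul_nonneg hι (by positivity))
    · rw [Finset.sum_const_zero]
  refine (Finset.sum_le_sum hb).trans ?_
  rw [← Finset.sum_filter]
  have hE : ∀ a : ℤ, 0 ≤ E / √(p : ℝ) * (1 + 1 / (HH p : ℝ) * ∑ h ∈ Icc 1 (3 * HH p), CC p a h) := fun a =>
    (Finset.sum_nonneg fun s _ => h0 a s).trans (hsum a)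
  have hk : (0 : ℝ) ≤ ι * ((k : ℝ) + 1) := mul_nonneg hι (by positivity)
  have h5 : (V p).filter (fun a : ℤ => |(a : ℝ)| ≤ Real.log p) ⊆ Icc (-(⌊Real.log p⌋₊ : ℤ)) (⌊Real.log p⌋₊ : ℤ) := by
    intro a ha
    rw [Finset.mem_filter] at ha
    rw [Finset.mem_Icc, ← abs_le]
    have h6 : (a.natAbs : ℝ) ≤ Real.log p := by
      rw [Nat.cast_natAbs, Int.cast_abs]
      exact ha.2
    have h7 : a.natAbs ≤ ⌊Real.log p⌋₊ := Nat.le_floor h6
    rw [Int.abs_eq_natAbs]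
    exact_mod_cast h7
  refine (Finset.sum_le_sum_of_subset_of_nonneg h5 fun a _ _ => mul_nonneg hk (hE a)).trans ?_
  rw [← Finset.mul_sum, ← Finset.mul_sum, dl]
  refine le_of_eq ?_
  ring

/-- PIECE [JC-G3] (about 250 lines). PROOF. `ω` from `law_base`, `ι` from `card_G`; `μ (a, s, σ) = (ι / #R) ω a s` if `σ ∈ R`, `log p < |a|` and `InG M G (rd M (mt p (a, s, σ)))`, otherwise `0`. For `g` as in `equi` (`p` is prime to `m`): an outcome in the class of `g` is in `G` modulo `M` (`cjG_inG`).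
If the class `X` of `g` in `GL₂(ℤ/m)` does not contain `Fc s p a` modulo `m` no `σ` puts `σ Fc σ⁻¹` in the class `X_G` (`cjG_cj`, `cj_conj`), otherwise exactly `#R |X_G| / |X|` elements of `R` do (`Orb`). So without the condition `log p < |a|` the sum is `ι |X_G| / |X|` times the sum of
`class_law`: main term `ι (|X_G| / |X|) (|X| / N) = cdens` for `k = 0` (`N` the number of the matrices of determinant `p`, `card_G`), error at most `ι 2 E (m / s) ^ 2 (k + 1) log p / √p`. The condition costs at most `(k + 1) ι ∑_{|a| ≤ log p, a ∈ V p} ∑_s ω a s ≤ (k + 1) ι E dl p`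
(the fourth property of `law_base`; `|Uk k| ≤ k + 1`). Lower bound: the third property of `law_base`, `ι / #R ≥ 1 / #R`. -/
theorem law_G (M : ℕ) (hM : 0 < M) (G : Subgroup (GL (Fin 2) (ZMod M)))
    (hG : ∀ d : (ZMod M)ˣ, ∃ g ∈ G, g.val.det = (d : ZMod M)) (R : Finset (Matrix.SpecialLinearGroup (Fin 2) ℤ)) (hR : Orb M G R) :
    ∃ (C c : ℝ) (p₀ : ℕ), 0 ≤ C ∧ 0 < c ∧ ∀ p : ℕ, p.Prime → p₀ ≤ p → p.Coprime M → ∃ μ : Om → ℝ,
      ULC M G R C (C * dl p) p μ ∧ (∀ ω, μ ω ≠ 0 → InG M G (rd M (mt p ω)) ∧ Real.log p < |(ω.1 : ℝ)|) ∧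
      ∀ ω ∈ Sp R p, Sc ω.2.1 p ω.1 → InG M G (rd M (mt p ω)) → Real.log p < |(ω.1 : ℝ)| → |(ω.1 : ℝ)| ≤ √(p : ℝ) / 2 →
        c / Real.log p / √(p : ℝ) / ((ω.2.1 : ℝ) * ((ω.1 ^ 2 - 4 * p).natAbs.divisors.card : ℝ) ^ 2) ≤ μ ω := by
  classical
  obtain ⟨E, c, p₀, hE, hc, hp5, hbase⟩ := law_base
  obtain ⟨ι, hι1, hι⟩ := card_G M hM G hG
  have hι0 : 0 ≤ ι := zero_le_one.trans hι1
  have hRc : (0 : ℝ) < (R.card : ℝ) := by exact_mod_cast hR.1.card_pos
  refine ⟨2 * ι * E, c / (R.card : ℝ), p₀, by positivity, div_pos hc hRc, ?_⟩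
  intro p hp hp0 hpM
  obtain ⟨ω, h0, hsupp, hlow, hsum, heq⟩ := hbase p hp hp0
  have hpp : 0 < p := hp.pos
  have hdl : 0 ≤ dl p := by
    rw [dl]
    refine mul_nonneg (by positivity) (Finset.sum_nonneg fun a _ => ?_)
    exact add_nonneg zero_le_one (mul_nonneg (by positivity) (Finset.sum_nonneg fun h _ => CC_nonneg _ _ _))
  refine ⟨lawGmu M G R ι ω p, ⟨?_, ?_, ?_⟩, ?_, ?_⟩
  · intro x
    by_cases hx : x.2.2 ∈ R ∧ Real.log p < |(x.1 : ℝ)| ∧ InG M G (rd M (mt p x))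
    · rw [lawGmu_pos M G R ι ω p x hx]
      exact mul_nonneg (div_nonneg hι0 hRc.le) (h0 _ _)
    · rw [lawGmu_neg M G R ι ω p x hx]
  · intro x hx0
    by_cases hx : x.2.2 ∈ R ∧ Real.log p < |(x.1 : ℝ)| ∧ InG M G (rd M (mt p x))
    · rw [lawGmu_pos M G R ι ω p x hx] at hx0
      obtain ⟨h1, h2, h3⟩ := hsupp _ _ (right_ne_zero_of_mul hx0)
      refine ⟨?_, h3⟩
      rw [Sp, Finset.mem_product, Finset.mem_product]
      exact ⟨h1, h2, hx.1⟩
    · exact absurd (lawGmu_neg M G R ι ω p x hx) hx0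
  · intro m h hm hmp hpm s hs g hg hdet hsc k
    have hcop : p.Coprime m := (Nat.Prime.coprime_iff_not_dvd hp).2 hpm
    have hX : (0 : ℝ) < (Nat.card {g' : GL (Fin 2) (ZMod m) // Cj m g.val g'.val} : ℝ) := by
      exact_mod_cast lawG_X_pos m hm g
    have hXG : (Nat.card {g' : GL (Fin 2) (ZMod m) // CjG M m h G g.val g'.val} : ℝ) ≤
        (Nat.card {g' : GL (Fin 2) (ZMod m) // Cj m g.val g'.val} : ℝ) := by
      exact_mod_cast lawG_XG_le M m h hm G g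
    have h1 := lawG_sum M G R hR ι hι0 ω p hpp h0 E hsum m h hm g hg k
    have h2 := class_law p hp E hE ω h0 hsupp heq m hm hmp hcop s hs g hdet hsc k
    have hN := hι m h hm (Matrix.GeneralLinearGroup.det g)
    have hdg : ((Matrix.GeneralLinearGroup.det g : (ZMod m)ˣ) : ZMod m) = g.val.det := rfl
    rw [hdg] at hN
    set XG : ℝ := (Nat.card {g' : GL (Fin 2) (ZMod m) // CjG M m h G g.val g'.val} : ℝ) with hXGd
    set X : ℝ := (Nat.card {g' : GL (Fin 2) (ZMod m) // Cj m g.val g'.val} : ℝ) with hXd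
    set T : ℝ := ∑ a ∈ V p, ∑ s' ∈ Icc 1 (2 * p), (if Cj m g.val (rd m (Fc s' p a)) then ω a s' else 0) * Uk k (xx p a) with hTd
    have hq0 : 0 ≤ XG / X := div_nonneg (Nat.cast_nonneg _) hX.le
    have hq1 : XG / X ≤ 1 := (div_le_one hX).2 hXG
    have hmain : ι * (XG / X) * (if k = 0 then xdens m g else 0) = (if k = 0 then cdens M m h G g else 0) := by
      by_cases hk : k = 0
      · rw [if_pos hk, if_pos hk, xdens, cdens, ← hXd, ← hXGd, hN]
        have hιne : ι ≠ 0 := (zero_lt_one.trans_le hι1).ne'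
        field_simp
      · rw [if_neg hk, if_neg hk, mul_zero]
    have h3 : |ι * (XG / X) * T - (if k = 0 then cdens M m h G g else 0)| ≤
        ι * (2 * E * ((m : ℝ) / s) ^ 2 * (k + 1) * (Real.log p / √(p : ℝ))) := by
      rw [← hmain, ← mul_sub, abs_mul, abs_of_nonneg (mul_nonneg hι0 hq0)]
      refine mul_le_mul ?_ h2 (abs_nonneg _) hι0
      calc ι * (XG / X) ≤ ι * 1 := mul_le_mul_of_nonneg_left hq1 hι0
        _ = ι := mul_one ι
    have h4 : 0 ≤ ι * E * dl p * ((k : ℝ) + 1) := by positivity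
    calc _ ≤ ι * E * dl p * (k + 1) + ι * (2 * E * ((m : ℝ) / s) ^ 2 * (k + 1) * (Real.log p / √(p : ℝ))) := by
          refine le_trans ?_ (add_le_add h1 h3)
          exact abs_sub_le _ _ _
      _ ≤ _ := by nlinarith
  · intro x hx0
    by_cases hx : x.2.2 ∈ R ∧ Real.log p < |(x.1 : ℝ)| ∧ InG M G (rd M (mt p x))
    · exact ⟨hx.2.2, hx.2.1⟩
    · exact absurd (lawGmu_neg M G R ι ω p x hx) hx0
  · intro x hx hsc hin hlog ha
    rw [Sp, Finset.mem_product, Finset.mem_product] at hx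
    rw [lawGmu_pos M G R ι ω p x ⟨hx.2.2, hlog, hin⟩]
    have h1 := hlow x.1 x.2.1 hsc ha
    have h2 : c / (R.card : ℝ) / Real.log p / √(p : ℝ) / ((x.2.1 : ℝ) * ((x.1 ^ 2 - 4 * p).natAbs.divisors.card : ℝ) ^ 2) =
        1 / (R.card : ℝ) * (c / Real.log p / √(p : ℝ) / ((x.2.1 : ℝ) * ((x.1 ^ 2 - 4 * p).natAbs.divisors.card : ℝ) ^ 2)) := by
      ring
    rw [h2]
    calc _ ≤ 1 / (R.card : ℝ) * ω x.1 x.2.1 := mul_le_mul_of_nonneg_left h1 (by positivity)
      _ ≤ _ := mul_le_mul_of_nonneg_right (div_le_div_of_nonneg_right hι1 hRc.le) (h0 _ _)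

end Pool.Agent.JC
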