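import Pool.Agent.Lib_MP_f1937f_jc.ClsS

/-!
# Normalisation
-/

set_option autoImplicit false

namespace Pool.Agent.JC

open Finset Pool.Agent.TB Pool.Agent.JB Pool.Agent.JD

private theorem map_self_normC (M : ℕ) (g : GL (Fin 2) (ZMod M)) :
    Matrix.GeneralLinearGroup.map (ZMod.castHom (dvd_refl M) (ZMod M)) g = g := by
  ext i j
  simp [Matrix.GeneralLinearGroup.map, ZMod.castHom_self]

/-- PIECE [JC-G4] (about 200 lines). PROOF. `Z = ∑ ω ∈ Sp R p, μ ω = ∑_g [g ∈ G] (1 / clN g) ∑_{ω : CjG g (rd M (mt p ω))} μ ω` (`cls_sum`), only the `g` with `det g = p` contribute (`cj_det`, `mt_det`), `equi` with `m := M`, `s := 1`, `k := 0` and `cls_dens`: `|Z - 1| ≤ N (C M ^ 2 log p / √p + δ)`,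
`N` the number of the elements of `GL₂(ℤ/M)`. `A = 2 + 2 N M ^ 2`, `ρ = μ / Z`, `1/2 ≤ Z ≤ 2`; `|∑ ρ U - τ| ≤ |∑ μ U - τ| / Z + τ |1 / Z - 1|`, `0 ≤ τ ≤ 1` (`cdens_le`), `τ = 0` for `k ≠ 0`, `m / s ≥ 1`. -/
theorem norm_C (M : ℕ) (hM : 0 < M) (G : Subgroup (GL (Fin 2) (ZMod M)))
    (hG : ∀ d : (ZMod M)ˣ, ∃ g ∈ G, g.val.det = (d : ZMod M)) (R : Finset (Matrix.SpecialLinearGroup (Fin 2) ℤ)) :
    ∃ A : ℝ, 1 ≤ A ∧ ∀ p : ℕ, p.Prime → M ≤ p → p.Coprime M → ∀ (C δ : ℝ) (μ : Om → ℝ), 0 ≤ C → 0 ≤ δ → ULC M G R C δ p μ →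
      (∀ ω, μ ω ≠ 0 → InG M G (rd M (mt p ω))) → A * (C * (Real.log p / √(p : ℝ)) + δ) ≤ 1 / 2 →
      ∃ ρ : Om → ℝ, ULC M G R (A * C) (A * δ) p ρ ∧ ∑ ω ∈ Sp R p, ρ ω = 1 ∧ (∀ ω, μ ω / 2 ≤ ρ ω) ∧ ∀ ω, μ ω = 0 → ρ ω = 0 := by
  haveI : NeZero M := ⟨hM.ne'⟩
  have hM1 : (1 : ℝ) ≤ M := by exact_mod_cast hM
  have hMs : (1 : ℝ) ≤ (M : ℝ) ^ 2 := one_le_pow₀ hM1
  obtain ⟨N, hN0, hN⟩ : ∃ N : ℝ, 0 ≤ N ∧ ∀ f : GL (Fin 2) (ZMod M) → ℝ, ∀ B : ℝ, (∀ g, |f g| ≤ B) →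
      |∑ g : GL (Fin 2) (ZMod M), f g| ≤ N * B := by
    refine ⟨((univ : Finset (GL (Fin 2) (ZMod M))).card : ℝ), by positivity, fun f B hf => ?_⟩
    calc |∑ g : GL (Fin 2) (ZMod M), f g| ≤ ∑ g : GL (Fin 2) (ZMod M), |f g| := abs_sum_le_sum_abs _ _
      _ ≤ ∑ _g : GL (Fin 2) (ZMod M), B := sum_le_sum fun g _ => hf g
      _ = _ := by rw [sum_const, nsmul_eq_mul]
  have hNM : 0 ≤ N * (M : ℝ) ^ 2 := by positivity
  refine ⟨2 + 2 * N * (M : ℝ) ^ 2, by nlinarith, ?_⟩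
  intro p hp hMp hcop C δ μ hC hδ hμ hin hsmall
  set L : ℝ := Real.log p / √(p : ℝ) with hL
  have hL0 : 0 ≤ L := by
    have : 0 ≤ Real.log p := Real.log_nonneg (by exact_mod_cast hp.one_lt.le)
    positivity
  set Z : ℝ := ∑ ω ∈ Sp R p, μ ω with hZ
  have hU0 : ∀ y, Uk 0 y = 1 := by
    intro y
    simp [Uk]
  have hpM : ¬ p ∣ M := (Nat.Prime.coprime_iff_not_dvd hp).mp hcop
  obtain ⟨d, hd⟩ : ∃ d : (ZMod M)ˣ, (d : ZMod M) = (p : ZMod M) :=
    ⟨ZMod.unitOfCoprime p hcop, ZMod.coe_unitOfCoprime p hcop⟩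
  -- the classes modulo `M`
  have hcl : ∀ g ∈ G, g.val.det = (d : ZMod M) →
      |∑ ω ∈ Sp R p, (open Classical in (if CjG M M dvd_rfl G g.val (rd M (mt p ω)) then μ ω else 0)) -
        cdens M M dvd_rfl G g| ≤ C * (M : ℝ) ^ 2 * L + δ := by
    intro g hg hgd
    have hsc : ScM M 1 (one_dvd M) g.val :=
      ⟨Subsingleton.elim _ _, Subsingleton.elim _ _, Subsingleton.elim _ _⟩
    have h := hμ.equi M dvd_rfl hM hMp hpM 1 (one_dvd M) g (by rw [map_self_normC]; exact hg)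
      (by rw [hgd, hd]) hsc 0
    rw [sum_filter] at h
    simp only [hU0, mul_one, if_true, Nat.cast_zero, zero_add, Nat.cast_one, div_one] at h
    exact h
  have hdet : ∀ g : GL (Fin 2) (ZMod M), ∀ ω, μ ω ≠ 0 → CjG M M dvd_rfl G g.val (rd M (mt p ω)) →
      g.val.det = (d : ZMod M) := by
    intro g ω hω hc
    obtain ⟨h1, h2⟩ := hμ.supp ω hω
    have h3 : 0 < ω.2.1 := by
      unfold Sp at h1
      rw [mem_product, mem_product] at h1
      exact (mem_Icc.1 h1.2.1).1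
    have h4 := cj_det M g (mt p ω) (cjG_cj M M dvd_rfl G _ _ hc)
    rw [mt_det p ω h3 h2] at h4
    rw [h4, hd]
    push_cast
    rfl
  have hZ1 : |Z - 1| ≤ N * (C * (M : ℝ) ^ 2 * L + δ) := by
    have hB : 0 ≤ C * (M : ℝ) ^ 2 * L + δ := by positivity
    have e1 : Z = ∑ g : GL (Fin 2) (ZMod M), (open Classical in (if g ∈ G ∧ g.val.det = (d : ZMod M) then
        (∑ ω ∈ Sp R p, (if CjG M M dvd_rfl G g.val (rd M (mt p ω)) then μ ω else 0)) / clN M G g else 0)) := by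
      have e2 : ∀ ω ∈ Sp R p, μ ω = ∑ g : GL (Fin 2) (ZMod M), μ ω * (open Classical in
          (if g ∈ G ∧ CjG M M dvd_rfl G g.val (rd M (mt p ω)) then 1 / clN M G g else 0)) := by
        intro ω _
        by_cases h0 : μ ω = 0
        · rw [h0]
          simp only [zero_mul, sum_const_zero]
        · rw [← mul_sum, cls_sum M G _ (hin ω h0), mul_one]
      rw [hZ, sum_congr rfl e2, sum_comm]
      refine sum_congr rfl fun g _ => ?_
      by_cases hg : g ∈ G ∧ g.val.det = (d : ZMod M)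
      · rw [if_pos hg, sum_div]
        refine sum_congr rfl fun ω _ => ?_
        by_cases hc : CjG M M dvd_rfl G g.val (rd M (mt p ω))
        · rw [if_pos ⟨hg.1, hc⟩, if_pos hc]
          ring
        · rw [if_neg (fun h => hc h.2), if_neg hc]
          ring
      · rw [if_neg hg]
        refine sum_eq_zero fun ω _ => ?_
        by_cases h0 : μ ω = 0
        · rw [h0, zero_mul]
        · rw [if_neg, mul_zero]
          rintro ⟨h1, h2⟩
          exact hg ⟨h1, hdet g ω h0 h2⟩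
    have e3 := cls_dens M G hG d
    rw [e1, ← e3, ← sum_sub_distrib]
    refine hN _ _ fun g => ?_
    by_cases hg : g ∈ G ∧ g.val.det = (d : ZMod M)
    · rw [if_pos hg, if_pos hg, ← sub_div]
      have h1 := clN_ge M G g
      rw [abs_div, abs_of_pos (by linarith : 0 < clN M G g)]
      exact (div_le_self (abs_nonneg _) h1).trans (hcl g hg.1 hg.2)
    · rw [if_neg hg, if_neg hg, sub_zero, abs_zero]
      exact hB
  have hZ2 : |Z - 1| ≤ N * (M : ℝ) ^ 2 * (C * L + δ) := by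
    refine hZ1.trans ?_
    have h1 : C * (M : ℝ) ^ 2 * L + δ ≤ (M : ℝ) ^ 2 * (C * L + δ) := by nlinarith
    calc N * (C * (M : ℝ) ^ 2 * L + δ) ≤ N * ((M : ℝ) ^ 2 * (C * L + δ)) := mul_le_mul_of_nonneg_left h1 hN0
      _ = _ := by ring
  have hCL : 0 ≤ C * L + δ := by positivity
  have hZh : |Z - 1| ≤ 1 / 2 := by
    refine hZ2.trans ?_
    have h1 : N * (M : ℝ) ^ 2 * (C * L + δ) ≤ (2 + 2 * N * (M : ℝ) ^ 2) * (C * L + δ) := by
      apply mul_le_mul_of_nonneg_right _ hCL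
      linarith
    linarith
  have hZl : 1 / 2 ≤ Z := by
    have := (abs_le.1 hZh).1
    linarith
  have hZu : Z ≤ 2 := by
    have := (abs_le.1 hZh).2
    linarith
  have hZp : 0 < Z := by linarith
  have hZi : Z⁻¹ ≤ 2 := by
    rw [inv_le_comm₀ hZp (by norm_num)]
    linarith
  have hZi0 : 0 ≤ Z⁻¹ := by positivity
  refine ⟨fun ω => μ ω / Z, ⟨?_, ?_, ?_⟩, ?_, ?_, ?_⟩
  · intro ω
    exact div_nonneg (hμ.nonneg ω) hZp.le
  · intro ω hω
    refine hμ.supp ω fun h0 => hω ?_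
    show μ ω / Z = 0
    rw [h0, zero_div]
  · intro m h hm hmp hpm s hs g hg hgd hsc k
    have h0 := hμ.equi m h hm hmp hpm s hs g hg hgd hsc k
    obtain ⟨T, hT⟩ : ∃ T : ℝ, T = (if k = 0 then cdens M m h G g else 0) := ⟨_, rfl⟩
    have h3 : |T| ≤ 1 := by
      rw [hT]
      split_ifs
      · rw [abs_of_nonneg (cdens_nonneg M m h G g)]
        exact cdens_le M m hm h G g hg
      · rw [abs_zero]; norm_num
    have hs0 : 0 < s := Nat.pos_of_dvd_of_pos hs hm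
    have hsm : (1 : ℝ) ≤ (m : ℝ) / s := by
      rw [one_le_div (by exact_mod_cast hs0)]
      exact_mod_cast Nat.le_of_dvd hm hs
    have hk1 : (1 : ℝ) ≤ k + 1 := by
      have : (0 : ℝ) ≤ k := Nat.cast_nonneg k
      linarith
    rw [← hT] at h0 ⊢
    have e1 : ∀ S : Finset Om, ∑ ω ∈ S, μ ω / Z * Uk k (xx p ω.1) = (∑ ω ∈ S, μ ω * Uk k (xx p ω.1)) * Z⁻¹ := by
      intro S
      rw [sum_mul]
      refine sum_congr rfl fun ω _ => ?_
      rw [div_eq_mul_inv]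
      ring
    simp only [e1]
    generalize (∑ ω ∈ _, μ ω * Uk k (xx p ω.1)) = B at h0 ⊢
    have h4 : B * Z⁻¹ - T = (B - T) * Z⁻¹ + T * (1 - Z) * Z⁻¹ := by
      field_simp
      ring
    have h5 : |1 - Z| ≤ N * (M : ℝ) ^ 2 * (C * L + δ) := by rw [abs_sub_comm]; exact hZ2
    obtain ⟨W, hW⟩ : ∃ W : ℝ, W = C * ((m : ℝ) / s) ^ 2 * (k + 1) * L + δ * (k + 1) := ⟨_, rfl⟩
    have h6 : C * L + δ ≤ W := by
      rw [hW]
      have h7 : C * L ≤ C * ((m : ℝ) / s) ^ 2 * (k + 1) * L := by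
        have h8 : (1 : ℝ) ≤ ((m : ℝ) / s) ^ 2 * (k + 1) := one_le_mul_of_one_le_of_one_le (one_le_pow₀ hsm (n := 2)) hk1
        have h9 : 0 ≤ C * L := by positivity
        nlinarith
      have h10 : δ ≤ δ * (k + 1) := by nlinarith
      linarith
    have h0' : |B - T| ≤ W := by
      rw [hW]
      exact h0
    have hW0 : 0 ≤ W := hCL.trans h6
    rw [h4]
    calc |(B - T) * Z⁻¹ + T * (1 - Z) * Z⁻¹|
        ≤ |B - T| * Z⁻¹ + |T| * |1 - Z| * Z⁻¹ := by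
          refine (abs_add_le _ _).trans (le_of_eq ?_)
          rw [abs_mul, abs_mul, abs_mul, abs_of_nonneg hZi0]
      _ ≤ W * 2 + 1 * (N * (M : ℝ) ^ 2 * (C * L + δ)) * 2 := by
          gcongr
      _ ≤ W * 2 + 1 * (N * (M : ℝ) ^ 2 * W) * 2 := by
          gcongr
      _ = (2 + 2 * N * (M : ℝ) ^ 2) * C * ((m : ℝ) / s) ^ 2 * (k + 1) * L + (2 + 2 * N * (M : ℝ) ^ 2) * δ * (k + 1) := by
          rw [hW]
          ring
  · rw [← sum_div, ← hZ, div_self hZp.ne']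
  · intro ω
    exact div_le_div_of_nonneg_left (hμ.nonneg ω) hZp hZu
  · intro ω h0
    show μ ω / Z = 0
    rw [h0, zero_div]

end Pool.Agent.JC
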