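import Pool.Agent.Lib_MP_f1937f_jc.ClsS
import Pool.Agent.Lib_MP_f1937f_jc.Ctrs
import Pool.Agent.Lib_MP_f1937f_tb.Cheb

/-!
# Small primes
-/

set_option autoImplicit false

namespace Pool.Agent.JC

open Finset Pool.Agent.TB Pool.Agent.JB Pool.Agent.JD

private lemma smallC_zero_mem (p : ℕ) : (0 : ℤ) ∈ V p := by
  unfold V
  rw [Finset.mem_Icc]
  constructor
  · have : (0 : ℤ) ≤ (Nat.sqrt (4 * p) : ℤ) := Int.natCast_nonneg _
    linarith
  · exact Int.natCast_nonneg _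

/-- PIECE [JC-G6] (about 80 lines, see `Lib_MP_f1937f_jd/SmallF.lean`). PROOF. The point mass at `(0, 1, σ₀)`, `σ₀ ∈ R` (`sc_one`). The sum is at most `k + 1` and `cdens ≤ 1`, so `C₁ = 4 √p₀` works (`log p / √p ≥ (1/2) / √p₀`, `m / s ≥ 1`). -/
theorem small_C (M : ℕ) (hM : 0 < M) (G : Subgroup (GL (Fin 2) (ZMod M))) (R : Finset (Matrix.SpecialLinearGroup (Fin 2) ℤ))
    (hR : R.Nonempty) (p₀ : ℕ) : ∃ C₁ : ℝ, 0 ≤ C₁ ∧ ∀ p : ℕ, p.Prime → p < p₀ → ∃ ρ : Om → ℝ,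
      ULC M G R C₁ 0 p ρ ∧ ∑ ω ∈ Sp R p, ρ ω = 1 := by
  classical
  obtain ⟨σ₀, hσ⟩ := hR
  refine ⟨3 * √(p₀ : ℝ), by positivity, fun p hp hp0 => ⟨fun ω => if ω = ((0 : ℤ), (1 : ℕ), σ₀) then 1 else 0, ?_, ?_⟩⟩
  swap
  · have hmem : (((0 : ℤ), (1 : ℕ), σ₀) : Om) ∈ Sp R p := by
      unfold Sp
      rw [Finset.mem_product, Finset.mem_product]
      refine ⟨smallC_zero_mem p, ?_, hσ⟩
      rw [Finset.mem_Icc]
      exact ⟨le_rfl, by have := hp.one_le; show 1 ≤ 2 * p; omega⟩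
    rw [Finset.sum_ite_eq', if_pos hmem]
  have hl2 : 0 < Real.log 2 := Real.log_pos (by norm_num)
  have hl2' : 2 / 3 ≤ Real.log 2 := by
    have := Real.log_two_gt_d9
    linarith
  have hp2 : (2 : ℝ) ≤ p := by exact_mod_cast hp.two_le
  have hpp : (p : ℝ) ≤ p₀ := by exact_mod_cast hp0.le
  have hs0 : 0 < √(p : ℝ) := Real.sqrt_pos.2 (by linarith)
  have hs : √(p : ℝ) ≤ √(p₀ : ℝ) := Real.sqrt_le_sqrt hpp
  have hs1 : 0 < √(p₀ : ℝ) := lt_of_lt_of_le hs0 hs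
  have hlog : Real.log 2 ≤ Real.log p := Real.log_le_log (by norm_num) hp2
  refine ⟨?_, ?_, ?_⟩
  · intro ω
    show (0 : ℝ) ≤ if ω = ((0 : ℤ), (1 : ℕ), σ₀) then 1 else 0
    split_ifs
    · exact zero_le_one
    · exact le_rfl
  · intro ω hω
    by_cases h : ω = ((0 : ℤ), (1 : ℕ), σ₀)
    · rw [h]
      refine ⟨?_, sc_one _ _⟩
      unfold Sp
      rw [Finset.mem_product, Finset.mem_product]
      refine ⟨smallC_zero_mem p, ?_, hσ⟩
      rw [Finset.mem_Icc]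
      exact ⟨le_rfl, by have := hp.one_le; show 1 ≤ 2 * p; omega⟩
    · simp [h] at hω
  · intro m h hm0 _ _ s hs' g hg _ _ k
    have hs0' : 0 < s := Nat.pos_of_dvd_of_pos hs' hm0
    have hms : (1 : ℝ) ≤ (m : ℝ) / s := by
      rw [le_div_iff₀ (by exact_mod_cast hs0')]
      have := Nat.le_of_dvd hm0 hs'
      rw [one_mul]
      exact_mod_cast this
    have hk : (1 : ℝ) ≤ (k : ℝ) + 1 := by
      have : (0 : ℝ) ≤ k := Nat.cast_nonneg k
      linarith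
    have h1 : |∑ ω ∈ (Sp R p).filter (fun ω => CjG M m h G g.val (rd m (mt p ω))),
        (if ω = ((0 : ℤ), (1 : ℕ), σ₀) then (1 : ℝ) else 0) * Uk k (xx p ω.1)| ≤ k + 1 := by
      have e : ∀ ω : Om, (if ω = ((0 : ℤ), (1 : ℕ), σ₀) then (1 : ℝ) else 0) * Uk k (xx p ω.1) =
          if ω = ((0 : ℤ), (1 : ℕ), σ₀) then Uk k 0 else 0 := by
        intro ω
        by_cases h : ω = ((0 : ℤ), (1 : ℕ), σ₀)
        · subst h
          simp [xx]
        · simp [h]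
      simp only [e]
      rw [Finset.sum_ite_eq']
      have h0 : |Uk k 0| ≤ (k : ℝ) + 1 := Uk_le k (by norm_num)
      split_ifs
      · exact h0
      · rw [abs_zero]
        linarith
    have h2 : |(if k = 0 then cdens M m h G g else 0)| ≤ 1 := by
      split_ifs
      · rw [abs_of_nonneg (cdens_nonneg M m h G g)]
        exact cdens_le M m hm0 h G g hg
      · rw [abs_zero]
        exact zero_le_one
    have h3 : |∑ ω ∈ (Sp R p).filter (fun ω => CjG M m h G g.val (rd m (mt p ω))),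
        (if ω = ((0 : ℤ), (1 : ℕ), σ₀) then (1 : ℝ) else 0) * Uk k (xx p ω.1) -
        (if k = 0 then cdens M m h G g else 0)| ≤ (k + 1) + 1 :=
      (abs_sub _ _).trans (add_le_add h1 h2)
    have h5 : (1 : ℝ) ≤ ((m : ℝ) / s) ^ 2 := by nlinarith
    have h6 : Real.log 2 / √(p₀ : ℝ) ≤ Real.log p / √(p : ℝ) :=
      div_le_div₀ (hl2.le.trans hlog) hlog hs0 hs
    have h9 : 0 < Real.log 2 / √(p₀ : ℝ) := by positivity
    have h10 : ((k : ℝ) + 1) + 1 ≤ 3 * √(p₀ : ℝ) * ((m : ℝ) / s) ^ 2 * (k + 1) * (Real.log p / √(p : ℝ)) := by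
      calc ((k : ℝ) + 1) + 1 ≤ 2 * (k + 1) := by linarith
        _ ≤ 3 * Real.log 2 * (k + 1) := mul_le_mul_of_nonneg_right (by linarith) (by linarith)
        _ = 3 * √(p₀ : ℝ) * 1 * (k + 1) * (Real.log 2 / √(p₀ : ℝ)) := by field_simp
        _ ≤ 3 * √(p₀ : ℝ) * ((m : ℝ) / s) ^ 2 * (k + 1) * (Real.log p / √(p : ℝ)) := by
          refine mul_le_mul ?_ h6 h9.le (by positivity)
          refine mul_le_mul_of_nonneg_right ?_ (by linarith)
          exact mul_le_mul_of_nonneg_left h5 (by positivity)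
    have h11 : |∑ ω ∈ (Sp R p).filter (fun ω => CjG M m h G g.val (rd m (mt p ω))),
        (if ω = ((0 : ℤ), (1 : ℕ), σ₀) then (1 : ℝ) else 0) * Uk k (xx p ω.1) -
        (if k = 0 then cdens M m h G g else 0)| ≤
        3 * √(p₀ : ℝ) * ((m : ℝ) / s) ^ 2 * (k + 1) * (Real.log p / √(p : ℝ)) + 0 * (k + 1) := by
      rw [zero_mul, add_zero]
      exact h3.trans h10
    convert h11 using 2

end Pool.Agent.JC
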