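import Pool.Agent.Lib_MP_f1937f_jc.SpkL
import Pool.Agent.Lib_MP_f1937f_jc.AsymC
import Pool.Agent.Lib_MP_f1937f_jc.AlF
import Pool.Agent.Lib_MP_f1937f_tb.Cheb
import Pool.Agent.Lib_MP_f1937f_tb.Spike
import Pool.Agent.Lib_MP_f1937f_tb.SpikeEqui
import Pool.Agent.Lib_MP_f1937f_tb.LawSpike

/-!
# Adding a spike
-/

set_option autoImplicit false

namespace Pool.Agent.JC

open Finset Pool.Agent.TB Pool.Agent.JB Pool.Agent.JD

/-- the number of the integers `a` with `|a| ≤ x` -/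
private theorem sk_card (s : Finset ℤ) {x : ℝ} (hx : 0 ≤ x) (hs : ∀ a ∈ s, |(a : ℝ)| ≤ x) :
    (s.card : ℝ) ≤ 2 * x + 1 := by
  have h1 : s ⊆ Finset.Icc (-⌊x⌋) ⌊x⌋ := by
    intro a ha
    have h := abs_le.1 (hs a ha)
    rw [Finset.mem_Icc]
    constructor
    · have : -a ≤ ⌊x⌋ := by
        rw [Int.le_floor]
        push_cast
        linarith [h.1]
      omega
    · rw [Int.le_floor]
      exact h.2
  have h2 : s.card ≤ (Finset.Icc (-⌊x⌋) ⌊x⌋).card := Finset.card_le_card h1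
  rw [Int.card_Icc] at h2
  have h3 : 0 ≤ ⌊x⌋ := Int.floor_nonneg.2 hx
  have h4 : ((⌊x⌋ + 1 - -⌊x⌋).toNat : ℤ) = 2 * ⌊x⌋ + 1 := by
    rw [Int.toNat_of_nonneg (by omega)]
    ring
  have h5 : (s.card : ℤ) ≤ 2 * ⌊x⌋ + 1 := by
    rw [← h4]
    exact_mod_cast h2
  have h6 : (s.card : ℝ) ≤ 2 * (⌊x⌋ : ℝ) + 1 := by exact_mod_cast h5
  have h7 := Int.floor_le x
  linarith

/-- the spike -/
private noncomputable def skg (K : ℕ) (ν : ℤ → ℝ) (a₀ a : ℤ) : ℝ :=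
  (if a = a₀ then 1 else 0) - (if (K : ℤ) ∣ a - a₀ then ν ((a - a₀) / K) else 0)

private theorem skg_self (K : ℕ) (ν : ℤ → ℝ) (a : ℤ) : skg K ν a a = 1 - ν 0 := by
  unfold skg
  rw [if_pos rfl, sub_self, if_pos (dvd_zero _), Int.zero_ediv]

private theorem skg_dvd (K : ℕ) (ν : ℤ → ℝ) (a₀ a : ℤ) (h : ¬ (K : ℤ) ∣ a - a₀) : skg K ν a₀ a = 0 := by
  have h1 : a ≠ a₀ := by
    rintro rfl
    exact h (by rw [sub_self]; exact dvd_zero _)
  unfold skg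
  rw [if_neg h1, if_neg h, sub_zero]

/-- away from `a₀` the spike is small, and it vanishes outside the class of `a₀` modulo `K` and for `|a| > √p / 2` -/
private theorem skg_ne (K : ℕ) (hK : 0 < K) (p : ℕ) (hp : 1 ≤ p) (a₀ : ℤ) (R η : ℝ)
    (hη0 : 0 < η) (hη : η = R / √(p : ℝ)) (haa : |(a₀ : ℝ)| ≤ √(p : ℝ) / 4) (ν : ℤ → ℝ)
    (hsupp : ∀ x : ℤ, √(p : ℝ) / (4 * K) < |(x : ℝ)| → ν x = 0)
    (hsize : ∀ x : ℤ, x ≠ 0 → |ν x| ≤ 24 * (R / (√(p : ℝ) / (4 * K))) * (x.natAbs.divisors.card : ℝ))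
    {a : ℤ} (ha : a ≠ a₀) :
    skg K ν a₀ a = 0 ∨ ((K : ℤ) ∣ a - a₀ ∧ |(a : ℝ)| ≤ √(p : ℝ) / 2 ∧ ∃ n : ℕ, n ≠ 0 ∧ (n : ℝ) ≤ √(p : ℝ) ∧
      |η * skg K ν a₀ a| ≤ 96 * K * R ^ 2 * (n.divisors.card : ℝ) / p) := by
  have hK' : (0 : ℝ) < (K : ℝ) := by exact_mod_cast hK
  have hK1 : (1 : ℝ) ≤ (K : ℝ) := by exact_mod_cast hK
  have hKz : (K : ℤ) ≠ 0 := by exact_mod_cast hK.ne'
  have hp0 : (0 : ℝ) < (p : ℝ) := by exact_mod_cast hp
  have hs0 : 0 < √(p : ℝ) := Real.sqrt_pos.2 hp0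
  have hs2 : √(p : ℝ) * √(p : ℝ) = p := Real.mul_self_sqrt hp0.le
  by_cases h : (K : ℤ) ∣ a - a₀
  · obtain ⟨x, hx⟩ := h
    have hx0 : x ≠ 0 := by
      rintro rfl
      rw [mul_zero] at hx
      exact ha (by linarith)
    have hdiv : (a - a₀) / (K : ℤ) = x := by
      rw [hx]
      exact Int.mul_ediv_cancel_left x hKz
    have hval : skg K ν a₀ a = -ν x := by
      unfold skg
      rw [if_neg ha, if_pos ⟨x, hx⟩, hdiv, zero_sub]
    by_cases hY : √(p : ℝ) / (4 * K) < |(x : ℝ)|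
    · left
      rw [hval, hsupp x hY, neg_zero]
    · right
      rw [not_lt] at hY
      have hax : (a : ℝ) = a₀ + K * x := by
        have : (a : ℤ) = a₀ + K * x := by linarith
        exact_mod_cast this
      have hMx : (K : ℝ) * |(x : ℝ)| ≤ √(p : ℝ) / 4 := by
        have h1 := mul_le_mul_of_nonneg_left hY hK'.le
        have h2 : (K : ℝ) * (√(p : ℝ) / (4 * K)) = √(p : ℝ) / 4 := by
          field_simp
        linarith
      have haY : |(a : ℝ)| ≤ √(p : ℝ) / 2 := by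
        rw [hax]
        refine (abs_add_le _ _).trans ?_
        rw [abs_mul, abs_of_pos hK']
        linarith
      have hxn : ((x.natAbs : ℕ) : ℝ) = |(x : ℝ)| := by
        rw [Nat.cast_natAbs, Int.cast_abs]
      have hxs : ((x.natAbs : ℕ) : ℝ) ≤ √(p : ℝ) := by
        rw [hxn]
        have : |(x : ℝ)| ≤ K * |(x : ℝ)| := le_mul_of_one_le_left (abs_nonneg _) hK1
        linarith
      refine ⟨⟨x, hx⟩, haY, x.natAbs, Int.natAbs_ne_zero.2 hx0, hxs, ?_⟩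
      have hsz := hsize x hx0
      rw [hval, abs_mul, abs_neg, abs_of_pos hη0]
      refine (mul_le_mul_of_nonneg_left hsz hη0.le).trans (le_of_eq ?_)
      rw [hη, LawSpike_id _ _ _ _ hs0.ne' hK'.ne', hs2]
  · left
    exact skg_dvd K ν a₀ a h

private theorem sk_mem (p : ℕ) (hp : 1 ≤ p) (a : ℤ) (haa : |(a : ℝ)| ≤ √(p : ℝ) / 2) : a ∈ V p := by
  have hp0 : (0 : ℝ) < (p : ℝ) := by exact_mod_cast hp
  have h1 : (a : ℝ) ^ 2 ≤ 4 * p := by
    rw [← sq_abs]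
    have h2 := pow_le_pow_left₀ (abs_nonneg _) haa 2
    have h3 : (√(p : ℝ) / 2) ^ 2 = p / 4 := by
      rw [div_pow, Real.sq_sqrt hp0.le]
      norm_num
    linarith
  have h2 : a ^ 2 ≤ 4 * (p : ℤ) := by exact_mod_cast h1
  have h3 : a.natAbs ≤ Nat.sqrt (4 * p) := by
    rw [Nat.le_sqrt]
    have h4 : ((a.natAbs * a.natAbs : ℕ) : ℤ) ≤ ((4 * p : ℕ) : ℤ) := by
      rw [Int.natAbs_mul_self]
      push_cast
      nlinarith
    exact_mod_cast h4
  unfold V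
  rw [mem_Icc]
  omega

/-- the discriminant of a small trace -/
private theorem sk_disc (p : ℕ) (hp : 1 ≤ p) (a : ℤ) (haa : |(a : ℝ)| ≤ √(p : ℝ) / 2) :
    (a ^ 2 - 4 * (p : ℤ)).natAbs ≠ 0 ∧ (a ^ 2 - 4 * (p : ℤ)).natAbs ≤ 4 * p := by
  have hp0 : (0 : ℝ) < (p : ℝ) := by exact_mod_cast hp
  have h1 : (a : ℝ) ^ 2 ≤ p / 4 := by
    rw [← sq_abs]
    have h2 := pow_le_pow_left₀ (abs_nonneg _) haa 2
    have h3 : (√(p : ℝ) / 2) ^ 2 = p / 4 := by
      rw [div_pow, Real.sq_sqrt hp0.le]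
      norm_num
    linarith
  have h2 : (a : ℝ) ^ 2 < 4 * p := by linarith
  have h3 : a ^ 2 < 4 * (p : ℤ) := by exact_mod_cast h2
  have h4 : 0 ≤ a ^ 2 := sq_nonneg a
  constructor <;> omega

/-- the sum over a line of outcomes -/
private theorem sk_line (R : Finset (Matrix.SpecialLinearGroup (Fin 2) ℤ)) (p s₀ : ℕ) (σ₀ : Matrix.SpecialLinearGroup (Fin 2) ℤ)
    (hs : s₀ ∈ Icc 1 (2 * p)) (hσ : σ₀ ∈ R) (P : Om → Prop) [DecidablePred P] (Q : Om → Prop) [DecidablePred Q]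
    (hQ : ∀ ω : Om, Q ω ↔ ω.2.1 = s₀ ∧ ω.2.2 = σ₀) (F : ℤ → ℝ) :
    ∑ ω ∈ (Sp R p).filter P, (if Q ω then F ω.1 else 0) = ∑ a ∈ (V p).filter (fun a => P (a, s₀, σ₀)), F a := by
  rw [← sum_filter]
  refine Finset.sum_nbij' (fun ω => ω.1) (fun a => (a, s₀, σ₀)) ?_ ?_ ?_ ?_ ?_
  · intro ω hω
    rw [mem_filter, mem_filter, hQ] at hω
    obtain ⟨⟨h1, h2⟩, h3, h4⟩ := hω
    have h5 : ω = (ω.1, s₀, σ₀) := by
      rw [← h3, ← h4]
    rw [mem_filter]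
    unfold Sp at h1
    rw [mem_product] at h1
    refine ⟨h1.1, ?_⟩
    rw [← h5]
    exact h2
  · intro a ha
    rw [mem_filter] at ha
    rw [mem_filter, mem_filter, hQ]
    refine ⟨⟨?_, ha.2⟩, rfl, rfl⟩
    unfold Sp
    rw [mem_product, mem_product]
    exact ⟨ha.1, hs, hσ⟩
  · intro ω hω
    rw [mem_filter, hQ] at hω
    obtain ⟨-, h3, h4⟩ := hω
    show (ω.1, s₀, σ₀) = ω
    rw [← h3, ← h4]
  · intro a _
    rfl
  · intro ω _
    rfl

/-- PIECE [JC-G5] (about 300 lines; see `spike_F`, `Lib_MP_f1937f_jd/SpikeF.lean`, copy its private lemmas). PROOF. `K = M ^ 2`, `p₀` from `asym_C`. `s₀`, `σ₀` from `al_out` (with `p' = p`). `Rr = p ^ (1/4 - ε)`, `η = p ^ (-1/4 - ε) = Rr / √p`, `ν` from `spike` with `Y = √p / (4 K)`, `Δ a = [a = a₀] - [K ∣ a - a₀] ν ((a - a₀) / K)`,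
`μ' (a, s, σ) = μ (a, s, σ)` except that on the line `s = s₀`, `σ = σ₀`, `K ∣ a - a₀`, (`log p < |a|` or `a = a₀`), `η Δ a` is added. On the line `Sc s₀ p a` (`sc_congr`) and `rd M (mt p (a, s₀, σ₀)) = rd M (mt p (a₀, s₀, σ₀))` (`fc_congr` with `m := M`), so `InG`. As `|a₀| ≤ log p`, `μ (a₀, s₀, σ₀) = 0`, and
`μ' (a₀, s₀, σ₀) = η (1 - ν 0) ≥ η / 2`. `μ' ≥ 0` : for `|a| > log p`, `x = (a - a₀) / K ≠ 0`, either `ν x = 0` or `|a| ≤ √p / 2` and the lower bound for `μ` (`s₀ ≤ M ≤ K`, `D = |a ^ 2 - 4 p|`, `0 < D ≤ 4 p`) and `asym_C` : `η |ν x| ≤ 96 K Rr ^ 2 τ(|x|) / p ≤ c / log p / √p / (s₀ τ(D) ^ 2)`.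
Equidistribution: in the sum over the class of `g` the line contributes `η ∑ Δ a Uk k` over a class `K q ∣ a - t`, `q ≤ m / s`, or nothing (`line_class`), minus the terms with `|a| ≤ log p`, `a ≠ a₀`: `spike_equi K` gives `η 7 (K q) √(K q) (k + 1) / Rr ≤ 14 K √K (m / s) ^ 2 (k + 1) log p / √p`, and the omitted terms are at most
`(2 log p + 1)` terms, each at most `(k + 1) 96 K Rr ^ 2 τ(n) / p`; by `asym_C` with `D = 1` together at most `(k + 1) c / log p / √p ≤ 4 c (k + 1) log p / √p`. `C₁ = 14 K √K + 4 c`. (If `k`, `m` are such that `m` is not ... no condition is needed.) -/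
theorem spike_C (M : ℕ) (hM : 0 < M) (G : Subgroup (GL (Fin 2) (ZMod M))) (R : Finset (Matrix.SpecialLinearGroup (Fin 2) ℤ))
    (hR : Orb M G R) (c : ℝ) (hc : 0 < c) : ∃ C₁ : ℝ, 0 ≤ C₁ ∧ ∀ (a₀ : ℤ) (ε : ℝ), 0 < ε → ε ≤ 1 / 8 → ∃ p₀ : ℕ, ∀ p : ℕ, p.Prime →
      p₀ ≤ p → p.Coprime M → Al M G p a₀ → ∀ (C δ : ℝ) (μ : Om → ℝ), ULC M G R C δ p μ →
      (∀ ω, μ ω ≠ 0 → InG M G (rd M (mt p ω)) ∧ Real.log p < |(ω.1 : ℝ)|) →
      (∀ ω ∈ Sp R p, Sc ω.2.1 p ω.1 → InG M G (rd M (mt p ω)) → Real.log p < |(ω.1 : ℝ)| → |(ω.1 : ℝ)| ≤ √(p : ℝ) / 2 →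
        c / Real.log p / √(p : ℝ) / ((ω.2.1 : ℝ) * ((ω.1 ^ 2 - 4 * p).natAbs.divisors.card : ℝ) ^ 2) ≤ μ ω) →
      ∃ μ' : Om → ℝ, ULC M G R (C + C₁) δ p μ' ∧ (∀ ω, μ' ω ≠ 0 → InG M G (rd M (mt p ω)) ∧ (Real.log p < |(ω.1 : ℝ)| ∨ ω.1 = a₀)) ∧
        (p : ℝ) ^ (-(1 / 4) - ε) / 2 ≤ ∑ ω ∈ (Sp R p).filter (fun ω => ω.1 = a₀), μ' ω := by
  classical
  obtain ⟨K, hK⟩ : ∃ K : ℕ, K = M ^ 2 := ⟨_, rfl⟩
  have hK0 : 0 < K := by
    rw [hK]
    positivity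
  have hMK : M ≤ K := by
    rw [hK, sq]
    exact Nat.le_mul_of_pos_left M hM
  refine ⟨14 * (K * √(K : ℝ)) + 8 * c, by positivity, fun a₀ ε hε hε' => ?_⟩
  obtain ⟨p₀, hp₀2, hp₀⟩ := asym_C K hK0 c hc a₀ ε hε hε'
  refine ⟨p₀, fun p hpr hp hpM hAl C δ μ hU hμ hlow => ?_⟩
  obtain ⟨s₀, σ₀, hs₀, hs₀M, hσ₀, hSc₀, hIn₀⟩ := al_out M hM G R hR p p hpM (Nat.ModEq.refl p) a₀ hAl
  obtain ⟨hR1, hRY, haa, hal, hlog8, hasym⟩ := hp₀ p hp
  have hp2 : 2 ≤ p := hpr.two_le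
  have hp1 : 1 ≤ p := by omega
  have hp0 : (0 : ℝ) < (p : ℝ) := by exact_mod_cast hp1
  have hsq0 : 0 < √(p : ℝ) := Real.sqrt_pos.2 hp0
  have hlog : 1 / 2 ≤ Real.log p := by
    have h3 : Real.log 2 ≤ Real.log p := Real.log_le_log (by norm_num) (by exact_mod_cast hp2)
    have := Real.log_two_gt_d9
    linarith
  have hlog0 : 0 < Real.log p := by linarith
  have hK1 : (1 : ℝ) ≤ K := by exact_mod_cast hK0
  have hη : (p : ℝ) ^ (-(1 / 4) - ε) = (p : ℝ) ^ (1 / 4 - ε) / √(p : ℝ) := by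
    rw [Real.sqrt_eq_rpow, ← Real.rpow_sub hp0]
    congr 1
    ring
  obtain ⟨Rr, hRr⟩ : ∃ Rr, Rr = (p : ℝ) ^ (1 / 4 - ε) := ⟨_, rfl⟩
  obtain ⟨η, hη'⟩ : ∃ η, η = (p : ℝ) ^ (-(1 / 4) - ε) := ⟨_, rfl⟩
  rw [← hRr] at hR1 hRY hasym hη
  rw [← hη'] at hη ⊢
  have hη0 : 0 < η := by
    rw [hη]
    positivity
  obtain ⟨ν, hsupp, hsize, hzero, hmain⟩ := spike (√(p : ℝ) / (4 * K)) Rr hR1 hRY
  have hz := (abs_le.1 hzero).2
  have hne : ∀ a : ℤ, a ≠ a₀ → skg K ν a₀ a = 0 ∨ ((K : ℤ) ∣ a - a₀ ∧ |(a : ℝ)| ≤ √(p : ℝ) / 2 ∧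
      ∃ n : ℕ, n ≠ 0 ∧ (n : ℝ) ≤ √(p : ℝ) ∧ |η * skg K ν a₀ a| ≤ 96 * K * Rr ^ 2 * (n.divisors.card : ℝ) / p) := fun a ha =>
    skg_ne K hK0 p hp1 a₀ Rr η hη0 hη haa ν hsupp hsize ha
  -- the two consequences of `hasym`
  have hX0 : ∀ n : ℕ, 0 ≤ 96 * K * Rr ^ 2 * (n.divisors.card : ℝ) / p := fun n => by positivity
  have hQ0 : 0 ≤ c / Real.log p / √(p : ℝ) := by positivity
  have has1 : ∀ n D : ℕ, n ≠ 0 → (n : ℝ) ≤ √(p : ℝ) → D ≠ 0 → D ≤ 4 * p →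
      96 * K * Rr ^ 2 * (n.divisors.card : ℝ) / p ≤ c / Real.log p / √(p : ℝ) / ((s₀ : ℝ) * (D.divisors.card : ℝ) ^ 2) := by
    intro n D hn hn' hD hD'
    have h1 := hasym n D hn hn' hD hD'
    have hτ : (1 : ℝ) ≤ (D.divisors.card : ℝ) := by
      exact_mod_cast Finset.card_pos.2 ⟨1, Nat.one_mem_divisors.2 hD⟩
    have hs1 : (1 : ℝ) ≤ s₀ := by exact_mod_cast hs₀
    have hsK : (s₀ : ℝ) ≤ K := by exact_mod_cast (Nat.le_of_dvd hM hs₀M).trans hMK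
    have hpos : (0 : ℝ) < (s₀ : ℝ) * (D.divisors.card : ℝ) ^ 2 := by positivity
    rw [le_div_iff₀ hpos]
    refine le_trans (mul_le_mul_of_nonneg_left ?_ (hX0 n)) h1
    have h2 : (s₀ : ℝ) * (D.divisors.card : ℝ) ^ 2 ≤ K * (D.divisors.card : ℝ) ^ 2 := by gcongr
    have h3 : 0 ≤ (K : ℝ) * (D.divisors.card : ℝ) ^ 2 := by positivity
    nlinarith
  have has2 : ∀ n : ℕ, n ≠ 0 → (n : ℝ) ≤ √(p : ℝ) →
      96 * K * Rr ^ 2 * (n.divisors.card : ℝ) / p ≤ c / Real.log p / √(p : ℝ) / (2 * Real.log p + 1) := by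
    intro n hn hn'
    have h1 := hasym n 1 hn hn' one_ne_zero (by omega)
    rw [Nat.divisors_one, card_singleton, Nat.cast_one, one_pow, mul_one] at h1
    rw [le_div_iff₀ (by linarith)]
    refine le_trans (mul_le_mul_of_nonneg_left ?_ (hX0 n)) h1
    nlinarith
  -- the line
  have hs₀p : s₀ ∈ Icc 1 (2 * p) := by
    have h1 := (sc_le s₀ p hpr a₀ (sk_mem p hp1 a₀ (by linarith)) hSc₀).2
    rw [mem_Icc]
    refine ⟨hs₀, ?_⟩
    nlinarith
  have hdv : ∀ a : ℤ, (K : ℤ) ∣ a - a₀ → (s₀ : ℤ) ^ 2 ∣ a - a₀ ∧ ((M * s₀ : ℕ) : ℤ) ∣ a - a₀ := by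
    intro a ha
    have h1 : s₀ ^ 2 ∣ K := by
      rw [hK]
      exact pow_dvd_pow_of_dvd hs₀M 2
    have h2 : M * s₀ ∣ K := by
      rw [hK, sq]
      exact Nat.mul_dvd_mul_left M hs₀M
    refine ⟨?_, ?_⟩
    · have h3 : ((s₀ ^ 2 : ℕ) : ℤ) ∣ (K : ℤ) := Int.natCast_dvd_natCast.2 h1
      push_cast at h3
      exact h3.trans ha
    · exact (Int.natCast_dvd_natCast.2 h2).trans ha
  have hScl : ∀ a : ℤ, (K : ℤ) ∣ a - a₀ → Sc s₀ p a := fun a ha =>
    (sc_congr s₀ p a a₀ (hdv a ha).1).2 hSc₀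
  have hInl : ∀ a : ℤ, (K : ℤ) ∣ a - a₀ → InG M G (rd M (mt p (a, s₀, σ₀))) := by
    intro a ha
    obtain ⟨h1, h2⟩ := hdv a ha
    have h3 : rd M (Fc s₀ p a) = rd M (Fc s₀ p a₀) := fc_congr M s₀ p a a₀ hs₀ (hScl a ha) h1 h2
    have h4 : rd M (mt p (a, s₀, σ₀)) = rd M (mt p (a₀, s₀, σ₀)) := by
      show rd M (σ₀.val * Fc s₀ p a * (σ₀⁻¹).val) = rd M (σ₀.val * Fc s₀ p a₀ * (σ₀⁻¹).val)
      rw [rd_mul, rd_mul, rd_mul, rd_mul, h3]
    rw [h4]
    exact hIn₀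
  -- the added function
  obtain ⟨f, hf⟩ : ∃ f : ℤ → ℝ, ∀ a, f a =
      if |(a : ℝ)| ≤ Real.log p ∧ a ≠ a₀ then 0 else η * skg K ν a₀ a := ⟨_, fun _ => rfl⟩
  have hf0 : η / 2 ≤ f a₀ := by
    rw [hf, if_neg (fun h => h.2 rfl), skg_self]
    nlinarith
  have hf1 : ∀ a, f a ≠ 0 → (K : ℤ) ∣ a - a₀ ∧ |(a : ℝ)| ≤ √(p : ℝ) / 2 ∧ (Real.log p < |(a : ℝ)| ∨ a = a₀) := by
    intro a ha
    by_cases haa' : a = a₀
    · subst haa'
      exact ⟨by rw [sub_self]; exact dvd_zero _, by linarith, Or.inr rfl⟩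
    · rw [hf] at ha
      split_ifs at ha with h
      · exact absurd rfl ha
      · have h1 : Real.log p < |(a : ℝ)| := by
          by_contra hcon
          exact h ⟨not_lt.1 hcon, haa'⟩
        rcases hne a haa' with h2 | ⟨h2, h3, -⟩
        · rw [h2, mul_zero] at ha
          exact absurd rfl ha
        · exact ⟨h2, h3, Or.inl h1⟩
  obtain ⟨μ', hμ'⟩ : ∃ μ' : Om → ℝ, ∀ ω, μ' ω =
      μ ω + (if ω.2.1 = s₀ ∧ ω.2.2 = σ₀ then f ω.1 else 0) := ⟨_, fun _ => rfl⟩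
  have hnn : ∀ ω, 0 ≤ μ' ω := by
    intro ω
    rw [hμ']
    have h0 := hU.nonneg ω
    by_cases hω : ω.2.1 = s₀ ∧ ω.2.2 = σ₀
    · rw [if_pos hω]
      by_cases ha : ω.1 = a₀
      · rw [ha]
        linarith
      · by_cases hfa : f ω.1 = 0
        · rw [hfa, add_zero]
          exact h0
        · obtain ⟨h1, h2, h3⟩ := hf1 _ hfa
          have h3' : Real.log p < |(ω.1 : ℝ)| := h3.resolve_right ha
          obtain ⟨a, s, σ⟩ := ω
          obtain ⟨hs, hσ⟩ := hω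
          dsimp only at hs hσ ha hfa h1 h2 h3' h0 ⊢
          subst hs hσ
          have h4 := hlow (a, s, σ) (by
            unfold Sp
            rw [mem_product, mem_product]
            exact ⟨sk_mem p hp1 a h2, hs₀p, hσ₀⟩) (hScl a h1) (hInl a h1) h3' h2
          have hfe : f a = η * skg K ν a₀ a := by
            rw [hf, if_neg (fun h => absurd h.1 (not_le.2 h3'))]
          rcases hne a ha with h5 | ⟨-, -, n, hn, hn', hb⟩
          · rw [hfe, h5, mul_zero, add_zero]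
            exact h0
          · obtain ⟨hD1, hD2⟩ := sk_disc p hp1 a h2
            have h6 := has1 n _ hn hn' hD1 hD2
            have h7 := (abs_le.1 hb).1
            rw [hfe]
            dsimp only at h4
            linarith
    · rw [if_neg hω, add_zero]
      exact h0
  have hsup : ∀ ω, μ' ω ≠ 0 → μ ω ≠ 0 ∨ ((ω.2.1 = s₀ ∧ ω.2.2 = σ₀) ∧ (K : ℤ) ∣ ω.1 - a₀ ∧ |(ω.1 : ℝ)| ≤ √(p : ℝ) / 2 ∧
      (Real.log p < |(ω.1 : ℝ)| ∨ ω.1 = a₀)) := by
    intro ω hω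
    rw [hμ'] at hω
    by_cases h1 : μ ω = 0
    · right
      rw [h1, zero_add] at hω
      split_ifs at hω with h2
      · exact ⟨h2, hf1 _ hω⟩
      · exact absurd rfl hω
    · exact Or.inl h1
  refine ⟨μ', ⟨hnn, ?_, ?_⟩, ?_, ?_⟩
  · intro ω hω
    rcases hsup ω hω with h | ⟨⟨h1, h2⟩, h3, h4, -⟩
    · exact hU.supp ω h
    · obtain ⟨a, s, σ⟩ := ω
      dsimp only at h1 h2 h3 h4 ⊢
      subst h1 h2
      refine ⟨?_, hScl a h3⟩
      unfold Sp
      rw [mem_product, mem_product]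
      exact ⟨sk_mem p hp1 a h4, hs₀p, hσ₀⟩
  · intro m h hm hmp hpm s hs g hg hdet hsc k
    have hE := hU.equi m h hm hmp hpm s hs g hg hdet hsc k
    have hpm' : p.Coprime m := (Nat.Prime.coprime_iff_not_dvd hpr).2 hpm
    have hspos : 0 < s := Nat.pos_of_dvd_of_pos hs hm
    have hms : (1 : ℝ) ≤ (m : ℝ) / s := by
      rw [le_div_iff₀ (by exact_mod_cast hspos), one_mul]
      exact_mod_cast Nat.le_of_dvd hm hs
    have hk0 : (0 : ℝ) ≤ k := Nat.cast_nonneg k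
    -- the contribution of the line
    have hT : |∑ ω ∈ (Sp R p).filter (fun ω => CjG M m h G g.val (rd m (mt p ω))),
        (if ω.2.1 = s₀ ∧ ω.2.2 = σ₀ then f ω.1 * Uk k (xx p ω.1) else 0)| ≤
        (14 * (K * √(K : ℝ)) + 8 * c) * ((m : ℝ) / s) ^ 2 * (k + 1) * (Real.log p / √(p : ℝ)) := by
      rw [sk_line R p s₀ σ₀ hs₀p hσ₀ _ _ (fun ω => Iff.rfl) (fun a => f a * Uk k (xx p a))]
      rcases line_class M hM G p a₀ s₀ hs₀M σ₀ hSc₀ m h hm hpm' s hs g hsc with hno | ⟨q, t, hq, hqs, hqm, ht, hcl⟩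
      · rw [sum_eq_zero, abs_zero]
        · positivity
        · intro a ha
          rw [mem_filter] at ha
          by_cases hfa : f a = 0
          · rw [hfa, zero_mul]
          · have h1 := (hf1 a hfa).1
            rw [hK] at h1
            exact absurd ha.2 (hno a h1)
      · rw [← hK] at hcl ht
        have hm' : 0 < K * q := Nat.mul_pos hK0 hq
        have h2 := spike_equi K hK0 a₀ p hp2 haa Rr hR1 ν hsupp hmain (K * q) hm' (Dvd.intro q rfl) t k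
        obtain ⟨F, hF⟩ : ∃ F, F = (V p).filter (fun a => ((K * q : ℕ) : ℤ) ∣ a - t) := ⟨_, rfl⟩
        rw [← hF] at h2
        obtain ⟨H, hH⟩ : ∃ H, H = F.filter (fun a : ℤ => |(a : ℝ)| ≤ Real.log p ∧ a ≠ a₀) := ⟨_, rfl⟩
        have e0 : ∑ a ∈ (V p).filter (fun a => CjG M m h G g.val (rd m (mt p (a, s₀, σ₀)))), f a * Uk k (xx p a) =
            ∑ a ∈ F, f a * Uk k (xx p a) := by
          rw [hF, sum_filter, sum_filter]
          refine sum_congr rfl fun a _ => ?_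
          by_cases hfa : f a = 0
          · rw [hfa, zero_mul, ite_self, ite_self]
          · have h1 := (hf1 a hfa).1
            have h3 := hcl a h1
            by_cases h4 : CjG M m h G g.val (rd m (mt p (a, s₀, σ₀)))
            · rw [if_pos h4, if_pos (h3.1 h4)]
            · rw [if_neg h4, if_neg (fun h5 => h4 (h3.2 h5))]
        have e1 : ∑ a ∈ F, f a * Uk k (xx p a) =
            η * ∑ a ∈ F, skg K ν a₀ a * Uk k (xx p a) - ∑ a ∈ H, η * skg K ν a₀ a * Uk k (xx p a) := by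
          rw [hH, sum_filter, mul_sum, ← sum_sub_distrib]
          refine sum_congr rfl fun a _ => ?_
          rw [hf]
          split_ifs with h
          · ring
          · ring
        have hq1 : (1 : ℝ) ≤ q := by exact_mod_cast hq
        have hR0 : 0 < Rr := by linarith
        have hmm : ((K * q : ℕ) : ℝ) * √((K * q : ℕ) : ℝ) ≤ (K * √(K : ℝ)) * ((m : ℝ) / s) ^ 2 := by
          push_cast
          rw [Real.sqrt_mul (by positivity)]
          have h5 : √(q : ℝ) ≤ q := by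
            rw [Real.sqrt_le_left (by positivity)]
            nlinarith
          calc (K : ℝ) * q * (√(K : ℝ) * √(q : ℝ)) = (K * √(K : ℝ)) * (q * √(q : ℝ)) := by ring
            _ ≤ (K * √(K : ℝ)) * (q * q) := by gcongr
            _ = (K * √(K : ℝ)) * (q : ℝ) ^ 2 := by ring
            _ ≤ _ := by gcongr
        have h4 : η * (7 * (((K * q : ℕ) : ℝ) * √((K * q : ℕ) : ℝ)) * (k + 1) / Rr) ≤
            14 * (K * √(K : ℝ)) * ((m : ℝ) / s) ^ 2 * (k + 1) * (Real.log p / √(p : ℝ)) := by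
          have e2 : η * (7 * (((K * q : ℕ) : ℝ) * √((K * q : ℕ) : ℝ)) * (k + 1) / Rr) =
              7 * (((((K * q : ℕ) : ℝ) * √((K * q : ℕ) : ℝ)) * (k + 1)) / √(p : ℝ)) := by
            rw [hη]
            field_simp
          rw [e2]
          calc 7 * (((((K * q : ℕ) : ℝ) * √((K * q : ℕ) : ℝ)) * (k + 1)) / √(p : ℝ))
              ≤ 7 * ((((K * √(K : ℝ)) * ((m : ℝ) / s) ^ 2) * (k + 1)) / √(p : ℝ)) := by gcongr
            _ = (14 * (1 / 2)) * ((((K * √(K : ℝ)) * ((m : ℝ) / s) ^ 2) * (k + 1)) / √(p : ℝ)) := by norm_num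
            _ ≤ (14 * Real.log p) * ((((K * √(K : ℝ)) * ((m : ℝ) / s) ^ 2) * (k + 1)) / √(p : ℝ)) := by gcongr
            _ = _ := by ring
        have e3 : |η * ∑ a ∈ F, skg K ν a₀ a * Uk k (xx p a)| ≤
            14 * (K * √(K : ℝ)) * ((m : ℝ) / s) ^ 2 * (k + 1) * (Real.log p / √(p : ℝ)) := by
          rw [abs_mul, abs_of_pos hη0]
          exact (mul_le_mul_of_nonneg_left h2 hη0.le).trans h4
        have e4 : |∑ a ∈ H, η * skg K ν a₀ a * Uk k (xx p a)| ≤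
            8 * c * ((m : ℝ) / s) ^ 2 * (k + 1) * (Real.log p / √(p : ℝ)) := by
          have hterm : ∀ a ∈ H, |η * skg K ν a₀ a * Uk k (xx p a)| ≤
              c / Real.log p / √(p : ℝ) / (2 * Real.log p + 1) * 2 := by
            intro a ha
            rw [hH, mem_filter] at ha
            rw [abs_mul]
            have h5 : |η * skg K ν a₀ a| ≤ c / Real.log p / √(p : ℝ) / (2 * Real.log p + 1) := by
              rcases hne a ha.2.2 with h6 | ⟨-, -, n, hn, hn', hb⟩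
              · rw [h6, mul_zero, abs_zero]
                positivity
              · exact hb.trans (has2 n hn hn')
            refine mul_le_mul h5 (Uk_le_two k ?_) (abs_nonneg _) (by positivity)
            unfold xx
            rw [abs_div, abs_of_pos (by positivity : (0 : ℝ) < 2 * √(p : ℝ)), div_le_iff₀ (by positivity)]
            have := ha.2.1
            linarith
          have hcard : (H.card : ℝ) ≤ 2 * Real.log p + 1 := by
            refine sk_card H hlog0.le fun a ha => ?_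
            rw [hH, mem_filter] at ha
            exact ha.2.1
          have hX : (1 : ℝ) ≤ ((m : ℝ) / s) ^ 2 * (k + 1) :=
            one_le_mul_of_one_le_of_one_le (one_le_pow₀ hms) (by linarith)
          have hL : (0 : ℝ) < 2 * Real.log p + 1 := by linarith
          calc |∑ a ∈ H, η * skg K ν a₀ a * Uk k (xx p a)|
              ≤ ∑ a ∈ H, |η * skg K ν a₀ a * Uk k (xx p a)| := abs_sum_le_sum_abs _ _
            _ ≤ ∑ _a ∈ H, c / Real.log p / √(p : ℝ) / (2 * Real.log p + 1) * 2 := sum_le_sum hterm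
            _ = (H.card : ℝ) * (c / Real.log p / √(p : ℝ) / (2 * Real.log p + 1) * 2) := by rw [sum_const, nsmul_eq_mul]
            _ ≤ (2 * Real.log p + 1) * (c / Real.log p / √(p : ℝ) / (2 * Real.log p + 1) * 2) :=
                mul_le_mul_of_nonneg_right hcard (by positivity)
            _ = 8 * c * (1 / 4) / Real.log p / √(p : ℝ) := by
                field_simp
                norm_num
            _ ≤ 8 * c * (Real.log p * Real.log p) / Real.log p / √(p : ℝ) := by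
                have h9 : (1 / 4 : ℝ) ≤ Real.log p * Real.log p := by nlinarith
                gcongr
            _ = 8 * c * (Real.log p / √(p : ℝ)) * 1 := by
                field_simp
            _ ≤ 8 * c * (Real.log p / √(p : ℝ)) * (((m : ℝ) / s) ^ 2 * (k + 1)) :=
                mul_le_mul_of_nonneg_left hX (by positivity)
            _ = _ := by ring
        rw [e0, e1]
        refine (abs_sub _ _).trans ((add_le_add e3 e4).trans (le_of_eq ?_))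
        ring
    have e6 : ∑ ω ∈ (Sp R p).filter (fun ω => CjG M m h G g.val (rd m (mt p ω))), μ' ω * Uk k (xx p ω.1) =
        ∑ ω ∈ (Sp R p).filter (fun ω => CjG M m h G g.val (rd m (mt p ω))), μ ω * Uk k (xx p ω.1) +
        ∑ ω ∈ (Sp R p).filter (fun ω => CjG M m h G g.val (rd m (mt p ω))),
          (if ω.2.1 = s₀ ∧ ω.2.2 = σ₀ then f ω.1 * Uk k (xx p ω.1) else 0) := by
      rw [← sum_add_distrib]
      refine sum_congr rfl fun ω _ => ?_
      rw [hμ']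
      split_ifs with h1
      · ring
      · ring
    rw [e6]
    have e7 : ∀ A B D E₁ E₂ : ℝ, |A - D| ≤ E₁ → |B| ≤ E₂ → |A + B - D| ≤ E₂ + E₁ := by
      intro A B D E₁ E₂ h1 h2
      have h3 : A + B - D = B + (A - D) := by ring
      rw [h3]
      exact (abs_add_le _ _).trans (add_le_add h2 h1)
    refine (e7 _ _ _ _ _ hE hT).trans (le_of_eq ?_)
    ring
  · intro ω hω
    rcases hsup ω hω with h | ⟨⟨h1, h2⟩, h3, h4, h5⟩
    · exact ⟨(hμ ω h).1, Or.inl (hμ ω h).2⟩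
    · obtain ⟨a, s, σ⟩ := ω
      dsimp only at h1 h2 h3 h4 h5 ⊢
      subst h1 h2
      exact ⟨hInl a h3, h5⟩
  · have hmem : (a₀, s₀, σ₀) ∈ (Sp R p).filter (fun ω : Om => ω.1 = a₀) := by
      rw [mem_filter]
      refine ⟨?_, rfl⟩
      unfold Sp
      rw [mem_product, mem_product]
      exact ⟨sk_mem p hp1 a₀ (by linarith), hs₀p, hσ₀⟩
    refine le_trans ?_ (single_le_sum (f := μ') (fun ω _ => hnn ω) hmem)
    rw [hμ', if_pos ⟨rfl, rfl⟩]
    have h0 := hU.nonneg (a₀, s₀, σ₀)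
    linarith

end Pool.Agent.JC
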