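import Pool.Agent.Lib_MP_f1937f_jc.LawG
import Pool.Agent.Lib_MP_f1937f_jc.NormC
import Pool.Agent.Lib_MP_f1937f_jc.SpikeC
import Pool.Agent.Lib_MP_f1937f_jc.SmallC
import Pool.Agent.Lib_MP_f1937f_jc.DlS

/-!
# The laws for all primes
-/

set_option autoImplicit false

namespace Pool.Agent.JC

open Finset Pool.Agent.TB Pool.Agent.JB Pool.Agent.JD

theorem ULC.mono {M : ℕ} {G : Subgroup (GL (Fin 2) (ZMod M))} {R : Finset (Matrix.SpecialLinearGroup (Fin 2) ℤ)} {A B δ δ' : ℝ} {p : ℕ}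
    {μ : Om → ℝ} (hAB : A ≤ B) (hδ : δ ≤ δ') (hg : ULC M G R A δ p μ) : ULC M G R B δ' p μ := by
  refine ⟨hg.nonneg, hg.supp, fun m h hm hmp hpm s hs g hgG hdet hsc k => (hg.equi m h hm hmp hpm s hs g hgG hdet hsc k).trans ?_⟩
  have h2 : (0 : ℝ) ≤ Real.log p / √(p : ℝ) := div_nonneg (Real.log_natCast_nonneg p) (Real.sqrt_nonneg _)
  gcongr

/-- laws for large primes: `P a₀ n` is a threshold for the spike at `a₀` with `ε = 1 / n` -/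
theorem law_largeC (M : ℕ) (hM : 0 < M) (G : Subgroup (GL (Fin 2) (ZMod M)))
    (hG : ∀ d : (ZMod M)ˣ, ∃ g ∈ G, g.val.det = (d : ZMod M)) (R : Finset (Matrix.SpecialLinearGroup (Fin 2) ℤ)) (hR : Orb M G R) :
    ∃ (B : ℝ) (p₂ : ℕ) (P : ℤ → ℕ → ℕ), 0 ≤ B ∧ ∀ p : ℕ, p.Prime → p.Coprime M → p₂ ≤ p →
      (∃ ρ : Om → ℝ, ULC M G R B (B * dl p) p ρ ∧ ∑ ω ∈ Sp R p, ρ ω = 1 ∧
        ∀ ω, ρ ω ≠ 0 → InG M G (rd M (mt p ω)) ∧ Real.log p < |(ω.1 : ℝ)|) ∧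
      ∀ (a₀ : ℤ) (n : ℕ), 8 ≤ n → P a₀ n ≤ p → Al M G p a₀ →
        ∃ ρ : Om → ℝ, ULC M G R B (B * dl p) p ρ ∧ ∑ ω ∈ Sp R p, ρ ω = 1 ∧
          (∀ ω, ρ ω ≠ 0 → InG M G (rd M (mt p ω)) ∧ (Real.log p < |(ω.1 : ℝ)| ∨ ω.1 = a₀)) ∧
          (p : ℝ) ^ (-(1 / 4) - 1 / (n : ℝ)) / 4 ≤ ∑ ω ∈ (Sp R p).filter (fun ω => ω.1 = a₀), ρ ω := by
  obtain ⟨C, c, p₀, hC, hc, hlaw⟩ := law_G M hM G hG R hR
  obtain ⟨C₁, hC₁, hsp⟩ := spike_C M hM G R hR c hc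
  choose! P hP using hsp
  obtain ⟨A, hA, hnorm⟩ := norm_C M hM G hG R
  have hA0 : 0 ≤ A := by linarith
  obtain ⟨p₃, hp₃⟩ := LawSpike_log (2 * (A * (C + C₁)))
  obtain ⟨p₄, hp₄⟩ := dl_small (A * C)
  have hE : 0 ≤ C + C₁ := by linarith
  refine ⟨A * (C + C₁), max (max p₀ M) (max p₃ p₄), fun a₀ n => P a₀ (1 / (n : ℝ)), mul_nonneg hA0 hE, ?_⟩
  intro p hp hpM hpp
  have hp0 : p₀ ≤ p := (le_max_left _ _).trans ((le_max_left _ _).trans hpp)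
  have hpM' : M ≤ p := (le_max_right _ _).trans ((le_max_left _ _).trans hpp)
  have hp3 : p₃ ≤ p := (le_max_left _ _).trans ((le_max_right _ _).trans hpp)
  have hp4 : p₄ ≤ p := (le_max_right _ _).trans ((le_max_right _ _).trans hpp)
  have hlog : (0 : ℝ) ≤ Real.log p / √(p : ℝ) := div_nonneg (Real.log_natCast_nonneg p) (Real.sqrt_nonneg _)
  have hdl : 0 ≤ dl p := dl_nonneg p
  have h5 := hp₃ p hp3
  have h6 := hp₄ p hp hp4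
  have hCd : 0 ≤ C * dl p := mul_nonneg hC hdl
  have hsmall : A * ((C + C₁) * (Real.log p / √(p : ℝ)) + C * dl p) ≤ 1 / 2 := by
    have e1 : A * ((C + C₁) * (Real.log p / √(p : ℝ)) + C * dl p) =
        (2 * (A * (C + C₁)) * (Real.log p / √(p : ℝ))) / 2 + A * C * dl p := by ring
    rw [e1]
    linarith
  have hδ : A * (C * dl p) ≤ A * (C + C₁) * dl p := by
    have : A * (C + C₁) * dl p = A * (C * dl p) + A * (C₁ * dl p) := by ring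
    rw [this]
    have : 0 ≤ A * (C₁ * dl p) := mul_nonneg hA0 (mul_nonneg hC₁ hdl)
    linarith
  obtain ⟨μ, h1, h2, h3⟩ := hlaw p hp hp0 hpM
  constructor
  · obtain ⟨ρ, g1, g2, -, g4⟩ := hnorm p hp hpM' hpM (C + C₁) (C * dl p) μ hE hCd
      (h1.mono (by linarith) le_rfl) (fun ω hω => (h2 ω hω).1) hsmall
    refine ⟨ρ, g1.mono le_rfl hδ, g2, fun ω hω => h2 ω fun h => hω (g4 ω h)⟩
  · intro a₀ n hn hPn hal
    have hn' : (8 : ℝ) ≤ n := by exact_mod_cast hn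
    obtain ⟨μ', k1, k2, k3⟩ := hP a₀ (1 / (n : ℝ)) (by positivity) (one_div_le_one_div_of_le (by norm_num) hn')
      p hp hPn hpM hal C (C * dl p) μ h1 h2 h3
    obtain ⟨ρ, g1, g2, g3, g4⟩ := hnorm p hp hpM' hpM (C + C₁) (C * dl p) μ' hE hCd k1 (fun ω hω => (k2 ω hω).1) hsmall
    refine ⟨ρ, g1.mono le_rfl hδ, g2, fun ω hω => k2 ω fun h => hω (g4 ω h), ?_⟩
    have h7 : (∑ ω ∈ (Sp R p).filter (fun ω => ω.1 = a₀), μ' ω) / 2 ≤ ∑ ω ∈ (Sp R p).filter (fun ω => ω.1 = a₀), ρ ω := by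
      rw [sum_div]
      exact sum_le_sum fun ω _ => g3 ω
    linarith

/-- laws for all primes: the integers of `A` receive spikes, the other ones are avoided -/
theorem law_allC (M : ℕ) (hM : 0 < M) (G : Subgroup (GL (Fin 2) (ZMod M)))
    (hG : ∀ d : (ZMod M)ˣ, ∃ g ∈ G, g.val.det = (d : ZMod M)) (R : Finset (Matrix.SpecialLinearGroup (Fin 2) ℤ)) (hR : Orb M G R)
    (A : Set ℤ) (r : ℕ → ℤ) :
    ∃ (B : ℝ) (ρ : ℕ → Om → ℝ) (p₂ : ℕ) (P : ℤ → ℕ → ℕ), 0 ≤ B ∧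
      (∀ p : ℕ, p.Prime → ULC M G R B (B * dl p) p (ρ p)) ∧ (∀ p : ℕ, p.Prime → ∑ ω ∈ Sp R p, ρ p ω = 1) ∧
      ∀ p : ℕ, p.Prime → p₂ ≤ p →
        (∀ ω, ρ p ω ≠ 0 → InG M G (rd M (mt p ω)) ∧ (Real.log p < |(ω.1 : ℝ)| ∨ ω.1 ∈ A)) ∧
        ∀ n : ℕ, 8 ≤ n → n ≤ p → P (r p) n ≤ p → r p ∈ A → Al M G p (r p) →
          (p : ℝ) ^ (-(1 / 4) - 1 / (n : ℝ)) / 4 ≤ ∑ ω ∈ (Sp R p).filter (fun ω => ω.1 = r p), ρ p ω := by
  classical
  obtain ⟨B, p₂, P, hB, hL⟩ := law_largeC M hM G hG R hR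
  have hcop : ∀ p : ℕ, p.Prime → M + 1 ≤ p → p.Coprime M := fun p hp hpm =>
    (Nat.Prime.coprime_iff_not_dvd hp).2 fun h => by
      have := Nat.le_of_dvd hM h
      omega
  obtain ⟨C₁, hC₁, h1⟩ := small_C M hM G R hR.1 (max p₂ (M + 1))
  have key : ∀ p : ℕ, ∃ ρ : Om → ℝ, (p.Prime → ULC M G R (max B C₁) (max B C₁ * dl p) p ρ ∧ ∑ ω ∈ Sp R p, ρ ω = 1) ∧
      (p.Prime → max p₂ (M + 1) ≤ p →
        (∀ ω, ρ ω ≠ 0 → InG M G (rd M (mt p ω)) ∧ (Real.log p < |(ω.1 : ℝ)| ∨ ω.1 ∈ A)) ∧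
        ∀ n : ℕ, 8 ≤ n → n ≤ p → P (r p) n ≤ p → r p ∈ A → Al M G p (r p) →
          (p : ℝ) ^ (-(1 / 4) - 1 / (n : ℝ)) / 4 ≤ ∑ ω ∈ (Sp R p).filter (fun ω => ω.1 = r p), ρ ω) := by
    intro p
    have hdl := dl_nonneg p
    have hδB : B * dl p ≤ max B C₁ * dl p := mul_le_mul_of_nonneg_right (le_max_left _ _) hdl
    by_cases hpp : p.Prime
    · by_cases hp : max p₂ (M + 1) ≤ p
      · obtain ⟨hL1, hL2⟩ := hL p hpp (hcop p hpp ((le_max_right _ _).trans hp)) ((le_max_left _ _).trans hp)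
        by_cases hup : r p ∈ A ∧ Al M G p (r p)
        · set N : Finset ℕ := (Icc 8 p).filter (fun n => P (r p) n ≤ p) with hN
          rcases N.eq_empty_or_nonempty with hN0 | hN0
          · obtain ⟨ρ, hρ, g1, g2⟩ := hL1
            refine ⟨ρ, fun _ => ⟨hρ.mono (le_max_left _ _) hδB, g1⟩, fun _ _ =>
              ⟨fun ω hω => ⟨(g2 ω hω).1, Or.inl (g2 ω hω).2⟩, ?_⟩⟩
            intro n hn8 hnp hPn _ _
            have : n ∈ N := mem_filter.mpr ⟨mem_Icc.mpr ⟨hn8, hnp⟩, hPn⟩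
            rw [hN0] at this
            simp at this
          · set n₁ := N.max' hN0 with hn₁
            have hmem : n₁ ∈ N := N.max'_mem hN0
            rw [hN, mem_filter, mem_Icc] at hmem
            obtain ⟨⟨h8, hnp⟩, hPn⟩ := hmem
            have h8' : (8 : ℝ) ≤ n₁ := by exact_mod_cast h8
            obtain ⟨ρ, hρ, g1, g2, g3⟩ := hL2 (r p) n₁ h8 hPn hup.2
            refine ⟨ρ, fun _ => ⟨hρ.mono (le_max_left _ _) hδB, g1⟩, fun _ _ =>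
              ⟨fun ω hω => ⟨(g2 ω hω).1, (g2 ω hω).2.imp id fun (h : ω.1 = r p) => by rw [h]; exact hup.1⟩, ?_⟩⟩
            intro n hn8 hnp' hPn' _ _
            have hle : n ≤ n₁ := N.le_max' n (mem_filter.mpr ⟨mem_Icc.mpr ⟨hn8, hnp'⟩, hPn'⟩)
            have hn0 : (0 : ℝ) < n := by exact_mod_cast (by omega : 0 < n)
            have hp1 : (1 : ℝ) ≤ p := by exact_mod_cast hpp.one_le
            have h5 : 1 / (n₁ : ℝ) ≤ 1 / (n : ℝ) := one_div_le_one_div_of_le hn0 (by exact_mod_cast hle)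
            have h6 := Real.rpow_le_rpow_of_exponent_le hp1 (by linarith : -(1 / 4) - 1 / (n : ℝ) ≤ -(1 / 4) - 1 / (n₁ : ℝ))
            linarith
        · obtain ⟨ρ, hρ, g1, g2⟩ := hL1
          refine ⟨ρ, fun _ => ⟨hρ.mono (le_max_left _ _) hδB, g1⟩, fun _ _ =>
            ⟨fun ω hω => ⟨(g2 ω hω).1, Or.inl (g2 ω hω).2⟩, ?_⟩⟩
          intro n _ _ _ hA hu0
          exact absurd ⟨hA, hu0⟩ hup
      · obtain ⟨ρ, hρ, g1⟩ := h1 p hpp (by omega)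
        exact ⟨ρ, fun _ => ⟨hρ.mono (le_max_right _ _) (mul_nonneg (hB.trans (le_max_left _ _)) hdl), g1⟩, fun _ h => absurd h hp⟩
    · exact ⟨0, fun h => absurd h hpp, fun h => absurd h hpp⟩
  choose ρ hρ1 hρ2 using key
  exact ⟨max B C₁, ρ, max p₂ (M + 1), P, hB.trans (le_max_left _ _), fun p hp => (hρ1 p hp).1, fun p hp => (hρ1 p hp).2, hρ2⟩

end Pool.Agent.JC
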