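import Pool.Agent.Lib_MP_f1937f_jc.Rrs
import Pool.Agent.Lib_MP_f1937f_jd.CcStep

/-!
# The local weights
-/

set_option autoImplicit false

namespace Pool.Agent.JC

open Finset Pool.Agent.TB Pool.Agent.JB Pool.Agent.JD

private theorem lws_pow (l k j : ℕ) : (l ^ k) ^ 2 * l ^ j = l ^ (2 * k + j) := by
  rw [← pow_mul, ← pow_add, mul_comm k 2]

private theorem lws_kap (l : ℕ) (hl : l.Prime) : kap l / (l : ℝ) ≤ 2 / 3 := by
  have h2 : (2 : ℝ) ≤ (l : ℝ) := by exact_mod_cast hl.two_le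
  have h0 : (0 : ℝ) < (l : ℝ) := by linarith
  have h1 : (0 : ℝ) < (l : ℝ) ^ 2 - 1 := by nlinarith
  have e : kap l / (l : ℝ) = (l : ℝ) / ((l : ℝ) ^ 2 - 1) := by
    unfold kap
    field_simp
  rw [e, div_le_div_iff₀ h1 (by norm_num)]
  nlinarith [mul_nonneg (by linarith : (0 : ℝ) ≤ 2 * l + 1) (by linarith : (0 : ℝ) ≤ (l : ℝ) - 2)]

/-- PIECE [JC-L4] (all theorems of this file, about 120 lines). -/
theorem lw_nonneg (l k j : ℕ) (hl : l.Prime) (d a : ℤ) : 0 ≤ lw l k j d a := by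
  have h1 := kap_pos hl.two_le
  unfold lw
  split_ifs
  · exact zero_le_one
  · positivity
  · positivity

theorem lw_per (l k j : ℕ) (d a a' : ℤ) (h : ((l ^ (2 * k + j) : ℕ) : ℤ) ∣ a - a') : lw l k j d a = lw l k j d a' := by
  unfold lw
  split_ifs with hk hj
  · rfl
  · rw [hk, Nat.mul_zero, Nat.zero_add] at h
    rw [rho_congr (d := d) (d' := d) (by simp) h]
  · rw [rr_per (l ^ k) d a a' (l ^ j) (by rw [lws_pow]; exact h)]

/-- `k = 0`: `cc_step` with `e = l ^ j` (`CC d a (l ^ j) = lw l 0 j d a`); `k ≥ 1`: `rr_step` with `S = l ^ k`, `e = l ^ j` -/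
theorem lw_step (l k j : ℕ) (hl : l.Prime) (d t w : ℤ) (hd : ¬ (l : ℤ) ∣ d) (hw : ¬ (l : ℤ) ∣ w) :
    ∑ i ∈ range l, lw l k (j + 1) d (t + ((l ^ (2 * k + j) : ℕ) : ℤ) * w * i) = l * lw l k j d t := by
  have hlp : Prime (l : ℤ) := Nat.prime_iff_prime_int.mp hl
  have hcop : IsCoprime d (l : ℤ) := ((hlp.coprime_iff_not_dvd).mpr hd).symm
  have hcp : ∀ n : ℕ, IsCoprime d ((l ^ n : ℕ) : ℤ) := fun n => by
    rw [Nat.cast_pow]
    exact hcop.pow_right
  by_cases hk : k = 0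
  · subst hk
    have e1 : ∀ a : ℤ, ∀ i : ℕ, lw l 0 i d a = CC d a (l ^ i) := by
      intro a i
      unfold lw
      rw [if_pos rfl]
      split_ifs with hi
      · rw [hi, pow_zero, CC_one]
      · rw [CC_pow d a hl (by omega)]
    have h := cc_step d t w (l ^ j) l (Nat.pow_pos hl.pos) hl (by rw [← pow_succ]; exact hcp _) hw
    rw [e1 t j, ← h]
    refine Finset.sum_congr rfl fun i _ => ?_
    rw [e1, Nat.mul_zero, Nat.zero_add, pow_succ]
  · have h := rr_step (l ^ k) d t w (l ^ j) l (Nat.pow_pos hl.pos) (Nat.pow_pos hl.pos) hl (dvd_pow_self l hk) (hcp k) hw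
    rw [lws_pow] at h
    have hR : ((∑ i ∈ range l, Rr (l ^ k) d (t + ((l ^ (2 * k + j) : ℕ) : ℤ) * w * i) (l ^ j * l) : ℕ) : ℝ) =
        ((l * Rr (l ^ k) d t (l ^ j) : ℕ) : ℝ) := by rw [h]
    rw [Nat.cast_sum, Nat.cast_mul] at hR
    have e2 : ∀ a : ℤ, ∀ i : ℕ, lw l k i d a = kap l / (l : ℝ) ^ (2 * k) * (Rr (l ^ k) d a (l ^ i) : ℝ) := by
      intro a i
      unfold lw
      rw [if_neg hk]
    have e3 : ∑ i ∈ range l, lw l k (j + 1) d (t + ((l ^ (2 * k + j) : ℕ) : ℤ) * w * i) =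
        ∑ i ∈ range l, kap l / (l : ℝ) ^ (2 * k) * (Rr (l ^ k) d (t + ((l ^ (2 * k + j) : ℕ) : ℤ) * w * i) (l ^ j * l) : ℝ) := by
      refine Finset.sum_congr rfl fun i _ => ?_
      rw [e2, pow_succ]
    rw [e3, ← Finset.mul_sum, hR, e2]
    ring

/-- `rr_mono`; for `k = j = 0` : `kap l / l² * Rr l d a 1 ≤ kap l / l ≤ 1` (`rr_one`, `rr_zero`) -/
theorem lw_mono (l k j : ℕ) (hl : l.Prime) (d a : ℤ) : lw l (k + 1) j d a ≤ lw l k j d a := by
  have hκ := kap_pos hl.two_le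
  have hl0 : (0 : ℝ) < (l : ℝ) := by exact_mod_cast hl.pos
  have hm : (Rr (l ^ (k + 1)) d a (l ^ j) : ℝ) ≤ (l : ℝ) ^ 2 * (Rr (l ^ k) d a (l ^ j) : ℝ) := by
    exact_mod_cast rr_mono l k j hl d a
  have e1 : lw l (k + 1) j d a = kap l / (l : ℝ) ^ (2 * (k + 1)) * (Rr (l ^ (k + 1)) d a (l ^ j) : ℝ) := by
    unfold lw
    rw [if_neg (Nat.succ_ne_zero k)]
  have h3 : lw l (k + 1) j d a ≤ kap l / (l : ℝ) ^ (2 * k) * (Rr (l ^ k) d a (l ^ j) : ℝ) := by
    rw [e1]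
    have h4 : kap l / (l : ℝ) ^ (2 * (k + 1)) * (Rr (l ^ (k + 1)) d a (l ^ j) : ℝ) ≤
        kap l / (l : ℝ) ^ (2 * (k + 1)) * ((l : ℝ) ^ 2 * (Rr (l ^ k) d a (l ^ j) : ℝ)) :=
      mul_le_mul_of_nonneg_left hm (by positivity)
    refine h4.trans (le_of_eq ?_)
    rw [show 2 * (k + 1) = 2 * k + 2 by ring, pow_add]
    field_simp
  by_cases hk : k = 0
  · subst hk
    by_cases hj : j = 0
    · subst hj
      have h0 : lw l 0 0 d a = 1 := by
        unfold lw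
        rw [if_pos rfl, if_pos rfl]
      rw [h0, e1]
      by_cases hS : Sc (l ^ (0 + 1)) d a
      · rw [pow_zero, rr_one _ d a (Nat.pow_pos hl.pos) hS]
        have h5 := lws_kap l hl
        have e2 : kap l / (l : ℝ) ^ (2 * (0 + 1)) * ((l ^ (0 + 1) : ℕ) : ℝ) = kap l / (l : ℝ) := by
          rw [Nat.zero_add, pow_one, Nat.mul_one]
          field_simp
        rw [e2]
        linarith
      · rw [rr_zero _ d a _ (Nat.pow_pos hl.pos) (Nat.pow_pos hl.pos) hS, Nat.cast_zero, mul_zero]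
        exact zero_le_one
    · have e2 : lw l 0 j d a = kap l * (rho d a (l ^ j) : ℝ) + 1 / ((l : ℝ) + 1) := by
        unfold lw
        rw [if_pos rfl, if_neg hj]
      rw [e2]
      rw [Nat.mul_zero, pow_zero, pow_zero, rr_rho, div_one] at h3
      have h6 : (0 : ℝ) ≤ 1 / ((l : ℝ) + 1) := by positivity
      linarith
  · have e2 : lw l k j d a = kap l / (l : ℝ) ^ (2 * k) * (Rr (l ^ k) d a (l ^ j) : ℝ) := by
      unfold lw
      rw [if_neg hk]
    rw [e2]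
    exact h3

theorem lw_zero_zero (l : ℕ) (d a : ℤ) : lw l 0 0 d a = 1 := by
  unfold lw
  rw [if_pos rfl, if_pos rfl]

/-- the value for `j = 0` -/
theorem lw_one (l k : ℕ) (hl : l.Prime) (hk : 1 ≤ k) (d a : ℤ) (h : Sc (l ^ k) d a) : lw l k 0 d a = kap l / (l : ℝ) ^ k := by
  have hl0 : (0 : ℝ) < (l : ℝ) := by exact_mod_cast hl.pos
  unfold lw
  rw [if_neg (by omega), pow_zero, rr_one _ d a (Nat.pow_pos hl.pos) h, Nat.cast_pow, two_mul, pow_add]
  field_simp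

theorem lw_sc (l k j : ℕ) (hl : l.Prime) (d a : ℤ) (h : ¬ Sc (l ^ k) d a) : lw l k j d a = 0 := by
  have hk : k ≠ 0 := by
    rintro rfl
    rw [pow_zero] at h
    exact h (sc_one d a)
  unfold lw
  rw [if_neg hk, rr_zero _ d a _ (Nat.pow_pos hl.pos) (Nat.pow_pos hl.pos) h, Nat.cast_zero, mul_zero]

/-- the ratio of two consecutive values for `j = 0` is at most `2 / 3` (`kap l / l ≤ 2 / 3` for `k = 0`, `1 / l` for `k ≥ 1`), and it is `0` if there is no centre of level `l ^ (k+1)` -/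
theorem lw_ratio (l k : ℕ) (hl : l.Prime) (d a : ℤ) : lw l (k + 1) 0 d a ≤ 2 / 3 * lw l k 0 d a := by
  have h2 : (2 : ℝ) ≤ (l : ℝ) := by exact_mod_cast hl.two_le
  have hκ := kap_pos hl.two_le
  by_cases hS : Sc (l ^ (k + 1)) d a
  · rw [lw_one l (k + 1) hl (by omega) d a hS]
    by_cases hk : k = 0
    · subst hk
      rw [lw_zero_zero, Nat.zero_add, pow_one, mul_one]
      exact lws_kap l hl
    · have hS' : Sc (l ^ k) d a := sc_dvd _ _ d a (pow_dvd_pow l (Nat.le_succ k)) hS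
      rw [lw_one l k hl (by omega) d a hS']
      have hlk : (0 : ℝ) < (l : ℝ) ^ k := by positivity
      have h3 : kap l / (l : ℝ) ^ (k + 1) = (1 / (l : ℝ)) * (kap l / (l : ℝ) ^ k) := by
        rw [pow_succ]
        field_simp
      rw [h3]
      refine mul_le_mul_of_nonneg_right ?_ (by positivity)
      rw [div_le_div_iff₀ (by linarith) (by norm_num)]
      linarith
  · rw [lw_sc l (k + 1) 0 hl d a hS]
    have := lw_nonneg l k 0 hl d a
    positivity

end Pool.Agent.JC
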