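import Pool.Agent.Lib_MP_f1937f_jc.Defs
import Pool.Agent.Lib_MP_f1937f_tb.Cheb

/-!
# Modifying a few matrices
-/

set_option autoImplicit false

namespace Pool.Agent.JC

open Finset Pool.Agent.TB Pool.Agent.JB Pool.Agent.JD

private theorem modc_xx_le_one {p : ℕ} (hp : p.Prime) {a : ℤ} (ha : a ∈ V p) : |xx p a| ≤ 1 := by
  have hp0 : (0 : ℝ) < p := by exact_mod_cast hp.pos
  have h1 : |a| ≤ (Nat.sqrt (4 * p) : ℤ) := by
    unfold V at ha
    rw [Finset.mem_Icc] at ha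
    exact abs_le.2 ha
  have h2 : ((Nat.sqrt (4 * p) : ℕ) : ℝ) ^ 2 ≤ 4 * p := by
    have := Nat.sqrt_le' (4 * p)
    exact_mod_cast this
  have h3 : |(a : ℝ)| ≤ (Nat.sqrt (4 * p) : ℕ) := by exact_mod_cast h1
  have h4 : |(a : ℝ)| ≤ 2 * √(p : ℝ) := by
    have h5 : |(a : ℝ)| ^ 2 ≤ (2 * √(p : ℝ)) ^ 2 := by
      rw [mul_pow, Real.sq_sqrt hp0.le]
      have : |(a : ℝ)| ^ 2 ≤ ((Nat.sqrt (4 * p) : ℕ) : ℝ) ^ 2 := by gcongr
      linarith
    exact abs_le_of_sq_le_sq' h5 (by positivity) |>.2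
  unfold xx
  rw [abs_div, abs_of_pos (show (0 : ℝ) < 2 * √(p : ℝ) by positivity)]
  exact (div_le_one (by positivity)).2 h4

/-- PIECE [JC-G9] (about 100 lines, see `info_mod`, `Lib_MP_f1937f_jd/Modi.lean`). PROOF. The two sums differ at most in the terms of the primes `p ≤ x` with `F p ≠ F' p`; such a prime contributes at most one term `≤ k + 1` in absolute value to each sum. `m / s ≥ 1`, `log (m (k + 2) x) ≥ log x`. -/
theorem info_modC (M : ℕ) (G : Subgroup (GL (Fin 2) (ZMod M))) (F F' : ℕ → Mz) (hF : ∀ p : ℕ, p.Prime → (F p).trace ∈ V p)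
    (hF' : ∀ p : ℕ, p.Prime → (F' p).trace ∈ V p) (hI : InfoC M G F 1)
    (hmod : ∀ x : ℕ, 2 ≤ x → ((((range (x + 1)).filter Nat.Prime).filter (fun p => F p ≠ F' p)).card : ℝ) ≤ √(x : ℝ) * Real.log x) :
    InfoC M G F' 1 := by
  classical
  obtain ⟨C, hC⟩ := hI
  refine ⟨C + 2, fun m hMm hm s hs c hc1 hc2 k x hx => ?_⟩
  have h := hC m hMm hm s hs c hc1 hc2 k x hx
  have hcard := hmod x hx
  obtain ⟨Q, hQ⟩ : ∃ Q : Finset ℕ, Q = (range (x + 1)).filter Nat.Prime := ⟨_, rfl⟩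
  have hprime : ∀ p ∈ Q, p.Prime := fun p hp => by
    rw [hQ] at hp
    exact (Finset.mem_filter.1 hp).2
  rw [← hQ] at h hcard ⊢
  -- one term
  obtain ⟨g, hg⟩ : ∃ g : (ℕ → Mz) → ℕ → ℝ, g = fun b p =>
    if CjG M m hMm G c.val (rd m (b p)) then Uk k (xx p (b p).trace) else 0 := ⟨_, rfl⟩
  have hsum : ∀ b : ℕ → Mz, ∑ p ∈ Q.filter (fun p => CjG M m hMm G c.val (rd m (b p))),
      Uk k (xx p (b p).trace) = ∑ p ∈ Q, g b p := by
    intro b
    rw [hg]
    exact Finset.sum_filter _ _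
  have hgle : ∀ b : ℕ → Mz, (∀ p : ℕ, p.Prime → (b p).trace ∈ V p) → ∀ p ∈ Q, |g b p| ≤ (k : ℝ) + 1 := by
    intro b hb p hp
    have hpp := hprime p hp
    rw [hg]
    simp only
    split_ifs with hc
    · exact Uk_le k (modc_xx_le_one hpp (hb p hpp))
    · rw [abs_zero]
      positivity
  have hdiff : |∑ p ∈ Q, g F' p - ∑ p ∈ Q, g F p| ≤ 2 * ((k : ℝ) + 1) * (√(x : ℝ) * Real.log x) := by
    have h1 : ∑ p ∈ Q, g F' p - ∑ p ∈ Q, g F p =
        ∑ p ∈ Q.filter (fun p => F p ≠ F' p), (g F' p - g F p) := by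
      rw [← Finset.sum_sub_distrib]
      symm
      refine Finset.sum_subset (Finset.filter_subset _ _) fun p hp hn => ?_
      have h2 : F p = F' p := by
        by_contra h3
        exact hn (Finset.mem_filter.2 ⟨hp, h3⟩)
      rw [hg]
      simp only [h2, sub_self]
    rw [h1]
    refine (Finset.abs_sum_le_sum_abs _ _).trans ?_
    have h2 : ∀ p ∈ Q.filter (fun p => F p ≠ F' p), |g F' p - g F p| ≤ 2 * ((k : ℝ) + 1) := by
      intro p hp
      have hp' := (Finset.mem_filter.1 hp).1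
      have h3 := hgle F hF p hp'
      have h4 := hgle F' hF' p hp'
      have h5 := abs_sub (g F' p) (g F p)
      linarith
    refine (Finset.sum_le_sum h2).trans ?_
    rw [Finset.sum_const, nsmul_eq_mul, mul_comm]
    refine mul_le_mul_of_nonneg_left ?_ (by positivity)
    convert hcard using 3
  rw [hsum] at h ⊢
  have hs0 : 0 < s := Nat.pos_of_dvd_of_pos hs hm
  have hsm : s ≤ m := Nat.le_of_dvd hm hs
  have hs0' : (0 : ℝ) < s := by exact_mod_cast hs0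
  have hsm' : (s : ℝ) ≤ m := by exact_mod_cast hsm
  have hms : (1 : ℝ) ≤ (m : ℝ) / s := (one_le_div hs0').2 hsm'
  have hm1 : (1 : ℝ) ≤ m := by exact_mod_cast hm
  have hx2 : (2 : ℝ) ≤ x := by exact_mod_cast hx
  have hk0 : (0 : ℝ) ≤ k := Nat.cast_nonneg k
  have hlx : 0 ≤ Real.log x := Real.log_nonneg (by linarith)
  rw [Real.rpow_one] at h ⊢
  have hlog : Real.log x ≤ Real.log ((m : ℝ) * (k + 2) * x) := by
    refine Real.log_le_log (by linarith) ?_
    have h2 : (1 : ℝ) ≤ (m : ℝ) * (k + 2) := by nlinarith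
    nlinarith
  have hfin : 2 * ((k : ℝ) + 1) * (√(x : ℝ) * Real.log x) ≤
      2 * ((m : ℝ) / s) * (k + 1) * √(x : ℝ) * Real.log ((m : ℝ) * (k + 2) * x) := by
    have h1 : √(x : ℝ) * Real.log x ≤ √(x : ℝ) * Real.log ((m : ℝ) * (k + 2) * x) :=
      mul_le_mul_of_nonneg_left hlog (Real.sqrt_nonneg _)
    have h2 : 0 ≤ √(x : ℝ) * Real.log ((m : ℝ) * (k + 2) * x) :=
      mul_nonneg (Real.sqrt_nonneg _) (hlx.trans hlog)
    calc 2 * ((k : ℝ) + 1) * (√(x : ℝ) * Real.log x)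
        ≤ 2 * ((k : ℝ) + 1) * (√(x : ℝ) * Real.log ((m : ℝ) * (k + 2) * x)) :=
          mul_le_mul_of_nonneg_left h1 (by positivity)
      _ ≤ ((m : ℝ) / s) * (2 * ((k : ℝ) + 1) * (√(x : ℝ) * Real.log ((m : ℝ) * (k + 2) * x))) :=
          le_mul_of_one_le_left (by positivity) hms
      _ = _ := by ring
  have htri : ∀ u v w : ℝ, |u - w| ≤ |v - w| + |u - v| := by
    intro u v w
    have := abs_add_le (v - w) (u - v)
    rwa [show v - w + (u - v) = u - w by ring] at this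
  refine (htri _ (∑ p ∈ Q, g F p) _).trans ((add_le_add h (hdiff.trans hfin)).trans (le_of_eq ?_))
  ring

end Pool.Agent.JC
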