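import Pool.Agent.Lib_MP_f1937f_jc.ClsS
import Pool.Agent.Lib_MP_f1937f_tb.Cheb

/-!
# The moments
-/

set_option autoImplicit false

namespace Pool.Agent.JC

open Finset Pool.Agent.TB Pool.Agent.JB Pool.Agent.JD

private theorem momc_xx_le_one {p : ℕ} (hp : p.Prime) {a : ℤ} (ha : a ∈ V p) : |xx p a| ≤ 1 := by
  have hp0 : (0 : ℝ) < p := by exact_mod_cast hp.pos
  have h1 : |a| ≤ (Nat.sqrt (4 * p) : ℤ) := by
    unfold V at ha
    rw [Finset.mem_Icc] at ha
    exact abs_le.2 ha
  have h2 : ((Nat.sqrt (4 * p) : ℕ) : ℝ) ^ 2 ≤ 4 * p := by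
    have := Nat.sqrt_le' (4 * p)
    exact_mod_cast this
  have h3 : |(a : ℝ)| ≤ (Nat.sqrt (4 * p) : ℕ) := by exact_mod_cast h1
  have h4 : |(a : ℝ)| ≤ 2 * √(p : ℝ) := by
    have h5 : |(a : ℝ)| ^ 2 ≤ (2 * √(p : ℝ)) ^ 2 := by
      rw [mul_pow, Real.sq_sqrt hp0.le]
      have : |(a : ℝ)| ^ 2 ≤ ((Nat.sqrt (4 * p) : ℕ) : ℝ) ^ 2 := by gcongr
      linarith
    exact abs_le_of_sq_le_sq' h5 (by positivity) |>.2
  unfold xx
  rw [abs_div, abs_of_pos (show (0 : ℝ) < 2 * √(p : ℝ) by positivity)]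
  exact (div_le_one (by positivity)).2 h4

private theorem momc_map_self (M : ℕ) (g : GL (Fin 2) (ZMod M)) :
    Matrix.GeneralLinearGroup.map (ZMod.castHom (dvd_refl M) (ZMod M)) g = g := by
  ext i j
  simp [Matrix.GeneralLinearGroup.map]

private theorem momc_scM (M : ℕ) (A : Matrix (Fin 2) (Fin 2) (ZMod M)) : ScM M 1 (one_dvd M) A :=
  ⟨Subsingleton.elim _ _, Subsingleton.elim _ _, Subsingleton.elim _ _⟩

/-- averaging over a finite set of classes -/
private theorem momc_avg {ι : Type*} [Fintype ι] (P : Finset ℕ) (f : ℕ → ℝ) (cd w : ι → ℝ) (A : ι → Prop)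
    (R Q : ι → ℕ → Prop) [∀ i p, Decidable (R i p)] [∀ i p, Decidable (Q i p)] [∀ i p, Decidable (A i ∧ R i p)]
    [∀ i p, Decidable (A i ∧ Q i p)] (B c : ℝ) (hB : 0 ≤ B) (hw0 : ∀ i, 1 ≤ w i)
    (h : ∀ i, A i → |∑ p ∈ P, (if R i p then f p else 0) - c * cd i * ∑ p ∈ P, (if Q i p then (1 : ℝ) else 0)| ≤ B) :
    |∑ p ∈ P, f p * (∑ i, if A i ∧ R i p then 1 / w i else 0) -
      c * ∑ p ∈ P, ∑ i, (if A i ∧ Q i p then cd i / w i else 0)| ≤ Fintype.card ι * B := by
  classical
  have e1 : ∑ p ∈ P, f p * (∑ i, if A i ∧ R i p then 1 / w i else 0) -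
      c * ∑ p ∈ P, ∑ i, (if A i ∧ Q i p then cd i / w i else 0) =
      ∑ i, (if A i then 1 / w i * (∑ p ∈ P, (if R i p then f p else 0) -
        c * cd i * ∑ p ∈ P, (if Q i p then (1 : ℝ) else 0)) else 0) := by
    have e2 : ∀ i, (if A i then 1 / w i * (∑ p ∈ P, (if R i p then f p else 0) -
        c * cd i * ∑ p ∈ P, (if Q i p then (1 : ℝ) else 0)) else 0) =
        ∑ p ∈ P, f p * (if A i ∧ R i p then 1 / w i else 0) -
          c * ∑ p ∈ P, (if A i ∧ Q i p then cd i / w i else 0) := by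
      intro i
      by_cases hA : A i
      · rw [if_pos hA, mul_sub]
        have e3 : 1 / w i * ∑ p ∈ P, (if R i p then f p else 0) =
            ∑ p ∈ P, f p * (if A i ∧ R i p then 1 / w i else 0) := by
          rw [Finset.mul_sum]
          refine Finset.sum_congr rfl fun p _ => ?_
          by_cases hR : R i p
          · rw [if_pos hR, if_pos ⟨hA, hR⟩]; ring
          · rw [if_neg hR, if_neg (fun h => hR h.2)]; ring
        have e4 : 1 / w i * (c * cd i * ∑ p ∈ P, (if Q i p then (1 : ℝ) else 0)) =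
            c * ∑ p ∈ P, (if A i ∧ Q i p then cd i / w i else 0) := by
          rw [Finset.mul_sum, Finset.mul_sum, Finset.mul_sum]
          refine Finset.sum_congr rfl fun p _ => ?_
          by_cases hQ : Q i p
          · rw [if_pos hQ, if_pos ⟨hA, hQ⟩]; ring
          · rw [if_neg hQ, if_neg (fun h => hQ h.2)]; ring
        rw [e3, e4]
      · rw [if_neg hA]
        have e3 : ∑ p ∈ P, f p * (if A i ∧ R i p then 1 / w i else 0) = 0 :=
          Finset.sum_eq_zero fun p _ => by rw [if_neg (fun h => hA h.1), mul_zero]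
        have e4 : ∑ p ∈ P, (if A i ∧ Q i p then cd i / w i else 0) = 0 :=
          Finset.sum_eq_zero fun p _ => by rw [if_neg (fun h => hA h.1)]
        rw [e3, e4]; ring
    rw [Finset.sum_congr rfl fun i _ => e2 i, Finset.sum_sub_distrib, ← Finset.mul_sum,
      Finset.sum_comm (s := univ) (t := P), Finset.sum_comm (s := univ) (t := P)]
    refine congrArg₂ (· - ·) (Finset.sum_congr rfl fun p _ => ?_) rfl
    rw [Finset.mul_sum]
  rw [e1]
  refine (Finset.abs_sum_le_sum_abs _ _).trans ?_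
  have h1 : ∀ i ∈ (univ : Finset ι), |(if A i then 1 / w i * (∑ p ∈ P, (if R i p then f p else 0) -
        c * cd i * ∑ p ∈ P, (if Q i p then (1 : ℝ) else 0)) else 0)| ≤ B := by
    intro i _
    by_cases hA : A i
    · rw [if_pos hA, abs_mul]
      have h2 := h i hA
      have h3 := hw0 i
      have h4 : |1 / w i| ≤ 1 := by
        rw [abs_of_nonneg (by positivity)]
        exact (div_le_one (by linarith)).2 h3
      calc |1 / w i| * |∑ p ∈ P, (if R i p then f p else 0) - c * cd i * ∑ p ∈ P, (if Q i p then (1 : ℝ) else 0)|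
          ≤ 1 * B := mul_le_mul h4 h2 (abs_nonneg _) zero_le_one
        _ = B := one_mul B
    · rw [if_neg hA, abs_zero]; exact hB
  refine (Finset.sum_le_sum h1).trans (le_of_eq ?_)
  rw [Finset.sum_const, card_univ, nsmul_eq_mul]

/-- the sum over the classes of the densities -/
private theorem momc_u (M : ℕ) [NeZero M] (G : Subgroup (GL (Fin 2) (ZMod M)))
    (hG : ∀ d : (ZMod M)ˣ, ∃ g ∈ G, g.val.det = (d : ZMod M)) (p : ℕ) :
    ∑ g : GL (Fin 2) (ZMod M), (open Classical in (if g ∈ G ∧ (p : ZMod M) = g.val.det then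
      cdens M M dvd_rfl G g / clN M G g else 0)) = if p.Coprime M then 1 else 0 := by
  classical
  by_cases hp : p.Coprime M
  · rw [if_pos hp]
    have h1 := cls_dens M G hG (ZMod.unitOfCoprime p hp)
    rw [← h1]
    refine Finset.sum_congr rfl fun g _ => ?_
    have e : (g ∈ G ∧ (p : ZMod M) = g.val.det) ↔ (g ∈ G ∧ g.val.det = ((ZMod.unitOfCoprime p hp : (ZMod M)ˣ) : ZMod M)) := by
      rw [ZMod.coe_unitOfCoprime, eq_comm]
    by_cases hg : g ∈ G ∧ (p : ZMod M) = g.val.det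
    · rw [if_pos hg, if_pos (e.1 hg)]
    · rw [if_neg hg, if_neg (fun h => hg (e.2 h))]
  · rw [if_neg hp]
    refine Finset.sum_eq_zero fun g _ => if_neg ?_
    rintro ⟨_, h2⟩
    have h3 : IsUnit (g.val.det) := (Matrix.isUnit_iff_isUnit_det _).1 g.isUnit
    rw [← h2] at h3
    exact hp ((ZMod.isUnit_iff_coprime p M).1 h3)

/-- PIECE [JC-G10] (about 220 lines, see `mom_F`, `Lib_MP_f1937f_jd/MomF.lean`). PROOF. `InfoC` with `m := M`, `s := 1`, multiplied by `1 / clN M G g` and summed over the `g ∈ G` (`NeZero M`). For `p ≥ p₀` the coefficients sum to `1` (`cls_sum`), for `p < p₀` the term is at most `#G (k + 1)`. Main term for `k = 0` : `∑_g (cdens / clN) #{p ≤ x : p = det g} =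
∑_{d unit} #{p ≤ x : p = d}` (`cls_dens`), which is `π(x)` minus the number of the primes `p ≤ x` dividing `M`. `log (M (k + 2) x) ≤ (log M + 3) log x` for `k ≤ x`, `x ≥ 3`. -/
theorem mom_C (M : ℕ) (hM : 0 < M) (G : Subgroup (GL (Fin 2) (ZMod M)))
    (hG : ∀ d : (ZMod M)ˣ, ∃ g ∈ G, g.val.det = (d : ZMod M)) (F : ℕ → Mz) (hV : ∀ p : ℕ, p.Prime → (F p).trace ∈ V p)
    (p₀ : ℕ) (hin : ∀ p : ℕ, p.Prime → p₀ ≤ p → InG M G (rd M (F p))) (r : ℝ) (hr : 0 ≤ r) (hI : InfoC M G F r) :
    ∃ C : ℝ, 0 ≤ C ∧ ∀ k x : ℕ, 3 ≤ x → k ≤ x →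
      |∑ p ∈ (range (x + 1)).filter Nat.Prime, Uk k (xx p (F p).trace) - (if k = 0 then (Nat.primeCounting x : ℝ) else 0)| ≤
        C * (k + 1) * √(x : ℝ) * Real.log x ^ r := by
  classical
  have : NeZero M := ⟨hM.ne'⟩
  obtain ⟨C, hC⟩ := hI
  have hM1 : (1 : ℝ) ≤ M := by exact_mod_cast hM
  have hM0 : (M : ℝ) ≠ 0 := by linarith
  have hlM : 0 ≤ Real.log M := Real.log_nonneg hM1
  set E : ℝ := |C| * M with hE
  have hE0 : 0 ≤ E := by positivity
  set L : ℝ := (Real.log M + 3) ^ r with hL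
  have hL0 : 0 ≤ L := Real.rpow_nonneg (by linarith) _
  set N : ℝ := (Fintype.card (GL (Fin 2) (ZMod M)) : ℝ) with hN
  have hN0 : 0 ≤ N := Nat.cast_nonneg _
  refine ⟨N * (E * L) + p₀ * (N + 1) + M, by positivity, fun k x hx hkx => ?_⟩
  have hx3 : (3 : ℝ) ≤ x := by exact_mod_cast hx
  have hkx' : (k : ℝ) ≤ x := by exact_mod_cast hkx
  have hk0 : (0 : ℝ) ≤ k := Nat.cast_nonneg k
  have hlx : 1 ≤ Real.log x := by
    rw [Real.le_log_iff_exp_le (by linarith)]
    linarith [Real.exp_one_lt_d9]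
  have hlog : Real.log ((M : ℝ) * (k + 2) * x) ^ r ≤ L * Real.log x ^ r := by
    rw [hL, ← Real.mul_rpow (by linarith) (by linarith)]
    have h1 : (1 : ℝ) ≤ (M : ℝ) * (k + 2) * x := by
      have h2 : (1 : ℝ) ≤ (k : ℝ) + 2 := by linarith
      have h3 : (1 : ℝ) ≤ (M : ℝ) * (k + 2) := one_le_mul_of_one_le_of_one_le hM1 h2
      exact one_le_mul_of_one_le_of_one_le h3 (by linarith)
    refine Real.rpow_le_rpow (Real.log_nonneg h1) ?_ hr
    rw [Real.log_mul (by positivity) (by positivity), Real.log_mul hM0 (by positivity)]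
    have h4 : Real.log ((k : ℝ) + 2) ≤ 2 * Real.log x := by
      have h5 : Real.log ((k : ℝ) + 2) ≤ Real.log ((x : ℝ) ^ 2) :=
        Real.log_le_log (by positivity) (by nlinarith)
      rw [Real.log_pow] at h5
      exact_mod_cast h5
    nlinarith
  set P : Finset ℕ := (range (x + 1)).filter Nat.Prime with hP
  have hprime : ∀ p ∈ P, p.Prime := fun p hp => (Finset.mem_filter.1 hp).2
  have hcardP : P.card = Nat.primeCounting x := by
    rw [hP, Nat.primeCounting, Nat.primeCounting', Nat.count_eq_card_filter_range]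
  set f : ℕ → ℝ := fun p => Uk k (xx p (F p).trace) with hf
  have hfb : ∀ p ∈ P, |f p| ≤ (k : ℝ) + 1 := fun p hp =>
    Uk_le k (momc_xx_le_one (hprime p hp) (hV p (hprime p hp)))
  set w : ℕ → ℝ := fun p => ∑ g : GL (Fin 2) (ZMod M),
    if g ∈ G ∧ CjG M M dvd_rfl G g.val (rd M (F p)) then 1 / clN M G g else 0 with hw
  set u : ℕ → ℝ := fun p => ∑ g : GL (Fin 2) (ZMod M),
    if g ∈ G ∧ (p : ZMod M) = g.val.det then cdens M M dvd_rfl G g / clN M G g else 0 with hu
  set c : ℝ := if k = 0 then 1 else 0 with hc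
  set B : ℝ := E * L * (k + 1) * √(x : ℝ) * Real.log x ^ r with hB
  have hB0 : 0 ≤ B := by
    have h3 : 0 ≤ Real.log x ^ r := Real.rpow_nonneg (by linarith) _
    rw [hB]; positivity
  -- the average
  have hav : |∑ p ∈ P, f p * w p - c * ∑ p ∈ P, u p| ≤ N * B := by
    refine momc_avg P f (fun g => cdens M M dvd_rfl G g) (fun g => clN M G g) (fun g => g ∈ G)
      (fun g p => CjG M M dvd_rfl G g.val (rd M (F p))) (fun g p => (p : ZMod M) = g.val.det) B c hB0
      (fun g => clN_ge M G g) fun g hg => ?_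
    have h1 := hC M dvd_rfl hM 1 (one_dvd M) g (by rw [momc_map_self]; exact hg) (momc_scM M _) k x (by omega)
    have e1 : ∑ p ∈ P.filter (fun p => CjG M M dvd_rfl G g.val (rd M (F p))), Uk k (xx p (F p).trace) =
        ∑ p ∈ P, (if CjG M M dvd_rfl G g.val (rd M (F p)) then f p else 0) := by
      rw [Finset.sum_filter]
    have e2 : ((P.filter (fun p : ℕ => (p : ZMod M) = g.val.det)).card : ℝ) =
        ∑ p ∈ P, (if (p : ZMod M) = g.val.det then (1 : ℝ) else 0) := by
      rw [Finset.sum_boole]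
    have e3 : (if k = 0 then cdens M M dvd_rfl G g else 0) = c * cdens M M dvd_rfl G g := by
      rw [hc]; split_ifs <;> simp
    have h2 : |∑ p ∈ P, (if CjG M M dvd_rfl G g.val (rd M (F p)) then f p else 0) -
        c * cdens M M dvd_rfl G g * ∑ p ∈ P, (if (p : ZMod M) = g.val.det then (1 : ℝ) else 0)| ≤
        C * ((M : ℝ) / (1 : ℕ)) * (k + 1) * √(x : ℝ) * Real.log ((M : ℝ) * (k + 2) * x) ^ r := by
      rw [← e1, ← e2, ← e3]
      exact h1
    refine h2.trans ?_
    have h0 : (1 : ℝ) ≤ (M : ℝ) * (k + 2) * x := by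
      have h2 : (1 : ℝ) ≤ (k : ℝ) + 2 := by linarith
      have h3 : (1 : ℝ) ≤ (M : ℝ) * (k + 2) := one_le_mul_of_one_le_of_one_le hM1 h2
      exact one_le_mul_of_one_le_of_one_le h3 (by linarith)
    have h1 : C * ((M : ℝ) / (1 : ℕ)) * (k + 1) * √(x : ℝ) * Real.log ((M : ℝ) * (k + 2) * x) ^ r
        ≤ E * (k + 1) * √(x : ℝ) * Real.log ((M : ℝ) * (k + 2) * x) ^ r := by
      have h2 : C * ((M : ℝ) / (1 : ℕ)) ≤ E := by
        rw [Nat.cast_one, div_one]
        exact mul_le_mul_of_nonneg_right (le_abs_self C) (by positivity)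
      have h3 : 0 ≤ Real.log ((M : ℝ) * (k + 2) * x) ^ r :=
        Real.rpow_nonneg (Real.log_nonneg h0) _
      gcongr
    refine h1.trans ?_
    have h4 : E * (k + 1) * √(x : ℝ) * Real.log ((M : ℝ) * (k + 2) * x) ^ r
        ≤ E * (k + 1) * √(x : ℝ) * (L * Real.log x ^ r) :=
      mul_le_mul_of_nonneg_left hlog (by positivity)
    refine h4.trans (le_of_eq ?_)
    rw [hB]; ring
  -- the small primes
  have hsm : |∑ p ∈ P, f p * (1 - w p)| ≤ p₀ * ((N + 1) * (k + 1)) := by
    have h1 : ∑ p ∈ P, f p * (1 - w p) = ∑ p ∈ P.filter (fun p => p < p₀), f p * (1 - w p) := by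
      refine Eq.trans ?_ (Finset.sum_filter (s := P) (fun p => p < p₀) (fun p => f p * (1 - w p))).symm
      refine Finset.sum_congr rfl fun p hp => ?_
      by_cases hpp : p < p₀
      · rw [if_pos hpp]
      · rw [if_neg hpp]
        have h2 : w p = 1 := by
          have h3 := cls_sum M G (rd M (F p)) (hin p (hprime p hp) (not_lt.1 hpp))
          rw [← h3, hw]
        rw [h2, sub_self, mul_zero]
    rw [h1]
    refine (Finset.abs_sum_le_sum_abs _ _).trans ?_
    have h2 : ∀ p ∈ P.filter (fun p => p < p₀), |f p * (1 - w p)| ≤ (N + 1) * (k + 1) := by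
      intro p hp
      rw [abs_mul]
      have h3 := hfb p (Finset.mem_filter.1 hp).1
      have h4 : |1 - w p| ≤ N + 1 := by
        have h5 : |w p| ≤ N := by
          rw [hw]
          refine (Finset.abs_sum_le_sum_abs _ _).trans ?_
          have h6 : ∀ g ∈ (univ : Finset (GL (Fin 2) (ZMod M))),
              |(if g ∈ G ∧ CjG M M dvd_rfl G g.val (rd M (F p)) then 1 / clN M G g else 0)| ≤ 1 := by
            intro g _
            have h7 := clN_ge M G g
            split_ifs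
            · rw [abs_of_nonneg (by positivity)]
              exact (div_le_one (by linarith)).2 h7
            · rw [abs_zero]; exact zero_le_one
          refine (Finset.sum_le_sum h6).trans (le_of_eq ?_)
          rw [Finset.sum_const, card_univ, nsmul_eq_mul, mul_one]
        have h6 := abs_sub (1 : ℝ) (w p)
        rw [abs_one] at h6
        linarith
      calc |f p| * |1 - w p| ≤ ((k : ℝ) + 1) * (N + 1) := mul_le_mul h3 h4 (abs_nonneg _) (by positivity)
        _ = (N + 1) * (k + 1) := mul_comm _ _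
    refine (Finset.sum_le_sum h2).trans ?_
    rw [Finset.sum_const, nsmul_eq_mul]
    have h3 : ((P.filter (fun p => p < p₀)).card : ℝ) ≤ p₀ := by
      have h4 : P.filter (fun p => p < p₀) ⊆ range p₀ := fun p hp =>
        mem_range.2 (Finset.mem_filter.1 hp).2
      have h5 := Finset.card_le_card h4
      rw [card_range] at h5
      exact_mod_cast h5
    gcongr
  -- the main term
  have hmn : |∑ p ∈ P, u p - (Nat.primeCounting x : ℝ)| ≤ M := by
    have h1 : ∑ p ∈ P, u p = ((P.filter (fun p => p.Coprime M)).card : ℝ) := by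
      have h2 : ∀ p ∈ P, u p = if p.Coprime M then 1 else 0 := by
        intro p _
        rw [← momc_u M G hG p, hu]
      rw [Finset.sum_congr rfl h2, Finset.sum_boole]
    have h2 : (P.card : ℝ) = (P.filter (fun p => p.Coprime M)).card + (P.filter (fun p => ¬ p.Coprime M)).card := by
      have h1 := Finset.card_filter_add_card_filter_not (s := P) (fun p => p.Coprime M)
      exact_mod_cast h1.symm
    have hPnM : (P.filter (fun p => ¬ p.Coprime M)).card ≤ M := by
      have h1 : P.filter (fun p => ¬ p.Coprime M) ⊆ Finset.Icc 1 M := by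
        intro p hp
        rw [Finset.mem_filter] at hp
        have hpp := hprime p hp.1
        have h2 : p ∣ M := by
          by_contra hcon
          exact hp.2 ((Nat.Prime.coprime_iff_not_dvd hpp).2 hcon)
        rw [Finset.mem_Icc]
        exact ⟨hpp.one_le, Nat.le_of_dvd hM h2⟩
      have h2 := Finset.card_le_card h1
      rw [Nat.card_Icc] at h2
      omega
    rw [h1, ← hcardP, h2, sub_add_cancel_left, abs_neg, abs_of_nonneg (Nat.cast_nonneg _)]
    exact_mod_cast hPnM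
  have hsplit : ∑ p ∈ P, f p - (if k = 0 then (Nat.primeCounting x : ℝ) else 0) =
      (∑ p ∈ P, f p * w p - c * ∑ p ∈ P, u p) + ∑ p ∈ P, f p * (1 - w p) +
        c * (∑ p ∈ P, u p - (Nat.primeCounting x : ℝ)) := by
    have e1 : ∑ p ∈ P, f p * (1 - w p) = ∑ p ∈ P, f p - ∑ p ∈ P, f p * w p := by
      rw [← Finset.sum_sub_distrib]
      exact Finset.sum_congr rfl fun p _ => by ring
    have e2 : (if k = 0 then (Nat.primeCounting x : ℝ) else 0) = c * (Nat.primeCounting x : ℝ) := by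
      rw [hc]; split_ifs <;> simp
    rw [e1, e2]; ring
  have hcb : |c * (∑ p ∈ P, u p - (Nat.primeCounting x : ℝ))| ≤ M * (k + 1) := by
    rw [abs_mul]
    have h1 : |c| ≤ 1 := by
      rw [hc]; split_ifs <;> simp
    have h2 : |c| * |∑ p ∈ P, u p - (Nat.primeCounting x : ℝ)| ≤ 1 * M :=
      mul_le_mul h1 hmn (abs_nonneg _) zero_le_one
    have h3 : (0 : ℝ) ≤ M * k := by positivity
    nlinarith
  show |∑ p ∈ P, f p - (if k = 0 then (Nat.primeCounting x : ℝ) else 0)| ≤ _
  rw [hsplit]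
  have t1 := abs_add_le ((∑ p ∈ P, f p * w p - c * ∑ p ∈ P, u p) + ∑ p ∈ P, f p * (1 - w p))
    (c * (∑ p ∈ P, u p - (Nat.primeCounting x : ℝ)))
  have t2 := abs_add_le (∑ p ∈ P, f p * w p - c * ∑ p ∈ P, u p) (∑ p ∈ P, f p * (1 - w p))
  have h3 : (1 : ℝ) ≤ √(x : ℝ) := by
    rw [Real.one_le_sqrt]
    linarith
  have h4 : (1 : ℝ) ≤ Real.log x ^ r := Real.one_le_rpow hlx hr
  have h6 : (1 : ℝ) ≤ √(x : ℝ) * Real.log x ^ r := one_le_mul_of_one_le_of_one_le h3 h4
  have h5 : (p₀ * (N + 1) + M) * (k + 1) ≤ (p₀ * (N + 1) + M) * (k + 1) * (√(x : ℝ) * Real.log x ^ r) :=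
    le_mul_of_one_le_right (by positivity) h6
  have h7 : (N * (E * L) + p₀ * (N + 1) + M) * (k + 1) * √(x : ℝ) * Real.log x ^ r
      = N * B + (p₀ * (N + 1) + M) * (k + 1) * (√(x : ℝ) * Real.log x ^ r) := by
    rw [hB]; ring
  rw [h7]
  linarith

end Pool.Agent.JC
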