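import Pool.Agent.Lib_MP_f1937f_jd.GreedyL
import Pool.Agent.Lib_MP_f1937f_jd.SlotL
import Pool.Agent.Lib_MP_f1937f_jd.ThrL
import Pool.Agent.Lib_MP_f1937f_jb.UpJ

/-!
# The prescription
-/

set_option autoImplicit false

namespace Pool.Agent.JC

open Finset Pool.Agent.TB Pool.Agent.JB Pool.Agent.JD

theorem mem_V (p : ℕ) (b : ℤ) : b ∈ V p ↔ b ^ 2 ≤ 4 * p := by
  unfold TB.V
  rw [mem_Icc, ← abs_le, Int.abs_eq_natAbs, Int.ofNat_le, Nat.le_sqrt', ← Int.natAbs_sq b]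
  norm_cast

/-- the sum which is followed -/
noncomputable def TT (c : ℝ) (thr : ℕ) (P : ℕ → Prop) [DecidablePred P] (x : ℕ) : ℝ :=
  c * ∑ p ∈ ((range (x + 1)).filter Nat.Prime).filter (fun p => thr ≤ p ∧ P p), 1 / (2 * √(p : ℝ))

theorem TT_zero (c : ℝ) (thr : ℕ) (P : ℕ → Prop) [DecidablePred P] : TT c thr P 0 = 0 := by
  unfold TT
  rw [sum_eq_zero, mul_zero]
  intro p hp
  rw [mem_filter, mem_filter, mem_range] at hp
  have := hp.1.2.pos
  omega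

theorem TT_mono (c : ℝ) (hc : 0 ≤ c) (thr : ℕ) (P : ℕ → Prop) [DecidablePred P] : Monotone (TT c thr P) := by
  intro x y hxy
  unfold TT
  refine mul_le_mul_of_nonneg_left (sum_le_sum_of_subset_of_nonneg ?_ fun p _ _ => by positivity) hc
  exact filter_subset_filter _ (filter_subset_filter _ (range_subset_range.2 (by omega)))

theorem TT_le (c : ℝ) (hc : 0 ≤ c) (thr : ℕ) (P : ℕ → Prop) [DecidablePred P] (x : ℕ) : TT c thr P x ≤ c * √(x : ℝ) := by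
  unfold TT
  refine mul_le_mul_of_nonneg_left (le_trans ?_ (sum_half_sqrt x)) hc
  refine sum_le_sum_of_subset_of_nonneg ?_ fun p _ _ => by positivity
  intro p hp
  rw [mem_filter, mem_filter, mem_range] at hp
  rw [mem_Icc]
  exact ⟨hp.1.2.pos, by omega⟩

/-- gaps -/
theorem TT_gap (K j : ℕ) (hK : 0 < K) (c : ℝ) (hc : 0 ≤ c) (thr : ℕ) (hthr : 1 ≤ thr)
    (hcc : c * ((K * 2 ^ (j + 1) : ℕ) + 1) ≤ 2 * √(thr : ℝ)) (P : ℕ → Prop) [DecidablePred P]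
    (hP : ∀ p p' : ℕ, p.Prime → p'.Prime → p ≡ p' [MOD K] → P p → P p') (x y : ℕ) (hxy : x ≤ y)
    (h : ∀ z, x < z → z < y → ¬ (z.Prime ∧ P z ∧ thr ≤ z ∧ rkJ K z = j)) :
    TT c thr P y - TT c thr P x ≤ 1 := by
  classical
  have h1 : ((range (y + 1)).filter Nat.Prime).filter (fun p => thr ≤ p ∧ P p) =
      (((range (x + 1)).filter Nat.Prime).filter (fun p => thr ≤ p ∧ P p)) ∪
        ((Ioc x y).filter (fun p => p.Prime ∧ thr ≤ p ∧ P p)) := by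
    ext p
    simp only [mem_filter, mem_range, mem_union, mem_Ioc]
    constructor
    · rintro ⟨⟨h1, h2⟩, h3⟩
      by_cases hpx : p < x + 1
      · exact Or.inl ⟨⟨hpx, h2⟩, h3⟩
      · exact Or.inr ⟨⟨by omega, by omega⟩, h2, h3⟩
    · rintro (⟨⟨h1, h2⟩, h3⟩ | ⟨⟨h1, h2⟩, h3, h4⟩)
      · exact ⟨⟨by omega, h2⟩, h3⟩
      · exact ⟨⟨by omega, h3⟩, h4⟩
  have hdis : Disjoint (((range (x + 1)).filter Nat.Prime).filter (fun p => thr ≤ p ∧ P p))
      ((Ioc x y).filter (fun p => p.Prime ∧ thr ≤ p ∧ P p)) := by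
    rw [Finset.disjoint_left]
    intro p hp hp'
    rw [mem_filter, mem_filter, mem_range] at hp
    rw [mem_filter, mem_Ioc] at hp'
    omega
  have h2 : TT c thr P y - TT c thr P x =
      c * ∑ p ∈ (Ioc x y).filter (fun p => p.Prime ∧ thr ≤ p ∧ P p), 1 / (2 * √(p : ℝ)) := by
    unfold TT
    rw [h1, sum_union hdis]
    ring
  have hthr0 : (0 : ℝ) < thr := by exact_mod_cast hthr
  have hs0 : 0 < √(thr : ℝ) := Real.sqrt_pos.2 hthr0
  have h3 : ∑ p ∈ (Ioc x y).filter (fun p => p.Prime ∧ thr ≤ p ∧ P p), 1 / (2 * √(p : ℝ)) ≤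
      ((Ioc x y).filter (fun p => p.Prime ∧ thr ≤ p ∧ P p)).card * (1 / (2 * √(thr : ℝ))) := by
    rw [← nsmul_eq_mul]
    refine sum_le_card_nsmul _ _ _ fun p hp => ?_
    rw [mem_filter] at hp
    have h4 : √(thr : ℝ) ≤ √(p : ℝ) := Real.sqrt_le_sqrt (by exact_mod_cast hp.2.2.1)
    gcongr
  have h4 : ((Ioc x y).filter (fun p => p.Prime ∧ thr ≤ p ∧ P p)).card ≤ K * 2 ^ (j + 1) + 1 := by
    have h5 : (Ioc x y).filter (fun p => p.Prime ∧ thr ≤ p ∧ P p) ⊆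
        insert y ((Ioo (max x (thr - 1)) y).filter (fun p => p.Prime ∧ P p)) := by
      intro p hp
      rw [mem_filter, mem_Ioc] at hp
      rw [mem_insert, mem_filter, mem_Ioo]
      by_cases hpy : p = y
      · exact Or.inl hpy
      · refine Or.inr ⟨⟨?_, by omega⟩, hp.2.1, hp.2.2.2⟩
        rw [max_lt_iff]
        omega
    refine (card_le_card h5).trans ((card_insert_le _ _).trans ?_)
    refine Nat.add_le_add_right ?_ 1
    refine slot_gap K j hK P hP (max x (thr - 1)) y fun z hz hz' h6 => ?_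
    rw [max_lt_iff] at hz
    exact h z hz.1 hz' ⟨h6.1, h6.2.1, by omega, h6.2.2⟩
  rw [h2]
  have h5 : ∑ p ∈ (Ioc x y).filter (fun p => p.Prime ∧ thr ≤ p ∧ P p), 1 / (2 * √(p : ℝ)) ≤
      ((K * 2 ^ (j + 1) : ℕ) + 1) * (1 / (2 * √(thr : ℝ))) := by
    refine h3.trans ?_
    have : (((Ioc x y).filter (fun p => p.Prime ∧ thr ≤ p ∧ P p)).card : ℝ) ≤ (K * 2 ^ (j + 1) : ℕ) + 1 := by
      exact_mod_cast h4
    gcongr
  calc c * ∑ p ∈ (Ioc x y).filter (fun p => p.Prime ∧ thr ≤ p ∧ P p), 1 / (2 * √(p : ℝ))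
      ≤ c * (((K * 2 ^ (j + 1) : ℕ) + 1) * (1 / (2 * √(thr : ℝ)))) := mul_le_mul_of_nonneg_left h5 hc
    _ = (c * ((K * 2 ^ (j + 1) : ℕ) + 1)) / (2 * √(thr : ℝ)) := by ring
    _ ≤ 1 := (div_le_one (by positivity)).2 hcc

end Pool.Agent.JC
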