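import Pool.Agent.Lib_MP_f1937f_jc.SeqW
import Pool.Agent.Lib_MP_f1937f_jc.ModW
import Pool.Agent.Lib_MP_f1937f_jc.MomC
import Pool.Agent.Lib_MP_f1937f_jc.PrescC

/-!
# Assembly
-/

set_option autoImplicit false

namespace Pool.Agent.JC

open Finset Pool.Agent.TB Pool.Agent.JB Pool.Agent.JD

section

variable (M : ℕ) (hM : 0 < M) (G : Subgroup (GL (Fin 2) (ZMod M)))
  (hG : ∀ d : (ZMod M)ˣ, ∃ g ∈ G, g.val.det = (d : ZMod M))

include hM hG

open Classical in
theorem part_oneW (A : Set ℤ) (cc : ℤ → ℝ) (hcc : ∀ b, 0 ≤ cc b) (w : ℕ → ℕ → ℝ) (hw : ∀ j p, |w j p| ≤ 1) :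
    ∃ F : ℕ → Mz, (∀ p : ℕ, p.Prime → (F p).det = p ∧ (F p).trace ∈ V p) ∧ (∀ j, InfoW M G F (w j) 1) ∧
      (∃ p₀ : ℕ, ∀ p : ℕ, p.Prime → p₀ ≤ p → InG M G (rd M (F p))) ∧
      (∀ b : ℤ, b ∉ A → ∃ C : ℝ, ∀ x : ℕ, |((((range (x + 1)).filter Nat.Prime).filter (fun p => (F p).trace = b)).card : ℝ) -
        cc b * ∑ p ∈ ((range (x + 1)).filter Nat.Prime).filter (fun p => Al M G p b), 1 / (2 * √(p : ℝ))| ≤ C) ∧
      (∀ b : ℤ, b ∈ A → (∃ p : ℕ, Al M G p b) → ∀ ε : ℝ, 0 < ε → ∃ x₀ : ℕ, ∀ x : ℕ, x₀ ≤ x →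
        (x : ℝ) ^ (3 / 4 - ε) ≤ ((((range (x + 1)).filter Nat.Prime).filter (fun p => (F p).trace = b)).card : ℝ)) := by
  set K : ℕ := M ^ 2 with hK
  have hK0 : 0 < K := by positivity
  set e : ℕ ≃ ℤ := (Denumerable.eqv ℤ).symm with he
  obtain ⟨R, hR⟩ := orb_exists M hM G hG
  obtain ⟨a, p₂, haV, haI, haU, haF, haS⟩ := base_seqW M hM G hG A e w hw
  -- the allowed primes
  set Pj : ℕ → ℕ → Prop := fun j p => Al M G p (e j) with hPj
  have hPj_iff : ∀ j p, Pj j p ↔ Al M G p (e j) := fun j p => Iff.rfl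
  have hPj_congr : ∀ j (p p' : ℕ), p.Prime → p'.Prime → p ≡ p' [MOD K] → Pj j p → Pj j p' := by
    rintro j p p' - - hpp h1
    refine al_congr M hM G R hR p p' ?_ hpp (e j) h1
    have h8 : p' ≡ p [MOD M] := (hpp.of_dvd (dvd_pow_self M two_ne_zero)).symm
    rw [Nat.Coprime, Nat.ModEq.gcd_eq h8]
    exact al_cop M G p (e j) h1
  -- the matrices of the allowed primes
  have hAlm : ∀ (p : ℕ) (b : ℤ), ∃ F : Mz, Al M G p b → F.det = p ∧ F.trace = b ∧ InG M G (rd M F) := by
    intro p b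
    by_cases h : Al M G p b
    · obtain ⟨F, hF⟩ := h
      exact ⟨F, fun _ => hF⟩
    · exact ⟨0, fun h' => absurd h' h⟩
  choose Fal hFal using hAlm
  -- the constants and thresholds
  set c' : ℕ → ℝ := fun j => if e j ∈ A then 0 else cc (e j) with hc'
  have hc'0 : ∀ j, 0 ≤ c' j := by
    intro j
    simp only [hc']
    split_ifs
    · exact le_rfl
    · exact hcc _
  have hq : ∀ j : ℕ, ∃ q : ℕ, p₂ ≤ q ∧ 1 ≤ q ∧ (e j) ^ 2 ≤ (q : ℤ) ∧ c' j * ((K * 2 ^ (j + 1) : ℕ) + 1) ≤ 2 * √(q : ℝ) := by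
    intro j
    obtain ⟨n, hn⟩ := exists_nat_ge ((c' j * ((K * 2 ^ (j + 1) : ℕ) + 1)) ^ 2)
    refine ⟨max (max p₂ 1) (max ((e j) ^ 2).natAbs n), (le_max_left _ _).trans (le_max_left _ _),
      (le_max_right _ _).trans (le_max_left _ _), ?_, ?_⟩
    · have h1 : (e j) ^ 2 = (((e j) ^ 2).natAbs : ℤ) := (Int.natAbs_of_nonneg (sq_nonneg _)).symm
      rw [h1]
      exact_mod_cast (le_max_left _ _).trans (le_max_right _ _)
    · have h2 : ((c' j * ((K * 2 ^ (j + 1) : ℕ) + 1)) ^ 2) ≤ ((max (max p₂ 1) (max ((e j) ^ 2).natAbs n) : ℕ) : ℝ) := by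
        refine hn.trans ?_
        exact_mod_cast (le_max_right _ _).trans (le_max_right _ _)
      have h3 : c' j * ((K * 2 ^ (j + 1) : ℕ) + 1) ≤ √((max (max p₂ 1) (max ((e j) ^ 2).natAbs n) : ℕ) : ℝ) :=
        Real.le_sqrt_of_sq_le h2
      have h4 := Real.sqrt_nonneg ((max (max p₂ 1) (max ((e j) ^ 2).natAbs n) : ℕ) : ℝ)
      linarith
  choose q hq1 hq2 hq3 hq4 using hq
  obtain ⟨thr, hthr, hthr2⟩ := thr_exists c' hc'0 q
  have hth1 : ∀ j, 1 ≤ thr j := fun j => (hq2 j).trans (hthr j).1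
  have hthp : ∀ j, p₂ ≤ thr j := fun j => (hq1 j).trans (hthr j).1
  -- the sets
  have hgr : ∀ j : ℕ, ∃ B : Set ℕ, (∀ z ∈ B, z.Prime ∧ Pj j z ∧ thr j ≤ z ∧ rkJ K z = j) ∧ ∀ x : ℕ,
      (((range (x + 1)).filter (fun z => z ∈ B)).card : ℝ) ≤ TT (c' j) (thr j) (Pj j) x ∧
      TT (c' j) (thr j) (Pj j) x ≤ (((range (x + 1)).filter (fun z => z ∈ B)).card : ℝ) + 2 := by
    intro j
    refine greedy (TT (c' j) (thr j) (Pj j)) (fun z => z.Prime ∧ Pj j z ∧ thr j ≤ z ∧ rkJ K z = j) (TT_zero _ _ _)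
      (TT_mono _ (hc'0 j) _ _) fun x y hxy h => ?_
    refine TT_gap K j hK0 (c' j) (hc'0 j) (thr j) (hth1 j) ?_ (Pj j) (hPj_congr j) x y hxy h
    refine (hq4 j).trans ?_
    have : √(q j : ℝ) ≤ √(thr j : ℝ) := Real.sqrt_le_sqrt (by exact_mod_cast (hthr j).1)
    linarith
  choose B hB1 hB2 using hgr
  have hrk : ∀ j p, p ∈ B j → rkJ K p = j := fun j p hp => (hB1 j p hp).2.2.2
  -- the sequence
  set a' : ℕ → Mz := fun p => if p ∈ B (rkJ K p) then Fal p (e (rkJ K p)) else a p with ha'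
  have ha'F : ∀ j p, p ∈ B j → (a' p).det = p ∧ (a' p).trace = e j ∧ InG M G (rd M (a' p)) := by
    intro j p hp
    have h1 := hrk j p hp
    have h2 : a' p = Fal p (e j) := by
      simp only [ha', h1]
      rw [if_pos hp]
    rw [h2]
    exact hFal p (e j) (hB1 j p hp).2.1
  have ha'B : ∀ j p, p ∈ B j → (a' p).trace = e j := fun j p hp => (ha'F j p hp).2.1
  have ha'n : ∀ p, p ∉ B (rkJ K p) → a' p = a p := fun p hp => if_neg hp
  have ha'V : ∀ p : ℕ, p.Prime → (a' p).trace ∈ V p := by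
    intro p hp
    by_cases h : p ∈ B (rkJ K p)
    · rw [ha'B _ p h, mem_V]
      have h1 : thr (rkJ K p) ≤ p := (hB1 _ p h).2.2.1
      have h2 : ((q (rkJ K p) : ℕ) : ℤ) ≤ (p : ℤ) := by exact_mod_cast (hthr _).1.trans h1
      have h3 := hq3 (rkJ K p)
      have h4 : (0 : ℤ) ≤ p := by positivity
      linarith
    · rw [ha'n p h]
      exact (haV p hp).2
  have ha'D : ∀ p : ℕ, p.Prime → (a' p).det = p := by
    intro p hp
    by_cases h : p ∈ B (rkJ K p)
    · exact (ha'F _ p h).1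
    · rw [ha'n p h]
      exact (haV p hp).1
  have hmod : ∀ x : ℕ, 2 ≤ x → ((((range (x + 1)).filter Nat.Prime).filter (fun p => a p ≠ a' p)).card : ℝ) ≤
      √(x : ℝ) * Real.log x := by
    intro x hx
    set J : Finset ℕ := (range (x + 1)).filter (fun j => thr j ≤ x) with hJ
    have h1 : (((range (x + 1)).filter Nat.Prime).filter (fun p => a p ≠ a' p)) ⊆
        J.biUnion (fun j => (range (x + 1)).filter (fun z => z ∈ B j)) := by
      intro p hp
      rw [mem_filter, mem_filter] at hp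
      rw [mem_biUnion]
      have h2 : p ∈ B (rkJ K p) := by
        by_contra h
        exact hp.2 (ha'n p h).symm
      have h3 : thr (rkJ K p) ≤ p := (hB1 _ p h2).2.2.1
      have h4 : rkJ K p ≤ p := (hthr _).2.trans h3
      have h5 := mem_range.1 hp.1.1
      exact ⟨rkJ K p, mem_filter.2 ⟨mem_range.2 (by omega), by omega⟩, mem_filter.2 ⟨hp.1.1, h2⟩⟩
    have h2 : ((((range (x + 1)).filter Nat.Prime).filter (fun p => a p ≠ a' p)).card : ℝ) ≤
        ∑ j ∈ J, (((range (x + 1)).filter (fun z => z ∈ B j)).card : ℝ) := by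
      exact_mod_cast (card_le_card h1).trans card_biUnion_le
    refine h2.trans ?_
    have h3 : ∑ j ∈ J, (((range (x + 1)).filter (fun z => z ∈ B j)).card : ℝ) ≤ ∑ j ∈ J, c' j * √(x : ℝ) :=
      sum_le_sum fun j _ => (hB2 j x).1.trans (TT_le _ (hc'0 j) _ _ x)
    rw [← sum_mul] at h3
    have h4 := hthr2 x J hx fun j hj => (mem_filter.1 hj).2
    have h5 := Real.sqrt_nonneg (x : ℝ)
    nlinarith
  -- comparison of the counts
  have hcnt : ∀ b : ℤ, ∀ x : ℕ,
      (((range (x + 1)).filter (fun z => z ∈ B (e.symm b))).card : ℝ) ≤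
        ((((range (x + 1)).filter Nat.Prime).filter (fun p => (a' p).trace = b)).card : ℝ) ∧
      ((((range (x + 1)).filter Nat.Prime).filter (fun p => (a' p).trace = b)).card : ℝ) ≤
        (((range (x + 1)).filter (fun z => z ∈ B (e.symm b))).card : ℝ) +
          ((((range (x + 1)).filter Nat.Prime).filter (fun p => (a p).trace = b)).card : ℝ) := by
    intro b x
    constructor
    · have : (range (x + 1)).filter (fun z => z ∈ B (e.symm b)) ⊆
          ((range (x + 1)).filter Nat.Prime).filter (fun p => (a' p).trace = b) := by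
        intro p hp
        rw [mem_filter] at hp
        rw [mem_filter, mem_filter, ha'B _ p hp.2, Equiv.apply_symm_apply]
        exact ⟨⟨hp.1, (hB1 _ p hp.2).1⟩, rfl⟩
      exact_mod_cast card_le_card this
    · have : ((range (x + 1)).filter Nat.Prime).filter (fun p => (a' p).trace = b) ⊆
          (range (x + 1)).filter (fun z => z ∈ B (e.symm b)) ∪
            ((range (x + 1)).filter Nat.Prime).filter (fun p => (a p).trace = b) := by
        intro p hp
        rw [mem_filter] at hp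
        rw [mem_union]
        by_cases h : p ∈ B (rkJ K p)
        · refine Or.inl (mem_filter.2 ⟨(mem_filter.1 hp.1).1, ?_⟩)
          have h1 : e (rkJ K p) = b := by rw [← ha'B _ p h, hp.2]
          rw [← h1, Equiv.symm_apply_apply]
          exact h
        · refine Or.inr (mem_filter.2 ⟨hp.1, ?_⟩)
          rw [← ha'n p h]
          exact hp.2
      exact_mod_cast (card_le_card this).trans (card_union_le _ _)
  refine ⟨a', fun p hp => ⟨ha'D p hp, ha'V p hp⟩, fun j => info_modW M G a a' (fun p hp => (haV p hp).2) ha'V (w j) (hw j) (haI j) hmod, ⟨p₂, ?_⟩, ?_, ?_⟩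
  · intro p hp hpp
    by_cases h : p ∈ B (rkJ K p)
    · exact (ha'F _ p h).2.2
    · rw [ha'n p h]
      exact haU p hp hpp
  · intro b hb
    set j : ℕ := e.symm b with hj
    have hej : e j = b := by rw [hj, Equiv.apply_symm_apply]
    have hc'j : c' j = cc b := by
      simp only [hc', hej]
      rw [if_neg hb]
    have hfin := haF b hb
    refine ⟨2 + hfin.toFinset.card + cc b * thr j, fun x => ?_⟩
    obtain ⟨h1, h2⟩ := hcnt b x
    rw [← hj] at h1 h2
    obtain ⟨h3, h4⟩ := hB2 j x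
    have h5 : ((((range (x + 1)).filter Nat.Prime).filter (fun p => (a p).trace = b)).card : ℝ) ≤ hfin.toFinset.card := by
      have : ((range (x + 1)).filter Nat.Prime).filter (fun p => (a p).trace = b) ⊆ hfin.toFinset := by
        intro p hp
        rw [mem_filter, mem_filter] at hp
        rw [Set.Finite.mem_toFinset]
        exact ⟨hp.1.2, hp.2⟩
      exact_mod_cast card_le_card this
    -- the sum over all allowed primes
    have h6 : TT (c' j) (thr j) (Pj j) x ≤
        cc b * ∑ p ∈ ((range (x + 1)).filter Nat.Prime).filter (fun p => Al M G p b), 1 / (2 * √(p : ℝ)) := by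
      unfold TT
      rw [hc'j]
      refine mul_le_mul_of_nonneg_left (sum_le_sum_of_subset_of_nonneg ?_ fun p _ _ => by positivity) (hcc b)
      intro p hp
      rw [mem_filter] at hp ⊢
      refine ⟨hp.1, ?_⟩
      rw [← hej]
      exact (hPj_iff j p).1 hp.2.2
    have h7 : cc b * ∑ p ∈ ((range (x + 1)).filter Nat.Prime).filter (fun p => Al M G p b), 1 / (2 * √(p : ℝ)) ≤
        TT (c' j) (thr j) (Pj j) x + cc b * thr j := by
      unfold TT
      rw [hc'j, ← mul_add]
      refine mul_le_mul_of_nonneg_left ?_ (hcc b)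
      have h8 : ((range (x + 1)).filter Nat.Prime).filter (fun p => Al M G p b) ⊆
          (((range (x + 1)).filter Nat.Prime).filter (fun p => thr j ≤ p ∧ Pj j p)) ∪
            ((range (thr j)).filter Nat.Prime) := by
        intro p hp
        rw [mem_filter] at hp
        rw [mem_union]
        by_cases h : thr j ≤ p
        · refine Or.inl (mem_filter.2 ⟨hp.1, h, (hPj_iff j p).2 ?_⟩)
          rw [hej]
          exact hp.2
        · exact Or.inr (mem_filter.2 ⟨mem_range.2 (by omega), (mem_filter.1 hp.1).2⟩)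
      have h9 : ∑ p ∈ (range (thr j)).filter Nat.Prime, 1 / (2 * √(p : ℝ)) ≤ thr j := by
        have h10 : ∑ p ∈ (range (thr j)).filter Nat.Prime, 1 / (2 * √(p : ℝ)) ≤
            ((range (thr j)).filter Nat.Prime).card • (1 : ℝ) := by
          refine sum_le_card_nsmul _ _ _ fun p hp => ?_
          have hp2 : (1 : ℝ) ≤ p := by exact_mod_cast (mem_filter.1 hp).2.one_le
          have hp3 : (1 : ℝ) ≤ √(p : ℝ) := Real.one_le_sqrt.2 hp2
          rw [div_le_one (by positivity)]
          linarith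
        refine h10.trans ?_
        rw [nsmul_eq_mul, mul_one]
        have := card_filter_le (range (thr j)) Nat.Prime
        rw [card_range] at this
        exact_mod_cast this
      have h11 : ∑ p ∈ ((range (x + 1)).filter Nat.Prime).filter (fun p => Al M G p b), 1 / (2 * √(p : ℝ)) ≤
          ∑ p ∈ (((range (x + 1)).filter Nat.Prime).filter (fun p => thr j ≤ p ∧ Pj j p)) ∪
            ((range (thr j)).filter Nat.Prime), 1 / (2 * √(p : ℝ)) :=
        sum_le_sum_of_subset_of_nonneg h8 fun p _ _ => by positivity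
      have h12 : ∑ p ∈ (((range (x + 1)).filter Nat.Prime).filter (fun p => thr j ≤ p ∧ Pj j p)) ∪
            ((range (thr j)).filter Nat.Prime), 1 / (2 * √(p : ℝ)) ≤
          ∑ p ∈ ((range (x + 1)).filter Nat.Prime).filter (fun p => thr j ≤ p ∧ Pj j p), 1 / (2 * √(p : ℝ)) +
            ∑ p ∈ (range (thr j)).filter Nat.Prime, 1 / (2 * √(p : ℝ)) := by
        rw [← sum_union_inter]
        have : 0 ≤ ∑ p ∈ (((range (x + 1)).filter Nat.Prime).filter (fun p => thr j ≤ p ∧ Pj j p)) ∩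
            ((range (thr j)).filter Nat.Prime), 1 / (2 * √(p : ℝ)) := sum_nonneg fun p _ => by positivity
        linarith
      linarith
    rw [abs_le]
    have h8 : 0 ≤ cc b * thr j := mul_nonneg (hcc b) (by positivity)
    have h9 : (0 : ℝ) ≤ hfin.toFinset.card := by positivity
    constructor <;> linarith
  · rintro b hb ⟨d, hd⟩ ε hε
    obtain ⟨x₀, hx₀⟩ := haS b hb d hd 1 ε hε
    refine ⟨max x₀ 2, fun x hx => ?_⟩
    have h1 := hx₀ x ((le_max_left _ _).trans hx)
    have h2 := hmod x ((le_max_right _ _).trans hx)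
    have h3 : ((((range (x + 1)).filter Nat.Prime).filter (fun p => (a p).trace = b)).card : ℝ) ≤
        ((((range (x + 1)).filter Nat.Prime).filter (fun p => (a' p).trace = b)).card : ℝ) +
          ((((range (x + 1)).filter Nat.Prime).filter (fun p => a p ≠ a' p)).card : ℝ) := by
      have : ((range (x + 1)).filter Nat.Prime).filter (fun p => (a p).trace = b) ⊆
          (((range (x + 1)).filter Nat.Prime).filter (fun p => (a' p).trace = b)) ∪
            (((range (x + 1)).filter Nat.Prime).filter (fun p => a p ≠ a' p)) := by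
        intro p hp
        rw [mem_filter] at hp
        rw [mem_union]
        by_cases h : a p = a' p
        · exact Or.inl (mem_filter.2 ⟨hp.1, by rw [← h]; exact hp.2⟩)
        · exact Or.inr (mem_filter.2 ⟨hp.1, h⟩)
      exact_mod_cast (card_le_card this).trans (card_union_le _ _)
    rw [one_mul] at h1
    linarith

theorem part_twoW (F : ℕ → Mz) (r : ℝ) (hr : 0 ≤ r) (hV : ∀ p : ℕ, p.Prime → (F p).trace ∈ V p)
    (hin : ∃ p₀ : ℕ, ∀ p : ℕ, p.Prime → p₀ ≤ p → InG M G (rd M (F p))) (hI : InfoW M G F (fun _ => 1) r) (b : ℤ) :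
    ∃ C : ℝ, ∀ x : ℕ, 3 ≤ x →
      ((((range (x + 1)).filter Nat.Prime).filter (fun p => (F p).trace = b)).card : ℝ) ≤
        C * (x : ℝ) ^ (3 / 4 : ℝ) * Real.log x ^ ((r - 1) / 2) := by
  obtain ⟨p₀, hp₀⟩ := hin
  obtain ⟨C, hC, hmom⟩ := mom_C M hM G hG F hV p₀ hp₀ r hr (infoW_one M G F r hI)
  exact up_J (fun p => (F p).trace) hV r hr C hC hmom b

end

end Pool.Agent.JC
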