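import Pool.Agent.Lib_MP_f1937f_jc.Defs
import Pool.Agent.Lib_MP_f1937f_jb.Crt
import Pool.Agent.Lib_MP_f1937f_jb.Rho
import Pool.Agent.Lib_MP_f1937f_jb.RhoSum

/-!
# Mean values in the determinant
-/

set_option autoImplicit false

namespace Pool.Agent.JC

open Finset Pool.Agent.TB Pool.Agent.JB Pool.Agent.JD

/-- for every residue `x` exactly one `n` modulo `e` has `x² - a x + n = 0` -/
private theorem rho_mean (a : ℤ) (e : ℕ) (he : 0 < e) : ∑ n ∈ range e, (rho n a e : ℝ) = e := by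
  classical
  haveI : NeZero e := ⟨he.ne'⟩
  simp_rw [rho_eq_sum]
  rw [Finset.sum_comm]
  have key : ∀ c : ZMod e, (∑ n ∈ range e, if c ^ 2 - (a : ZMod e) * c + (((n : ℕ) : ℤ) : ZMod e) = 0 then (1 : ℝ) else 0) = 1 := by
    intro c
    rw [Finset.sum_boole]
    have h1 : (range e).filter (fun n : ℕ => c ^ 2 - (a : ZMod e) * c + (((n : ℕ) : ℤ) : ZMod e) = 0) =
        {(-(c ^ 2 - (a : ZMod e) * c)).val} := by
      ext n
      rw [Finset.mem_filter, Finset.mem_singleton, Finset.mem_range, Int.cast_natCast]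
      constructor
      · rintro ⟨hn, h0⟩
        have h2 : (n : ZMod e) = -(c ^ 2 - (a : ZMod e) * c) := by linear_combination h0
        rw [← h2, ZMod.val_natCast, Nat.mod_eq_of_lt hn]
      · rintro rfl
        refine ⟨ZMod.val_lt _, ?_⟩
        rw [ZMod.natCast_zmod_val]
        ring
    rw [h1, Finset.card_singleton, Nat.cast_one]
  rw [Finset.sum_congr rfl fun c _ => key c, Finset.sum_const, Finset.card_univ, ZMod.card, nsmul_eq_mul, mul_one]

/-- PIECE [JC-A4] (both theorems, about 150 lines). PROOF. `∑_{n < l ^ j} rho n a (l ^ j) = l ^ j` (for every `x` exactly one `n` modulo `l ^ j` has `x² - a x + n = 0`), so the local sum of `kap l rho + 1 / (l + 1)` is `l ^ j (kap l + 1 / (l + 1)) = l ^ j (1 + l / (l² - 1))`;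
Chinese remainder theorem (`crt_sum`, induction on the coprime factorisation). -/
theorem cc_mean (a : ℤ) (h : ℕ) (hh : 0 < h) :
    ∑ n ∈ range h, CC n a h = (h : ℝ) * (∏ l ∈ h.primeFactors, (1 + (l : ℝ) / ((l : ℝ) ^ 2 - 1)) : ℝ) := by
  induction h using Nat.recOnPosPrimePosCoprime with
  | prime_pow l j hl hj =>
    have h1 : ∀ n ∈ range (l ^ j), CC n a (l ^ j) = kap l * (rho n a (l ^ j) : ℝ) + 1 / ((l : ℝ) + 1) :=
      fun n _ => CC_pow _ _ hl hj
    rw [Finset.sum_congr rfl h1, Finset.sum_add_distrib, ← Finset.mul_sum, rho_mean a _ hh, Finset.sum_const,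
      Finset.card_range, nsmul_eq_mul, Nat.primeFactors_prime_pow (by omega) hl, Finset.prod_singleton]
    have h2 : (2 : ℝ) ≤ (l : ℝ) := by exact_mod_cast hl.two_le
    have h3 : (l : ℝ) ^ 2 - 1 ≠ 0 := by nlinarith
    have h4 : (l : ℝ) + 1 ≠ 0 := by linarith
    unfold kap
    field_simp
    ring
  | zero => exact absurd hh (lt_irrefl 0)
  | one => simp [CC_one]
  | coprime A B hA hB hAB ihA ihB =>
    have hA0 : 0 < A := by omega
    have hB0 : 0 < B := by omega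
    have h1 : ∀ n ∈ range (A * B), CC n a (A * B) = CC n a A * CC n a B := fun n _ => CC_mul _ _ hAB
    have hper : ∀ (C : ℕ) (b : ℕ), CC ((b % C : ℕ) : ℤ) a C = CC (b : ℤ) a C := by
      intro C b
      refine CC_congr ?_ (by simp)
      rw [Int.natCast_mod]
      have := Int.emod_add_mul_ediv (b : ℤ) (C : ℤ)
      exact ⟨-((b : ℤ) / (C : ℤ)), by linear_combination this⟩
    rw [Finset.sum_congr rfl h1, crt_sum A B hA0 hB0 hAB (fun n => CC n a A) (fun n => CC n a B) (hper A) (hper B),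
      ihA hA0, ihB hB0, hAB.primeFactors_mul, Finset.prod_union hAB.disjoint_primeFactors]
    push_cast
    ring

private theorem prod_primes_le (X : ℕ) (hX : 1 ≤ X) :
    (∏ l ∈ (range (X + 1)).filter Nat.Prime, (1 + 1 / ((l : ℝ) ^ 2 - 1)) : ℝ) ≤ 2 * (X : ℝ) / ((X : ℝ) + 1) := by
  induction X, hX using Nat.le_induction with
  | base =>
    have : (range (1 + 1)).filter Nat.Prime = ∅ := by decide
    rw [this, Finset.prod_empty]
    norm_num
  | succ X hX ih =>
    have hX' : (1 : ℝ) ≤ (X : ℝ) := by exact_mod_cast hX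
    rw [Finset.range_add_one, Finset.filter_insert]
    split_ifs with hp
    · rw [Finset.prod_insert (by simp)]
      have h1 : (0 : ℝ) < 1 + 1 / ((((X + 1 : ℕ) : ℝ)) ^ 2 - 1) := by
        push_cast
        have : 0 < ((X : ℝ) + 1) ^ 2 - 1 := by nlinarith
        positivity
      refine (mul_le_mul_of_nonneg_left ih h1.le).trans (le_of_eq ?_)
      push_cast
      have h2 : ((X : ℝ) + 1) ^ 2 - 1 ≠ 0 := by nlinarith
      have h3 : (X : ℝ) + 1 ≠ 0 := by linarith
      have h4 : (X : ℝ) + 1 + 1 ≠ 0 := by linarith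
      rw [show (1 : ℝ) + 1 / (((X : ℝ) + 1) ^ 2 - 1) = ((X : ℝ) + 1) ^ 2 / ((X : ℝ) * ((X : ℝ) + 1 + 1)) by
        have h5 : (X : ℝ) ≠ 0 := by linarith
        have h6 : ((X : ℝ) + 1) ^ 2 - 1 = (X : ℝ) * ((X : ℝ) + 1 + 1) := by ring
        rw [h6]
        field_simp
        ring]
      field_simp
    · refine ih.trans ?_
      push_cast
      rw [div_le_div_iff₀ (by linarith) (by linarith)]
      nlinarith

/-- PROOF. `∏_{l ∣ h} (1 + g l) = ∑_{d ∣ h squarefree} ∏_{l ∣ d} g l`, `g l = l / (l² - 1)`; so the sum is at most `X ∑_{d ≤ X squarefree} ∏_{l ∣ d} 1 / (l² - 1) ≤ X ∏_{l ≤ X} (1 + 1 / (l² - 1)) ≤ X ∏_{2 ≤ n ≤ X} n² / (n² - 1) ≤ 2 X`. -/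
theorem mean_mean (X : ℕ) : (∑ h ∈ Icc 1 X, (∏ l ∈ h.primeFactors, (1 + (l : ℝ) / ((l : ℝ) ^ 2 - 1)) : ℝ)) ≤ 2 * (X : ℝ) := by
  classical
  rcases Nat.eq_zero_or_pos X with rfl | hX
  · simp
  set g : ℕ → ℝ := fun l => (l : ℝ) / ((l : ℝ) ^ 2 - 1) with hg
  set P : Finset ℕ := (range (X + 1)).filter Nat.Prime with hP
  have hg0 : ∀ l, l.Prime → 0 ≤ g l := by
    intro l hl
    have h2 : (2 : ℝ) ≤ (l : ℝ) := by exact_mod_cast hl.two_le
    exact div_nonneg (by linarith) (by nlinarith)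
  have hsub : ∀ h ∈ Icc 1 X, h.primeFactors ⊆ P := by
    intro h hh l hl
    rw [Finset.mem_Icc] at hh
    have h1 := Nat.le_of_mem_primeFactors hl
    exact Finset.mem_filter.2 ⟨Finset.mem_range.2 (by omega), Nat.prime_of_mem_primeFactors hl⟩
  have h1 : ∀ h ∈ Icc 1 X, (∏ l ∈ h.primeFactors, (1 + g l)) =
      ∑ t ∈ P.powerset, if t ⊆ h.primeFactors then ∏ l ∈ t, g l else 0 := by
    intro h hh
    rw [Finset.prod_one_add, ← Finset.sum_filter]
    refine Finset.sum_congr ?_ fun _ _ => rfl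
    ext t
    rw [Finset.mem_powerset, Finset.mem_filter, Finset.mem_powerset]
    exact ⟨fun ht => ⟨ht.trans (hsub h hh), ht⟩, fun ht => ht.2⟩
  rw [Finset.sum_congr rfl h1, Finset.sum_comm]
  have h2 : ∀ t ∈ P.powerset, (∑ h ∈ Icc 1 X, if t ⊆ h.primeFactors then ∏ l ∈ t, g l else 0) ≤
      (X : ℝ) * ∏ l ∈ t, 1 / ((l : ℝ) ^ 2 - 1) := by
    intro t ht
    rw [Finset.mem_powerset] at ht
    have hpr : ∀ l ∈ t, l.Prime := fun l hl => (Finset.mem_filter.1 (ht hl)).2
    rw [← Finset.sum_filter, Finset.sum_const, nsmul_eq_mul]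
    have hG : 0 ≤ ∏ l ∈ t, g l := Finset.prod_nonneg fun l hl => hg0 l (hpr l hl)
    have hD : 0 < ∏ l ∈ t, l := Finset.prod_pos fun l hl => (hpr l hl).pos
    have hcard : (((Icc 1 X).filter fun h => t ⊆ h.primeFactors).card : ℝ) ≤ (X : ℝ) / ((∏ l ∈ t, l : ℕ) : ℝ) := by
      have h3 : ((Icc 1 X).filter fun h => t ⊆ h.primeFactors) ⊆ (Ioc 0 X).filter (fun h => (∏ l ∈ t, l) ∣ h) := by
        intro h hh
        rw [Finset.mem_filter, Finset.mem_Icc] at hh
        rw [Finset.mem_filter, Finset.mem_Ioc]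
        refine ⟨by omega, ?_⟩
        exact Finset.prod_primes_dvd _ (fun l hl => (hpr l hl).prime) fun l hl => Nat.dvd_of_mem_primeFactors (hh.2 hl)
      have h4 := Finset.card_le_card h3
      rw [Nat.Ioc_filter_dvd_card_eq_div] at h4
      calc (((Icc 1 X).filter fun h => t ⊆ h.primeFactors).card : ℝ) ≤ ((X / (∏ l ∈ t, l) : ℕ) : ℝ) := by exact_mod_cast h4
        _ ≤ (X : ℝ) / ((∏ l ∈ t, l : ℕ) : ℝ) := Nat.cast_div_le
    refine (mul_le_mul_of_nonneg_right hcard hG).trans (le_of_eq ?_)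
    rw [Nat.cast_prod, div_mul_eq_mul_div, mul_div_assoc, ← Finset.prod_div_distrib]
    congr 1
    refine Finset.prod_congr rfl fun l hl => ?_
    have h5 : (2 : ℝ) ≤ (l : ℝ) := by exact_mod_cast (hpr l hl).two_le
    have h6 : (l : ℝ) ^ 2 - 1 ≠ 0 := by nlinarith
    have h7 : (l : ℝ) ≠ 0 := by linarith
    rw [hg]
    field_simp
  refine (Finset.sum_le_sum h2).trans ?_
  rw [← Finset.mul_sum, ← Finset.prod_one_add]
  have h3 := prod_primes_le X hX
  have hX' : (0 : ℝ) < (X : ℝ) := by exact_mod_cast hX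
  calc (X : ℝ) * ∏ l ∈ P, (1 + 1 / ((l : ℝ) ^ 2 - 1)) ≤ (X : ℝ) * (2 * (X : ℝ) / ((X : ℝ) + 1)) :=
        mul_le_mul_of_nonneg_left h3 hX'.le
    _ ≤ (X : ℝ) * 2 := by
        refine mul_le_mul_of_nonneg_left ?_ hX'.le
        rw [div_le_iff₀ (by linarith)]
        linarith
    _ = 2 * (X : ℝ) := by ring

end Pool.Agent.JC
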