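import Pool.Agent.Lib_MP_f1937f_jc.GreedyG
import Pool.Agent.Lib_MP_f1937f_jc.Mats
import Pool.Agent.Lib_MP_f1937f_jb.RBlkAll

/-!
# One dyadic block
-/

set_option autoImplicit false

namespace Pool.Agent.JC

open Finset Pool.Agent.TB Pool.Agent.JB Pool.Agent.JD

open Classical in
/-- the test for the class of `F` modulo `m` and the degree `k` -/
noncomputable def Tst (M : ℕ) (G : Subgroup (GL (Fin 2) (ZMod M))) (m : ℕ) (F : Mz) (k p : ℕ) (ω : Om) : ℝ :=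
  if ∃ h : M ∣ m, CjG M m h G (rd m F) (rd m (mt p ω)) then Uk k (xx p ω.1) else 0

private theorem Tst_congr_rblkC (M : ℕ) (G : Subgroup (GL (Fin 2) (ZMod M))) (m : ℕ) {F F' : Mz} (h : rd m F = rd m F') (k p : ℕ)
    (ω : Om) : Tst M G m F k p ω = Tst M G m F' k p ω := by
  unfold Tst
  rw [h]

private theorem mem_V_rblkC {R : Finset (Matrix.SpecialLinearGroup (Fin 2) ℤ)} {p : ℕ} {ω : Om} (h : ω ∈ Sp R p) : ω.1 ∈ V p := by
  unfold Sp at h
  exact (Finset.mem_product.1 h).1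

private theorem pos_lvl_rblkC {R : Finset (Matrix.SpecialLinearGroup (Fin 2) ℤ)} {p : ℕ} {ω : Om} (h : ω ∈ Sp R p) : 0 < ω.2.1 := by
  unfold Sp at h
  have h1 := (Finset.mem_product.1 (Finset.mem_product.1 h).2).1
  exact (Finset.mem_Icc.1 h1).1

private theorem Tst_le_of_rblkC (M : ℕ) (G : Subgroup (GL (Fin 2) (ZMod M))) (m : ℕ) (F : Mz) (k p : ℕ) (ω : Om) (B : ℝ)
    (hB : |Uk k (xx p ω.1)| ≤ B) : |Tst M G m F k p ω| ≤ B := by
  unfold Tst
  split_ifs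
  · exact hB
  · rw [abs_zero]
    exact (abs_nonneg _).trans hB

private theorem term_le_rblkC {R : Finset (Matrix.SpecialLinearGroup (Fin 2) ℤ)} (p : ℕ) (ρ : Om → ℝ) (h0 : ∀ ω, 0 ≤ ρ ω)
    (h1 : ∑ ω ∈ Sp R p, ρ ω = 1) {v : Om} (hv : v ∈ Sp R p) (T : Om → ℝ) (B : ℝ) (hB : ∀ ω ∈ Sp R p, |T ω| ≤ B) :
    |T v - ∑ ω ∈ Sp R p, ρ ω * T ω| ≤ 2 * B := by
  have h3 : |∑ ω ∈ Sp R p, ρ ω * T ω| ≤ B := by
    calc |∑ ω ∈ Sp R p, ρ ω * T ω| ≤ ∑ ω ∈ Sp R p, |ρ ω * T ω| := Finset.abs_sum_le_sum_abs _ _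
      _ ≤ ∑ ω ∈ Sp R p, ρ ω * B := by
          refine Finset.sum_le_sum fun ω hω => ?_
          rw [abs_mul, abs_of_nonneg (h0 ω)]
          exact mul_le_mul_of_nonneg_left (hB ω hω) (h0 ω)
      _ = B := by rw [← Finset.sum_mul, h1, one_mul]
  have h4 := abs_sub (T v) (∑ ω ∈ Sp R p, ρ ω * T ω)
  have h5 := hB v hv
  linarith

/-- a conjugate matrix has the same determinant -/
private theorem det_rblkC {M m : ℕ} {h : M ∣ m} {G : Subgroup (GL (Fin 2) (ZMod M))} {A B : Matrix (Fin 2) (Fin 2) (ZMod m)}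
    (hA : CjG M m h G A B) : A.det = B.det := by
  obtain ⟨γ, -, hγ⟩ := hA
  have h1 := congrArg Matrix.det hγ
  rw [Matrix.det_mul, Matrix.det_mul, mul_comm (Matrix.det B)] at h1
  have h2 : IsUnit (Matrix.det γ.val) := (Matrix.isUnit_iff_isUnit_det _).1 γ.isUnit
  exact h2.mul_left_cancel h1

/-- the test of an admissible outcome vanishes unless `det F = p` modulo `m` -/
private theorem Tst_zero_rblkC (M : ℕ) (G : Subgroup (GL (Fin 2) (ZMod M))) (m : ℕ) (F : Mz) (k p : ℕ) (ω : Om) (h0 : 0 < ω.2.1)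
    (hs : Sc ω.2.1 p ω.1) (hd : (F.det : ZMod m) ≠ (p : ZMod m)) : Tst M G m F k p ω = 0 := by
  unfold Tst
  rw [if_neg]
  rintro ⟨h, hc⟩
  apply hd
  have h1 := det_rblkC hc
  rw [rd_det, rd_det, mt_det p ω h0 hs] at h1
  rw [h1]
  push_cast
  rfl

/-- reduction of the entries -/
private theorem red_rblkC (m : ℕ) (hm : 0 < m) (F : Mz) :
    rd m F = rd m !![(((F 0 0) % m).toNat : ℤ), (((F 0 1) % m).toNat : ℤ); (((F 1 0) % m).toNat : ℤ), (((F 1 1) % m).toNat : ℤ)] := by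
  have hm' : (m : ℤ) ≠ 0 := by exact_mod_cast hm.ne'
  have key : ∀ z : ℤ, ((z : ℤ) : ZMod m) = ((((z % m).toNat : ℤ)) : ZMod m) := by
    intro z
    rw [Int.toNat_of_nonneg (Int.emod_nonneg _ hm')]
    exact (ZMod.intCast_mod z m).symm
  unfold rd
  ext a b
  fin_cases a <;> fin_cases b
  · exact key _
  · exact key _
  · exact key _
  · exact key _

private theorem lt_of_emod_rblkC (m : ℕ) (hm : 0 < m) (z : ℤ) : (z % m).toNat ≤ m := by
  have h1 := Int.emod_lt_of_pos z (show (0 : ℤ) < m by exact_mod_cast hm)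
  omega

private theorem card_rblkC (i : ℕ) :
    ((((range (2 ^ (i + 3) + 1) ×ˢ range (2 ^ (i + 3) + 1) ×ˢ range (2 ^ (i + 3) + 1) ×ˢ range (2 ^ (i + 3) + 1) ×ˢ
      range (2 ^ (i + 3) + 1) ×ˢ range (2 ^ (i + 3) + 1) ×ˢ range (2 ^ (i + 3) + 1)).disjSum
      (Icc (-((2 ^ (i + 3) : ℕ) : ℤ)) ((2 ^ (i + 3) : ℕ) : ℤ) ×ˢ range (2 ^ (i + 3) + 1))).card : ℕ) : ℝ) ≤ (2 : ℝ) ^ (7 * i + 29) := by
  have hN : 8 ≤ 2 ^ (i + 3) := by
    rw [pow_add]
    have := Nat.one_le_two_pow (n := i)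
    omega
  have e1 : (Icc (-((2 ^ (i + 3) : ℕ) : ℤ)) ((2 ^ (i + 3) : ℕ) : ℤ)).card = 2 * 2 ^ (i + 3) + 1 := by
    rw [Int.card_Icc]
    omega
  have e2 : (2 ^ (i + 3)) ^ 7 * 2 ^ 8 = 2 ^ (7 * i + 29) := by
    rw [← pow_mul, ← pow_add]
    congr 1
    ring
  have e3 : ((range (2 ^ (i + 3) + 1) ×ˢ range (2 ^ (i + 3) + 1) ×ˢ range (2 ^ (i + 3) + 1) ×ˢ range (2 ^ (i + 3) + 1) ×ˢ
      range (2 ^ (i + 3) + 1) ×ˢ range (2 ^ (i + 3) + 1) ×ˢ range (2 ^ (i + 3) + 1)).disjSum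
      (Icc (-((2 ^ (i + 3) : ℕ) : ℤ)) ((2 ^ (i + 3) : ℕ) : ℤ) ×ˢ range (2 ^ (i + 3) + 1))).card ≤ 2 ^ (7 * i + 29) := by
    rw [Finset.card_disjSum]
    simp only [Finset.card_product, Finset.card_range, e1]
    rw [← e2]
    generalize 2 ^ (i + 3) = n at hN
    have h1 : (n + 1) ≤ 2 * n := by omega
    have h2 : (n + 1) * ((n + 1) * ((n + 1) * ((n + 1) * ((n + 1) * ((n + 1) * (n + 1)))))) ≤
        (2 * n) * ((2 * n) * ((2 * n) * ((2 * n) * ((2 * n) * ((2 * n) * (2 * n)))))) := by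
      gcongr
    have h3 : (2 * n + 1) * (n + 1) ≤ (3 * n) * (2 * n) := Nat.mul_le_mul (by omega) h1
    have h4 : n ^ 2 ≤ n ^ 7 := Nat.pow_le_pow_right (by omega) (by norm_num)
    calc _ ≤ (2 * n) * ((2 * n) * ((2 * n) * ((2 * n) * ((2 * n) * ((2 * n) * (2 * n)))))) + (3 * n) * (2 * n) :=
          Nat.add_le_add h2 h3
      _ = 128 * n ^ 7 + 6 * n ^ 2 := by ring
      _ ≤ n ^ 7 * 2 ^ 8 := by omega
  exact_mod_cast e3

open Classical in
/-- PIECE [JC-G7a] (about 250 lines, adapt `rblk` and `rblk_all`, `Lib_MP_f1937f_jb/RBlk.lean`, `RBlkAll.lean`). PROOF. `greedy_G` with `S = blk i`, `Vs = Sp R` and two kinds of tests (for instance `ι` a sum type): `(m, F, k, x)` with `m, k, x ≤ 2 ^ (i+3)`, `F` a matrix with entries in `range m` (test `if p ≤ x then Tst ... else 0`,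
`c = k + 1`) and `(b, x)` with `|b| ≤ 2 ^ (i+3)` (test `if p ≤ x ∧ ω.1 = b then 1 else 0`, `c = 1`); `log (2 #J + 1) ≤ 60 (i + 1)`. General `F`: only its entries modulo `m` matter. `m > 2 ^ (i+3)` : if the test for an outcome with `Sc` is not `0` then `det F = p` modulo `m` (`CjG`, `rd_det`, `mt_det`), so at most one prime of the block
gives a non zero term; trivial bound. `k > 2 ^ (i+3)` : as in `rblk_all` (`RBlk_Uk_le`). `x > 2 ^ (i+1)`: replace by `2 ^ (i+1)`. `|b| > 2 ^ (i+3)` : all terms are `0`. -/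
theorem rblk_C (M : ℕ) (G : Subgroup (GL (Fin 2) (ZMod M))) (R : Finset (Matrix.SpecialLinearGroup (Fin 2) ℤ)) (i : ℕ)
    (ρ : ℕ → Om → ℝ) (h0 : ∀ p ∈ blk i, ∀ ω, 0 ≤ ρ p ω) (h1 : ∀ p ∈ blk i, ∑ ω ∈ Sp R p, ρ p ω = 1)
    (hs : ∀ p ∈ blk i, ∀ ω, ρ p ω ≠ 0 → Sc ω.2.1 p ω.1) :
    ∃ v : ℕ → Om, (∀ p ∈ blk i, v p ∈ Sp R p ∧ 0 < ρ p (v p)) ∧
      (∀ (m : ℕ) (F : Mz) (k x : ℕ), 0 < m →
        |∑ p ∈ (blk i).filter (fun p => p ≤ x), (Tst M G m F k p (v p) - ∑ ω ∈ Sp R p, ρ p ω * Tst M G m F k p ω)| ≤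
          40 * (k + 1) * √((2 : ℝ) ^ i * (i + 1))) ∧
      ∀ (b : ℤ) (x : ℕ),
        |∑ p ∈ (blk i).filter (fun p => p ≤ x), ((if (v p).1 = b then (1 : ℝ) else 0) - ∑ ω ∈ Sp R p, ρ p ω * (if ω.1 = b then (1 : ℝ) else 0))| ≤
          40 * √((2 : ℝ) ^ i * (i + 1)) := by
  classical
  have hk0 : ∀ k : ℕ, (0 : ℝ) < (k : ℝ) + 1 := fun k => by positivity
  have h2i : (1 : ℝ) ≤ (2 : ℝ) ^ i := one_le_pow₀ (by norm_num)
  have hi1 : (1 : ℝ) ≤ (i : ℝ) + 1 := by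
    have : (0 : ℝ) ≤ i := Nat.cast_nonneg i
    linarith
  have hsq1 : (1 : ℝ) ≤ √((2 : ℝ) ^ i * (i + 1)) := by
    rw [Real.one_le_sqrt]
    exact one_le_mul_of_one_le_of_one_le h2i hi1
  have hsq2 : √((2 : ℝ) ^ i) ≤ √((2 : ℝ) ^ i * (i + 1)) := by
    apply Real.sqrt_le_sqrt
    exact le_mul_of_one_le_right (by positivity) hi1
  have hxx : ∀ p ∈ blk i, ∀ ω ∈ Sp R p, |xx p ω.1| ≤ 1 := fun p hp ω hω =>
    RBlk_xx_le_one (Block_blk hp).1 (mem_V_rblkC hω)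
  -- the tests
  set N : ℕ := 2 ^ (i + 3) with hN
  set Rg : Finset ℕ := range (2 ^ (i + 3) + 1) with hRg
  set J : Finset ((ℕ × ℕ × ℕ × ℕ × ℕ × ℕ × ℕ) ⊕ (ℤ × ℕ)) :=
    (Rg ×ˢ Rg ×ˢ Rg ×ˢ Rg ×ˢ Rg ×ˢ Rg ×ˢ Rg).disjSum
      (Icc (-((2 ^ (i + 3) : ℕ) : ℤ)) ((2 ^ (i + 3) : ℕ) : ℤ) ×ˢ Rg) with hJ
  set T : ((ℕ × ℕ × ℕ × ℕ × ℕ × ℕ × ℕ) ⊕ (ℤ × ℕ)) → ℕ → Om → ℝ := fun j p ω =>
    Sum.elim (fun j => if p ≤ j.2.2.2.2.2.2 then Tst M G j.1
        !![(j.2.1 : ℤ), (j.2.2.1 : ℤ); (j.2.2.2.1 : ℤ), (j.2.2.2.2.1 : ℤ)] j.2.2.2.2.2.1 p ω else 0)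
      (fun j => if p ≤ j.2 ∧ ω.1 = j.1 then (1 : ℝ) else 0) j with hT
  set c : ((ℕ × ℕ × ℕ × ℕ × ℕ × ℕ × ℕ) ⊕ (ℤ × ℕ)) → ℝ := fun j =>
    Sum.elim (fun j => (j.2.2.2.2.2.1 : ℝ) + 1) (fun _ => (1 : ℝ)) j with hc
  have hL : Real.log (2 * J.card + 1) ≤ 60 * ((i : ℝ) + 1) := by
    have hcJ : (J.card : ℝ) ≤ (2 : ℝ) ^ (7 * i + 29) := card_rblkC i
    have e1 : 2 * (J.card : ℝ) + 1 ≤ (2 : ℝ) ^ (7 * i + 31) := by
      have e2 : (1 : ℝ) ≤ (2 : ℝ) ^ (7 * i + 29) := one_le_pow₀ (by norm_num)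
      calc 2 * (J.card : ℝ) + 1 ≤ 2 * (2 : ℝ) ^ (7 * i + 29) + (2 : ℝ) ^ (7 * i + 29) := by linarith
        _ ≤ 4 * (2 : ℝ) ^ (7 * i + 29) := by linarith
        _ = (2 : ℝ) ^ (7 * i + 31) := by
            rw [show 7 * i + 31 = (7 * i + 29) + 2 by ring, pow_add]
            ring
    have e2 : Real.log (2 * J.card + 1) ≤ Real.log ((2 : ℝ) ^ (7 * i + 31)) :=
      Real.log_le_log (by positivity) e1
    rw [Real.log_pow] at e2
    have e3 := Real.log_two_lt_d9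
    have e4 : Real.log 2 ≤ 1 := by linarith
    have e5 : (0 : ℝ) ≤ ((7 * i + 31 : ℕ) : ℝ) := Nat.cast_nonneg _
    have e6 : ((7 * i + 31 : ℕ) : ℝ) * Real.log 2 ≤ ((7 * i + 31 : ℕ) : ℝ) * 1 :=
      mul_le_mul_of_nonneg_left e4 e5
    push_cast at e2 e6
    have e7 : (0 : ℝ) ≤ i := Nat.cast_nonneg i
    linarith
  have hcpos : ∀ j ∈ J, 0 < c j := by
    rintro (j | j) _
    · exact hk0 _
    · exact one_pos
  have hTb : ∀ j ∈ J, ∀ p ∈ blk i, ∀ ω ∈ Sp R p, |T j p ω| ≤ c j := by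
    rintro (j | j) _ p hp ω hω
    · show |(if p ≤ j.2.2.2.2.2.2 then Tst M G j.1
        !![(j.2.1 : ℤ), (j.2.2.1 : ℤ); (j.2.2.2.1 : ℤ), (j.2.2.2.2.1 : ℤ)] j.2.2.2.2.2.1 p ω else 0)| ≤
          (j.2.2.2.2.2.1 : ℝ) + 1
      split_ifs
      · exact Tst_le_of_rblkC _ _ _ _ _ _ _ _ (Uk_le _ (hxx p hp ω hω))
      · rw [abs_zero]
        exact (hk0 _).le
    · show |(if p ≤ j.2 ∧ ω.1 = j.1 then (1 : ℝ) else 0)| ≤ 1
      split_ifs
      · rw [abs_one]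
      · rw [abs_zero]
        exact zero_le_one
  obtain ⟨v, hv1, hv2⟩ := greedy_G J (blk i) (Sp R) ρ h0 h1 T c hcpos hTb (60 * ((i : ℝ) + 1)) hL (by positivity)
  have hcard : ((blk i).card : ℝ) ≤ (2 : ℝ) ^ i := by exact_mod_cast RBlk_card_le i
  have hroot : √(((blk i).card : ℝ) * (60 * ((i : ℝ) + 1))) ≤ 8 * √((2 : ℝ) ^ i * (i + 1)) := by
    have h5 : (8 : ℝ) * √((2 : ℝ) ^ i * (i + 1)) = √(64 * ((2 : ℝ) ^ i * (i + 1))) := by
      rw [Real.sqrt_mul (by norm_num : (0 : ℝ) ≤ 64)]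
      congr 1
      rw [show (64 : ℝ) = 8 ^ 2 by norm_num, Real.sqrt_sq (by norm_num)]
    rw [h5]
    apply Real.sqrt_le_sqrt
    have h6 : (0 : ℝ) ≤ (i : ℝ) + 1 := by positivity
    have h7 : ((blk i).card : ℝ) * ((i : ℝ) + 1) ≤ (2 : ℝ) ^ i * (i + 1) :=
      mul_le_mul_of_nonneg_right hcard h6
    have h8 : (0 : ℝ) ≤ (2 : ℝ) ^ i * (i + 1) := by positivity
    nlinarith
  have hNle : 2 ^ (i + 1) ≤ N := by
    rw [hN]
    exact Nat.pow_le_pow_right (by norm_num) (by omega)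
  have hx' : ∀ (x : ℕ), ∀ p ∈ blk i, (p ≤ x ↔ p ≤ min x N) := by
    intro x p hp
    have h6 := (Block_blk hp).2
    rw [le_min_iff]
    exact ⟨fun h => ⟨h, h6.trans hNle⟩, fun h => h.1⟩
  refine ⟨v, hv1, ?_, ?_⟩
  · intro m F k x hm
    by_cases hkN : k ≤ N
    swap
    · -- large degree
      rw [not_le] at hkN
      have hB : ∀ p ∈ blk i, ∀ ω ∈ Sp R p, |Tst M G m F k p ω| ≤ 2 * √((2 : ℝ) ^ (i + 1)) := by
        intro p hp ω hω
        have hpp : p.Prime := by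
          unfold blk at hp
          exact (Finset.mem_filter.1 hp).2
        refine (Tst_le_of_rblkC M G m F k p ω _ (RBlk_Uk_le hpp (mem_V_rblkC hω) k)).trans ?_
        have h3 : (p : ℝ) ≤ (2 : ℝ) ^ (i + 1) := by exact_mod_cast (Block_blk hp).2
        have h4 := Real.sqrt_le_sqrt h3
        linarith
      refine (Finset.abs_sum_le_sum_abs _ _).trans ?_
      have h3 : ∀ p ∈ (blk i).filter (fun p => p ≤ x),
          |Tst M G m F k p (v p) - ∑ ω ∈ Sp R p, ρ p ω * Tst M G m F k p ω| ≤ 2 * (2 * √((2 : ℝ) ^ (i + 1))) := by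
        intro p hp
        have hp' := (Finset.mem_filter.1 hp).1
        exact term_le_rblkC p (ρ p) (h0 p hp') (h1 p hp') (hv1 p hp').1 (Tst M G m F k p) _ (hB p hp')
      refine (Finset.sum_le_sum h3).trans ?_
      rw [Finset.sum_const, nsmul_eq_mul]
      have h4 : (((blk i).filter (fun p => p ≤ x)).card : ℝ) ≤ (2 : ℝ) ^ i := by
        have h5 : ((blk i).filter (fun p => p ≤ x)).card ≤ 2 ^ i :=
          (Finset.card_filter_le _ _).trans (RBlk_card_le i)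
        exact_mod_cast h5
      have h5 : √((2 : ℝ) ^ (i + 1)) ≤ 2 * √((2 : ℝ) ^ i) := by
        have h6 : (2 : ℝ) * √((2 : ℝ) ^ i) = √(4 * (2 : ℝ) ^ i) := by
          rw [Real.sqrt_mul (by norm_num : (0 : ℝ) ≤ 4)]
          congr 1
          rw [show (4 : ℝ) = 2 ^ 2 by norm_num, Real.sqrt_sq (by norm_num)]
        rw [h6]
        apply Real.sqrt_le_sqrt
        rw [pow_succ]
        nlinarith
      have h6 : (8 : ℝ) * (2 : ℝ) ^ i ≤ (k : ℝ) + 1 := by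
        have h7 : (2 ^ (i + 3) : ℕ) ≤ k + 1 := by omega
        have h8 : (((2 ^ (i + 3) : ℕ)) : ℝ) ≤ ((k + 1 : ℕ) : ℝ) := by exact_mod_cast h7
        push_cast at h8
        rw [pow_add] at h8
        linarith
      have h7 : 0 ≤ √((2 : ℝ) ^ (i + 1)) := Real.sqrt_nonneg _
      have h8 : 0 ≤ √((2 : ℝ) ^ i) := Real.sqrt_nonneg _
      calc (((blk i).filter (fun p => p ≤ x)).card : ℝ) * (2 * (2 * √((2 : ℝ) ^ (i + 1))))
          ≤ (2 : ℝ) ^ i * (2 * (2 * (2 * √((2 : ℝ) ^ i)))) := by gcongr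
        _ = (8 * (2 : ℝ) ^ i) * √((2 : ℝ) ^ i) := by ring
        _ ≤ ((k : ℝ) + 1) * √((2 : ℝ) ^ i) := by gcongr
        _ ≤ ((k : ℝ) + 1) * √((2 : ℝ) ^ i * (i + 1)) := by gcongr
        _ ≤ 40 * (k + 1) * √((2 : ℝ) ^ i * (i + 1)) := by
            have h9 : 0 ≤ ((k : ℝ) + 1) * √((2 : ℝ) ^ i * (i + 1)) := by positivity
            linarith
    by_cases hmN : m ≤ N
    swap
    · -- large modulus
      rw [not_le] at hmN
      have hterm : ∀ p ∈ blk i,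
          |Tst M G m F k p (v p) - ∑ ω ∈ Sp R p, ρ p ω * Tst M G m F k p ω| ≤ 2 * ((k : ℝ) + 1) := by
        intro p hp
        exact term_le_rblkC p (ρ p) (h0 p hp) (h1 p hp) (hv1 p hp).1 (Tst M G m F k p) _
          (fun ω hω => Tst_le_of_rblkC _ _ _ _ _ _ _ _ (Uk_le _ (hxx p hp ω hω)))
      have hzero : ∀ p ∈ blk i, (F.det : ZMod m) ≠ (p : ZMod m) →
          Tst M G m F k p (v p) - ∑ ω ∈ Sp R p, ρ p ω * Tst M G m F k p ω = 0 := by
        intro p hp hne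
        have hv' := hv1 p hp
        rw [Tst_zero_rblkC M G m F k p (v p) (pos_lvl_rblkC hv'.1) (hs p hp _ hv'.2.ne') hne,
          Finset.sum_eq_zero, sub_zero]
        intro ω hω
        by_cases hρ : ρ p ω = 0
        · rw [hρ, zero_mul]
        · rw [Tst_zero_rblkC M G m F k p ω (pos_lvl_rblkC hω) (hs p hp _ hρ) hne, mul_zero]
      have hone : (((blk i).filter (fun p => p ≤ x)).filter (fun p : ℕ => (F.det : ZMod m) = (p : ZMod m))).card ≤ 1 := by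
        rw [Finset.card_le_one]
        intro p hp p' hp'
        rw [Finset.mem_filter, Finset.mem_filter] at hp hp'
        have h3 : (p : ZMod m) = (p' : ZMod m) := hp.2.symm.trans hp'.2
        rw [ZMod.natCast_eq_natCast_iff] at h3
        have h4 : p ≤ 2 ^ (i + 1) := (Block_blk hp.1.1).2
        have h4' : p' ≤ 2 ^ (i + 1) := (Block_blk hp'.1.1).2
        exact Nat.ModEq.eq_of_lt_of_lt h3 (by omega) (by omega)
      rw [← Finset.sum_filter_add_sum_filter_not ((blk i).filter (fun p => p ≤ x))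
        (fun p : ℕ => (F.det : ZMod m) = (p : ZMod m))]
      rw [Finset.sum_eq_zero (s := ((blk i).filter (fun p => p ≤ x)).filter
        (fun p : ℕ => ¬ (F.det : ZMod m) = (p : ZMod m))), add_zero]
      · refine (Finset.abs_sum_le_sum_abs _ _).trans ?_
        refine (Finset.sum_le_sum fun p hp =>
          hterm p (Finset.mem_filter.1 (Finset.mem_filter.1 hp).1).1).trans ?_
        rw [Finset.sum_const, nsmul_eq_mul]
        have h3 : ((((blk i).filter (fun p => p ≤ x)).filter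
            (fun p : ℕ => (F.det : ZMod m) = (p : ZMod m))).card : ℝ) ≤ 1 := by
          exact_mod_cast hone
        have hkk := hk0 k
        calc _ ≤ 1 * (2 * ((k : ℝ) + 1)) := by gcongr
          _ ≤ 40 * ((k : ℝ) + 1) * 1 := by linarith
          _ ≤ 40 * (k + 1) * √((2 : ℝ) ^ i * (i + 1)) := by gcongr
      · intro p hp
        rw [Finset.mem_filter, Finset.mem_filter] at hp
        exact hzero p hp.1.1 hp.2
    · -- the test
      set F' : Mz := !![(((F 0 0) % m).toNat : ℤ), (((F 0 1) % m).toNat : ℤ);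
        (((F 1 0) % m).toNat : ℤ), (((F 1 1) % m).toNat : ℤ)] with hF'
      have hmem : (Sum.inl (m, ((F 0 0) % m).toNat, ((F 0 1) % m).toNat, ((F 1 0) % m).toNat,
          ((F 1 1) % m).toNat, k, min x N) : (ℕ × ℕ × ℕ × ℕ × ℕ × ℕ × ℕ) ⊕ (ℤ × ℕ)) ∈ J := by
        rw [hJ, Finset.inl_mem_disjSum]
        have l1 := lt_of_emod_rblkC m hm (F 0 0)
        have l2 := lt_of_emod_rblkC m hm (F 0 1)
        have l3 := lt_of_emod_rblkC m hm (F 1 0)
        have l4 := lt_of_emod_rblkC m hm (F 1 1)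
        have l5 : min x N ≤ N := min_le_right _ _
        simp only [Finset.mem_product, hRg, Finset.mem_range]
        rw [← hN]
        omega
      have h2 := hv2 _ hmem
      have e : ∑ p ∈ blk i, (T (Sum.inl (m, ((F 0 0) % m).toNat, ((F 0 1) % m).toNat, ((F 1 0) % m).toNat,
          ((F 1 1) % m).toNat, k, min x N)) p (v p) - ∑ ω ∈ Sp R p, ρ p ω *
          T (Sum.inl (m, ((F 0 0) % m).toNat, ((F 0 1) % m).toNat, ((F 1 0) % m).toNat,
          ((F 1 1) % m).toNat, k, min x N)) p ω) =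
          ∑ p ∈ (blk i).filter (fun p => p ≤ x), (Tst M G m F k p (v p) -
            ∑ ω ∈ Sp R p, ρ p ω * Tst M G m F k p ω) := by
        rw [Finset.sum_filter]
        refine Finset.sum_congr rfl fun p hp => ?_
        have hTT : ∀ ω : Om, T (Sum.inl (m, ((F 0 0) % m).toNat, ((F 0 1) % m).toNat, ((F 1 0) % m).toNat,
            ((F 1 1) % m).toNat, k, min x N)) p ω = if p ≤ x then Tst M G m F k p ω else 0 := by
          intro ω
          show (if p ≤ min x N then Tst M G m F' k p ω else 0) = _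
          rw [Tst_congr_rblkC M G m (red_rblkC m hm F) k p ω]
          by_cases hpx : p ≤ x
          · rw [if_pos hpx, if_pos ((hx' x p hp).1 hpx)]
          · rw [if_neg hpx, if_neg (fun hh => hpx ((hx' x p hp).2 hh))]
        simp only [hTT]
        by_cases hpx : p ≤ x
        · simp only [if_pos hpx]
        · simp only [if_neg hpx, mul_zero, Finset.sum_const_zero, sub_zero]
      rw [e] at h2
      refine h2.trans ?_
      show 3 * ((k : ℝ) + 1) * √(((blk i).card : ℝ) * (60 * ((i : ℝ) + 1))) ≤ _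
      have h9 : (0 : ℝ) ≤ √((2 : ℝ) ^ i * (i + 1)) := Real.sqrt_nonneg _
      have h10 : (0 : ℝ) ≤ (k : ℝ) + 1 := (hk0 k).le
      calc 3 * ((k : ℝ) + 1) * √(((blk i).card : ℝ) * (60 * ((i : ℝ) + 1)))
          ≤ 3 * ((k : ℝ) + 1) * (8 * √((2 : ℝ) ^ i * (i + 1))) := by gcongr
        _ = 24 * (((k : ℝ) + 1) * √((2 : ℝ) ^ i * (i + 1))) := by ring
        _ ≤ 40 * (((k : ℝ) + 1) * √((2 : ℝ) ^ i * (i + 1))) := by
            have := mul_nonneg h10 h9
            linarith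
        _ = 40 * (k + 1) * √((2 : ℝ) ^ i * (i + 1)) := by ring
  · intro b x
    by_cases hb : |b| ≤ (N : ℤ)
    · have hmem : (Sum.inr (b, min x N) : (ℕ × ℕ × ℕ × ℕ × ℕ × ℕ × ℕ) ⊕ (ℤ × ℕ)) ∈ J := by
        rw [hJ, Finset.inr_mem_disjSum, Finset.mem_product, Finset.mem_Icc]
        have l5 : min x N ≤ N := min_le_right _ _
        have hb' := abs_le.1 hb
        refine ⟨⟨hb'.1, hb'.2⟩, ?_⟩
        rw [hRg, Finset.mem_range]
        show min x N < 2 ^ (i + 3) + 1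
        rw [← hN]
        omega
      have h2 := hv2 _ hmem
      have e : ∑ p ∈ blk i, (T (Sum.inr (b, min x N)) p (v p) - ∑ ω ∈ Sp R p, ρ p ω *
          T (Sum.inr (b, min x N)) p ω) =
          ∑ p ∈ (blk i).filter (fun p => p ≤ x), ((if (v p).1 = b then (1 : ℝ) else 0) -
            ∑ ω ∈ Sp R p, ρ p ω * (if ω.1 = b then (1 : ℝ) else 0)) := by
        rw [Finset.sum_filter]
        refine Finset.sum_congr rfl fun p hp => ?_
        have hTT : ∀ ω : Om, T (Sum.inr (b, min x N)) p ω =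
            if p ≤ x then (if ω.1 = b then (1 : ℝ) else 0) else 0 := by
          intro ω
          show (if p ≤ min x N ∧ ω.1 = b then (1 : ℝ) else 0) = _
          by_cases hpx : p ≤ x
          · rw [if_pos hpx]
            by_cases hω : ω.1 = b
            · rw [if_pos hω, if_pos ⟨(hx' x p hp).1 hpx, hω⟩]
            · rw [if_neg hω, if_neg (fun hh => hω hh.2)]
          · rw [if_neg hpx, if_neg (fun hh => hpx ((hx' x p hp).2 hh.1))]
        simp only [hTT]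
        by_cases hpx : p ≤ x
        · simp only [if_pos hpx]
        · simp only [if_neg hpx, mul_zero, Finset.sum_const_zero, sub_zero]
      rw [e] at h2
      refine h2.trans ?_
      show 3 * (1 : ℝ) * √(((blk i).card : ℝ) * (60 * ((i : ℝ) + 1))) ≤ _
      have h9 : (0 : ℝ) ≤ √((2 : ℝ) ^ i * (i + 1)) := Real.sqrt_nonneg _
      linarith
    · -- all terms vanish
      rw [not_le] at hb
      have hne : ∀ p ∈ blk i, ∀ ω ∈ Sp R p, ω.1 ≠ b := by
        intro p hp ω hω h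
        have h3 := mem_V_rblkC hω
        rw [h] at h3
        have h4 := Block_V_mono (Block_blk hp).2 h3
        unfold V at h4
        rw [Finset.mem_Icc] at h4
        have h5 : |b| ≤ (Nat.sqrt (4 * 2 ^ (i + 1)) : ℤ) := abs_le.2 ⟨h4.1, h4.2⟩
        have h6 : Nat.sqrt (4 * 2 ^ (i + 1)) ≤ N := by
          have h7 : 4 * 2 ^ (i + 1) = 2 ^ (i + 3) := by ring
          rw [h7, hN]
          exact Nat.sqrt_le_self _
        have h7 : (Nat.sqrt (4 * 2 ^ (i + 1)) : ℤ) ≤ (N : ℤ) := by exact_mod_cast h6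
        linarith
      rw [Finset.sum_eq_zero]
      · rw [abs_zero]
        positivity
      · intro p hp
        have hp' := (Finset.mem_filter.1 hp).1
        rw [if_neg (hne p hp' _ (hv1 p hp').1), Finset.sum_eq_zero, sub_zero]
        intro ω hω
        rw [if_neg (hne p hp' ω hω), mul_zero]

end Pool.Agent.JC
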