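import Pool.Agent.Lib_MP_f1937f_jc.RealR
import Pool.Agent.Lib_MP_f1937f_jc.ClsS
import Pool.Agent.Lib_MP_f1937f_jb.ProgS

/-!
# Realisation of the laws
-/

set_option autoImplicit false

namespace Pool.Agent.JC

open Finset Pool.Agent.TB Pool.Agent.JB Pool.Agent.JD

private theorem rc_xx {p : ℕ} (hp : p.Prime) {a : ℤ} (ha : a ∈ V p) : |xx p a| ≤ 1 := by
  unfold V at ha
  rw [Finset.mem_Icc] at ha
  have hp0 : (0 : ℝ) < p := by exact_mod_cast hp.pos
  have h1 : |a| ≤ (Nat.sqrt (4 * p) : ℤ) := abs_le.2 ha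
  have h2 : |(a : ℝ)| ≤ ((Nat.sqrt (4 * p) : ℕ) : ℝ) := by
    rw [← Int.cast_abs]
    exact_mod_cast h1
  have h3 : ((Nat.sqrt (4 * p) : ℕ) : ℝ) ≤ 2 * √(p : ℝ) := by
    have h4 : ((Nat.sqrt (4 * p) : ℕ) : ℝ) ^ 2 ≤ 4 * p := by
      exact_mod_cast Nat.sqrt_le' (4 * p)
    have h5 : (2 * √(p : ℝ)) ^ 2 = 4 * p := by
      rw [mul_pow, Real.sq_sqrt hp0.le]; norm_num
    have h6 : 0 ≤ 2 * √(p : ℝ) := by positivity
    exact le_of_sq_le_sq (by rw [h5]; exact h4) h6
  have h7 : 0 < 2 * √(p : ℝ) := by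
    have := Real.sqrt_pos.2 hp0
    positivity
  unfold xx
  rw [abs_div, abs_of_pos h7, div_le_one h7]
  linarith

private theorem rc_mem {R : Finset (Matrix.SpecialLinearGroup (Fin 2) ℤ)} {p : ℕ} {ω : Om} (h : ω ∈ Sp R p) :
    ω.1 ∈ V p ∧ 0 < ω.2.1 := by
  unfold Sp at h
  rw [Finset.mem_product, Finset.mem_product, Finset.mem_Icc] at h
  exact ⟨h.1, h.2.1.1⟩

private theorem rc_tst_le (M : ℕ) (G : Subgroup (GL (Fin 2) (ZMod M))) (R : Finset (Matrix.SpecialLinearGroup (Fin 2) ℤ))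
    (m : ℕ) (F : Mz) (k : ℕ) {p : ℕ} (hp : p.Prime) {ω : Om} (h : ω ∈ Sp R p) : |Tst M G m F k p ω| ≤ k + 1 := by
  unfold Tst
  split_ifs with h1
  · exact Uk_le k (rc_xx hp (rc_mem h).1)
  · rw [abs_zero]; positivity

/-- the mean of the test is at most `k + 1` -/
private theorem rc_mean (M : ℕ) (G : Subgroup (GL (Fin 2) (ZMod M))) (R : Finset (Matrix.SpecialLinearGroup (Fin 2) ℤ))
    (m : ℕ) (F : Mz) (k : ℕ) {p : ℕ} (hp : p.Prime) (ρ : Om → ℝ) (h0 : ∀ ω, 0 ≤ ρ ω) (h1 : ∑ ω ∈ Sp R p, ρ ω = 1) :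
    |∑ ω ∈ Sp R p, ρ ω * Tst M G m F k p ω| ≤ k + 1 := by
  calc |∑ ω ∈ Sp R p, ρ ω * Tst M G m F k p ω|
      ≤ ∑ ω ∈ Sp R p, |ρ ω * Tst M G m F k p ω| := Finset.abs_sum_le_sum_abs _ _
    _ ≤ ∑ ω ∈ Sp R p, ρ ω * (k + 1) := by
        refine Finset.sum_le_sum fun ω hω => ?_
        rw [abs_mul, abs_of_nonneg (h0 ω)]
        exact mul_le_mul_of_nonneg_left (rc_tst_le M G R m F k hp hω) (h0 ω)
    _ = k + 1 := by rw [← Finset.sum_mul, h1, one_mul]

/-- the test for the class of `g` -/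
private theorem rc_tst (M : ℕ) (G : Subgroup (GL (Fin 2) (ZMod M))) (m : ℕ) (h : M ∣ m) (F : Mz) (g : GL (Fin 2) (ZMod m))
    (hF : rd m F = g.val) (k p : ℕ) (ω : Om) :
    Tst M G m F k p ω = open Classical in (if CjG M m h G g.val (rd m (mt p ω)) then Uk k (xx p ω.1) else 0) := by
  classical
  unfold Tst
  rw [hF]
  by_cases h1 : CjG M m h G g.val (rd m (mt p ω))
  · rw [if_pos h1, if_pos ⟨h, h1⟩]
  · rw [if_neg h1, if_neg]
    rintro ⟨_, h2⟩
    exact h1 h2

/-- PIECE [JC-G7c] (about 220 lines, see `realize_F`, `Lib_MP_f1937f_jd/RealF.lean`). PROOF. `v` from `real_R`. For `m`, `s`, `g` as in `InfoC` let `F` be an integer lift of `g` (`rd_surj`); the sum in `InfoC` is `∑ p, Tst M G m F k p (v p)` (`mt_trace`). `∑ ω ∈ Sp R p, ρ p ω * Tst` is `0` unless `p = det g` modulo `m` (`cj_det`, `mt_det`).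
For `p ≥ m`, `p = det g` modulo `m` (so `p` is prime to `m`) it differs from `[k = 0] cdens` by at most `C (m / s) ^ 2 (k + 1) log p / √p + δ p (k + 1)` (`equi`). Sum: `sum_prog` (`Lib_MP_f1937f_jb/ProgS.lean`, as in `realize_F`) gives `2 C (m / s ^ 2) (k + 1) √x log x`, and `hδ` gives `D (k + 1) √x log x`; at most one
prime `p < m` in the class, trivial bound `2 (k + 1)` (`cdens_le`). `m / s ≥ 1`, `log (m (k + 2) x) ≥ log x ≥ 1/2`. Last claim: the second property of `real_R`. -/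
theorem real_C (M : ℕ) (hM : 0 < M) (G : Subgroup (GL (Fin 2) (ZMod M))) (R : Finset (Matrix.SpecialLinearGroup (Fin 2) ℤ))
    (C D : ℝ) (hC : 0 ≤ C) (hD : 0 ≤ D) (δ : ℕ → ℝ) (hδ0 : ∀ p, 0 ≤ δ p)
    (hδ : ∀ x : ℕ, 2 ≤ x → ∑ p ∈ (range (x + 1)).filter Nat.Prime, δ p ≤ D * √(x : ℝ) * Real.log x)
    (ρ : ℕ → Om → ℝ) (hρ : ∀ p : ℕ, p.Prime → ULC M G R C (δ p) p (ρ p)) (h1 : ∀ p : ℕ, p.Prime → ∑ ω ∈ Sp R p, ρ p ω = 1) :
    ∃ (v : ℕ → Om) (C' : ℝ), (∀ p : ℕ, p.Prime → v p ∈ Sp R p ∧ 0 < ρ p (v p)) ∧ InfoC M G (fun p => mt p (v p)) 1 ∧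
      ∀ (b : ℤ) (x : ℕ), 2 ≤ x → |((((range (x + 1)).filter Nat.Prime).filter (fun p => (v p).1 = b)).card : ℝ) -
        ∑ p ∈ (range (x + 1)).filter Nat.Prime, ∑ ω ∈ (Sp R p).filter (fun ω => ω.1 = b), ρ p ω| ≤ C' * √(x : ℝ) * Real.log x := by
  classical
  have hs : ∀ p : ℕ, p.Prime → ∀ ω, ρ p ω ≠ 0 → Sc ω.2.1 p ω.1 := fun p hp ω h => ((hρ p hp).supp ω h).2
  obtain ⟨v, C1, hC1, hv, hR1, hR2⟩ := real_R M G R ρ (fun p hp => (hρ p hp).nonneg) h1 hs
  refine ⟨v, C1, hv, ⟨C1 + 2 * C + D + 4, ?_⟩, ?_⟩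
  · intro m h hm s hsm g hg hsc k x hx
    rw [Real.rpow_one]
    haveI : NeZero m := ⟨hm.ne'⟩
    have hs0 : 0 < s := Nat.pos_of_dvd_of_pos hsm hm
    have hn0 : (0 : ℝ) < m := by exact_mod_cast hm
    have hn1 : (1 : ℝ) ≤ m := by exact_mod_cast hm
    have hs1 : (1 : ℝ) ≤ s := by exact_mod_cast hs0
    have hs0' : (0 : ℝ) < s := by exact_mod_cast hs0
    have hx2 : (2 : ℝ) ≤ x := by exact_mod_cast hx
    have hk0 : (0 : ℝ) ≤ k := Nat.cast_nonneg k
    have hlx : 1 / 2 ≤ Real.log x := by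
      have h2 : Real.log 2 ≤ Real.log x := Real.log_le_log two_pos hx2
      have h3 := Real.log_two_gt_d9
      linarith
    obtain ⟨F, hF⟩ := rd_surj m g.val
    obtain ⟨d, hd⟩ : ∃ d : ℕ, ((d : ℕ) : ZMod m) = g.val.det := ⟨(g.val.det).val, ZMod.natCast_zmod_val _⟩
    obtain ⟨P, hP⟩ : ∃ P : Finset ℕ, P = (range (x + 1)).filter Nat.Prime := ⟨_, rfl⟩
    obtain ⟨S, hS⟩ : ∃ S : Finset ℕ, S = P.filter (fun p : ℕ => (p : ZMod m) = g.val.det) := ⟨_, rfl⟩
    obtain ⟨E, hE⟩ : ∃ E : ℕ → ℝ, E = fun p => ∑ ω ∈ Sp R p, ρ p ω * Tst M G m F k p ω := ⟨_, rfl⟩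
    obtain ⟨T, hT⟩ : ∃ T : ℝ, T = if k = 0 then cdens M m h G g else 0 := ⟨_, rfl⟩
    have hPp : ∀ p ∈ P, p.Prime ∧ p ≤ x := by
      intro p hp
      rw [hP] at hp
      have := mem_range.1 (mem_filter.1 hp).1
      exact ⟨(mem_filter.1 hp).2, by omega⟩
    have hSm : ∀ p ∈ S, p.Prime ∧ p ≤ x ∧ (p : ZMod m) = g.val.det ∧ p ≡ d [MOD m] ∧ ¬ p ∣ m := by
      intro p hp
      rw [hS] at hp
      have h2 := mem_filter.1 hp
      obtain ⟨hpp, hpx⟩ := hPp p h2.1
      refine ⟨hpp, hpx, h2.2, ?_, ?_⟩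
      · rw [← ZMod.natCast_eq_natCast_iff, hd]
        exact h2.2
      · intro h3
        have h4 : IsUnit ((p : ℕ) : ZMod m) := by
          rw [h2.2]
          exact (Matrix.isUnit_iff_isUnit_det _).1 g.isUnit
        have h5 : p.Coprime m := (ZMod.isUnit_iff_coprime p m).1 h4
        exact hpp.one_lt.ne' (Nat.Coprime.eq_one_of_dvd h5 h3)
    have e1 : ∑ p ∈ P.filter (fun p => CjG M m h G g.val (rd m (mt p (v p)))), Uk k (xx p (mt p (v p)).trace) =
        ∑ p ∈ P, Tst M G m F k p (v p) := by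
      rw [Finset.sum_filter]
      refine Finset.sum_congr rfl fun p _ => ?_
      rw [rc_tst M G m h F g hF k p (v p), mt_trace]
    have e2 : ∑ p ∈ P, E p = ∑ p ∈ S, E p := by
      rw [hS]
      symm
      refine Finset.sum_filter_of_ne fun p hp hne => ?_
      obtain ⟨hpp, hpx⟩ := hPp p hp
      rw [hE] at hne
      obtain ⟨ω, hω, hne'⟩ := Finset.exists_ne_zero_of_sum_ne_zero hne
      have h2 : ρ p ω ≠ 0 := left_ne_zero_of_mul hne'
      have h3 : Tst M G m F k p ω ≠ 0 := right_ne_zero_of_mul hne'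
      rw [rc_tst M G m h F g hF k p ω] at h3
      have h4 : CjG M m h G g.val (rd m (mt p ω)) := by
        by_contra h5
        exact h3 (if_neg h5)
      have h6 := cj_det m g (mt p ω) (cjG_cj M m h G _ _ h4)
      rw [mt_det p ω (rc_mem hω).2 (hs p hpp ω h2)] at h6
      rw [h6]
      norm_cast
    have e3 : ∑ p ∈ P.filter (fun p => CjG M m h G g.val (rd m (mt p (v p)))), Uk k (xx p (mt p (v p)).trace) -
        T * (S.card : ℝ) = ∑ p ∈ P, (Tst M G m F k p (v p) - E p) + ∑ p ∈ S, (E p - T) := by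
      rw [e1, Finset.sum_sub_distrib, Finset.sum_sub_distrib, Finset.sum_const, nsmul_eq_mul, e2]
      ring
    have e4 : ∑ p ∈ ((range (x + 1)).filter Nat.Prime).filter (fun p => CjG M m h G g.val (rd m (mt p (v p)))),
          Uk k (xx p (mt p (v p)).trace) -
          (if k = 0 then cdens M m h G g else 0) *
            ((((range (x + 1)).filter Nat.Prime).filter (fun p : ℕ => (p : ZMod m) = g.val.det)).card : ℝ) =
        ∑ p ∈ P, (Tst M G m F k p (v p) - E p) + ∑ p ∈ S, (E p - T) := by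
      rw [← e3, hS, hP, hT]
    refine (le_of_eq (congrArg abs ?_)).trans (?_ : |∑ p ∈ P, (Tst M G m F k p (v p) - E p) + ∑ p ∈ S, (E p - T)| ≤ _)
    · rw [← e4]
    have hT0 : 0 ≤ T := by
      rw [hT]
      split_ifs
      · exact cdens_nonneg M m h G g
      · exact le_rfl
    have hT1 : T ≤ 1 := by
      rw [hT]
      split_ifs
      · exact cdens_le M m hm h G g hg
      · norm_num
    have hfirst : |∑ p ∈ P, (Tst M G m F k p (v p) - E p)| ≤ C1 * (k + 1) * √(x : ℝ) * Real.log x := by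
      have h2 := hR1 m F k x hm hx
      rw [hP, hE]
      exact h2
    have hsmall : ∀ p ∈ S, |E p - T| ≤ 2 * (k + 1) := by
      intro p hp
      have hpp := (hSm p hp).1
      have h2 : |E p| ≤ k + 1 := by
        rw [hE]
        exact rc_mean M G R m F k hpp (ρ p) (hρ p hpp).nonneg (h1 p hpp)
      have h3 : |T| ≤ 1 := by rw [abs_of_nonneg hT0]; exact hT1
      calc |E p - T| ≤ |E p| + |T| := abs_sub _ _
        _ ≤ 2 * (k + 1) := by linarith
    have hbig : ∀ p ∈ S, m ≤ p → |E p - T| ≤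
        C * ((m : ℝ) / s) ^ 2 * (k + 1) * Real.log x * (1 / √(p : ℝ)) + δ p * (k + 1) := by
      intro p hp hmp
      obtain ⟨hpp, hpx, hpd, _, hpm⟩ := hSm p hp
      have h2 := (hρ p hpp).equi m h hm hmp hpm s hsm g hg hpd.symm hsc k
      rw [← hT] at h2
      have h3 : E p = ∑ ω ∈ (Sp R p).filter (fun ω => CjG M m h G g.val (rd m (mt p ω))), ρ p ω * Uk k (xx p ω.1) := by
        rw [hE, Finset.sum_filter]
        refine Finset.sum_congr rfl fun ω _ => ?_
        rw [rc_tst M G m h F g hF k p ω]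
        split_ifs
        · rfl
        · rw [mul_zero]
      have h4 : |E p - T| ≤ C * ((m : ℝ) / s) ^ 2 * (k + 1) * (Real.log p / √(p : ℝ)) + δ p * (k + 1) := by
        rw [h3]
        exact h2
      refine h4.trans (add_le_add ?_ le_rfl)
      have hp0 : (0 : ℝ) < p := by exact_mod_cast hpp.pos
      have h5 : Real.log p ≤ Real.log x := Real.log_le_log hp0 (by exact_mod_cast hpx)
      have h6 : Real.log p / √(p : ℝ) ≤ Real.log x * (1 / √(p : ℝ)) := by
        rw [mul_one_div]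
        exact div_le_div_of_nonneg_right h5 (Real.sqrt_nonneg _)
      calc C * ((m : ℝ) / s) ^ 2 * (k + 1) * (Real.log p / √(p : ℝ))
          ≤ C * ((m : ℝ) / s) ^ 2 * (k + 1) * (Real.log x * (1 / √(p : ℝ))) :=
            mul_le_mul_of_nonneg_left h6 (by positivity)
        _ = _ := by ring
    have hsecond : |∑ p ∈ S, (E p - T)| ≤
        (2 * C * ((m : ℝ) / s) * (k + 1) * √(x : ℝ) * Real.log x + D * √(x : ℝ) * Real.log x * (k + 1)) + 2 * (k + 1) := by
      refine (Finset.abs_sum_le_sum_abs _ _).trans ?_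
      rw [← Finset.sum_filter_add_sum_filter_not S (fun p => m ≤ p)]
      refine add_le_add ?_ ?_
      · calc ∑ p ∈ S.filter (fun p => m ≤ p), |E p - T|
            ≤ ∑ p ∈ S.filter (fun p => m ≤ p),
              (C * ((m : ℝ) / s) ^ 2 * (k + 1) * Real.log x * (1 / √(p : ℝ)) + δ p * (k + 1)) :=
              Finset.sum_le_sum fun p hp => hbig p (mem_filter.1 hp).1 (mem_filter.1 hp).2
          _ = ∑ p ∈ S.filter (fun p => m ≤ p), C * ((m : ℝ) / s) ^ 2 * (k + 1) * Real.log x * (1 / √(p : ℝ)) +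
              ∑ p ∈ S.filter (fun p => m ≤ p), δ p * (k + 1) := Finset.sum_add_distrib
          _ ≤ ∑ p ∈ (Icc m x).filter (fun p => p ≡ d [MOD m]),
                C * ((m : ℝ) / s) ^ 2 * (k + 1) * Real.log x * (1 / √(p : ℝ)) +
              ∑ p ∈ (range (x + 1)).filter Nat.Prime, δ p * (k + 1) := by
              refine add_le_add ?_ ?_
              · refine Finset.sum_le_sum_of_subset_of_nonneg ?_ (fun p _ _ => by positivity)
                intro p hp
                have h2 := mem_filter.1 hp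
                obtain ⟨hpp, hpx, hpd, hpd', hpm⟩ := hSm p h2.1
                exact mem_filter.2 ⟨mem_Icc.2 ⟨h2.2, hpx⟩, hpd'⟩
              · refine Finset.sum_le_sum_of_subset_of_nonneg ?_ (fun p _ _ => mul_nonneg (hδ0 p) (by positivity))
                intro p hp
                have h2 := (mem_filter.1 hp).1
                rw [hS] at h2
                rw [← hP]
                exact (mem_filter.1 h2).1
          _ = C * ((m : ℝ) / s) ^ 2 * (k + 1) * Real.log x *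
                ∑ p ∈ (Icc m x).filter (fun p => p ≡ d [MOD m]), (1 / √(p : ℝ)) +
              (∑ p ∈ (range (x + 1)).filter Nat.Prime, δ p) * (k + 1) := by
              rw [Finset.mul_sum, Finset.sum_mul]
          _ ≤ C * ((m : ℝ) / s) ^ 2 * (k + 1) * Real.log x * (2 * √(x : ℝ) / m) +
              D * √(x : ℝ) * Real.log x * (k + 1) := by
              refine add_le_add ?_ ?_
              · exact mul_le_mul_of_nonneg_left (sum_prog m d x hm) (by positivity)
              · exact mul_le_mul_of_nonneg_right (hδ x hx) (by positivity)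
          _ ≤ 2 * C * ((m : ℝ) / s) * (k + 1) * √(x : ℝ) * Real.log x + D * √(x : ℝ) * Real.log x * (k + 1) := by
              refine add_le_add ?_ le_rfl
              have h2 : C * ((m : ℝ) / s) ^ 2 * (k + 1) * Real.log x * (2 * √(x : ℝ) / m) =
                  (2 * C * ((m : ℝ) / s) * (k + 1) * √(x : ℝ) * Real.log x) * (1 / s) := by
                field_simp
              rw [h2]
              refine mul_le_of_le_one_right (by positivity) ?_
              rw [div_le_one hs0']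
              exact hs1
      · calc ∑ p ∈ S.filter (fun p => ¬ m ≤ p), |E p - T|
            ≤ ∑ p ∈ S.filter (fun p => ¬ m ≤ p), (2 * ((k : ℝ) + 1)) :=
              Finset.sum_le_sum fun p hp => hsmall p (mem_filter.1 hp).1
          _ ≤ ∑ p ∈ ({d % m} : Finset ℕ), (2 * ((k : ℝ) + 1)) := by
              refine Finset.sum_le_sum_of_subset_of_nonneg ?_ (fun p _ _ => by positivity)
              intro p hp
              have h2 : p < m := not_le.1 (mem_filter.1 hp).2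
              have h3 : p ≡ d [MOD m] := (hSm p (mem_filter.1 hp).1).2.2.2.1
              rw [Finset.mem_singleton, ← h3, Nat.mod_eq_of_lt h2]
          _ = 2 * (k + 1) := by rw [Finset.sum_singleton]
    refine (abs_add_le _ _).trans ((add_le_add hfirst hsecond).trans ?_)
    have hsx : 1 ≤ √(x : ℝ) := Real.one_le_sqrt.2 (by linarith)
    have hlog : Real.log x ≤ Real.log ((m : ℝ) * (k + 2) * x) := by
      refine Real.log_le_log (by linarith) ?_
      have h3 : (1 : ℝ) ≤ (m : ℝ) * (k + 2) :=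
        one_le_mul_of_one_le_of_one_le hn1 (by linarith)
      nlinarith
    obtain ⟨W, hWdef⟩ : ∃ W : ℝ, W = (m : ℝ) / s := ⟨_, rfl⟩
    obtain ⟨L, hLdef⟩ : ∃ L : ℝ, L = Real.log ((m : ℝ) * (k + 2) * x) := ⟨_, rfl⟩
    have hW : 1 ≤ W := by
      rw [hWdef, le_div_iff₀ hs0', one_mul]
      exact_mod_cast Nat.le_of_dvd hm hsm
    rw [← hLdef] at hlog ⊢
    rw [← hWdef]
    have hL2 : 1 / 2 ≤ L := hlx.trans hlog
    have a1 : C1 * (k + 1) * √(x : ℝ) * Real.log x ≤ C1 * W * (k + 1) * √(x : ℝ) * L := by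
      have h2 : C1 * (k + 1) * √(x : ℝ) * Real.log x ≤ C1 * (k + 1) * √(x : ℝ) * L :=
        mul_le_mul_of_nonneg_left hlog (by positivity)
      have h3 : C1 * (k + 1) * √(x : ℝ) * L ≤ W * (C1 * (k + 1) * √(x : ℝ) * L) :=
        le_mul_of_one_le_left (by positivity) hW
      calc _ ≤ _ := h2.trans h3
        _ = _ := by ring
    have a2 : 2 * C * W * (k + 1) * √(x : ℝ) * Real.log x ≤
        2 * C * W * (k + 1) * √(x : ℝ) * L :=
      mul_le_mul_of_nonneg_left hlog (by positivity)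
    have a4 : D * √(x : ℝ) * Real.log x * (k + 1) ≤ D * W * (k + 1) * √(x : ℝ) * L := by
      have h2 : D * √(x : ℝ) * Real.log x * (k + 1) = D * (k + 1) * √(x : ℝ) * Real.log x := by ring
      have h2' : D * (k + 1) * √(x : ℝ) * Real.log x ≤ D * (k + 1) * √(x : ℝ) * L :=
        mul_le_mul_of_nonneg_left hlog (by positivity)
      have h3 : D * (k + 1) * √(x : ℝ) * L ≤ W * (D * (k + 1) * √(x : ℝ) * L) :=
        le_mul_of_one_le_left (by positivity) hW
      rw [h2]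
      calc _ ≤ _ := h2'.trans h3
        _ = _ := by ring
    have a3 : 2 * ((k : ℝ) + 1) ≤ 4 * W * (k + 1) * √(x : ℝ) * L := by
      have h2 : 1 ≤ W * √(x : ℝ) := one_le_mul_of_one_le_of_one_le hW hsx
      have h3 : 1 ≤ W * √(x : ℝ) * (2 * L) := one_le_mul_of_one_le_of_one_le h2 (by linarith)
      have h4 : 2 * ((k : ℝ) + 1) ≤ (W * √(x : ℝ) * (2 * L)) * (2 * ((k : ℝ) + 1)) :=
        le_mul_of_one_le_left (by positivity) h3
      calc _ ≤ _ := h4
        _ = _ := by ring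
    calc C1 * (k + 1) * √(x : ℝ) * Real.log x +
          ((2 * C * W * (k + 1) * √(x : ℝ) * Real.log x + D * √(x : ℝ) * Real.log x * (k + 1)) + 2 * (k + 1))
        ≤ C1 * W * (k + 1) * √(x : ℝ) * L + ((2 * C * W * (k + 1) * √(x : ℝ) * L + D * W * (k + 1) * √(x : ℝ) * L) +
          4 * W * (k + 1) * √(x : ℝ) * L) := add_le_add a1 (add_le_add (add_le_add a2 a4) a3)
      _ = (C1 + 2 * C + D + 4) * W * (k + 1) * √(x : ℝ) * L := by ring
  · intro b x hx
    have h2 := hR2 b x hx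
    have e1 : ((((range (x + 1)).filter Nat.Prime).filter (fun p => (v p).1 = b)).card : ℝ) -
        ∑ p ∈ (range (x + 1)).filter Nat.Prime, ∑ ω ∈ (Sp R p).filter (fun ω => ω.1 = b), ρ p ω =
        ∑ p ∈ (range (x + 1)).filter Nat.Prime, ((if (v p).1 = b then (1 : ℝ) else 0) -
          ∑ ω ∈ Sp R p, ρ p ω * (if ω.1 = b then (1 : ℝ) else 0)) := by
      rw [Finset.sum_sub_distrib, Finset.sum_boole]
      congr 1
      refine Finset.sum_congr rfl fun p _ => ?_
      rw [Finset.sum_filter]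
      refine Finset.sum_congr rfl fun ω _ => ?_
      split_ifs
      · rw [mul_one]
      · rw [mul_zero]
    rw [e1]
    exact h2

end Pool.Agent.JC
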