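import Pool.Agent.Lib_MP_f1937f_jc.RBlkW
import Pool.Agent.Lib_MP_f1937f_jc.RealR

/-!
# Realisation, all blocks, with weights
-/

set_option autoImplicit false

namespace Pool.Agent.JC

open Finset Pool.Agent.TB Pool.Agent.JB Pool.Agent.JD

private lemma realRW_sum (f : ℕ → ℝ) (x : ℕ) :
    ∑ p ∈ (range (x + 1)).filter Nat.Prime, f p =
      ∑ i ∈ range (Nat.log 2 x + 1), ∑ p ∈ (blk i).filter (fun p => p ≤ x), f p := by
  classical
  rw [← Finset.sum_fiberwise_of_maps_to (g := fun p => Nat.log 2 p)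
    (t := range (Nat.log 2 x + 1))]
  · refine Finset.sum_congr rfl fun i _ => ?_
    refine Finset.sum_congr ?_ fun _ _ => rfl
    ext p
    simp only [mem_filter, mem_range, blk, mem_Ico]
    constructor
    · rintro ⟨⟨h1, h2⟩, h3⟩
      have h4 := (Nat.log_eq_iff (b := 2) (m := i) (n := p) (Or.inr ⟨one_lt_two, h2.ne_zero⟩)).1 h3
      exact ⟨⟨h4, h2⟩, by omega⟩
    · rintro ⟨⟨h1, h2⟩, h3⟩
      exact ⟨⟨by omega, h2⟩,
        (Nat.log_eq_iff (b := 2) (m := i) (n := p) (Or.inr ⟨one_lt_two, h2.ne_zero⟩)).2 h1⟩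
  · intro p hp
    simp only [mem_filter, mem_range] at hp ⊢
    have := Nat.log_mono_right (b := 2) (show p ≤ x by omega)
    omega

private lemma realRW_geom (n : ℕ) :
    ∑ i ∈ range (n + 1), √((2 : ℝ) ^ (i + 1)) ≤ 5 * √((2 : ℝ) ^ n) := by
  have hs : √(2 : ℝ) * √(2 : ℝ) = 2 := Real.mul_self_sqrt (by norm_num)
  have hs0 : 0 ≤ √(2 : ℝ) := Real.sqrt_nonneg 2
  induction n with
  | zero =>
    simp only [zero_add, sum_range_one, pow_one, pow_zero, Real.sqrt_one, mul_one]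
    nlinarith
  | succ n ih =>
    rw [Finset.sum_range_succ]
    have e1 : √((2 : ℝ) ^ (n + 1 + 1)) = 2 * √((2 : ℝ) ^ n) := by
      rw [pow_succ, pow_succ, mul_assoc, Real.sqrt_mul (by positivity)]
      rw [show (2 : ℝ) * 2 = 2 ^ 2 by norm_num, Real.sqrt_sq (by norm_num)]
      ring
    have e2 : √((2 : ℝ) ^ (n + 1)) = √2 * √((2 : ℝ) ^ n) := by
      rw [pow_succ, Real.sqrt_mul (by positivity)]
      ring
    have h0 : 0 ≤ √((2 : ℝ) ^ n) := Real.sqrt_nonneg _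
    have h1 : (7 : ℝ) ≤ 5 * √2 := by
      have : (1.4 : ℝ) ≤ √2 := Real.le_sqrt_of_sq_le (by norm_num)
      linarith
    rw [e1, e2]
    nlinarith [mul_le_mul_of_nonneg_right h1 h0]

private lemma realRW_bound (f : ℕ → ℝ) (A : ℝ) (hA : 0 ≤ A) (x : ℕ) (hx : 2 ≤ x)
    (hf : ∀ i, |∑ p ∈ (blk i).filter (fun p => p ≤ x), f p| ≤ A * √((2 : ℝ) ^ i * (i + 1))) :
    |∑ p ∈ (range (x + 1)).filter Nat.Prime, f p| ≤ 10 / Real.log 2 * A * √(x : ℝ) * Real.log x := by
  have hlog2 : 0 < Real.log 2 := Real.log_pos one_lt_two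
  have hx0 : x ≠ 0 := by omega
  have hxR : (2 : ℝ) ≤ x := by exact_mod_cast hx
  have hL : ((Nat.log 2 x : ℕ) : ℝ) * Real.log 2 ≤ Real.log x := by
    rw [← Real.log_pow]
    refine Real.log_le_log (by positivity) ?_
    exact_mod_cast Nat.pow_log_le_self 2 hx0
  have hl2 : Real.log 2 ≤ Real.log x := Real.log_le_log two_pos hxR
  have hL1 : ((Nat.log 2 x : ℕ) : ℝ) + 1 ≤ 2 / Real.log 2 * Real.log x := by
    rw [div_mul_eq_mul_div, le_div_iff₀ hlog2]
    nlinarith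
  rw [realRW_sum]
  refine (Finset.abs_sum_le_sum_abs _ _).trans ?_
  have hi : ∀ i ∈ range (Nat.log 2 x + 1),
      |∑ p ∈ (blk i).filter (fun p => p ≤ x), f p| ≤
        A * (((Nat.log 2 x : ℕ) : ℝ) + 1) * √((2 : ℝ) ^ (i + 1)) := by
    intro i hi
    refine (hf i).trans ?_
    have hiL : (i : ℝ) ≤ ((Nat.log 2 x : ℕ) : ℝ) := by
      have : i ≤ Nat.log 2 x := by
        have := mem_range.1 hi
        omega
      exact_mod_cast this
    have hi0 : (0 : ℝ) ≤ i := Nat.cast_nonneg i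
    have h4 : √((2 : ℝ) ^ i * (i + 1)) ≤ (((Nat.log 2 x : ℕ) : ℝ) + 1) * √((2 : ℝ) ^ (i + 1)) := by
      rw [Real.sqrt_mul (by positivity), mul_comm]
      have h5 : √((i : ℝ) + 1) ≤ ((Nat.log 2 x : ℕ) : ℝ) + 1 := by
        rw [Real.sqrt_le_left (by positivity)]
        nlinarith
      have h6 : √((2 : ℝ) ^ i) ≤ √((2 : ℝ) ^ (i + 1)) := by
        refine Real.sqrt_le_sqrt ?_
        exact pow_le_pow_right₀ one_le_two (Nat.le_succ i)
      exact mul_le_mul h5 h6 (Real.sqrt_nonneg _) (by positivity)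
    calc A * √((2 : ℝ) ^ i * (i + 1))
        ≤ A * ((((Nat.log 2 x : ℕ) : ℝ) + 1) * √((2 : ℝ) ^ (i + 1))) :=
          mul_le_mul_of_nonneg_left h4 hA
      _ = _ := by ring
  refine (Finset.sum_le_sum hi).trans ?_
  rw [← Finset.mul_sum]
  have h9 := realRW_geom (Nat.log 2 x)
  have h10 : √((2 : ℝ) ^ (Nat.log 2 x)) ≤ √(x : ℝ) := by
    refine Real.sqrt_le_sqrt ?_
    exact_mod_cast Nat.pow_log_le_self 2 hx0
  have h11 : ∑ i ∈ range (Nat.log 2 x + 1), √((2 : ℝ) ^ (i + 1)) ≤ 5 * √(x : ℝ) := by linarith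
  have hsx : 0 ≤ √(x : ℝ) := Real.sqrt_nonneg _
  calc A * (((Nat.log 2 x : ℕ) : ℝ) + 1) *
        ∑ i ∈ range (Nat.log 2 x + 1), √((2 : ℝ) ^ (i + 1))
      ≤ A * (((Nat.log 2 x : ℕ) : ℝ) + 1) * (5 * √(x : ℝ)) :=
        mul_le_mul_of_nonneg_left h11 (by positivity)
    _ ≤ A * (2 / Real.log 2 * Real.log x) * (5 * √(x : ℝ)) := by
        refine mul_le_mul_of_nonneg_right ?_ (by positivity)
        exact mul_le_mul_of_nonneg_left hL1 hA
    _ = 10 / Real.log 2 * A * √(x : ℝ) * Real.log x := by ring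

private lemma realRW_log {i p : ℕ} (hp : p ∈ blk i) : Nat.log 2 p = i := by
  simp only [blk, mem_filter, mem_Ico] at hp
  exact (Nat.log_eq_iff (b := 2) (m := i) (n := p) (Or.inr ⟨one_lt_two, hp.2.ne_zero⟩)).2 hp.1

open Classical in
/-- PIECE [JC-W2] (copy the proof of `real_R`, `RealR.lean`; for a given `j` the blocks with `2 ^ (i+3) < j` contain at most `2 j` primes: `trivial_W` bounds their contribution by `4 j (k + 1) ≤ 8 j (k + 1) √x log x`). -/
theorem real_RW (M : ℕ) (G : Subgroup (GL (Fin 2) (ZMod M))) (R : Finset (Matrix.SpecialLinearGroup (Fin 2) ℤ))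
    (ρ : ℕ → Om → ℝ) (h0 : ∀ p : ℕ, p.Prime → ∀ ω, 0 ≤ ρ p ω) (h1 : ∀ p : ℕ, p.Prime → ∑ ω ∈ Sp R p, ρ p ω = 1)
    (hs : ∀ p : ℕ, p.Prime → ∀ ω, ρ p ω ≠ 0 → Sc ω.2.1 p ω.1) (w : ℕ → ℕ → ℝ) (hw : ∀ j p, |w j p| ≤ 1) :
    ∃ (v : ℕ → Om) (C : ℝ), 0 ≤ C ∧ (∀ p : ℕ, p.Prime → v p ∈ Sp R p ∧ 0 < ρ p (v p)) ∧
      (∀ j : ℕ, ∃ Cj : ℝ, 0 ≤ Cj ∧ ∀ (m : ℕ) (F : Mz) (k x : ℕ), 0 < m → 2 ≤ x →
        |∑ p ∈ (range (x + 1)).filter Nat.Prime, w j p * (Tst M G m F k p (v p) - ∑ ω ∈ Sp R p, ρ p ω * Tst M G m F k p ω)| ≤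
          Cj * (k + 1) * √(x : ℝ) * Real.log x) ∧
      ∀ (b : ℤ) (x : ℕ), 2 ≤ x →
        |∑ p ∈ (range (x + 1)).filter Nat.Prime, ((if (v p).1 = b then (1 : ℝ) else 0) - ∑ ω ∈ Sp R p, ρ p ω * (if ω.1 = b then (1 : ℝ) else 0))| ≤
          C * √(x : ℝ) * Real.log x := by
  have hblk0 : ∀ i : ℕ, ∀ p ∈ blk i, p.Prime := by
    intro i p hp
    simp only [blk, mem_filter] at hp
    exact hp.2
  choose v hv1 hv2 hv3 using fun i => rblk_W M G R i ρ (fun p hp => h0 p (hblk0 i p hp))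
    (fun p hp => h1 p (hblk0 i p hp)) (fun p hp => hs p (hblk0 i p hp)) w hw
  have hmem : ∀ p : ℕ, p.Prime → p ∈ blk (Nat.log 2 p) := by
    intro p hp
    simp only [blk, mem_filter, mem_Ico]
    exact ⟨⟨Nat.pow_log_le_self 2 hp.ne_zero, Nat.lt_pow_succ_log_self one_lt_two p⟩, hp⟩
  have hlog2 : 0 < Real.log 2 := Real.log_pos one_lt_two
  have hcard : ∀ i : ℕ, ((blk i).card : ℝ) ≤ (2 : ℝ) ^ i := by
    intro i
    have h2 : (blk i).card ≤ 2 ^ i := by
      have h3 : (blk i).card ≤ (Ico (2 ^ i) (2 ^ (i + 1))).card := by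
        unfold blk
        exact Finset.card_filter_le _ _
      rw [Nat.card_Ico] at h3
      have h4 : 2 ^ (i + 1) - 2 ^ i = 2 ^ i := by
        rw [pow_succ]
        omega
      rwa [h4] at h3
    exact_mod_cast h2
  refine ⟨fun p => v (Nat.log 2 p) p, 400 / Real.log 2, by positivity, ?_, ?_, ?_⟩
  · intro p hp
    exact hv1 _ p (hmem p hp)
  · intro j
    refine ⟨10 / Real.log 2 * (40 + 2 * (j : ℝ)), by positivity, ?_⟩
    intro m F k x hm hx
    have h := realRW_bound (fun p => w j p * (Tst M G m F k p (v (Nat.log 2 p) p) - ∑ ω ∈ Sp R p, ρ p ω * Tst M G m F k p ω))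
      ((40 + 2 * (j : ℝ)) * ((k : ℝ) + 1)) (by positivity) x hx (fun i => by
        have h3 : ∑ p ∈ (blk i).filter (fun p => p ≤ x),
            w j p * (Tst M G m F k p (v (Nat.log 2 p) p) - ∑ ω ∈ Sp R p, ρ p ω * Tst M G m F k p ω) =
            ∑ p ∈ (blk i).filter (fun p => p ≤ x), w j p * (Tst M G m F k p (v i p) - ∑ ω ∈ Sp R p, ρ p ω * Tst M G m F k p ω) := by
          refine Finset.sum_congr rfl fun p hp => ?_
          rw [realRW_log (mem_filter.1 hp).1]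
        show |∑ p ∈ (blk i).filter (fun p => p ≤ x),
            w j p * (Tst M G m F k p (v (Nat.log 2 p) p) - ∑ ω ∈ Sp R p, ρ p ω * Tst M G m F k p ω)| ≤ _
        rw [h3]
        have hs0 : (0 : ℝ) ≤ √((2 : ℝ) ^ i * (i + 1)) := Real.sqrt_nonneg _
        have hj0 : (0 : ℝ) ≤ j := Nat.cast_nonneg j
        have hk0 : (0 : ℝ) ≤ (k : ℝ) + 1 := by positivity
        by_cases hji : j ≤ 2 ^ (i + 3)
        · refine (hv2 i m F k x j hm hji).trans ?_
          have h5 : 0 ≤ 2 * (j : ℝ) * ((k : ℝ) + 1) * √((2 : ℝ) ^ i * (i + 1)) := by positivity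
          nlinarith
        · rw [not_le] at hji
          have h6 : |∑ p ∈ (blk i).filter (fun p => p ≤ x),
              w j p * (Tst M G m F k p (v i p) - ∑ ω ∈ Sp R p, ρ p ω * Tst M G m F k p ω)| ≤
              ∑ _p ∈ (blk i).filter (fun p => p ≤ x), 2 * ((k : ℝ) + 1) := by
            refine (Finset.abs_sum_le_sum_abs _ _).trans (Finset.sum_le_sum fun p hp => ?_)
            have hpb := (mem_filter.1 hp).1
            have hpp := hblk0 i p hpb
            exact trivial_W M G R p hpp (ρ p) (h0 p hpp) (h1 p hpp) (v i p) (hv1 i p hpb).1 m F k (w j p) (hw j p)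
          refine h6.trans ?_
          rw [Finset.sum_const, nsmul_eq_mul]
          have h7 : ((((blk i).filter (fun p => p ≤ x)).card : ℕ) : ℝ) ≤ (2 : ℝ) ^ i := by
            refine le_trans ?_ (hcard i)
            exact_mod_cast Finset.card_filter_le _ _
          have h8 : (2 : ℝ) ^ i ≤ j := by
            have h9 : 2 ^ i ≤ j := le_trans (Nat.pow_le_pow_right two_pos (Nat.le_add_right i 3)) hji.le
            exact_mod_cast h9
          have h10 : (1 : ℝ) ≤ √((2 : ℝ) ^ i * (i + 1)) := by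
            rw [Real.one_le_sqrt]
            have h11 : (1 : ℝ) ≤ (2 : ℝ) ^ i := one_le_pow₀ (by norm_num)
            have h12 : (1 : ℝ) ≤ (i : ℝ) + 1 := by
              have : (0 : ℝ) ≤ i := Nat.cast_nonneg i
              linarith
            nlinarith
          calc ((((blk i).filter (fun p => p ≤ x)).card : ℕ) : ℝ) * (2 * ((k : ℝ) + 1))
              ≤ (j : ℝ) * (2 * ((k : ℝ) + 1)) :=
                mul_le_mul_of_nonneg_right (h7.trans h8) (by positivity)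
            _ = (2 * (j : ℝ)) * ((k : ℝ) + 1) * 1 := by ring
            _ ≤ (40 + 2 * (j : ℝ)) * ((k : ℝ) + 1) * √((2 : ℝ) ^ i * (i + 1)) := by
                refine mul_le_mul ?_ h10 zero_le_one (by positivity)
                exact mul_le_mul_of_nonneg_right (by linarith) hk0)
    refine h.trans (le_of_eq ?_)
    ring
  · intro b x hx
    have h := realRW_bound (fun p => (if (v (Nat.log 2 p) p).1 = b then (1 : ℝ) else 0) -
        ∑ ω ∈ Sp R p, ρ p ω * (if ω.1 = b then (1 : ℝ) else 0))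
      40 (by norm_num) x hx (fun i => by
        have h2 := hv3 i b x
        have h3 : ∑ p ∈ (blk i).filter (fun p => p ≤ x),
            ((if (v (Nat.log 2 p) p).1 = b then (1 : ℝ) else 0) - ∑ ω ∈ Sp R p, ρ p ω * (if ω.1 = b then (1 : ℝ) else 0)) =
            ∑ p ∈ (blk i).filter (fun p => p ≤ x),
              ((if (v i p).1 = b then (1 : ℝ) else 0) - ∑ ω ∈ Sp R p, ρ p ω * (if ω.1 = b then (1 : ℝ) else 0)) := by
          refine Finset.sum_congr rfl fun p hp => ?_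
          rw [realRW_log (mem_filter.1 hp).1]
        show |∑ p ∈ (blk i).filter (fun p => p ≤ x),
            ((if (v (Nat.log 2 p) p).1 = b then (1 : ℝ) else 0) - ∑ ω ∈ Sp R p, ρ p ω * (if ω.1 = b then (1 : ℝ) else 0))| ≤ _
        rw [h3]
        exact h2)
    refine h.trans (le_of_eq ?_)
    ring

end Pool.Agent.JC
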