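import Pool.Agent.Lib_MP_f1937f_jc.Ctrs

/-!
# The number of the roots
-/

set_option autoImplicit false

namespace Pool.Agent.JC

open Finset Pool.Agent.TB Pool.Agent.JB Pool.Agent.JD

private lemma rr3_card (N : ℕ) (hN : 0 < N) (P : ZMod N → Prop) [DecidablePred P] :
    Nat.card {x : ZMod N // P x} = ((range N).filter (fun n : ℕ => P (n : ZMod N))).card := by
  have : NeZero N := ⟨hN.ne'⟩
  rw [Nat.card_eq_fintype_card, Fintype.card_subtype]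
  refine card_nbij' (fun x => x.val) (fun n => (n : ZMod N)) ?_ ?_ ?_ ?_
  · intro x hx
    simp only [coe_filter, mem_univ, true_and, Set.mem_ofPred_eq, mem_range] at hx ⊢
    refine ⟨ZMod.val_lt x, ?_⟩
    rw [ZMod.natCast_zmod_val]
    exact hx
  · intro n hn
    simp only [coe_filter, mem_univ, true_and, Set.mem_ofPred_eq, mem_range] at hn ⊢
    exact hn.2
  · intro x _
    exact ZMod.natCast_zmod_val x
  · intro n hn
    simp only [coe_filter, Set.mem_ofPred_eq, mem_range] at hn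
    exact ZMod.val_natCast_of_lt hn.1

private lemma rr3_rr (S : ℕ) (d a : ℤ) (e : ℕ) (hS : 0 < S) (he : 0 < e) (Q : ℕ) (hQ : Q = S ^ 2 * e) :
    Rr S d a e = ∑ n ∈ range Q, if (((Q : ℕ) : ℤ) ∣ (n : ℤ) ^ 2 - a * n + d ∧ (S : ℤ) ∣ 2 * (n : ℤ) - a) then 1 else 0 := by
  classical
  subst hQ
  unfold Rr
  rw [rr3_card _ (by positivity), card_filter]
  refine sum_congr rfl fun n _ => ?_
  congr 1
  rw [map_sub, map_mul, map_ofNat, map_natCast, map_intCast, eq_iff_iff]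
  refine and_congr ?_ ?_
  · rw [← ZMod.intCast_zmod_eq_zero_iff_dvd]
    push_cast
    rfl
  · rw [← ZMod.intCast_zmod_eq_zero_iff_dvd]
    push_cast
    rfl

private lemma rr3_one (l : ℕ) (hl : l.Prime) (y u : ℤ) (hu : ¬ (l : ℤ) ∣ u) :
    (∑ i ∈ range l, if ((l : ℤ) ∣ y - u * i) then 1 else 0) = 1 := by
  have : Fact l.Prime := ⟨hl⟩
  have hu0 : (u : ZMod l) ≠ 0 := fun h => hu ((ZMod.intCast_zmod_eq_zero_iff_dvd u l).1 h)
  rw [← card_filter, card_eq_one]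
  refine ⟨((y : ZMod l) / (u : ZMod l)).val, ?_⟩
  ext i
  rw [mem_filter, mem_range, mem_singleton, ← ZMod.intCast_zmod_eq_zero_iff_dvd]
  push_cast
  rw [sub_eq_zero]
  constructor
  · rintro ⟨h1, h2⟩
    have h3 : (y : ZMod l) / (u : ZMod l) = (i : ZMod l) := by
      rw [div_eq_iff hu0, h2, mul_comm]
    rw [h3, ZMod.val_natCast_of_lt h1]
  · intro h
    rw [h]
    refine ⟨ZMod.val_lt _, ?_⟩
    rw [ZMod.natCast_zmod_val]
    field_simp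

private lemma rr3_cls (s : ℕ) (hs : 0 < s) (lam : ℤ) :
    (∑ n ∈ range s, if ((s : ℤ) ∣ (n : ℤ) - lam) then 1 else 0) = 1 := by
  have : NeZero s := ⟨hs.ne'⟩
  rw [← card_filter, card_eq_one]
  refine ⟨((lam : ZMod s)).val, ?_⟩
  ext i
  rw [mem_filter, mem_range, mem_singleton, ← ZMod.intCast_zmod_eq_zero_iff_dvd]
  push_cast
  rw [sub_eq_zero]
  constructor
  · rintro ⟨h1, h2⟩
    rw [← h2, ZMod.val_natCast_of_lt h1]
  · intro h
    rw [h]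
    exact ⟨ZMod.val_lt _, ZMod.natCast_zmod_val _⟩

private lemma rr3_per (Q : ℕ) (f : ℕ → ℕ) (hf : ∀ n, f (n + Q) = f n) (l : ℕ) :
    ∑ n ∈ range (Q * l), f n = l * ∑ n ∈ range Q, f n := by
  have hf' : ∀ j n, f (Q * j + n) = f n := by
    intro j
    induction j with
    | zero => intro n; simp
    | succ j ih => intro n; rw [Nat.mul_succ, add_right_comm, hf, ih]
  induction l with
  | zero => simp
  | succ l ih => rw [Nat.mul_succ, sum_range_add, ih, sum_congr rfl fun n _ => hf' l n]; ring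

/-- the summand of `rr3_rr` is periodic -/
private lemma rr3_fper (S Q : ℕ) (d a : ℤ) (hSQ : (S : ℤ) ∣ (Q : ℤ)) (n : ℕ) :
    (if (((Q : ℕ) : ℤ) ∣ ((n + Q : ℕ) : ℤ) ^ 2 - a * ((n + Q : ℕ) : ℤ) + d ∧ (S : ℤ) ∣ 2 * ((n + Q : ℕ) : ℤ) - a) then 1 else 0) =
      if (((Q : ℕ) : ℤ) ∣ (n : ℤ) ^ 2 - a * n + d ∧ (S : ℤ) ∣ 2 * (n : ℤ) - a) then 1 else 0 := by
  have h2 : ((S : ℤ) ∣ 2 * ((n + Q : ℕ) : ℤ) - a) ↔ ((S : ℤ) ∣ 2 * (n : ℤ) - a) := by
    have : 2 * ((n + Q : ℕ) : ℤ) - a = (2 * (n : ℤ) - a) + Q * 2 := by push_cast; ring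
    rw [this]
    exact dvd_add_left (hSQ.mul_right 2)
  have h3 : ((Q : ℤ) ∣ ((n + Q : ℕ) : ℤ) ^ 2 - a * ((n + Q : ℕ) : ℤ) + d) ↔ ((Q : ℤ) ∣ (n : ℤ) ^ 2 - a * n + d) := by
    have : ((n + Q : ℕ) : ℤ) ^ 2 - a * ((n + Q : ℕ) : ℤ) + d = ((n : ℤ) ^ 2 - a * n + d) + Q * (2 * n + Q - a) := by
      push_cast; ring
    rw [this]
    exact dvd_add_left (dvd_mul_right _ _)
  simp only [h2, h3]

/-- PIECE [JC-L3] (all theorems of this file, about 180 lines; see `Lib_MP_f1937f_jd/RsStep.lean`, `Rs.lean` for the very similar `rs`). -/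
theorem rr_per (s : ℕ) (d a a' : ℤ) (e : ℕ) (h : ((s ^ 2 * e : ℕ) : ℤ) ∣ a - a') : Rr s d a e = Rr s d a' e := by
  have h1 : (a : ZMod (s ^ 2 * e)) = (a' : ZMod (s ^ 2 * e)) := by
    rw [ZMod.intCast_eq_intCast_iff_dvd_sub, ← dvd_neg, neg_sub]
    exact h
  unfold Rr
  rw [h1]

/-- the roots are the `lam + s y` -/
theorem rr_one (s : ℕ) (d a : ℤ) (hs : 0 < s) (h : Sc s d a) : Rr s d a 1 = s := by
  classical
  obtain ⟨lam, hlam⟩ := h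
  rw [rr3_rr s d a 1 hs one_pos (s * s) (by ring)]
  have h1 : ∀ n ∈ range (s * s), (if (((s * s : ℕ) : ℤ) ∣ (n : ℤ) ^ 2 - a * n + d ∧ (s : ℤ) ∣ 2 * (n : ℤ) - a) then 1 else 0) =
      if ((s : ℤ) ∣ (n : ℤ) - lam) then 1 else 0 := by
    intro n _
    congr 1
    rw [eq_iff_iff]
    constructor
    · rintro ⟨h2, h3⟩
      have h4 : Ctr s d a n := ⟨h3, by
        have h5 : (s : ℤ) ^ 2 = ((s * s : ℕ) : ℤ) := by
          push_cast
          ring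
        rw [h5]
        exact h2⟩
      exact ctr_unique s d a n lam hs h4 hlam
    · rintro ⟨y, hy⟩
      have h2 : (n : ℤ) = lam + s * y := by linear_combination hy
      obtain ⟨u, hu⟩ := hlam.1
      obtain ⟨v, hv⟩ := hlam.2
      refine ⟨⟨v + y * u + y ^ 2, ?_⟩, ⟨u + 2 * y, ?_⟩⟩
      · rw [h2]
        push_cast
        linear_combination hv + (s : ℤ) * y * hu
      · rw [h2]
        linear_combination hu
  rw [sum_congr rfl h1, rr3_per s (fun n => if ((s : ℤ) ∣ (n : ℤ) - lam) then 1 else 0) ?_ s, rr3_cls s hs lam, mul_one]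
  intro n
  have h2 : ((s : ℤ) ∣ ((n + s : ℕ) : ℤ) - lam) ↔ ((s : ℤ) ∣ (n : ℤ) - lam) := by
    have : ((n + s : ℕ) : ℤ) - lam = ((n : ℤ) - lam) + s := by push_cast; ring
    rw [this]
    exact dvd_add_left dvd_rfl
  simp only [h2]

theorem rr_zero (s : ℕ) (d a : ℤ) (e : ℕ) (hs : 0 < s) (he : 0 < e) (h : ¬ Sc s d a) : Rr s d a e = 0 := by
  classical
  rw [rr3_rr s d a e hs he (s ^ 2 * e) rfl]
  refine sum_eq_zero fun n _ => if_neg ?_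
  rintro ⟨h1, h2⟩
  refine h ⟨n, h2, ?_⟩
  refine Dvd.dvd.trans ?_ h1
  push_cast
  exact dvd_mul_right _ _

/-- `s = 1`: all roots -/
theorem rr_rho (d a : ℤ) (e : ℕ) : Rr 1 d a e = rho d a e := by
  have key : ∀ (N : ℕ) (_ : N = e) (h : 1 ∣ N), Nat.card {x : ZMod N // x ^ 2 - (a : ZMod N) * x + (d : ZMod N) = 0 ∧
      ZMod.castHom h (ZMod 1) (2 * x - (a : ZMod N)) = 0} = rho d a e := by
    rintro N rfl h
    unfold rho
    refine Nat.card_congr (Equiv.subtypeEquivRight fun x => ?_)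
    exact and_iff_left (Subsingleton.elim _ _)
  exact key (1 ^ 2 * e) (by ring) (sdvd 1 e)

/-- As `rs_step`: exchange the sums; for `x` modulo `S² e l` with `S ∣ 2 x - t` count the `i < l` with `S² e l ∣ x² - (t + S² e w i) x + d`. -/
theorem rr_step (S : ℕ) (d t w : ℤ) (e l : ℕ) (hS : 0 < S) (he : 0 < e) (hl : l.Prime) (hlS : l ∣ S) (hc : IsCoprime d (S : ℤ))
    (hw : ¬ (l : ℤ) ∣ w) :
    ∑ i ∈ range l, Rr S d (t + ((S ^ 2 * e : ℕ) : ℤ) * w * i) (e * l) = l * Rr S d t e := by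
  classical
  obtain ⟨Q, hQ⟩ : ∃ Q : ℕ, Q = S ^ 2 * e := ⟨_, rfl⟩
  rw [← hQ, rr3_rr S d t e hS he Q hQ]
  have hQ0 : 0 < Q := by rw [hQ]; positivity
  have hlQ : (l : ℤ) ∣ (Q : ℤ) := by
    rw [hQ]
    exact_mod_cast (hlS.trans (dvd_pow_self S two_ne_zero)).mul_right e
  have hSQ : (S : ℤ) ∣ (Q : ℤ) := by
    rw [hQ]
    exact_mod_cast (dvd_pow_self S two_ne_zero).mul_right e
  have hld : ¬ (l : ℤ) ∣ d := by
    intro h
    have h1 : IsCoprime (l : ℤ) (l : ℤ) := IsCoprime.of_isCoprime_of_dvd_left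
      (IsCoprime.of_isCoprime_of_dvd_right hc (Int.natCast_dvd_natCast.2 hlS)) h
    have h2 := isCoprime_self.1 h1
    rw [Int.isUnit_iff] at h2
    have h3 := hl.two_le
    omega
  have hlp : Prime (l : ℤ) := Nat.prime_iff_prime_int.1 hl
  have h1 : ∀ i ∈ range l, Rr S d (t + ((Q : ℕ) : ℤ) * w * i) (e * l) =
      ∑ n ∈ range (Q * l), if (((Q * l : ℕ) : ℤ) ∣ (n : ℤ) ^ 2 - (t + ((Q : ℕ) : ℤ) * w * i) * n + d ∧
        (S : ℤ) ∣ 2 * (n : ℤ) - (t + ((Q : ℕ) : ℤ) * w * i)) then 1 else 0 :=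
    fun i _ => rr3_rr S d _ (e * l) hS (Nat.mul_pos he hl.pos) (Q * l) (by rw [hQ, mul_assoc])
  rw [sum_congr rfl h1, sum_comm]
  rw [← rr3_per Q (fun n => if (((Q : ℕ) : ℤ) ∣ (n : ℤ) ^ 2 - t * n + d ∧ (S : ℤ) ∣ 2 * (n : ℤ) - t) then 1 else 0)
    (fun n => rr3_fper S Q d t hSQ n) l]
  refine sum_congr rfl fun n _ => ?_
  have h6 : ∀ i : ℕ, (S : ℤ) ∣ 2 * (n : ℤ) - (t + ((Q : ℕ) : ℤ) * w * i) ↔ (S : ℤ) ∣ 2 * (n : ℤ) - t := by
    intro i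
    have : 2 * (n : ℤ) - (t + ((Q : ℕ) : ℤ) * w * i) = (2 * (n : ℤ) - t) + (Q : ℤ) * (-(w * i)) := by ring
    rw [this]
    exact dvd_add_left (hSQ.mul_right _)
  by_cases hn : ((Q : ℕ) : ℤ) ∣ (n : ℤ) ^ 2 - t * n + d ∧ (S : ℤ) ∣ 2 * (n : ℤ) - t
  · rw [if_pos hn]
    obtain ⟨y, hy⟩ := hn.1
    have hln : ¬ (l : ℤ) ∣ (n : ℤ) := by
      intro h
      apply hld
      have h2 : (l : ℤ) ∣ (n : ℤ) ^ 2 - t * n + d := hlQ.trans hn.1
      have h3 : (l : ℤ) ∣ (n : ℤ) ^ 2 - t * n := dvd_sub (Dvd.dvd.pow h two_ne_zero) (Dvd.dvd.mul_left h t)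
      exact (dvd_add_right h3).1 h2
    refine Eq.trans ?_ (rr3_one l hl y (w * n) (fun h => (hlp.dvd_or_dvd h).elim hw hln))
    refine sum_congr rfl fun i _ => ?_
    congr 1
    rw [eq_iff_iff, h6 i]
    have h4 : (n : ℤ) ^ 2 - (t + (Q : ℤ) * w * i) * n + d = Q * (y - w * n * i) := by
      linear_combination hy
    rw [h4, Nat.cast_mul]
    have hQz : (Q : ℤ) ≠ 0 := by exact_mod_cast hQ0.ne'
    constructor
    · rintro ⟨h, -⟩
      exact (mul_dvd_mul_iff_left hQz).1 h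
    · intro h
      exact ⟨mul_dvd_mul_left _ h, hn.2⟩
  · rw [if_neg hn]
    refine sum_eq_zero fun i _ => if_neg ?_
    rintro ⟨h3, h2⟩
    apply hn
    refine ⟨?_, (h6 i).1 h2⟩
    have h4 : (Q : ℤ) ∣ (n : ℤ) ^ 2 - (t + (Q : ℤ) * w * i) * n + d :=
      (Int.natCast_dvd_natCast.2 (dvd_mul_right Q l)).trans h3
    have h5 : (n : ℤ) ^ 2 - t * n + d = ((n : ℤ) ^ 2 - (t + (Q : ℤ) * w * i) * n + d) + Q * (w * i * n) := by ring
    rw [h5]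
    exact dvd_add h4 (dvd_mul_right _ _)

/-- the reduction from the roots for `(l ^ (k+1), l ^ j)` to the roots for `(l ^ k, l ^ j)`, modulo `l ^ (2 k + j)`, has fibres of at most `l²` elements -/
theorem rr_mono (l k j : ℕ) (hl : l.Prime) (d a : ℤ) : Rr (l ^ (k + 1)) d a (l ^ j) ≤ l ^ 2 * Rr (l ^ k) d a (l ^ j) := by
  classical
  obtain ⟨Q, hQ⟩ : ∃ Q : ℕ, Q = (l ^ k) ^ 2 * l ^ j := ⟨_, rfl⟩
  have hSQ : ((l ^ k : ℕ) : ℤ) ∣ (Q : ℤ) := by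
    rw [hQ]
    exact Int.natCast_dvd_natCast.2 ((dvd_pow_self (l ^ k) two_ne_zero).mul_right _)
  rw [rr3_rr (l ^ (k + 1)) d a (l ^ j) (pow_pos hl.pos _) (pow_pos hl.pos _) (Q * l ^ 2) (by rw [hQ]; ring),
    rr3_rr (l ^ k) d a (l ^ j) (pow_pos hl.pos _) (pow_pos hl.pos _) Q hQ,
    ← rr3_per Q (fun n => if (((Q : ℕ) : ℤ) ∣ (n : ℤ) ^ 2 - a * n + d ∧ ((l ^ k : ℕ) : ℤ) ∣ 2 * (n : ℤ) - a) then 1 else 0)
      (fun n => rr3_fper (l ^ k) Q d a hSQ n) (l ^ 2)]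
  refine sum_le_sum fun n _ => ?_
  by_cases h : ((Q * l ^ 2 : ℕ) : ℤ) ∣ (n : ℤ) ^ 2 - a * n + d ∧ ((l ^ (k + 1) : ℕ) : ℤ) ∣ 2 * (n : ℤ) - a
  · rw [if_pos h, if_pos ⟨(Int.natCast_dvd_natCast.2 (dvd_mul_right Q _)).trans h.1,
      (Int.natCast_dvd_natCast.2 (pow_dvd_pow l (Nat.le_succ k))).trans h.2⟩]
  · rw [if_neg h]
    exact Nat.zero_le _

end Pool.Agent.JC
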