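import Pool.Agent.Lib_MP_f1937f_jc.LawsC
import Pool.Agent.Lib_MP_f1937f_jc.RealC
import Pool.Agent.Lib_MP_f1937f_jc.AlF
import Pool.Agent.Lib_MP_f1937f_jc.OrbE
import Pool.Agent.Lib_MP_f1937f_jb.RankJ

/-!
# The sequence before the prescription
-/

set_option autoImplicit false

namespace Pool.Agent.JC

open Finset Pool.Agent.TB Pool.Agent.JB Pool.Agent.JD

theorem base_seqC (M : ℕ) (hM : 0 < M) (G : Subgroup (GL (Fin 2) (ZMod M)))
    (hG : ∀ d : (ZMod M)ˣ, ∃ g ∈ G, g.val.det = (d : ZMod M)) (A : Set ℤ) (e : ℕ ≃ ℤ) :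
    ∃ (F : ℕ → Mz) (p₂ : ℕ), (∀ p : ℕ, p.Prime → (F p).det = p ∧ (F p).trace ∈ V p) ∧ InfoC M G F 1 ∧
      (∀ p : ℕ, p.Prime → p₂ ≤ p → InG M G (rd M (F p))) ∧
      (∀ b : ℤ, b ∉ A → {p : ℕ | p.Prime ∧ (F p).trace = b}.Finite) ∧
      (∀ b : ℤ, b ∈ A → ∀ d : ℕ, Al M G d b → ∀ C ε : ℝ, 0 < ε → ∃ x₀ : ℕ, ∀ x : ℕ, x₀ ≤ x →
        (x : ℝ) ^ (3 / 4 - ε) + C * √(x : ℝ) * Real.log x ≤
          ((((range (x + 1)).filter Nat.Prime).filter (fun p => (F p).trace = b)).card : ℝ)) := by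
  classical
  obtain ⟨R, hR⟩ := orb_exists M hM G hG
  obtain ⟨B, ρ, p₂, P, hB, hρu, hρ1, hL⟩ := law_allC M hM G hG R hR A (fun p => e (rkJ (M ^ 2) p))
  obtain ⟨D, hD, hdl⟩ := dl_sum
  obtain ⟨v, C₃, hv, hI, hcount⟩ := real_C M hM G R B (B * D) hB (mul_nonneg hB hD) (fun p => B * dl p)
    (fun p => mul_nonneg hB (dl_nonneg p)) (fun x hx => by
      rw [← mul_sum, mul_assoc, mul_assoc]
      refine mul_le_mul_of_nonneg_left ?_ hB
      rw [← mul_assoc]
      exact hdl x hx) ρ hρu hρ1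
  have hv0 : ∀ p : ℕ, p.Prime → ρ p (v p) ≠ 0 := fun p hp => (hv p hp).2.ne'
  have htr : ∀ p : ℕ, (mt p (v p)).trace = (v p).1 := fun p => mt_trace p (v p)
  refine ⟨fun p => mt p (v p), p₂, ?_, hI, ?_, ?_, ?_⟩
  · intro p hp
    have h1 := (hρu p hp).supp (v p) (hv0 p hp)
    have h2 := h1.1
    unfold Sp at h2
    rw [mem_product, mem_product, mem_Icc] at h2
    exact ⟨mt_det p (v p) h2.2.1.1 h1.2, by rw [htr]; exact h2.1⟩
  · intro p hp hpp
    exact ((hL p hp hpp).1 (v p) (hv0 p hp)).1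
  · intro b hb
    obtain ⟨n₀, hn₀⟩ := exists_nat_ge (Real.exp |(b : ℝ)|)
    refine (Set.finite_Iio (max p₂ (n₀ + 1))).subset ?_
    rintro p ⟨hp, hab⟩
    rw [Set.mem_Iio]
    by_contra hlt
    push Not at hlt
    have hp1 : p₂ ≤ p := (le_max_left _ _).trans hlt
    have hp2 : n₀ + 1 ≤ p := (le_max_right _ _).trans hlt
    rw [htr] at hab
    have h5 : |(b : ℝ)| ≤ Real.log p := by
      rw [Real.le_log_iff_exp_le (by exact_mod_cast hp.pos)]
      refine hn₀.trans ?_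
      exact_mod_cast (by omega : n₀ ≤ p)
    rcases ((hL p hp hp1).1 (v p) (hv0 p hp)).2 with h | h
    · rw [hab] at h
      linarith
    · rw [hab] at h
      exact hb h
  · intro b hb d hd C ε hε
    have hdM : d.Coprime M := al_cop M G d b hd
    obtain ⟨n₀, hn₀⟩ := exists_nat_ge (max 8 (2 / ε))
    have hn8r : (8 : ℝ) ≤ n₀ := (le_max_left _ _).trans hn₀
    have hn8 : 8 ≤ n₀ := by exact_mod_cast hn8r
    have hnε : 2 / ε ≤ n₀ := (le_max_right _ _).trans hn₀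
    have hn0 : (0 : ℝ) < n₀ := by linarith
    have hε' : 1 / (n₀ : ℝ) ≤ 1 / 8 := one_div_le_one_div_of_le (by norm_num) hn8r
    have hε2 : 2 * (1 / (n₀ : ℝ)) ≤ ε := by
      rw [div_le_iff₀ hε] at hnε
      rw [mul_one_div, div_le_iff₀ hn0]
      linarith
    set j : ℕ := e.symm b with hj
    have hej : e j = b := by rw [hj, Equiv.apply_symm_apply]
    obtain ⟨x₀, hx₀⟩ := rank_J (M ^ 2) (by positivity) d (Nat.Coprime.pow_right 2 hdM) (1 / (n₀ : ℝ)) (by positivity) hε' (C + C₃) j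
      (max p₂ (max n₀ (P b n₀)))
    refine ⟨max x₀ 2, fun x hx => ?_⟩
    have hx2 : 2 ≤ x := (le_max_right _ _).trans hx
    have hx1 : 1 ≤ x := by omega
    have h5 := hcount b x hx2
    have h6 := hx₀ x ((le_max_left _ _).trans hx)
    have h7 : ∑ p ∈ ((range (x + 1)).filter Nat.Prime).filter
          (fun p => p ≡ d [MOD M ^ 2] ∧ rkJ (M ^ 2) p = j ∧ max p₂ (max n₀ (P b n₀)) ≤ p),
            (p : ℝ) ^ (-(1 / 4) - 1 / (n₀ : ℝ)) / 4 ≤
        ∑ p ∈ (range (x + 1)).filter Nat.Prime, ∑ ω ∈ (Sp R p).filter (fun ω => ω.1 = b), ρ p ω := by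
      calc _ ≤ ∑ p ∈ ((range (x + 1)).filter Nat.Prime).filter (fun p => p ≡ d [MOD M ^ 2] ∧ rkJ (M ^ 2) p = j ∧
              max p₂ (max n₀ (P b n₀)) ≤ p), ∑ ω ∈ (Sp R p).filter (fun ω => ω.1 = b), ρ p ω := by
            refine sum_le_sum fun p hp => ?_
            rw [mem_filter, mem_filter] at hp
            obtain ⟨⟨hp1, hpp⟩, hpd, hpj, hpm⟩ := hp
            have hpM : p.Coprime M := by
              have h8 : p ≡ d [MOD M] := hpd.of_dvd (dvd_pow_self M two_ne_zero)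
              rw [Nat.Coprime, Nat.ModEq.gcd_eq h8]
              exact hdM
            have hq := (hL p hpp ((le_max_left _ _).trans hpm)).2 n₀ hn8
              ((le_max_left _ _).trans ((le_max_right _ _).trans hpm))
            simp only [hpj, hej] at hq
            exact hq ((le_max_right _ _).trans ((le_max_right _ _).trans hpm)) hb
              (al_congr M hM G R hR d p hpM hpd.symm b hd)
        _ ≤ _ := by
            refine sum_le_sum_of_subset_of_nonneg (filter_subset _ _) fun p hp _ => ?_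
            exact sum_nonneg fun ω _ => (hρu p (mem_filter.mp hp).2).nonneg ω
    have h8 : (x : ℝ) ^ (3 / 4 - ε) ≤ (x : ℝ) ^ (3 / 4 - 2 * (1 / (n₀ : ℝ))) := by
      apply Real.rpow_le_rpow_of_exponent_le
      · exact_mod_cast hx1
      · linarith
    have h9 := (abs_le.mp h5).1
    have h10 := h6.trans h7
    have h11 : (C + C₃) * √(x : ℝ) * Real.log x = C * √(x : ℝ) * Real.log x + C₃ * √(x : ℝ) * Real.log x := by ring
    simp only [htr]
    linarith

end Pool.Agent.JC
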