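import Pool.Agent.Lib_MP_f1937f_jc.ConjIff

/-!
# The classes on a line
-/

set_option autoImplicit false

namespace Pool.Agent.JC

open Finset Pool.Agent.TB Pool.Agent.JB Pool.Agent.JD

/-- a conjugate of a scalar matrix modulo `s` is scalar modulo `s` -/
private theorem scm_cj_spkl (m s : ℕ) (hs : s ∣ m) (g : Matrix (Fin 2) (Fin 2) (ZMod m)) (A : Matrix (Fin 2) (Fin 2) (ZMod m))
    (hg : ScM m s hs g) (hc : Cj m g A) : ScM m s hs A := by
  obtain ⟨γ, hγ⟩ := hc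
  obtain ⟨h1, h2, h3⟩ := hg
  have hφ : g.map (ZMod.castHom hs (ZMod s)) = (ZMod.castHom hs (ZMod s) (g 0 0)) • (1 : Matrix (Fin 2) (Fin 2) (ZMod s)) := by
    have h4 : ZMod.castHom hs (ZMod s) (g 1 1) = ZMod.castHom hs (ZMod s) (g 0 0) := by
      rw [map_sub, sub_eq_zero] at h3
      exact h3.symm
    have hE : ∀ i j, ZMod.castHom hs (ZMod s) (g i j) = ZMod.castHom hs (ZMod s) (g 0 0) * (if i = j then 1 else 0) := by
      refine Fin.forall_fin_two.2 ⟨Fin.forall_fin_two.2 ⟨?_, ?_⟩, Fin.forall_fin_two.2 ⟨?_, ?_⟩⟩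
      · rw [if_pos rfl, mul_one]
      · rw [if_neg Fin.zero_ne_one, mul_zero]
        exact h1
      · rw [if_neg Fin.zero_ne_one.symm, mul_zero]
        exact h2
      · rw [if_pos rfl, mul_one]
        exact h4
    ext i j
    rw [Matrix.map_apply, Matrix.smul_apply, Matrix.one_apply, smul_eq_mul]
    exact hE i j
  have h5 : (γ.val * g).map (ZMod.castHom hs (ZMod s)) = (A * γ.val).map (ZMod.castHom hs (ZMod s)) := by rw [hγ]
  rw [Matrix.map_mul, Matrix.map_mul] at h5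
  have h6 : γ.val.map (ZMod.castHom hs (ZMod s)) * (γ⁻¹).val.map (ZMod.castHom hs (ZMod s)) = 1 := by
    rw [← Matrix.map_mul]
    have h7 : γ.val * (γ⁻¹).val = 1 := Units.mul_inv γ
    rw [h7, Matrix.map_one _ (map_zero _) (map_one _)]
  have h8 : A.map (ZMod.castHom hs (ZMod s)) = (ZMod.castHom hs (ZMod s) (g 0 0)) • (1 : Matrix (Fin 2) (Fin 2) (ZMod s)) := by
    have h9 : γ.val.map (ZMod.castHom hs (ZMod s)) * g.map (ZMod.castHom hs (ZMod s)) * (γ⁻¹).val.map (ZMod.castHom hs (ZMod s)) =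
        A.map (ZMod.castHom hs (ZMod s)) * γ.val.map (ZMod.castHom hs (ZMod s)) * (γ⁻¹).val.map (ZMod.castHom hs (ZMod s)) := by rw [h5]
    rw [Matrix.mul_assoc (A.map (ZMod.castHom hs (ZMod s))), h6, Matrix.mul_one, hφ, mul_smul_comm, mul_one, smul_mul_assoc, h6] at h9
    exact h9.symm
  have h10 : ∀ i j, ZMod.castHom hs (ZMod s) (A i j) = ZMod.castHom hs (ZMod s) (g 0 0) * (if i = j then 1 else 0) := by
    intro i j
    have h11 := congrFun (congrFun h8 i) j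
    rw [Matrix.map_apply, Matrix.smul_apply, Matrix.one_apply, smul_eq_mul] at h11
    exact h11
  refine ⟨?_, ?_, ?_⟩
  · rw [h10]
    simp
  · rw [h10]
    simp
  · rw [map_sub, h10, h10]
    simp

/-- two conjugates of the same matrix are conjugate -/
private theorem cj_two_spkl (m : ℕ) (g A B : Matrix (Fin 2) (Fin 2) (ZMod m)) (hA : Cj m g A) (hB : Cj m g B) : Cj m A B := by
  obtain ⟨γ, hγ⟩ := hA
  obtain ⟨δ, hδ⟩ := hB
  refine ⟨δ * γ⁻¹, ?_⟩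
  have e1 : (δ * γ⁻¹).val = δ.val * (γ⁻¹).val := rfl
  have e2 : (γ⁻¹).val * γ.val = 1 := Units.inv_mul γ
  have e3 : γ.val * (γ⁻¹).val = 1 := Units.mul_inv γ
  have e4 : A = γ.val * g * (γ⁻¹).val := by
    rw [hγ, Matrix.mul_assoc, e3, Matrix.mul_one]
  rw [e1, e4]
  calc δ.val * (γ⁻¹).val * (γ.val * g * (γ⁻¹).val) = δ.val * ((γ⁻¹).val * γ.val) * g * (γ⁻¹).val := by
        simp only [Matrix.mul_assoc]
    _ = B * (δ.val * (γ⁻¹).val) := by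
        rw [e2, Matrix.mul_one, hδ, Matrix.mul_assoc]

/-- the traces of two conjugate matrices `Fc` -/
private theorem tr_spkl (m s₀ p : ℕ) (hm : 0 < m) (hs : s₀ ∣ m) (hs0 : 0 < s₀) (hpm : p.Coprime m) (t a : ℤ) (ht : Sc s₀ p t) (ha : Sc s₀ p a)
    (hc : Cj m (rd m (Fc s₀ p t)) (rd m (Fc s₀ p a))) : ((m * s₀ : ℕ) : ℤ) ∣ a - t := by
  have hd := fc_det s₀ p t hs0 ht
  have hd' := fc_det s₀ p a hs0 ha
  have htr := fc_trace s₀ p t
  have h0 : (Fc s₀ p t) 0 0 ^ 2 - t * (Fc s₀ p t) 0 0 + p + (Fc s₀ p t) 0 1 * (Fc s₀ p t) 1 0 = 0 := by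
    have h1 := hd
    have h2 := htr
    rw [Matrix.det_fin_two] at h1
    rw [Matrix.trace_fin_two] at h2
    have h3 : (Fc s₀ p t) 1 1 = t - (Fc s₀ p t) 0 0 := by linarith
    rw [h3] at h1
    linear_combination -h1
  have hN : ∀ b : ℤ, Sc s₀ p b → ∀ l : ℕ, l.Prime → s₀ * l ∣ m → ¬ Lv (s₀ * l) (Fc s₀ p b) := by
    intro b hb l hl _ h
    have h1 := (fc_lv s₀ (s₀ * l) p b hs0 hb).1 h
    have h2 := Nat.le_of_dvd hs0 h1
    have h3 := hl.two_le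
    nlinarith
  have h4 := (conj_iff m s₀ hm hs p (Nat.isCoprime_iff_coprime.2 hpm) (Fc s₀ p t) (Fc s₀ p a) t (by rw [hd]; simp)
    ((fc_lv s₀ s₀ p t hs0 ht).2 dvd_rfl) (hN t ht) (by rw [htr]; simp) (by rw [h0]; simp) (by rw [hd']; simp)).1 hc
  have h5 := h4.2.1
  rw [fc_trace] at h5
  exact h5

/-- PIECE [JC-G5a] (about 120 lines). PROOF. Suppose that some `t` with `M ^ 2 ∣ t - a₀` satisfies `CjG M m h G g.val (rd m (mt p (t, s₀, σ)))`; `q = lcm (M ^ 2) (m s₀) / M ^ 2`. `Sc s₀ p t` (`sc_congr`, `s₀ ^ 2 ∣ M ^ 2`). For `a` with `M ^ 2 ∣ a - a₀` : if the condition holds for `a`, `Fc s₀ p t` and `Fc s₀ p a` are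
conjugate modulo `m` (`cjG_cj`, `cj_conj`), so `m s₀ ∣ a - t` by `conj_iff` (with `g := Fc s₀ p t`, `F := Fc s₀ p a`, `s := s₀`, `t := t`; `ht2`: the value is `0`; `fc_lv`). Conversely if `m s₀ ∣ a - t` the two matrices are equal modulo `m` (`fc_congr`). `q ∣ m / M` as `M s₀ ∣ gcd (M ^ 2) (m s₀)`, and
`s ≤ s₀ ≤ M` (`rd_scm`-like: the conjugate `mt p (t, s₀, σ)` of `g` is scalar modulo `s`, `mt_lv`), so `q ≤ m / s`. -/
theorem line_class (M : ℕ) (hM : 0 < M) (G : Subgroup (GL (Fin 2) (ZMod M))) (p : ℕ) (a₀ : ℤ) (s₀ : ℕ) (hs₀ : s₀ ∣ M)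
    (σ : Matrix.SpecialLinearGroup (Fin 2) ℤ) (hsc : Sc s₀ p a₀) (m : ℕ) (h : M ∣ m) (hm : 0 < m) (hpm : p.Coprime m) (s : ℕ) (hs : s ∣ m)
    (g : GL (Fin 2) (ZMod m)) (hg : ScM m s hs g.val) :
    (∀ a : ℤ, ((M ^ 2 : ℕ) : ℤ) ∣ a - a₀ → ¬ CjG M m h G g.val (rd m (mt p (a, s₀, σ)))) ∨
    ∃ (q : ℕ) (t : ℤ), 0 < q ∧ (q : ℝ) ≤ (m : ℝ) / s ∧ q ∣ m ∧ ((M ^ 2 : ℕ) : ℤ) ∣ t - a₀ ∧
      ∀ a : ℤ, ((M ^ 2 : ℕ) : ℤ) ∣ a - a₀ → (CjG M m h G g.val (rd m (mt p (a, s₀, σ))) ↔ ((M ^ 2 * q : ℕ) : ℤ) ∣ a - t) := by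
  have hs0 : 0 < s₀ := Nat.pos_of_dvd_of_pos hs₀ hM
  have hs0m : s₀ ∣ m := hs₀.trans h
  have hsM2 : (s₀ : ℤ) ^ 2 ∣ ((M ^ 2 : ℕ) : ℤ) := by
    have h1 : (s₀ : ℤ) ∣ (M : ℤ) := Int.natCast_dvd_natCast.2 hs₀
    push_cast
    exact pow_dvd_pow_of_dvd h1 2
  have hsc' : ∀ a : ℤ, ((M ^ 2 : ℕ) : ℤ) ∣ a - a₀ → Sc s₀ p a := fun a ha => (sc_congr s₀ p a a₀ (hsM2.trans ha)).2 hsc
  by_cases hex : ∃ t : ℤ, ((M ^ 2 : ℕ) : ℤ) ∣ t - a₀ ∧ CjG M m h G g.val (rd m (mt p (t, s₀, σ)))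
  · right
    obtain ⟨t, ht, hPt⟩ := hex
    have hL0 : 0 < Nat.lcm (M ^ 2) (m * s₀) := Nat.lcm_pos (pow_pos hM 2) (Nat.mul_pos hm hs0)
    obtain ⟨q, hq⟩ := Nat.dvd_lcm_left (M ^ 2) (m * s₀)
    have hq0 : 0 < q := by
      rcases Nat.eq_zero_or_pos q with h1 | h1
      · rw [hq, h1, mul_zero] at hL0
        exact absurd hL0 (lt_irrefl 0)
      · exact h1
    obtain ⟨k, hk⟩ := h
    have hqk : q ∣ k := by
      have h1 : Nat.lcm (M ^ 2) (m * s₀) ∣ M ^ 2 * k := by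
        refine Nat.lcm_dvd (dvd_mul_right _ _) ?_
        obtain ⟨c, hc⟩ := hs₀
        refine ⟨c, ?_⟩
        have h2 : M ^ 2 * k = M * (M * k) := by ring
        rw [h2, ← hk]
        nth_rewrite 1 [hc]
        ring
      rw [hq] at h1
      exact Nat.dvd_of_mul_dvd_mul_left (pow_pos hM 2) h1
    have hk0 : 0 < k := by
      rcases Nat.eq_zero_or_pos k with h1 | h1
      · rw [h1, mul_zero] at hk
        omega
      · exact h1
    have hss : s ∣ s₀ := by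
      have h1 := scm_cj_spkl m s hs g.val (rd m (mt p (t, s₀, σ))) hg (cjG_cj M m _ G _ _ hPt)
      rw [rd_scm] at h1
      exact (mt_lv p s (t, s₀, σ) hs0 (hsc' t ht)).1 h1
    have hs1 : 0 < s := Nat.pos_of_dvd_of_pos hs hm
    have hsM : s ≤ M := Nat.le_of_dvd hM (hss.trans hs₀)
    refine ⟨q, t, hq0, ?_, ?_, ht, ?_⟩
    · rw [le_div_iff₀ (by exact_mod_cast hs1)]
      have h1 : q * s ≤ m := by
        rw [hk, mul_comm M k]
        exact Nat.mul_le_mul (Nat.le_of_dvd hk0 hqk) hsM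
      exact_mod_cast h1
    · exact hqk.trans ⟨M, by rw [hk, mul_comm]⟩
    · intro a ha
      have hat : ((M ^ 2 : ℕ) : ℤ) ∣ a - t := by
        have h1 := dvd_sub ha ht
        have h2 : a - a₀ - (t - a₀) = a - t := by ring
        rwa [h2] at h1
      constructor
      · intro hPa
        have h1 : Cj m g.val (rd m (Fc s₀ p t)) := (cj_conj m g.val (Fc s₀ p t) σ).1 (cjG_cj M m _ G _ _ hPt)
        have h2 : Cj m g.val (rd m (Fc s₀ p a)) := (cj_conj m g.val (Fc s₀ p a) σ).1 (cjG_cj M m _ G _ _ hPa)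
        have h3 := tr_spkl m s₀ p hm hs0m hs0 hpm t a (hsc' t ht) (hsc' a ha) (cj_two_spkl m _ _ _ h1 h2)
        rw [← hq]
        rw [Int.natCast_dvd] at hat h3 ⊢
        exact Nat.lcm_dvd hat h3
      · intro hd
        have h1 : ((m * s₀ : ℕ) : ℤ) ∣ a - t := by
          rw [← hq] at hd
          exact (Int.natCast_dvd_natCast.2 (Nat.dvd_lcm_right (M ^ 2) (m * s₀))).trans hd
        have h2 := fc_congr m s₀ p a t hs0 (hsc' a ha) (hsM2.trans hat) h1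
        have h3 : rd m (mt p (a, s₀, σ)) = rd m (mt p (t, s₀, σ)) := by
          unfold mt
          simp only
          rw [rd_mul, rd_mul, rd_mul, rd_mul, h2]
        rw [h3]
        exact hPt
  · left
    intro a ha hPa
    exact hex ⟨a, ha, hPa⟩

end Pool.Agent.JC
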